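import Pool.Agent.LibBE35E.T0
import Pool.Agent.LibSR85.B1
import Pool.Agent.LibSR85.P2
import Pool.Agent.LibSR85.P3
import Pool.Agent.LibSR85.N6

/-! Row A1 of BE35E (BE35, part E; architect helper85). Divergence of two geodesics with a common point. MEDIUM, 45 min.
Plan. Step 1: `‖u - u'‖ ≤ 16 * δ / |s|`. If `|s| / 8 < δ` this is clear from `‖u - u'‖ ≤ 2`. If `δ ≤ |s| / 8` put
`y = E x (s u)`, `y' = E x (s u')`; every `z` with `d y z ≤ d y y' ≤ δ` has `d x z ≥ 7 |s| / 8` (`d_E`, `d_tri`), so `x ≠ z` and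
`J x z ≥ sinh (a d) / a ≥ d x z ≥ 7 |s| / 8` (`J_low`, `Real.self_le_sinh_iff`), and `angle` (LibSR85/B1) with `o = x` gives
`‖di x y - di x y'‖ ≤ (8 / 7) δ / |s|`; `di x y = ± u`, `di x y' = ± u'` with the sign of `s` (`di_E`; for `s < 0` write `(s : ℂ) u = (-s) (-u)`).
Step 2: `u' = u * exp (θ I)` with `|θ| ≤ π / 2 * ‖u - u'‖` (`N6_theta` of LibSR85/N6, or `Complex.arg`; its import is allowed). The curve
`φ ↦ E x (t (u exp (φ I)))`, `φ ∈ [0, θ]`, has speed `|B x (u exp (φ I)) t| ≤ sinh (b |t|) / b` (`HG.E_u` with `w r = u exp (r I)`, `k = 1`, norms by `dr_norm`;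
for `t ≥ 0` the bound is `jac_upper` of A1 with `jac_B`, `k_cont`; for `t < 0` replace `u` by `-u` at the start of the proof, so assume `0 ≤ t`;
`t = 0` is trivial), so `len` (LibSR85/P2, constant bound) gives `d ≤ |θ| sinh (b t) / b ≤ (π / 2) * 16 (δ / |s|) * exp (b t) / (2 b)`,
and `4 π ≤ 16`. -/

open MeasureTheory Set Filter Topology
open scoped ContDiff ENNReal NNReal ComplexConjugate

namespace E35

open BGS (Pl Surface grid per)
open SR85

variable {Γ : Type} [Group Γ] [MulAction Γ Pl] {D : Set Pl} {G : Dat Γ}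
variable {a b r : ℝ} {Λ : ℕ}

/-- The angle, for `0 < s`. -/
private theorem A1_st1 (h : HG D G) (x : Pl) {u u' : ℂ} (hu : ‖u‖ = 1) (hu' : ‖u'‖ = 1) {s δ : ℝ}
    (hs : 0 < s) (hd : G.d (G.E x ((s : ℂ) * u)) (G.E x ((s : ℂ) * u')) ≤ δ) :
    ‖u - u'‖ ≤ 16 * (δ / s) := by
  have hδ : 0 ≤ δ := (norm_nonneg _).trans hd
  by_cases h8 : s / 8 < δ
  · have h1 : ‖u - u'‖ ≤ 2 := by
      have := norm_sub_le u u'
      rw [hu, hu'] at this
      linarith
    have h2 : 1 / 8 < δ / s := by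
      rw [lt_div_iff₀ hs]
      linarith
    linarith
  · push Not at h8
    have hxy : G.d x (G.E x ((s : ℂ) * u)) = s := by rw [d_E h x hu, abs_of_pos hs]
    have h1 := angle h x (G.E x ((s : ℂ) * u)) (G.E x ((s : ℂ) * u')) (j := 7 * s / 8)
      (by positivity) (by
        intro z hz
        have h2 : 7 * s / 8 ≤ G.d x z := by
          have h3 := h.d_tri x z (G.E x ((s : ℂ) * u))
          rw [hxy, h.d_symm z] at h3
          linarith
        have h4 : z ≠ x := by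
          rintro rfl
          rw [d_self h] at h2
          linarith
        refine ⟨h4, ?_⟩
        have h5 := J_low h h4.symm
        have h6 : G.a * G.d x z ≤ Real.sinh (G.a * G.d x z) :=
          Real.self_le_sinh_iff.2 (mul_nonneg h.a_pos.le (by linarith))
        have h7 : G.d x z ≤ Real.sinh (G.a * G.d x z) / G.a := by
          rw [le_div_iff₀ h.a_pos]
          linarith
        linarith)
    rw [di_E h x hu hs, di_E h x hu' hs] at h1
    refine h1.trans ?_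
    rw [div_le_iff₀ (by positivity)]
    have h2 : 16 * (δ / s) * (7 * s / 8) = 14 * δ := by
      field_simp
      ring
    rw [h2]
    linarith

private theorem A1_neg (s : ℝ) (u : ℂ) : (s : ℂ) * u = ((-s : ℝ) : ℂ) * (-u) := by
  push_cast
  ring

private theorem A1_angle (h : HG D G) (x : Pl) {u u' : ℂ} (hu : ‖u‖ = 1) (hu' : ‖u'‖ = 1)
    {s δ : ℝ} (hs : s ≠ 0)
    (hd : G.d (G.E x ((s : ℂ) * u)) (G.E x ((s : ℂ) * u')) ≤ δ) :
    ‖u - u'‖ ≤ 16 * (δ / |s|) := by
  rcases hs.lt_or_gt with h0 | h0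
  · rw [A1_neg s u, A1_neg s u'] at hd
    have h1 := A1_st1 h x (by rwa [norm_neg]) (by rwa [norm_neg]) (neg_pos.2 h0) hd
    have h2 : -u - -u' = -(u - u') := by ring
    rw [h2, norm_neg] at h1
    rwa [abs_of_neg h0]
  · rw [abs_of_pos h0]
    exact A1_st1 h x hu hu' h0 hd

/-- The arc, for `0 < t`. -/
private theorem A1_arc (h : HG D G) (x : Pl) {u u' : ℂ} (hu : ‖u‖ = 1) (hu' : ‖u'‖ = 1) {t : ℝ}
    (ht : 0 < t) : G.d (G.E x ((t : ℂ) * u)) (G.E x ((t : ℂ) * u')) ≤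
      Real.pi / 2 * ‖u - u'‖ * (Real.sinh (G.b * t) / G.b) := by
  have hb : 0 < G.b := lt_of_lt_of_le h.a_pos h.ab
  have hu0 : u ≠ 0 := by
    rintro rfl
    rw [norm_zero] at hu
    exact one_ne_zero hu.symm
  obtain ⟨θ, hθ⟩ : ∃ θ, θ = Complex.arg (u' / u) := ⟨_, rfl⟩
  have hexp : Complex.exp ((θ : ℂ) * Complex.I) = u' / u := by
    have h1 := Complex.norm_mul_exp_arg_mul_I (u' / u)
    rw [norm_div, hu, hu', div_one, Complex.ofReal_one, one_mul, ← hθ] at h1
    exact h1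
  have hθ1 : |θ| ≤ Real.pi / 2 * ‖u - u'‖ := by
    have h1 := N6_theta (θ := θ) (by rw [hθ]; exact Complex.arg_mem_Ioc _)
    have h2 : ‖Complex.exp ((θ : ℂ) * Complex.I) - 1‖ = ‖u - u'‖ := by
      have h3 : u' / u - 1 = (u' - u) / u := by field_simp
      rw [hexp, h3, norm_div, hu, div_one, norm_sub_rev]
    rwa [h2] at h1
  have hw : ∀ r : ℝ, ‖u * Complex.exp ((r : ℂ) * Complex.I)‖ = 1 := by
    intro r
    rw [norm_mul, hu, one_mul, Complex.norm_exp_ofReal_mul_I]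
  have hwd : ∀ r : ℝ, HasDerivAt (fun r : ℝ => u * Complex.exp ((r : ℂ) * Complex.I))
      (Complex.I * (u * Complex.exp ((r : ℂ) * Complex.I)) * ((1 : ℝ) : ℂ)) r := by
    intro r
    have h1 : HasDerivAt (fun r : ℝ => (r : ℂ) * Complex.I) (1 * Complex.I) r :=
      (Complex.ofRealCLM.hasDerivAt (x := r)).mul_const Complex.I
    have h2 := (h1.cexp).const_mul u
    refine h2.congr_deriv ?_
    push_cast
    ring
  have hder : ∀ r : ℝ, ∃ p' : Pl, HasDerivAt
      (fun r : ℝ => G.E x ((t : ℂ) * (u * Complex.exp ((r : ℂ) * Complex.I)))) p' r ∧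
      ‖G.fi (G.E x ((t : ℂ) * (u * Complex.exp ((r : ℂ) * Complex.I)))) p'‖ ≤
        Real.sinh (G.b * t) / G.b := by
    intro r
    obtain ⟨p', hp1, hp2⟩ := h.E_u x t (fun r : ℝ => u * Complex.exp ((r : ℂ) * Complex.I)) r 1
      hw (hwd r)
    refine ⟨p', hp1, ?_⟩
    rw [hp2, norm_mul, norm_mul, Complex.norm_I, h.dr_norm x _ (hw r), mul_one, mul_one, mul_one,
      Complex.norm_real, Real.norm_eq_abs, abs_of_pos (B_pos h x (hw r) ht)]
    exact (jac_upper h.a_pos (k_cont h x _) (fun _ => h.K_le _) h.ab (fun _ => h.K_ge _)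
      (jac_B h x (hw r)) (h.B_zero x _ (hw r)) (h.Bd_zero x _ (hw r)) ht).2
  choose p' hp1 hp2 using hder
  have hc0 : 0 ≤ Real.sinh (G.b * t) / G.b :=
    div_nonneg (Real.sinh_nonneg_iff.2 (by positivity)) hb.le
  have he0 : G.E x ((t : ℂ) * (u * Complex.exp (((0 : ℝ) : ℂ) * Complex.I))) =
      G.E x ((t : ℂ) * u) := by
    rw [Complex.ofReal_zero, zero_mul, Complex.exp_zero, mul_one]
  have heθ : G.E x ((t : ℂ) * (u * Complex.exp ((θ : ℂ) * Complex.I))) =
      G.E x ((t : ℂ) * u') := by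
    rw [hexp, mul_div_cancel₀ _ hu0]
  have hmain : G.d (G.E x ((t : ℂ) * u)) (G.E x ((t : ℂ) * u')) ≤
      |θ| * (Real.sinh (G.b * t) / G.b) := by
    rcases le_total 0 θ with h0 | h0
    · have h1 := len h h0 (fun r _ => hp1 r) (fun _ => Real.sinh (G.b * t) / G.b)
        continuous_const (fun r _ => hp2 r)
      rw [intervalIntegral.integral_const, sub_zero, smul_eq_mul] at h1
      rw [abs_of_nonneg h0, ← he0, ← heθ]
      exact h1
    · have h1 := len h h0 (fun r _ => hp1 r) (fun _ => Real.sinh (G.b * t) / G.b)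
        continuous_const (fun r _ => hp2 r)
      rw [intervalIntegral.integral_const, zero_sub, smul_eq_mul] at h1
      rw [abs_of_nonpos h0, h.d_symm, ← he0, ← heθ]
      exact h1
  exact hmain.trans (mul_le_mul_of_nonneg_right hθ1 hc0)

theorem div1 (h : HG D G) (x : Pl) {u u' : ℂ} (hu : ‖u‖ = 1) (hu' : ‖u'‖ = 1) {s δ : ℝ}
    (hs : s ≠ 0) (hd : G.d (G.E x ((s : ℂ) * u)) (G.E x ((s : ℂ) * u')) ≤ δ) (t : ℝ) :
    G.d (G.E x ((t : ℂ) * u)) (G.E x ((t : ℂ) * u')) ≤
      16 / G.b * (δ / |s|) * Real.exp (G.b * |t|) := by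
  have hb : 0 < G.b := lt_of_lt_of_le h.a_pos h.ab
  have hδ : 0 ≤ δ := (norm_nonneg _).trans hd
  have hs' : 0 < |s| := abs_pos.2 hs
  have h1 := A1_angle h x hu hu' hs hd
  have key : ∀ {v v' : ℂ}, ‖v‖ = 1 → ‖v'‖ = 1 → ‖v - v'‖ ≤ 16 * (δ / |s|) → ∀ {t : ℝ}, 0 < t →
      G.d (G.E x ((t : ℂ) * v)) (G.E x ((t : ℂ) * v')) ≤
        16 / G.b * (δ / |s|) * Real.exp (G.b * t) := by
    intro v v' hv hv' hvv t ht
    refine (A1_arc h x hv hv' ht).trans ?_
    have h2 : Real.sinh (G.b * t) / G.b ≤ Real.exp (G.b * t) / (2 * G.b) := by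
      rw [Real.sinh_eq, div_div]
      exact div_le_div_of_nonneg_right (by linarith [Real.exp_pos (-(G.b * t))]) (by positivity)
    have h3 : 0 ≤ Real.sinh (G.b * t) / G.b :=
      div_nonneg (Real.sinh_nonneg_iff.2 (by positivity)) hb.le
    have h4 : Real.pi / 2 * ‖v - v'‖ ≤ 2 * (16 * (δ / |s|)) := by
      have h5 := Real.pi_le_four
      have h6 := norm_nonneg (v - v')
      have h7 := Real.pi_pos
      nlinarith
    refine (mul_le_mul h4 h2 h3 (by positivity)).trans (le_of_eq ?_)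
    field_simp
  rcases lt_trichotomy t 0 with h0 | h0 | h0
  · rw [A1_neg t u, A1_neg t u', abs_of_neg h0]
    refine key (by rwa [norm_neg]) (by rwa [norm_neg]) ?_ (neg_pos.2 h0)
    have h2 : -u - -u' = -(u - u') := by ring
    rwa [h2, norm_neg]
  · subst h0
    rw [Complex.ofReal_zero, zero_mul, zero_mul, h.E_zero, d_self h]
    positivity
  · rw [abs_of_pos h0]
    exact key hu hu' h1 h0

end E35
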