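import Pool.Agent.LibBE35E.A1

/-! Row A2 of BE35E (BE35, part E; architect helper85). Two geodesics which are close at two times. MEDIUM, 45 min.
Plan. `cross0`: put `x = pt p 0`, `y' = pt q s'`, `σ = d x y'`, so `|σ - s| ≤ δ`, `|σ - s'| ≤ δ` (`d_tri`, `d_pt`), `σ ≥ 7 s / 8 > 0`, `σ ≤ 9 / 8`.
`e t := E x (t (di x y'))`, so `e σ = y'` (`E_di`). `d (pt p s) (e s) ≤ d (pt p s) y' + |σ - s| ≤ 2 δ` (`d_geo`); `div1` at `x` gives
`d (pt p t) (e t) ≤ 16 / b (2 δ / s) exp (b |t|)` for all `t`. At `y'`: `e (σ + τ) = E y' (τ v₁)`, `pt q (s' + τ) = E y' (τ v₂)` with unit `v₁ = dr x (di x y') σ`,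
`v₂ = dr q.1 q.2 s'` (`HG.flow`), and at `τ = - σ`: `d (e 0) (pt q (s' - σ)) ≤ d x (pt q 0) + |s' - σ| ≤ 2 δ`; `div1` gives
`d (e (σ + τ)) (pt q (s' + τ)) ≤ 16 / b (2 δ / σ) exp (b |τ|)`. For `t = σ + τ`: `d (e t) (pt q t) ≤ 16 / b (16 / 7) (δ / s) exp (b (|t| + 9 / 8)) + δ` (the last `δ`:
`pt q (s' + τ)` and `pt q t` differ by `|s' - σ|`). Sum: `(δ / s) exp (b |t|) (32 / b + 256 / 7 / b * exp (9 b / 8) + 1) ≤ cx b (δ / s) exp (b |t|)`
since `1 ≤ exp (2 b)`, `s ≤ 1`. `cross`: apply `cross0` to `phi G t1 p` and to `phi G t1' q` if `t1' < t2'` (`e = 1`), to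
`rv (phi G t1' q)` if `t2' < t1'` (`e = -1`), `s = t2 - t1`, `s' = |t2' - t1'|` (`pt_phi`, `pt_rv`, `phi_unit`, `rv_unit`); `t1' = t2'` is impossible since then
`t2 - t1 ≤ 2 δ`. -/

open MeasureTheory Set Filter Topology
open scoped ContDiff ENNReal NNReal ComplexConjugate

namespace E35

open BGS (Pl Surface grid per)
open SR85

variable {Γ : Type} [Group Γ] [MulAction Γ Pl] {D : Set Pl} {G : Dat Γ}
variable {a b r : ℝ} {Λ : ℕ}

theorem cx_pos {b : ℝ} (hb : 0 < b) : 1 ≤ cx b := by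
  unfold cx
  have : 0 ≤ 80 / b * Real.exp (2 * b) := by positivity
  linarith

theorem cross0 (h : HG D G) {p q : Pl × ℂ} (hp : ‖p.2‖ = 1) (hq : ‖q.2‖ = 1) {s s' δ : ℝ}
    (hs : 0 < s) (hs1 : s ≤ 1) (hs' : 0 < s') (hδ : δ ≤ s / 8)
    (h0 : G.d (pt G p 0) (pt G q 0) ≤ δ) (h1 : G.d (pt G p s) (pt G q s') ≤ δ) (t : ℝ) :
    G.d (pt G p t) (pt G q t) ≤ cx G.b * (δ / s) * Real.exp (G.b * |t|) := by
  have hb : 0 < G.b := h.a_pos.trans_le h.ab
  have hd0 : ∀ y z, 0 ≤ G.d y z := fun y z => norm_nonneg _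
  have hδ0 : 0 ≤ δ := (hd0 _ _).trans h0
  have hx : pt G p 0 = p.1 := pt_zero h p
  obtain ⟨y', hy'⟩ : ∃ y', y' = pt G q s' := ⟨_, rfl⟩
  rw [← hy'] at h1
  obtain ⟨σ, hσ⟩ : ∃ σ, σ = G.d p.1 y' := ⟨_, rfl⟩
  have e1 : G.d p.1 (pt G p s) = s := by
    rw [← hx, d_pt h hp, sub_zero, abs_of_pos hs]
  have e2 : G.d (pt G q 0) y' = s' := by
    rw [hy', d_pt h hq, sub_zero, abs_of_pos hs']
  have a1 : |σ - s| ≤ δ := by
    rw [abs_le]
    constructor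
    · have := h.d_tri p.1 y' (pt G p s)
      rw [e1, ← hσ, h.d_symm y'] at this
      linarith
    · have := h.d_tri p.1 (pt G p s) y'
      rw [e1, ← hσ] at this
      linarith
  have a2 : |s' - σ| ≤ δ := by
    rw [hx] at h0
    rw [abs_le]
    constructor
    · have := h.d_tri p.1 (pt G q 0) y'
      rw [e2, ← hσ] at this
      linarith
    · have := h.d_tri (pt G q 0) p.1 y'
      rw [e2, ← hσ, h.d_symm (pt G q 0)] at this
      linarith
  obtain ⟨a3, a4⟩ := abs_le.1 a1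
  have hσ1 : 7 * s / 8 ≤ σ := by linarith
  have hσ0 : 0 < σ := by linarith
  have hσ2 : σ ≤ 9 / 8 := by linarith
  have hne : p.1 ≠ y' := by
    intro h2
    rw [hσ, ← h2, d_self h] at hσ0
    exact lt_irrefl _ hσ0
  obtain ⟨u1, hu1⟩ : ∃ u1, u1 = G.di p.1 y' := ⟨_, rfl⟩
  have hu1n : ‖u1‖ = 1 := by
    rw [hu1]
    exact di_norm h hne
  have he : G.E p.1 ((σ : ℂ) * u1) = y' := by
    rw [hσ, hu1]
    exact E_di h _ _
  -- first comparison
  have b1 : G.d (G.E p.1 ((s : ℂ) * p.2)) (G.E p.1 ((s : ℂ) * u1)) ≤ 2 * δ := by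
    have h2 := h.d_tri (pt G p s) y' (G.E p.1 ((s : ℂ) * u1))
    have h3 : G.d y' (G.E p.1 ((s : ℂ) * u1)) = |s - σ| := by
      conv_lhs => rw [← he]
      exact d_geo h p.1 hu1n σ s
    rw [h3, abs_sub_comm] at h2
    have h4 : G.d (G.E p.1 ((s : ℂ) * p.2)) (G.E p.1 ((s : ℂ) * u1)) =
        G.d (pt G p s) (G.E p.1 ((s : ℂ) * u1)) := rfl
    rw [h4]
    linarith
  have b2 := div1 h p.1 hp hu1n hs.ne' b1 t
  rw [abs_of_pos hs] at b2
  -- second comparison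
  have c0 : ∀ τ : ℝ, G.E y' ((τ : ℂ) * G.dr p.1 u1 σ) = G.E p.1 (((σ + τ : ℝ) : ℂ) * u1) := by
    intro τ
    have h2 := h.flow p.1 u1 hu1n σ τ
    rwa [he] at h2
  have c1 : ∀ τ : ℝ, G.E y' ((τ : ℂ) * G.dr q.1 q.2 s') = pt G q (s' + τ) := by
    intro τ
    have h2 := h.flow q.1 q.2 hq s' τ
    rw [hy']
    exact h2
  have c2 : G.d (G.E y' (((-σ : ℝ) : ℂ) * G.dr p.1 u1 σ))
      (G.E y' (((-σ : ℝ) : ℂ) * G.dr q.1 q.2 s')) ≤ 2 * δ := by
    rw [c0, c1, add_neg_cancel, Complex.ofReal_zero, zero_mul, h.E_zero]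
    have h2 := h.d_tri p.1 (pt G q 0) (pt G q (s' + -σ))
    rw [d_pt h hq, sub_zero, ← sub_eq_add_neg] at h2
    rw [hx] at h0
    rw [← sub_eq_add_neg]
    linarith
  have c3 := div1 h y' (h.dr_norm p.1 u1 hu1n σ) (h.dr_norm q.1 q.2 hq s')
    (neg_ne_zero.2 hσ0.ne') c2 (t - σ)
  rw [c0, c1, abs_neg, abs_of_pos hσ0, add_sub_cancel] at c3
  have c4 : G.d (pt G q (s' + (t - σ))) (pt G q t) ≤ δ := by
    rw [d_pt h hq]
    have h2 : t - (s' + (t - σ)) = -(s' - σ) := by ring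
    rw [h2, abs_neg]
    exact a2
  have tri1 := h.d_tri (pt G p t) (G.E p.1 ((t : ℂ) * u1)) (pt G q t)
  have tri2 := h.d_tri (G.E p.1 ((t : ℂ) * u1)) (pt G q (s' + (t - σ))) (pt G q t)
  have b3 : G.d (pt G p t) (G.E p.1 ((t : ℂ) * u1)) ≤
      16 / G.b * (2 * δ / s) * Real.exp (G.b * |t|) := b2
  -- the estimates
  have hE : 1 ≤ Real.exp (G.b * |t|) := Real.one_le_exp (mul_nonneg hb.le (abs_nonneg t))
  have hE0 := Real.exp_pos (G.b * |t|)
  have hds : 0 ≤ δ / s := div_nonneg hδ0 hs.le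
  have f1 : δ ≤ (δ / s) * Real.exp (G.b * |t|) := by
    have h2 : δ ≤ δ / s := by
      rw [le_div_iff₀ hs]
      nlinarith
    nlinarith
  have f2 : 2 * δ / σ ≤ 16 / 7 * (δ / s) := by
    rw [div_le_iff₀ hσ0]
    have h2 : 16 / 7 * (δ / s) * (7 * s / 8) = 2 * δ := by
      field_simp
      ring
    calc 2 * δ = 16 / 7 * (δ / s) * (7 * s / 8) := h2.symm
      _ ≤ 16 / 7 * (δ / s) * σ := mul_le_mul_of_nonneg_left hσ1 (by positivity)
  have f3 : Real.exp (G.b * |t - σ|) ≤ Real.exp (G.b * |t|) * Real.exp (2 * G.b) := by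
    rw [← Real.exp_add]
    apply Real.exp_le_exp.2
    have h2 : |t - σ| ≤ |t| + σ := by
      have := abs_sub t σ
      rwa [abs_of_pos hσ0] at this
    nlinarith
  have f4 : 16 / G.b * (2 * δ / σ) * Real.exp (G.b * |t - σ|) ≤
      16 / G.b * (16 / 7 * (δ / s)) * (Real.exp (G.b * |t|) * Real.exp (2 * G.b)) := by
    have h2 : 0 ≤ 16 / G.b := by positivity
    refine mul_le_mul (mul_le_mul_of_nonneg_left f2 h2) f3 (Real.exp_pos _).le (by positivity)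
  have hE2 : 1 ≤ Real.exp (2 * G.b) := Real.one_le_exp (by linarith)
  have f5 : 16 / G.b * (2 * δ / s) * Real.exp (G.b * |t|) ≤
      16 / G.b * (2 * (δ / s)) * (Real.exp (G.b * |t|) * Real.exp (2 * G.b)) := by
    have h2 : 2 * δ / s = 2 * (δ / s) := by ring
    rw [h2]
    refine mul_le_mul_of_nonneg_left ?_ (by positivity)
    nlinarith
  have f6 : G.d (pt G p t) (pt G q t) ≤
      16 / G.b * (2 * (δ / s)) * (Real.exp (G.b * |t|) * Real.exp (2 * G.b)) +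
      (16 / G.b * (16 / 7 * (δ / s)) * (Real.exp (G.b * |t|) * Real.exp (2 * G.b)) +
        (δ / s) * Real.exp (G.b * |t|)) := by linarith
  refine f6.trans ?_
  unfold cx
  have f7 : (80 / G.b * Real.exp (2 * G.b) + 1) * (δ / s) * Real.exp (G.b * |t|) -
      (16 / G.b * (2 * (δ / s)) * (Real.exp (G.b * |t|) * Real.exp (2 * G.b)) +
      (16 / G.b * (16 / 7 * (δ / s)) * (Real.exp (G.b * |t|) * Real.exp (2 * G.b)) +
        (δ / s) * Real.exp (G.b * |t|))) =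
      (80 / 7) * (1 / G.b * (δ / s) * (Real.exp (G.b * |t|) * Real.exp (2 * G.b))) := by
    ring
  have f8 : 0 ≤ 1 / G.b * (δ / s) * (Real.exp (G.b * |t|) * Real.exp (2 * G.b)) := by positivity
  linarith

theorem cross (h : HG D G) {p q : Pl × ℂ} (hp : ‖p.2‖ = 1) (hq : ‖q.2‖ = 1)
    {t1 t2 t1' t2' δ : ℝ} (h12 : t1 < t2) (h21 : t2 - t1 ≤ 1) (hδ : δ ≤ (t2 - t1) / 8)
    (h1 : G.d (pt G p t1) (pt G q t1') ≤ δ) (h2 : G.d (pt G p t2) (pt G q t2') ≤ δ) :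
    ∃ e : ℝ, (e = 1 ∨ e = -1) ∧ ∀ t : ℝ, G.d (pt G p (t1 + t)) (pt G q (t1' + e * t)) ≤
      cx G.b * (δ / (t2 - t1)) * Real.exp (G.b * |t|) := by
  have e1 : pt G (phi G t1 p) 0 = pt G p t1 := by
    rw [pt_phi h hp, add_zero]
  have e2 : pt G (phi G t1 p) (t2 - t1) = pt G p t2 := by
    rw [pt_phi h hp, add_sub_cancel]
  rcases lt_trichotomy t1' t2' with hlt | heq | hgt
  · refine ⟨1, Or.inl rfl, fun t => ?_⟩
    have e3 : pt G (phi G t1' q) 0 = pt G q t1' := by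
      rw [pt_phi h hq, add_zero]
    have e4 : pt G (phi G t1' q) (t2' - t1') = pt G q t2' := by
      rw [pt_phi h hq, add_sub_cancel]
    have h3 := cross0 h (phi_unit h t1 hp) (phi_unit h t1' hq) (sub_pos.2 h12) h21
      (sub_pos.2 hlt) hδ (by rw [e1, e3]; exact h1) (by rw [e2, e4]; exact h2) t
    rw [pt_phi h hp, pt_phi h hq] at h3
    rw [one_mul]
    exact h3
  · exfalso
    subst heq
    have h3 := h.d_tri (pt G p t1) (pt G q t1') (pt G p t2)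
    rw [d_pt h hp, abs_of_pos (sub_pos.2 h12), h.d_symm (pt G q t1')] at h3
    linarith
  · refine ⟨-1, Or.inr rfl, fun t => ?_⟩
    have e3 : pt G (rv (phi G t1' q)) 0 = pt G q t1' := by
      rw [pt_rv, pt_phi h hq, neg_zero, add_zero]
    have e4 : pt G (rv (phi G t1' q)) (t1' - t2') = pt G q t2' := by
      rw [pt_rv, pt_phi h hq]
      congr 1
      ring
    have h3 := cross0 h (phi_unit h t1 hp) (rv_unit (phi_unit h t1' hq)) (sub_pos.2 h12) h21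
      (sub_pos.2 hgt) hδ (by rw [e1, e3]; exact h1) (by rw [e2, e4]; exact h2) t
    rw [pt_phi h hp, pt_rv, pt_phi h hq] at h3
    rw [neg_one_mul]
    exact h3

end E35
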