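import Pool.Agent.LibBE35E.A2

/-! Row A3 of BE35E (BE35, part E; architect helper85). Lines which follow each other. EASY (only `cross` is used), 30 min.
Plan. All four from `cross` (read it first). `blocked`: `cross` with `δ`, then for `t ∈ [s, s + 1]` write `t = t1 + (t - t1)`, `|t - t1| ≤ 1`, and `δ / (t2 - t1) ≤ δ / s0`.
`sync`: `Fl` at `t = s` and `t = s + 1` gives the two close points with `δ = ρ`, `t2 - t1 = 1`. `symm`: from `sync`; the points `pt q (u + e t)`, `t ∈ [0, 1]`,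
are the segment of `q` starting at `s' = u` (`e = 1`) or `s' = u - 1` (`e = -1`). `next`: by `sync` for `q` the points `pt q (u + e t)`, `t ∈ [1, 2]`, are within
`cx b ρ exp (2 b)` of `pt p (s + t)`, which is within `ρ` of the line `q'` (`Fl .. p q' (s + 1)`): `s' = u + 1` or `u - 2`; use `d_symm`, `d_tri`. -/

open MeasureTheory Set Filter Topology
open scoped ContDiff ENNReal NNReal ComplexConjugate

namespace E35

open BGS (Pl Surface grid per)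
open SR85

variable {Γ : Type} [Group Γ] [MulAction Γ Pl] {D : Set Pl} {G : Dat Γ}
variable {a b r : ℝ} {Λ : ℕ}

theorem blocked (h : HG D G) {p q : Pl × ℂ} (hp : ‖p.2‖ = 1) (hq : ‖q.2‖ = 1)
    {s s0 t1 t2 t1' t2' δ ρ : ℝ} (hs0 : 0 < s0) (h1s : s ≤ t1) (h2s : t2 ≤ s + 1)
    (h12 : s0 ≤ t2 - t1) (hδ : δ ≤ s0 / 8) (hδ0 : 0 ≤ δ)
    (h1 : G.d (pt G p t1) (pt G q t1') ≤ δ) (h2 : G.d (pt G p t2) (pt G q t2') ≤ δ)
    (hρ : cx G.b * (δ / s0) * Real.exp G.b ≤ ρ) : Fl G ρ p q s := by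
  have hb : 0 < G.b := lt_of_lt_of_le h.a_pos h.ab
  obtain ⟨e, -, he⟩ := cross h hp hq (by linarith : t1 < t2) (by linarith) (by linarith) h1 h2
  intro t ht
  refine ⟨t1' + e * (t - t1), ?_⟩
  have h3 := he (t - t1)
  rw [show t1 + (t - t1) = t by ring] at h3
  refine h3.trans (le_trans ?_ hρ)
  have hc := cx_pos hb
  have h4 : |t - t1| ≤ 1 := by
    rw [abs_le]
    constructor <;> linarith [ht.1, ht.2]
  have h5 : δ / (t2 - t1) ≤ δ / s0 := div_le_div_of_nonneg_left hδ0 hs0 h12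
  have h6 : Real.exp (G.b * |t - t1|) ≤ Real.exp G.b := by
    refine Real.exp_le_exp.2 ?_
    nlinarith
  have h7 : 0 ≤ δ / s0 := div_nonneg hδ0 hs0.le
  have h8 : cx G.b * (δ / (t2 - t1)) ≤ cx G.b * (δ / s0) :=
    mul_le_mul_of_nonneg_left h5 (by linarith)
  exact mul_le_mul h8 h6 (Real.exp_pos _).le (mul_nonneg (by linarith) h7)

theorem sync (h : HG D G) {p q : Pl × ℂ} (hp : ‖p.2‖ = 1) (hq : ‖q.2‖ = 1) {s ρ : ℝ}
    (hρ : ρ ≤ 1 / 8) (hf : Fl G ρ p q s) : ∃ u e : ℝ, (e = 1 ∨ e = -1) ∧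
      ∀ t : ℝ, G.d (pt G p (s + t)) (pt G q (u + e * t)) ≤ cx G.b * ρ * Real.exp (G.b * |t|) := by
  obtain ⟨u, h1⟩ := hf s ⟨le_refl _, by linarith⟩
  obtain ⟨u', h2⟩ := hf (s + 1) ⟨by linarith, le_refl _⟩
  obtain ⟨e, he, h3⟩ := cross h hp hq (by linarith : s < s + 1) (by linarith)
    (by rw [show s + 1 - s = (1 : ℝ) by ring]; exact hρ) h1 h2
  refine ⟨u, e, he, fun t => ?_⟩
  have h4 := h3 t
  rwa [show s + 1 - s = (1 : ℝ) by ring, div_one] at h4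

theorem A3_nonneg (G : Dat Γ) {ρ : ℝ} {p q : Pl × ℂ} {s : ℝ} (hf : Fl G ρ p q s) : 0 ≤ ρ := by
  obtain ⟨u, h1⟩ := hf s ⟨le_refl _, by linarith⟩
  exact (norm_nonneg _).trans h1

theorem symm (h : HG D G) {p q : Pl × ℂ} (hp : ‖p.2‖ = 1) (hq : ‖q.2‖ = 1) {s ρ : ℝ}
    (hρ : ρ ≤ 1 / 8) (hf : Fl G ρ p q s) : ∃ s' : ℝ, Fl G (cx G.b * ρ * Real.exp G.b) q p s' := by
  have hb : 0 < G.b := lt_of_lt_of_le h.a_pos h.ab
  have hρ0 := A3_nonneg G hf
  obtain ⟨u, e, he, h1⟩ := sync h hp hq hρ hf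
  have hc := cx_pos hb
  have key : ∀ t : ℝ, |t| ≤ 1 →
      G.d (pt G p (s + t)) (pt G q (u + e * t)) ≤ cx G.b * ρ * Real.exp G.b := by
    intro t ht
    refine (h1 t).trans ?_
    refine mul_le_mul_of_nonneg_left (Real.exp_le_exp.2 ?_) (mul_nonneg (by linarith) hρ0)
    nlinarith
  rcases he with rfl | rfl
  · refine ⟨u, fun t ht => ⟨s + (t - u), ?_⟩⟩
    have h2 := key (t - u) (by rw [abs_le]; constructor <;> linarith [ht.1, ht.2])
    rw [show u + 1 * (t - u) = t by ring] at h2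
    rw [h.d_symm]
    exact h2
  · refine ⟨u - 1, fun t ht => ⟨s + (u - t), ?_⟩⟩
    have h2 := key (u - t) (by rw [abs_le]; constructor <;> linarith [ht.1, ht.2])
    rw [show u + -1 * (u - t) = t by ring] at h2
    rw [h.d_symm]
    exact h2

theorem next (h : HG D G) {p q q' : Pl × ℂ} (hp : ‖p.2‖ = 1) (hq : ‖q.2‖ = 1) {s ρ : ℝ}
    (hρ : ρ ≤ 1 / 8) (hf : Fl G ρ p q s) (hf' : Fl G ρ p q' (s + 1)) :
    ∃ s' : ℝ, Fl G ((cx G.b * Real.exp (2 * G.b) + 1) * ρ) q q' s' := by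
  have hb : 0 < G.b := lt_of_lt_of_le h.a_pos h.ab
  have hρ0 := A3_nonneg G hf
  obtain ⟨u, e, he, h1⟩ := sync h hp hq hρ hf
  have hc := cx_pos hb
  have key : ∀ t : ℝ, 1 ≤ t → t ≤ 2 → ∃ t' : ℝ,
      G.d (pt G q (u + e * t)) (pt G q' t') ≤ (cx G.b * Real.exp (2 * G.b) + 1) * ρ := by
    intro t ht ht2
    obtain ⟨t', h3⟩ := hf' (s + t) ⟨by linarith, by linarith⟩
    refine ⟨t', (h.d_tri _ (pt G p (s + t)) _).trans ?_⟩
    have h4 := h1 t
    rw [h.d_symm] at h4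
    have h5 : cx G.b * ρ * Real.exp (G.b * |t|) ≤ cx G.b * ρ * Real.exp (2 * G.b) := by
      refine mul_le_mul_of_nonneg_left (Real.exp_le_exp.2 ?_) (mul_nonneg (by linarith) hρ0)
      rw [abs_of_pos (by linarith)]
      nlinarith
    nlinarith
  rcases he with rfl | rfl
  · refine ⟨u + 1, fun t ht => ?_⟩
    obtain ⟨t', h2⟩ := key (t - u) (by linarith [ht.1]) (by linarith [ht.2])
    rw [show u + 1 * (t - u) = t by ring] at h2
    exact ⟨t', h2⟩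
  · refine ⟨u - 2, fun t ht => ?_⟩
    obtain ⟨t', h2⟩ := key (u - t) (by linarith [ht.2]) (by linarith [ht.1])
    rw [show u + -1 * (u - t) = t by ring] at h2
    exact ⟨t', h2⟩

end E35
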