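import Pool.Agent.LibBE35E.T0
import Pool.Agent.LibSR85.B3
import Pool.Agent.LibSR85.N2
import Pool.Agent.LibSR85.B4

/-! Row A4 of BE35E (BE35, part E; architect helper85). Contraction, and lines at bounded distance are equal. MEDIUM, 60 min.
Plan. `contr2`: `η = d x' y' - d x y'`, `|η| ≤ d x x' ≤ m`. `contr` (LibSR85/B3) with `o = x` and `(y, y')` (needs `τ + d y y' ≤ d x y`) gives
`d (E x (τ di x y)) (E x (τ di x y')) ≤ m exp (-(a (d x y - m - τ)))`; `contr` with `o = y'` and `(x, x')`, at the time `σ = d x y' - τ ≥ 0` (needs `m ≤ τ`), gives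
`d (E y' (σ di y' x)) (E y' (σ di y' x')) ≤ m exp (-(a (τ - m)))`; `E y' (σ di y' x) = E x (τ di x y')` and
`E y' (σ di y' x') = E x' ((τ + η) di x' y')` by `B4_E` (LibSR85/B4: `E y ((d x y - τ) di y x) = E x (τ di x y)`; `x ≠ y'` since
`d x y' ≥ d x y - m ≥ τ > 0`; if `x' = y'` then ... `d x' y' = d x y' + η = 0`: here `σ + (τ + η) = 0`, treat this degenerate case by
`d (pt of [y', x] at σ) y' = σ`: in fact `x' = y'` forces `d x y' ≤ m ≤ τ`, so `σ = 0`, `τ = d x y'`, `τ + η = 0`, both points are `y'`).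
`contr_pt`: `x = pt p t1`, `y = pt p t2`, `x' = pt q t1'`, `y' = pt q t2'`; `di x y = dr p.1 p.2 t1`, `E x (τ di x y) = pt p (t1 + τ)` and
`E x' (τ di x' y') = pt q (t1' + e τ)`, `e` = sign of `t2' - t1'` (`di_E`, `HG.flow`, `pt_phi`, `pt_rv`).
`same_far`: fix `t`; for every large `T` take `t1 = t - T`, `t2 = t + T`: `contr_pt` with `τ = T` gives a point of the line `q` within
`2 m exp (a m) exp (-(a T))` of `pt p t` (take `m ≥ 1` w.l.o.g.). `N2_near` (LibSR85/N2) gives the point of the line `q` nearest to `pt p t`; its distance is `0`, so the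
points are equal (`d_pos`). `same_param`: choose `f` with `pt p t = pt q (f t)`; `|f t - f s| = |t - s|` (`d_pt`), so `f` is `f 0 + t` or `f 0 - t`
(first `f 1 = f 0 + e`, then for each `t` both `|f t - f 0| = |t|` and `|f t - f 1| = |t - 1|` decide the sign). `same_symm`: from `same_param`. -/

open MeasureTheory Set Filter Topology
open scoped ContDiff ENNReal NNReal ComplexConjugate

namespace E35

open BGS (Pl Surface grid per)
open SR85

variable {Γ : Type} [Group Γ] [MulAction Γ Pl] {D : Set Pl} {G : Dat Γ}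
variable {a b r : ℝ} {Λ : ℕ}

theorem contr2 (h : HG D G) (x y x' y' : Pl) {m : ℝ} (hm : 0 < m) (hx : G.d x x' ≤ m)
    (hy : G.d y y' ≤ m) : ∃ η : ℝ, |η| ≤ m ∧ ∀ τ : ℝ, m ≤ τ → τ + m ≤ G.d x y →
      G.d (G.E x ((τ : ℂ) * G.di x y)) (G.E x' (((τ + η : ℝ) : ℂ) * G.di x' y')) ≤
        m * Real.exp (G.a * m) *
          (Real.exp (-(G.a * τ)) + Real.exp (-(G.a * (G.d x y - τ)))) := by
  have ha := h.a_pos
  have hd0 : ∀ x y : Pl, 0 ≤ G.d x y := fun x y => norm_nonneg _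
  have t1 := h.d_tri x y y'
  have t2 := h.d_tri x y' y
  rw [h.d_symm y' y] at t2
  refine ⟨G.d x' y' - G.d x y', ?_, ?_⟩
  · have h1 := h.d_tri x x' y'
    have h2 := h.d_tri x' x y'
    rw [h.d_symm x' x] at h2
    rw [abs_le]
    constructor <;> linarith
  intro τ hτ hτd
  have hτ0 : 0 ≤ τ := hm.le.trans hτ
  have c1 := contr h x y y' hτ0 (by linarith)
  have c2 := contr h y' x x' (τ := G.d x y' - τ) (by linarith) (by
    rw [h.d_symm y' x]
    linarith)
  have hxy' : x ≠ y' := by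
    intro e
    rw [← e] at t2 hy
    rw [d_self h] at t2
    linarith
  rw [B4_E h hxy', h.d_symm y' x] at c2
  have e1 : G.E y' (((G.d x y' - τ : ℝ) : ℂ) * G.di y' x') =
      G.E x' (((τ + (G.d x' y' - G.d x y') : ℝ) : ℂ) * G.di x' y') := by
    by_cases hxy : x' = y'
    · have h0 : G.di y' y' = 0 := by
        unfold Dat.di un
        rw [V_self h, zero_div]
      rw [hxy, h0, mul_zero, mul_zero]
    · rw [← B4_E h hxy]
      congr 3
      ring
  rw [e1] at c2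
  have b1 : G.d y y' * Real.exp (-(G.a * (G.d x y - G.d y y' - τ))) ≤
      m * Real.exp (G.a * m) * Real.exp (-(G.a * (G.d x y - τ))) := by
    rw [mul_assoc, ← Real.exp_add]
    refine mul_le_mul hy (Real.exp_le_exp.2 ?_) (Real.exp_pos _).le hm.le
    nlinarith
  have b2 : G.d x x' * Real.exp (-(G.a * (G.d x y' - G.d x x' - (G.d x y' - τ)))) ≤
      m * Real.exp (G.a * m) * Real.exp (-(G.a * τ)) := by
    rw [mul_assoc, ← Real.exp_add]
    refine mul_le_mul hx (Real.exp_le_exp.2 ?_) (Real.exp_pos _).le hm.le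
    nlinarith
  have t3 := h.d_tri (G.E x ((τ : ℂ) * G.di x y)) (G.E x ((τ : ℂ) * G.di x y'))
    (G.E x' (((τ + (G.d x' y' - G.d x y') : ℝ) : ℂ) * G.di x' y'))
  rw [mul_add]
  linarith

theorem contr_pt (h : HG D G) {p q : Pl × ℂ} (hp : ‖p.2‖ = 1) (hq : ‖q.2‖ = 1)
    {t1 t2 t1' t2' m : ℝ} (hm : 0 < m) (h12 : 2 * m < t2 - t1)
    (h1 : G.d (pt G p t1) (pt G q t1') ≤ m) (h2 : G.d (pt G p t2) (pt G q t2') ≤ m) :
    ∃ η e : ℝ, |η| ≤ m ∧ (e = 1 ∨ e = -1) ∧ ∀ τ : ℝ, m ≤ τ → τ + m ≤ t2 - t1 →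
      G.d (pt G p (t1 + τ)) (pt G q (t1' + e * (τ + η))) ≤ m * Real.exp (G.a * m) *
        (Real.exp (-(G.a * τ)) + Real.exp (-(G.a * (t2 - t1 - τ)))) := by
  have dd : G.d (pt G p t1) (pt G p t2) = t2 - t1 := by
    rw [d_pt h hp, abs_of_pos (by linarith)]
  obtain ⟨η, hη, hc⟩ := contr2 h (pt G p t1) (pt G p t2) (pt G q t1') (pt G q t2') hm h1 h2
  have hv : ‖G.dr p.1 p.2 t1‖ = 1 := h.dr_norm p.1 p.2 hp t1
  have hw : ‖G.dr q.1 q.2 t1'‖ = 1 := h.dr_norm q.1 q.2 hq t1'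
  have g1 : ∀ τ : ℝ, pt G p (t1 + τ) = G.E (pt G p t1) ((τ : ℂ) * G.dr p.1 p.2 t1) :=
    fun τ => (h.flow p.1 p.2 hp t1 τ).symm
  have g2 : ∀ τ : ℝ, pt G q (t1' + τ) = G.E (pt G q t1') ((τ : ℂ) * G.dr q.1 q.2 t1') :=
    fun τ => (h.flow q.1 q.2 hq t1' τ).symm
  have g3 : ∀ τ : ℝ, pt G q (t1' - τ) = G.E (pt G q t1') ((τ : ℂ) * (-G.dr q.1 q.2 t1')) :=
    fun τ => (E_rev h q.1 hq t1' τ).symm
  have di1 : G.di (pt G p t1) (pt G p t2) = G.dr p.1 p.2 t1 := by
    have h3 := g1 (t2 - t1)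
    rw [add_sub_cancel] at h3
    rw [h3]
    exact di_E h _ hv (by linarith)
  rw [di1, dd] at hc
  rcases lt_trichotomy t1' t2' with hcc | hcc | hcc
  · have di2 : G.di (pt G q t1') (pt G q t2') = G.dr q.1 q.2 t1' := by
      have h3 := g2 (t2' - t1')
      rw [add_sub_cancel] at h3
      rw [h3]
      exact di_E h _ hw (by linarith)
    rw [di2] at hc
    refine ⟨η, 1, hη, Or.inl rfl, fun τ h3 h4 => ?_⟩
    have h5 := hc τ h3 h4
    rw [← g1, ← g2] at h5
    rw [one_mul]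
    exact h5
  · exfalso
    have h4 := h.d_tri (pt G p t1) (pt G q t1') (pt G p t2)
    rw [hcc, h.d_symm (pt G q t2')] at h4
    rw [hcc] at h1
    linarith
  · have di2 : G.di (pt G q t1') (pt G q t2') = -G.dr q.1 q.2 t1' := by
      have h3 := g3 (t1' - t2')
      rw [sub_sub_cancel] at h3
      rw [h3]
      exact di_E h _ (by rw [norm_neg]; exact hw) (by linarith)
    rw [di2] at hc
    refine ⟨η, -1, hη, Or.inr rfl, fun τ h3 h4 => ?_⟩
    have h5 := hc τ h3 h4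
    rw [← g1, ← g3] at h5
    have h6 : t1' + -1 * (τ + η) = t1' - (τ + η) := by ring
    rw [h6]
    exact h5

theorem same_far (h : HG D G) {p q : Pl × ℂ} (hp : ‖p.2‖ = 1) (hq : ‖q.2‖ = 1) {m : ℝ}
    (hf : ∀ t : ℝ, ∃ t' : ℝ, G.d (pt G p t) (pt G q t') ≤ m) : Same G p q := by
  have ha := h.a_pos
  intro t
  obtain ⟨s, hs⟩ := N2_near h q.1 hq (pt G p t)
  refine ⟨s, ?_⟩
  by_contra hne
  have hpos := d_pos h hne
  obtain ⟨M, hM⟩ : ∃ M, M = max m 1 := ⟨_, rfl⟩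
  have hM0 : 0 < M := by rw [hM]; exact lt_of_lt_of_le one_pos (le_max_right _ _)
  have hmM : m ≤ M := by rw [hM]; exact le_max_left _ _
  have key : ∀ T : ℝ, M < T → G.d (pt G p t) (pt G q s) ≤
      M * Real.exp (G.a * M) * (2 * Real.exp (-(G.a * T))) := by
    intro T hT
    obtain ⟨t1', h1⟩ := hf (t - T)
    obtain ⟨t2', h2⟩ := hf (t + T)
    obtain ⟨η, e, -, -, h3⟩ := contr_pt h hp hq hM0 (by linarith) (h1.trans hmM) (h2.trans hmM)
    have h4 := h3 T hT.le (by linarith)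
    have h5 : t - T + T = t := by ring
    have h6 : t + T - (t - T) - T = T := by ring
    rw [h5, h6, ← two_mul] at h4
    exact (hs _).trans h4
  have hlim : Tendsto (fun T : ℝ => M * Real.exp (G.a * M) * (2 * Real.exp (-(G.a * T))))
      atTop (𝓝 (M * Real.exp (G.a * M) * (2 * 0))) := by
    refine Tendsto.const_mul _ (Tendsto.const_mul _ ?_)
    refine Real.tendsto_exp_atBot.comp ?_
    exact tendsto_neg_atTop_atBot.comp (tendsto_id.const_mul_atTop ha)
  rw [mul_zero, mul_zero] at hlim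
  have h1 := ge_of_tendsto hlim (eventually_atTop.2 ⟨M + 1, fun T hT => key T (by linarith)⟩)
  exact absurd hpos (not_lt.2 h1)

theorem same_param (h : HG D G) {p q : Pl × ℂ} (hp : ‖p.2‖ = 1) (hq : ‖q.2‖ = 1)
    (hs : Same G p q) : ∃ u e : ℝ, (e = 1 ∨ e = -1) ∧ ∀ t : ℝ, pt G p t = pt G q (u + e * t) := by
  choose f hf using hs
  have h1 : ∀ s t : ℝ, |f t - f s| = |t - s| := by
    intro s t
    rw [← d_pt h hq, ← hf, ← hf, d_pt h hp]
  have h2 := h1 0 1
  rw [sub_zero, abs_one] at h2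
  have he : f 1 - f 0 = 1 ∨ f 1 - f 0 = -1 := eq_or_eq_neg_of_abs_eq h2
  refine ⟨f 0, f 1 - f 0, he, fun t => ?_⟩
  rw [hf t]
  congr 1
  have h3 := congrArg (· ^ 2) (h1 0 t)
  have h4 := congrArg (· ^ 2) (h1 1 t)
  simp only [sq_abs, sub_zero] at h3 h4
  rcases he with he | he
  · have h5 : f 1 = f 0 + 1 := by linarith
    rw [he]
    rw [h5] at h4
    nlinarith
  · have h5 : f 1 = f 0 - 1 := by linarith
    rw [he]
    rw [h5] at h4
    nlinarith

theorem same_symm (h : HG D G) {p q : Pl × ℂ} (hp : ‖p.2‖ = 1) (hq : ‖q.2‖ = 1)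
    (hs : Same G p q) : Same G q p := by
  obtain ⟨u, e, he, h1⟩ := same_param h hp hq hs
  intro t
  refine ⟨e * (t - u), ?_⟩
  rw [h1]
  congr 1
  rcases he with rfl | rfl
  · ring
  · ring

end E35
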