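import Pool.Agent.LibBE35E.A4

/-! Row A5 of BE35E (BE35, part E; architect helper85). The same line and the same primitive class. MEDIUM, 60 min.
Plan. `same_root`: let `k = γ * g0 c' * γ⁻¹`, `q = act γ (tv c')`, so `k • pt q t = pt q (t + l0 c')` (`pt_act`, `g0_pt`). With `same_param` (for `tv c` and `q`, both
directions) `k` maps `pt (tv c) t` to `pt (tv c) (t + e l0 c')`, `e = ±1`. So `k * rep c` and `rep c * k` agree on `pt (tv c) 0`; by `sys_eq` they are equal, so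
`k ∈ zpowers (g0 c)` (`Cl.cent`): `k = g0 c ^ i`, and `g0_zpow`, `d_pt` give `e l0 c' = i l0 c`. In the same way
`γ⁻¹ * g0 c * γ = g0 c' ^ j` and `e' l0 c = j l0 c'`. So `|i| |j| = 1`, `i = ±1`, `l0 c = l0 c'`. `Rel` follows with
`ConjClasses.mk_eq_mk_iff_isConj`, `isConj_iff`. `rel_same`: `g0 c = γ * g0 c' * γ⁻¹` or `= γ * (g0 c')⁻¹ * γ⁻¹` (for the second use the axis `rv (tv c')` of
`(g0 c')⁻¹`: `(g0 c')⁻¹ • pt (tv c') t = pt (tv c') (t - l0)`); `ax_unique` (LibSR85/N7) for `g0 c` with the axes `ax0 c` and `ax_conj .. (ax0 c') γ`.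
(The structure `Ax G (g0 c')⁻¹ x0 (-u0) l0`: `nu`, `pos`, `tr` by `rep`-like computation, `mn` : `d x (g⁻¹ x) = d (g x) x`.) `Rel_equiv`: `Rel` is an equivalence on classes. -/

open MeasureTheory Set Filter Topology
open scoped ContDiff ENNReal NNReal ComplexConjugate

namespace E35

open BGS (Pl Surface grid per)
open SR85

variable {Γ : Type} [Group Γ] [MulAction Γ Pl] {D : Set Pl} {G : Dat Γ}
variable {a b r : ℝ} {Λ : ℕ}

private lemma A5_half (hU : UC D a b r Λ G) (M : Cl G) {c c' : ConjClasses Γ} (hc : c ≠ 1)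
    (hc' : c' ≠ 1) {γ : Γ} {u e : ℝ} (he : e * e = 1)
    (hpar : ∀ t : ℝ, pt G (tv M c) t = pt G (act G γ (tv M c')) (u + e * t)) :
    ∃ i : ℤ, γ * M.g0 c' * γ⁻¹ = M.g0 c ^ i ∧ e * M.l0 c' = i * M.l0 c := by
  have h := hU.hg
  have hk : ∀ t : ℝ, (γ * M.g0 c' * γ⁻¹) • pt G (tv M c) t = pt G (tv M c) (t + e * M.l0 c') := by
    intro t
    rw [hpar, pt_act h, mul_smul, mul_smul, inv_smul_smul, g0_pt M hc', hpar, pt_act h]
    congr 2
    calc u + e * t + M.l0 c' = u + e * t + (e * e) * M.l0 c' := by rw [he, one_mul]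
      _ = u + e * (t + e * M.l0 c') := by ring
  have hcomm : (γ * M.g0 c' * γ⁻¹) * M.rep c = M.rep c * (γ * M.g0 c' * γ⁻¹) := by
    apply sys_eq hU (x := pt G (tv M c) 0)
    rw [mul_smul _ (M.rep c), rep_pt M hc, hk, mul_smul (M.rep c), hk, rep_pt M hc]
    have h1 : (0 : ℝ) + M.l c + e * M.l0 c' = 0 + e * M.l0 c' + M.l c := by ring
    rw [h1, d_self h]
    exact hU.r_pos
  obtain ⟨i, hi⟩ := Subgroup.mem_zpowers_iff.1 ((M.cent c hc _).1 hcomm)
  refine ⟨i, hi.symm, ?_⟩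
  have h2 := hk 0
  rw [← hi, g0_zpow M hc] at h2
  have h3 := d_pt h (tv_unit M hc) (0 + (i : ℝ) * M.l0 c) (0 + e * M.l0 c')
  rw [h2, d_self h] at h3
  have h4 := abs_eq_zero.1 h3.symm
  linarith

theorem same_root (hU : UC D a b r Λ G) (M : Cl G) {c c' : ConjClasses Γ} (hc : c ≠ 1)
    (hc' : c' ≠ 1) {γ : Γ} (hs : Same G (tv M c) (act G γ (tv M c'))) :
    M.l0 c = M.l0 c' ∧ Rel M c c' := by
  have h := hU.hg
  obtain ⟨u, e, he, hpar⟩ := same_param h (tv_unit M hc) (act_unit h γ (tv_unit M hc')) hs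
  have hee : e * e = 1 := by rcases he with rfl | rfl <;> norm_num
  obtain ⟨i, hi, hil⟩ := A5_half hU M hc hc' hee hpar
  obtain ⟨j, hj, hjl⟩ := A5_half hU M (γ := γ⁻¹) (u := -(e * u)) hc' hc hee (by
    intro t
    rw [pt_act h, hpar, pt_act h, inv_smul_smul]
    congr 1
    calc t = (e * e) * t + u - (e * e) * u := by rw [hee]; ring
      _ = u + e * (-(e * u) + e * t) := by ring)
  have hl := l0_pos M hc
  have hl' := l0_pos M hc'
  have hij : i * j = 1 := by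
    have h1 : ((i * j : ℤ) : ℝ) * M.l0 c' = 1 * M.l0 c' := by
      push_cast
      calc (i : ℝ) * j * M.l0 c' = i * (j * M.l0 c') := by ring
        _ = i * (e * M.l0 c) := by rw [← hjl]
        _ = e * (i * M.l0 c) := by ring
        _ = e * (e * M.l0 c') := by rw [← hil]
        _ = (e * e) * M.l0 c' := by ring
        _ = 1 * M.l0 c' := by rw [hee]
    have h2 := mul_right_cancel₀ hl'.ne' h1
    exact_mod_cast h2
  have hi1 : i = 1 ∨ i = -1 := by
    rcases Int.mul_eq_one_iff_eq_one_or_neg_one.1 hij with h1 | h1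
    · exact Or.inl h1.1
    · exact Or.inr h1.1
  constructor
  · have h1 : |e * M.l0 c'| = |(i : ℝ) * M.l0 c| := by rw [hil]
    rw [abs_mul, abs_mul, abs_of_pos hl, abs_of_pos hl'] at h1
    have h2 : |e| = 1 := by rcases he with rfl | rfl <;> norm_num
    have h3 : |(i : ℝ)| = 1 := by rcases hi1 with rfl | rfl <;> norm_num
    rw [h2, h3, one_mul, one_mul] at h1
    exact h1.symm
  · rcases hi1 with rfl | rfl
    · left
      rw [zpow_one] at hi
      exact (ConjClasses.mk_eq_mk_iff_isConj.2 (isConj_iff.2 ⟨γ, hi⟩)).symm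
    · right
      rw [zpow_neg_one] at hi
      refine (ConjClasses.mk_eq_mk_iff_isConj.2 (isConj_iff.2 ⟨γ, ?_⟩)).symm
      have h1 := congrArg (fun z => z⁻¹) hi
      simp only [inv_inv] at h1
      rw [← h1]
      group

private lemma A5_inv (hU : UC D a b r Λ G) (M : Cl G) {c : ConjClasses Γ} (hc : c ≠ 1) :
    Ax G (M.g0 c)⁻¹ (M.x0 c) (-M.u0 c) (M.l0 c) := by
  have h := hU.hg
  refine ⟨?_, l0_pos M hc, ?_, ?_⟩
  · rw [norm_neg]
    exact tv_unit M hc
  · intro s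
    have h1 := g0_zpow M hc (-1) (-s)
    rw [zpow_neg_one] at h1
    have h2 : ∀ t : ℝ, G.E (M.x0 c) ((t : ℂ) * -M.u0 c) = pt G (tv M c) (-t) := by
      intro t
      exact pt_rv (tv M c) t
    rw [h2, h2, h1]
    congr 1
    push_cast
    ring
  · intro x
    have h1 := (M.ax0 c hc).mn x
    rw [← d_smul h (M.g0 c) x, smul_inv_smul, h.d_symm]
    exact h1

omit [MulAction Γ Pl] in
private lemma A5_conj {x y : Γ} (hxy : ConjClasses.mk x = ConjClasses.mk y) :
    ConjClasses.mk x⁻¹ = ConjClasses.mk y⁻¹ := by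
  obtain ⟨g, hg⟩ := isConj_iff.1 (ConjClasses.mk_eq_mk_iff_isConj.1 hxy)
  refine ConjClasses.mk_eq_mk_iff_isConj.2 (isConj_iff.2 ⟨g, ?_⟩)
  rw [← hg]
  group

theorem rel_same (hU : UC D a b r Λ G) (M : Cl G) {c c' : ConjClasses Γ} (hc : c ≠ 1)
    (hc' : c' ≠ 1) (hr : Rel M c c') : ∃ γ : Γ, Same G (tv M c) (act G γ (tv M c')) := by
  have h := hU.hg
  rcases hr with hr | hr
  · obtain ⟨γ, hγ⟩ := isConj_iff.1 (ConjClasses.mk_eq_mk_iff_isConj.1 hr.symm)
    refine ⟨γ, ?_⟩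
    have h1 := (ax_conj hU.hX h (M.ax0 c' hc') γ).1
    rw [hγ] at h1
    obtain ⟨-, s₀, h2⟩ := ax_unique hU.hX h h1 (M.ax0 c hc)
    intro t
    exact ⟨t + s₀, h2 t⟩
  · obtain ⟨γ, hγ⟩ := isConj_iff.1 (ConjClasses.mk_eq_mk_iff_isConj.1 hr.symm)
    refine ⟨γ, ?_⟩
    have h1 := (ax_conj hU.hX h (A5_inv hU M hc') γ).1
    rw [hγ] at h1
    obtain ⟨-, s₀, h2⟩ := ax_unique hU.hX h h1 (M.ax0 c hc)
    intro t
    refine ⟨-(t + s₀), ?_⟩
    have h3 : pt G (tv M c) t = pt G (act G γ (rv (tv M c'))) (t + s₀) := h2 t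
    rw [h3, pt_act h, pt_act h, pt_rv]

theorem rel_equiv (M : Cl G) : Equivalence (Rel M) := by
  refine ⟨fun c => Or.inl rfl, ?_, ?_⟩
  · rintro c c' (h1 | h1)
    · exact Or.inl h1.symm
    · right
      have h2 := A5_conj h1
      rw [inv_inv] at h2
      exact h2.symm
  · rintro c c' c'' (h1 | h1) (h2 | h2)
    · exact Or.inl (h1.trans h2)
    · exact Or.inr (h1.trans h2)
    · exact Or.inr (h1.trans (A5_conj h2))
    · left
      have h3 := A5_conj h2
      rw [inv_inv] at h3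
      exact h1.trans h3

end E35
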