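import Pool.Agent.LibBE35E.A5

/-! Row A6 of BE35E (BE35, part E; architect helper85). The integral of an invariant function over the closed geodesic. MEDIUM, 45 min.
Plan. `f t = F (pt (tv c) t)` is continuous (`HG.E_cont`) and `f (t + l0 c) = f t` (`g0_pt`, invariance). `per_int`: `l c = n c * l0 c` (`l_eq`) and
`Function.Periodic.intervalIntegral_add_zsmul_eq`/`Function.Periodic.intervalIntegral_add_eq` (or induction on `n`). `same_int`: by `same_root`
`l0 c = l0 c'`; by `same_param` for `tv c'` and `act γ⁻¹ (tv c)`: `pt (tv c') t = γ⁻¹ • pt (tv c) (u + e t)`, so `F (pt (tv c') t) = f (u + e t)`, and the integral over one period of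
`t ↦ f (u + e t)` is that of `f` (substitution `intervalIntegral.integral_comp_add_mul`-like lemmas, `Function.Periodic.intervalIntegral_add_eq`). -/

open MeasureTheory Set Filter Topology
open scoped ContDiff ENNReal NNReal ComplexConjugate

namespace E35

open BGS (Pl Surface grid per)
open SR85

variable {Γ : Type} [Group Γ] [MulAction Γ Pl] {D : Set Pl} {G : Dat Γ}
variable {a b r : ℝ} {Λ : ℕ}

theorem A6_cont (h : HG D G) (p : Pl × ℂ) {F : Pl → ℝ} (hF : Continuous F) :
    Continuous fun t : ℝ => F (pt G p t) := by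
  unfold pt
  have h1 : Continuous fun t : ℝ => (p.1, (t : ℂ) * p.2) :=
    continuous_const.prodMk (Complex.continuous_ofReal.mul continuous_const)
  exact hF.comp (h.E_cont.comp h1)

theorem A6_per (M : Cl G) {c : ConjClasses Γ} (hc : c ≠ 1) {F : Pl → ℝ}
    (hi : ∀ (g : Γ) x, F (g • x) = F x) :
    Function.Periodic (fun t : ℝ => F (pt G (tv M c) t)) (M.l0 c) := by
  intro t
  simp only
  rw [← g0_pt M hc, hi]

theorem per_int (h : HG D G) (M : Cl G) {c : ConjClasses Γ} (hc : c ≠ 1) {F : Pl → ℝ}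
    (hF : Continuous F) (hi : ∀ (g : Γ) x, F (g • x) = F x) :
    ∫ t in (0 : ℝ)..M.l c, F (pt G (tv M c) t) =
      M.n c * ∫ t in (0 : ℝ)..M.l0 c, F (pt G (tv M c) t) := by
  have hc1 := A6_cont h (tv M c) hF
  have h1 := (A6_per M hc hi).intervalIntegral_add_zsmul_eq (M.n c : ℤ) 0
    fun t₁ t₂ => hc1.intervalIntegrable _ _
  rw [zero_add, zero_add, zsmul_eq_mul, zsmul_eq_mul, Int.cast_natCast, ← (l_eq h M hc).1] at h1
  exact h1

theorem same_int (hU : UC D a b r Λ G) (M : Cl G) {c c' : ConjClasses Γ} (hc : c ≠ 1)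
    (hc' : c' ≠ 1) {γ : Γ} (hs : Same G (tv M c) (act G γ (tv M c'))) {F : Pl → ℝ}
    (hF : Continuous F) (hi : ∀ (g : Γ) x, F (g • x) = F x) :
    ∫ t in (0 : ℝ)..M.l0 c', F (pt G (tv M c') t) =
      ∫ t in (0 : ℝ)..M.l0 c, F (pt G (tv M c) t) := by
  have h := hU.hg
  obtain ⟨hl, -⟩ := same_root hU M hc hc' hs
  obtain ⟨u, e, he, hp⟩ := same_param h (tv_unit M hc) (act_unit h γ (tv_unit M hc')) hs
  have hper := A6_per M hc' hi
  have h1 : ∀ t : ℝ, F (pt G (tv M c) t) = F (pt G (tv M c') (u + e * t)) := by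
    intro t
    rw [hp, pt_act h, hi]
  have h2 : ∫ t in (0 : ℝ)..M.l0 c, F (pt G (tv M c) t) =
      ∫ t in (0 : ℝ)..M.l0 c', F (pt G (tv M c') (u + e * t)) := by
    rw [hl]
    exact intervalIntegral.integral_congr fun t _ => h1 t
  rw [h2]
  rcases he with rfl | rfl
  · have h3 : ∫ t in (0 : ℝ)..M.l0 c', F (pt G (tv M c') (u + 1 * t)) =
        ∫ t in u..(u + M.l0 c'), F (pt G (tv M c') t) := by
      have h4 := intervalIntegral.integral_comp_add_left (a := 0) (b := M.l0 c')
        (fun t => F (pt G (tv M c') t)) u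
      rw [add_zero] at h4
      rw [← h4]
      simp only [one_mul]
    rw [h3]
    have h5 := hper.intervalIntegral_add_eq 0 u
    rw [zero_add] at h5
    exact h5
  · have h3 : ∫ t in (0 : ℝ)..M.l0 c', F (pt G (tv M c') (u + -1 * t)) =
        ∫ t in (u - M.l0 c')..u, F (pt G (tv M c') t) := by
      have h4 := intervalIntegral.integral_comp_sub_left (a := 0) (b := M.l0 c')
        (fun t => F (pt G (tv M c') t)) u
      rw [sub_zero] at h4
      rw [← h4]
      simp only [neg_mul, one_mul, ← sub_eq_add_neg]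
    rw [h3]
    have h5 := hper.intervalIntegral_add_eq 0 (u - M.l0 c')
    rw [zero_add, sub_add_cancel] at h5
    exact h5

end E35
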