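import Pool.Agent.LibBE35E.T0

/-! Row A7 of BE35E (BE35, part E; architect helper85). The lines of a class near a point. EASY-MEDIUM, 45 min.
Plan. `N` a natural number `≥ 2 Λ exp (3 Λ)`. For `m ∈ {0, ..., ⌊l⌋}` let `F m = {g | d z (g • pt (tv c) m) ≤ 3}`, finite with `ncard ≤ Λ exp (3 Λ)` (`cnt_all`); `F` is their union
(`Finset.biUnion` over `Finset.range (⌊l⌋₊ + 1)`), `card ≤ (l + 1) Λ exp (3 Λ)`. Given `γ, t'` with `d z (γ • pt (tv c) t') ≤ 2`: `k = ⌊t' / l⌋`, `t'' = t' - k l ∈ [0, l)`,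
`γ' = γ * rep c ^ k`, so `γ' • pt t'' = γ • pt t'` (`rep_zpow`), `m = ⌊t''⌋₊`, `d (γ' • pt t'') (γ' • pt m) ≤ 1` (`d_smul`, `d_pt`), so `γ' ∈ F m`, and
`γ = γ' * rep c ^ (-k)`. -/

open MeasureTheory Set Filter Topology
open scoped ContDiff ENNReal NNReal ComplexConjugate

namespace E35

open BGS (Pl Surface grid per)
open SR85

variable {Γ : Type} [Group Γ] [MulAction Γ Pl] {D : Set Pl} {G : Dat Γ}
variable {a b r : ℝ} {Λ : ℕ}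

theorem near_fin (D : Set Pl) (a b r : ℝ) (Λ : ℕ) : ∃ N : ℕ, ∀ G : Dat Γ, UC D a b r Λ G →
    ∀ (M : Cl G) (c : ConjClasses Γ), c ≠ 1 → ∀ z : Pl, ∃ F : Finset Γ,
      (F.card : ℝ) ≤ N * (1 + M.l c) ∧ ∀ (γ : Γ) (t' : ℝ), G.d z (γ • pt G (tv M c) t') ≤ 2 →
        ∃ γ' ∈ F, ∃ k : ℤ, γ = γ' * M.rep c ^ k := by
  classical
  refine ⟨⌈(Λ : ℝ) * Real.exp (Λ * 3)⌉₊, fun G hU M c hc z => ?_⟩
  have hcnt : ∀ m : ℕ, {g : Γ | G.d z (g • pt G (tv M c) m) ≤ 3}.Finite ∧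
      ({g : Γ | G.d z (g • pt G (tv M c) m) ≤ 3}.ncard : ℝ) ≤ Λ * Real.exp (Λ * 3) :=
    fun m => cnt_all hU (by norm_num) z _
  have hl := l_pos M hc
  refine ⟨(Finset.range (⌊M.l c⌋₊ + 1)).biUnion fun m => (hcnt m).1.toFinset, ?_, ?_⟩
  · have h1 : (((Finset.range (⌊M.l c⌋₊ + 1)).biUnion fun m => (hcnt m).1.toFinset).card : ℝ) ≤
        ∑ m ∈ Finset.range (⌊M.l c⌋₊ + 1), (((hcnt m).1.toFinset).card : ℝ) := by
      exact_mod_cast Finset.card_biUnion_le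
    have h2 : ∀ m ∈ Finset.range (⌊M.l c⌋₊ + 1), (((hcnt m).1.toFinset).card : ℝ) ≤
        (⌈(Λ : ℝ) * Real.exp (Λ * 3)⌉₊ : ℝ) := by
      intro m _
      have h3 := (hcnt m).2
      rw [Set.ncard_eq_toFinset_card _ (hcnt m).1] at h3
      exact h3.trans (Nat.le_ceil _)
    have h3 : (⌊M.l c⌋₊ : ℝ) ≤ M.l c := Nat.floor_le hl.le
    calc (((Finset.range (⌊M.l c⌋₊ + 1)).biUnion fun m => (hcnt m).1.toFinset).card : ℝ)
        ≤ ∑ m ∈ Finset.range (⌊M.l c⌋₊ + 1), (((hcnt m).1.toFinset).card : ℝ) := h1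
      _ ≤ ∑ m ∈ Finset.range (⌊M.l c⌋₊ + 1), (⌈(Λ : ℝ) * Real.exp (Λ * 3)⌉₊ : ℝ) :=
          Finset.sum_le_sum h2
      _ = ((⌊M.l c⌋₊ : ℝ) + 1) * (⌈(Λ : ℝ) * Real.exp (Λ * 3)⌉₊ : ℝ) := by
          rw [Finset.sum_const, Finset.card_range, nsmul_eq_mul]
          push_cast
          ring
      _ ≤ (1 + M.l c) * (⌈(Λ : ℝ) * Real.exp (Λ * 3)⌉₊ : ℝ) :=
          mul_le_mul_of_nonneg_right (by linarith) (Nat.cast_nonneg _)
      _ = _ := mul_comm _ _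
  · intro γ t' ht
    have hk0 : 0 ≤ t' - (⌊t' / M.l c⌋ : ℤ) * M.l c := Int.sub_floor_div_mul_nonneg t' hl
    have hk1 : t' - (⌊t' / M.l c⌋ : ℤ) * M.l c < M.l c := Int.sub_floor_div_mul_lt t' hl
    obtain ⟨k, hk⟩ : ∃ k : ℤ, k = ⌊t' / M.l c⌋ := ⟨_, rfl⟩
    obtain ⟨u, hu⟩ : ∃ u : ℝ, u = t' - (⌊t' / M.l c⌋ : ℤ) * M.l c := ⟨_, rfl⟩
    rw [← hu] at hk0 hk1
    have hu' : u + k * M.l c = t' := by
      rw [hu, hk]
      ring
    have hpt : (γ * M.rep c ^ k) • pt G (tv M c) u = γ • pt G (tv M c) t' := by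
      rw [mul_smul, rep_zpow M hc, hu']
    have hm0 : (⌊u⌋₊ : ℝ) ≤ u := Nat.floor_le hk0
    have hm1 : u < ⌊u⌋₊ + 1 := Nat.lt_floor_add_one u
    refine ⟨γ * M.rep c ^ k, ?_, -k, ?_⟩
    · rw [Finset.mem_biUnion]
      refine ⟨⌊u⌋₊, ?_, ?_⟩
      · rw [Finset.mem_range]
        exact Nat.lt_succ_of_le (Nat.floor_le_floor hk1.le)
      · rw [Set.Finite.mem_toFinset, Set.mem_ofPred_eq]
        have h1 := hU.hg.d_tri z ((γ * M.rep c ^ k) • pt G (tv M c) u)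
          ((γ * M.rep c ^ k) • pt G (tv M c) (⌊u⌋₊ : ℝ))
        rw [d_smul hU.hg, d_pt hU.hg (tv_unit M hc), hpt] at h1
        have h2 : |(⌊u⌋₊ : ℝ) - u| ≤ 1 := by
          rw [abs_le]
          constructor <;> linarith
        linarith
    · rw [mul_assoc, ← zpow_add, add_neg_cancel, zpow_zero, mul_one]

end E35
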