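import Pool.Agent.LibBE35E.T0

/-! Row A8 of BE35E (BE35, part E; architect helper85). Two facts of analysis. ONLY MATHLIB. EASY, 40 min.
Plan. `avoid`: the outer measure of a set of reals of diameter `≤ s0` is `≤ s0` (`Real.volume_le_diam`, or it is contained in `Icc (t - s0) (t + s0)` ... use the diameter bound), so the union over
`F` has measure `≤ F.card * s0 < 1 / 2 = volume (Icc (s + 1 / 4) (s + 3 / 4))` (`measure_biUnion_finset_le`), so it does not contain this interval.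
`small`: `(log R) ^ (3 / 2)` is `o (R ^ ε')` for every `ε' > 0` (`isLittleO_log_rpow_rpow_atTop`), so `N (1 + K (log R) ^ (3 / 2)) ^ N * R ^ (-κ) → 0`
(take `ε' = κ / (2 (N + 1))`). -/

open MeasureTheory Set Filter Topology
open scoped ContDiff ENNReal NNReal ComplexConjugate

namespace E35

open BGS (Pl Surface grid per)
open SR85

variable {Γ : Type} [Group Γ] [MulAction Γ Pl] {D : Set Pl} {G : Dat Γ}
variable {a b r : ℝ} {Λ : ℕ}

omit [Group Γ] [MulAction Γ Pl] in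
theorem avoid {ι : Type} (F : Finset ι) (I : ι → Set ℝ) (s : ℝ) {s0 : ℝ} (hs0 : 0 ≤ s0)
    (hF : (F.card : ℝ) * s0 < 1 / 2) (hI : ∀ i ∈ F, ∀ t ∈ I i, ∀ t' ∈ I i, |t - t'| ≤ s0) :
    ∃ t ∈ Icc (s + 1 / 4) (s + 3 / 4), ∀ i ∈ F, t ∉ I i := by
  by_contra hcon
  push Not at hcon
  have h1 : Icc (s + 1 / 4) (s + 3 / 4) ⊆ ⋃ i ∈ F, I i := by
    intro t ht
    obtain ⟨i, hi, hti⟩ := hcon t ht
    exact mem_iUnion₂.2 ⟨i, hi, hti⟩
  have h2 : ∀ i ∈ F, volume (I i) ≤ ENNReal.ofReal s0 := by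
    intro i hi
    refine (Real.volume_le_diam _).trans (Metric.ediam_le fun t ht t' ht' => ?_)
    rw [edist_dist, Real.dist_eq]
    exact ENNReal.ofReal_le_ofReal (hI i hi t ht t' ht')
  have h3 : volume (Icc (s + 1 / 4) (s + 3 / 4)) = ENNReal.ofReal (1 / 2) := by
    rw [Real.volume_Icc]
    congr 1
    ring
  have h4 : volume (Icc (s + 1 / 4) (s + 3 / 4)) ≤ ENNReal.ofReal ((F.card : ℝ) * s0) := by
    calc volume (Icc (s + 1 / 4) (s + 3 / 4)) ≤ volume (⋃ i ∈ F, I i) := measure_mono h1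
      _ ≤ ∑ i ∈ F, volume (I i) := measure_biUnion_finset_le _ _
      _ ≤ ∑ _i ∈ F, ENNReal.ofReal s0 := Finset.sum_le_sum h2
      _ = ENNReal.ofReal ((F.card : ℝ) * s0) := by
        rw [Finset.sum_const, nsmul_eq_mul, ENNReal.ofReal_mul (Nat.cast_nonneg _),
          ENNReal.ofReal_natCast]
  rw [h3] at h4
  have h5 : ENNReal.ofReal ((F.card : ℝ) * s0) < ENNReal.ofReal (1 / 2) :=
    (ENNReal.ofReal_lt_ofReal_iff (by norm_num)).2 hF
  exact absurd h4 (not_le.2 h5)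

omit [Group Γ] [MulAction Γ Pl] in
theorem small (N : ℕ) {K κ ε : ℝ} (hK : 0 ≤ K) (hκ : 0 < κ) (hε : 0 < ε) :
    ∃ R0 : ℝ, 1 ≤ R0 ∧ ∀ R : ℝ, R0 ≤ R → N * (1 + ell K R) ^ N * R ^ (-κ) ≤ ε := by
  have hN : (0 : ℝ) < (N : ℝ) + 1 := by positivity
  have hs : 0 < κ / (2 * ((N : ℝ) + 1)) := by positivity
  have h1 := (isLittleO_log_rpow_rpow_atTop (3 / 2 : ℝ) hs).bound one_pos
  have h2 : Tendsto (fun R : ℝ => (N : ℝ) * (1 + K) ^ N * R ^ (-(κ / 2))) atTop (𝓝 0) := by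
    have := (tendsto_rpow_neg_atTop (by positivity : 0 < κ / 2)).const_mul
      ((N : ℝ) * (1 + K) ^ N)
    rwa [mul_zero] at this
  have h3 := h2.eventually (eventually_lt_nhds hε)
  obtain ⟨R0, hR0⟩ := Filter.eventually_atTop.1 (h1.and h3)
  refine ⟨max R0 1, le_max_right _ _, fun R hR => ?_⟩
  obtain ⟨h4, h5⟩ := hR0 R ((le_max_left _ _).trans hR)
  have hR1 : 1 ≤ R := (le_max_right _ _).trans hR
  have hR : 0 < R := by linarith
  have hlog : 0 ≤ Real.log R := Real.log_nonneg hR1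
  have hl : 0 ≤ Real.log R ^ (3 / 2 : ℝ) := Real.rpow_nonneg hlog _
  rw [one_mul, Real.norm_of_nonneg hl, Real.norm_of_nonneg (Real.rpow_nonneg hR.le _)] at h4
  have h6 : 1 ≤ R ^ (κ / (2 * ((N : ℝ) + 1))) := Real.one_le_rpow hR1 hs.le
  have h7 : 1 + ell K R ≤ (1 + K) * R ^ (κ / (2 * ((N : ℝ) + 1))) := by
    unfold ell
    have := mul_le_mul_of_nonneg_left h4 hK
    linarith
  have h8 : 0 ≤ 1 + ell K R := by
    unfold ell
    positivity
  have h9 : (1 + ell K R) ^ N ≤ (1 + K) ^ N * R ^ (κ / 2) := by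
    refine (pow_le_pow_left₀ h8 h7 N).trans ?_
    rw [mul_pow, ← Real.rpow_mul_natCast hR.le]
    refine mul_le_mul_of_nonneg_left (Real.rpow_le_rpow_of_exponent_le hR1 ?_) (by positivity)
    rw [div_mul_eq_mul_div, div_le_div_iff₀ (by positivity) (by positivity)]
    nlinarith
  have h10 : R ^ (κ / 2) * R ^ (-κ) = R ^ (-(κ / 2)) := by
    rw [← Real.rpow_add hR]
    congr 1
    ring
  have h11 : 0 ≤ R ^ (-κ) := Real.rpow_nonneg hR.le _
  calc N * (1 + ell K R) ^ N * R ^ (-κ) ≤ N * ((1 + K) ^ N * R ^ (κ / 2)) * R ^ (-κ) := by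
        gcongr
    _ = (N : ℝ) * (1 + K) ^ N * (R ^ (κ / 2) * R ^ (-κ)) := by ring
    _ = (N : ℝ) * (1 + K) ^ N * R ^ (-(κ / 2)) := by rw [h10]
    _ ≤ ε := h5.le

end E35
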