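import Pool.Agent.LibBE35E.T0

/-! Row B1 of BE35E (BE35, part E; architect helper85). The cell of a point. MEDIUM, 60 min.
Plan. `cell`: `κ • z0 ∈ D` (`to_D`), `w = κ • z0`, `p = (round (R w.1), round (R w.2))`, so `|R w.i - p.i| ≤ 1 / 2` (`abs_sub_round`); `p ∈ grid L0 R` since
`|w.i| ≤ L0 - 1` and `R ≥ 3`. If `d z0 z ≤ 1 / (2 Λ R)` then `d w (κ • z) ≤ 1 / (2 Λ R) ≤ 1 / Λ`, `‖w - κ • z‖ ≤ 1 / (2 R)` (`UC.loc'`), so
`|R (κ • z).i - p.i| ≤ 1` and `bmq R p (κ • z) = 1` (`ContDiffBump.one_of_mem_closedBall`, sup norm of `Pl`), `≤ per .. (κ • z) = per .. z` (`per_bmq_ge` of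
LibBGM20/Q1, `PER_inv`). If `per .. z ≠ 0` then by `per_bmq_zero` some `γ'` has `|R (γ' • z).i - p.i| < 2`, so `‖γ' • z - w‖ ≤ 5 / (2 R) ≤ 1 / Λ`,
`d w (γ' • z) ≤ 5 Λ / (2 R)` (`UC.loc`), `γ = κ⁻¹ * γ'`. `per_cont`: `per Γ (bmq R p)` is continuous (`per_mem` of LibBGR/Per or `QMD_fin` with `PER_inv`).
`xi_low`: `f t = per .. (pt (tv c) t) ≥ 0` is `l0`-periodic, so its integral over `[0, l0]` is that over `[t0 - l0 / 2, t0 + l0 / 2]`, which contains `|t - t0| ≤ 1 / (2 Λ R)`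
(as `l0 ≥ r ≥ 1 / (Λ R)`: `l0_sys`, `hR'`), where `f ≥ 1` (`d_pt`). -/

open MeasureTheory Set Filter Topology
open scoped ContDiff ENNReal NNReal ComplexConjugate

namespace E35

open BGS (Pl Surface grid per)
open SR85

variable {Γ : Type} [Group Γ] [MulAction Γ Pl] {D : Set Pl} {G : Dat Γ}
variable {a b r : ℝ} {Λ : ℕ}

private theorem B1_norm {z w : Pl} {ε : ℝ} (h : ‖z - w‖ ≤ ε) : |z.1 - w.1| ≤ ε ∧ |z.2 - w.2| ≤ ε := by
  rw [Prod.norm_def, max_le_iff] at h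
  exact h

theorem cell (hU : UC D a b r Λ G) {L0 : ℕ}
    (hL : ∀ z ∈ closure D, |z.1| ≤ (L0 : ℝ) - 1 ∧ |z.2| ≤ (L0 : ℝ) - 1) {R : ℕ}
    (hR : 3 * Λ ≤ R) (z0 : Pl) : ∃ p ∈ grid L0 R,
      (∀ z : Pl, G.d z0 z ≤ 1 / (2 * Λ * R) → 1 ≤ per Γ (BGM.bmq R p) z) ∧
      ∀ z : Pl, per Γ (BGM.bmq R p) z ≠ 0 → ∃ γ : Γ, G.d z0 (γ • z) ≤ 3 * Λ / R := by
  have hΛ : (1 : ℝ) ≤ Λ := by exact_mod_cast hU.L_one
  have hR3 : 3 * (Λ : ℝ) ≤ R := by exact_mod_cast hR
  have hR1 : (3 : ℝ) ≤ R := by linarith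
  have hR0 : (0 : ℝ) < R := by linarith
  have hR1n : 1 ≤ R := by exact_mod_cast (show (1 : ℝ) ≤ R by linarith)
  have hX := hU.hX
  have h := hU.hg
  obtain ⟨κ, hκ⟩ := to_D hU z0
  have hκc : κ • z0 ∈ closure D := subset_closure hκ
  set w : Pl := κ • z0 with hw
  obtain ⟨hw1, hw2⟩ := hL w hκc
  refine ⟨(round (R * w.1), round (R * w.2)), ?_, ?_, ?_⟩
  · -- in the grid
    have key : ∀ t : ℝ, |t| ≤ (L0 : ℝ) - 1 →
        round (R * t) ∈ Finset.Ico (-(L0 * R : ℤ)) (L0 * R) := by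
      intro t ht
      rw [abs_le] at ht
      have h1 := abs_sub_round (R * t)
      rw [abs_le] at h1
      rw [Finset.mem_Ico]
      constructor
      · have h2 : (-(L0 * R : ℝ)) ≤ (round (R * t) : ℝ) := by nlinarith [h1.2, ht.1]
        exact_mod_cast h2
      · have h2 : (round (R * t) : ℝ) < (L0 * R : ℝ) := by nlinarith [h1.1, ht.2]
        exact_mod_cast h2
    unfold grid
    rw [Finset.mem_product]
    exact ⟨key _ hw1, key _ hw2⟩
  · intro z hz
    have h1 : G.d w (κ • z) ≤ 1 / (2 * Λ * R) := by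
      rw [hw, d_smul h]
      exact hz
    have h2 : (1 : ℝ) / (2 * Λ * R) ≤ 1 / Λ := by
      apply one_div_le_one_div_of_le (by linarith)
      nlinarith
    have h3 := hU.loc' w hκc (κ • z) (h1.trans h2)
    have h4 : ‖w - κ • z‖ ≤ 1 / (2 * R) := by
      calc ‖w - κ • z‖ ≤ Λ * G.d w (κ • z) := h3
        _ ≤ Λ * (1 / (2 * Λ * R)) := by gcongr
        _ = 1 / (2 * R) := by field_simp
    obtain ⟨h5, h6⟩ := B1_norm h4
    have key : ∀ t t' : ℝ, |t - t'| ≤ 1 / (2 * R) → |R * t' - round (R * t)| ≤ 1 := by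
      intro t t' ht
      have e1 := abs_sub_round (R * t)
      have e2 : |R * t' - R * t| ≤ 1 / 2 := by
        rw [← mul_sub, abs_mul, abs_of_pos hR0, abs_sub_comm]
        calc (R : ℝ) * |t - t'| ≤ R * (1 / (2 * R)) := by gcongr
          _ = 1 / 2 := by field_simp
      have e3 := abs_add_le (R * t' - R * t) (R * t - round (R * t))
      rw [sub_add_sub_cancel] at e3
      linarith
    have h7 : BGM.bmq R (round (R * w.1), round (R * w.2)) (κ • z) = 1 :=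
      BGM.bmq_one (key _ _ h5) (key _ _ h6)
    have h8 := BGM.per_bmq_ge (Γ := Γ) hX hR1n (round (R * w.1), round (R * w.2)) (κ • z)
    rw [BGS.PER_inv, h7] at h8
    exact h8
  · intro z hz
    have h1 : ∃ γ : Γ, |R * (γ • z).1 - round (R * w.1)| < 2 ∧
        |R * (γ • z).2 - round (R * w.2)| < 2 := by
      by_contra hno
      push Not at hno
      apply hz
      apply BGM.per_bmq_zero
      intro γ hγ
      exact absurd hγ.2 (not_lt.2 (hno γ hγ.1))
    obtain ⟨γ', h2, h3⟩ := h1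
    have key : ∀ t t' : ℝ, |R * t' - round (R * t)| < 2 → |t - t'| ≤ 5 / (2 * R) := by
      intro t t' ht
      have e1 := abs_sub_round (R * t)
      have e3 := abs_sub_le (R * t) (round (R * t)) (R * t')
      rw [abs_sub_comm (round (R * t) : ℝ) (R * t')] at e3
      have e4 : |R * t - R * t'| = R * |t - t'| := by rw [← mul_sub, abs_mul, abs_of_pos hR0]
      rw [e4] at e3
      rw [le_div_iff₀ (by positivity)]
      linarith
    have h4 : ‖w - γ' • z‖ ≤ 5 / (2 * R) := by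
      rw [Prod.norm_def, max_le_iff]
      exact ⟨key _ _ h2, key _ _ h3⟩
    have h5 : (5 : ℝ) / (2 * R) ≤ 1 / Λ := by
      rw [div_le_div_iff₀ (by positivity) (by linarith)]
      linarith
    have h6 := hU.loc w hκc (γ' • z) (h4.trans h5)
    refine ⟨κ⁻¹ * γ', ?_⟩
    have h7 : G.d z0 ((κ⁻¹ * γ') • z) = G.d w (γ' • z) := by
      rw [← d_smul h κ z0, mul_smul, smul_inv_smul]
    rw [h7]
    calc G.d w (γ' • z) ≤ Λ * ‖w - γ' • z‖ := h6
      _ ≤ Λ * (5 / (2 * R)) := by gcongr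
      _ ≤ 3 * Λ / R := by
          rw [← mul_div_assoc, div_le_div_iff₀ (by positivity) hR0]
          nlinarith

theorem per_cont (hX : Surface Γ D) {R : ℕ} (hR : 1 ≤ R) (p : ℤ × ℤ) :
    Continuous (per Γ (BGM.bmq R p)) ∧
      ∀ (g : Γ) (x : Pl), per Γ (BGM.bmq R p) (g • x) = per Γ (BGM.bmq R p) x :=
  ⟨(BGS.per_mem hX (BGM.bmq_smooth R p) (BGM.bmq_compact hR p)).1.continuous,
    fun g x => BGS.PER_inv _ g x⟩

theorem xi_low (hU : UC D a b r Λ G) (M : Cl G) {c : ConjClasses Γ} (hc : c ≠ 1) {R : ℕ}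
    (hR : 1 ≤ R) (hR' : 1 ≤ Λ * R * r) {p : ℤ × ℤ} {t0 : ℝ}
    (hp : ∀ z : Pl, G.d (pt G (tv M c) t0) z ≤ 1 / (2 * Λ * R) → 1 ≤ per Γ (BGM.bmq R p) z) :
    1 / (Λ * R) ≤ xi0 M R p c := by
  have hΛ : (1 : ℝ) ≤ Λ := by exact_mod_cast hU.L_one
  have hR1 : (1 : ℝ) ≤ R := by exact_mod_cast hR
  have hR0 : (0 : ℝ) < R := by linarith
  have h := hU.hg
  have hu := tv_unit M hc
  obtain ⟨hpc, hpi⟩ := per_cont hU.hX hR p
  set f : ℝ → ℝ := fun t => per Γ (BGM.bmq R p) (pt G (tv M c) t) with hf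
  have hE : Continuous fun t : ℝ => pt G (tv M c) t := by
    unfold pt
    have h0 : Continuous fun t : ℝ => ((tv M c).1, (t : ℂ) * (tv M c).2) := by fun_prop
    exact h.E_cont.comp h0
  have hfc : Continuous f := hpc.comp hE
  have hper : Function.Periodic f (M.l0 c) := by
    intro t
    simp only [hf]
    rw [← g0_pt M hc, hpi]
  have hf0 : ∀ t, 0 ≤ f t := fun t => BGM.per_bmq_nonneg R p _
  set δ : ℝ := 1 / (2 * Λ * R) with hδ
  have hδ0 : 0 < δ := by positivity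
  have hl0 : 2 * δ ≤ M.l0 c := by
    refine le_trans ?_ (l0_sys hU M hc)
    have : 2 * δ = 1 / (Λ * R) := by rw [hδ]; field_simp
    rw [this, div_le_iff₀ (by positivity)]
    linarith
  have h1 : xi0 M R p c = ∫ t in (t0 - δ)..(t0 - δ + M.l0 c), f t := by
    unfold xi0
    have := hper.intervalIntegral_add_eq 0 (t0 - δ)
    rw [zero_add] at this
    exact this
  have h2 : ∫ t in (t0 - δ)..(t0 + δ), f t ≤ ∫ t in (t0 - δ)..(t0 - δ + M.l0 c), f t := by
    apply intervalIntegral.integral_mono_interval le_rfl (by linarith) (by linarith)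
    · exact Eventually.of_forall fun t => hf0 t
    · exact hfc.intervalIntegrable _ _
  have h3 : ∫ _t in (t0 - δ)..(t0 + δ), (1 : ℝ) ≤ ∫ t in (t0 - δ)..(t0 + δ), f t := by
    apply intervalIntegral.integral_mono_on (by linarith) intervalIntegrable_const
      (hfc.intervalIntegrable _ _)
    intro t ht
    apply hp
    rw [d_pt h hu, abs_le]
    constructor <;> linarith [ht.1, ht.2]
  rw [intervalIntegral.integral_const, smul_eq_mul, mul_one] at h3
  have h4 : t0 + δ - (t0 - δ) = 1 / (Λ * R) := by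
    rw [hδ]; field_simp; ring
  rw [h4] at h3
  rw [h1]
  exact h3.trans h2

end E35
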