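import Pool.Agent.LibBE35E.A3
import Pool.Agent.LibBE35E.A7
import Pool.Agent.LibBE35E.A8

/-! Row B2 of BE35E (BE35, part E; architect helper85). The good time. MEDIUM, 60 min.
Plan. `δ = 3 Λ / R`, `s0 = R ^ (-1 / 2)`; `R0` such that `δ ≤ s0 / 8` and `δ ≤ 1`, `q * (N (1 + ell K R)) * s0 < 1 / 2` (`small`; `N` from `near_fin`). By `near_fin` with
`z = pt p s` and each `i` get `F i`; index set = pairs `(i, γ')` with `γ' ∈ F i` and NOT `Fl G (rh b Λ R) p (act γ' (tv (c i))) s`; `I (i, γ')` = the times `t ∈ [s, s + 1]` with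
`∃ t', d (pt p t) (γ' • pt (tv (c i)) t') ≤ δ`. By `blocked` two such times differ by less than `s0` (`cx b * (δ / s0) * exp b = rh b Λ R`, since `δ / s0 = 3 Λ R ^ (-1 / 2)`). `avoid`
gives `t0`. Now let `d (pt p t0) (γ • pt (tv (c i)) t) ≤ δ`: then `d (pt p s) (γ • pt ..) ≤ 1 + δ ≤ 2`, so `γ = γ' * rep ^ k` with `γ' ∈ F i`, the lines of `γ` and `γ'` are the same
(`rep_zpow`: `γ • pt t = γ' • pt (t + k l)`), so `t0 ∈ I (i, γ')` unless `Fl .. (act γ' ..)`; and `Fl .. (act γ' ..)` gives `Fl .. (act γ ..)` (shift the parameter). -/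

open MeasureTheory Set Filter Topology
open scoped ContDiff ENNReal NNReal ComplexConjugate

namespace E35

open BGS (Pl Surface grid per)
open SR85

variable {Γ : Type} [Group Γ] [MulAction Γ Pl] {D : Set Pl} {G : Dat Γ}
variable {a b r : ℝ} {Λ : ℕ}

theorem good (D : Set Pl) (a b r : ℝ) (Λ q : ℕ) {K : ℝ} (hK : 0 ≤ K) : ∃ R0 : ℝ, 1 ≤ R0 ∧
    ∀ G : Dat Γ, UC D a b r Λ G → ∀ (M : Cl G) (R : ℝ), R0 ≤ R →
      ∀ c : Fin q → ConjClasses Γ, (∀ i, c i ≠ 1 ∧ M.l (c i) ≤ ell K R) →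
      ∀ (p : Pl × ℂ) (s : ℝ), ‖p.2‖ = 1 → ∃ t0 ∈ Icc (s + 1 / 4) (s + 3 / 4),
        ∀ (i : Fin q) (γ : Γ) (t : ℝ), G.d (pt G p t0) (γ • pt G (tv M (c i)) t) ≤ 3 * Λ / R →
          Fl G (rh b Λ R) p (act G γ (tv M (c i))) s := by
  classical
  obtain ⟨N, hN⟩ := near_fin (Γ := Γ) D a b r Λ
  obtain ⟨R1, hR1, hsm⟩ := small (q * N + 1) (κ := 1 / 2) (ε := 1 / 4) hK (by norm_num)
    (by norm_num)
  refine ⟨max R1 (max ((24 * Λ) ^ 2) (3 * Λ)), hR1.trans (le_max_left _ _), ?_⟩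
  intro G hU M R hR c hc p s hp
  have h := hU.hg
  have hR1' : R1 ≤ R := (le_max_left _ _).trans hR
  have hR2 : (24 * (Λ : ℝ)) ^ 2 ≤ R := ((le_max_left _ _).trans (le_max_right _ _)).trans hR
  have hR3 : 3 * (Λ : ℝ) ≤ R := ((le_max_right _ _).trans (le_max_right _ _)).trans hR
  have hRone : 1 ≤ R := hR1.trans hR1'
  have hR0 : 0 < R := by linarith
  have hΛ0 : (0 : ℝ) ≤ Λ := Nat.cast_nonneg _
  set s0 : ℝ := R ^ (-(1 / 2) : ℝ) with hs0
  have hs0pos : 0 < s0 := Real.rpow_pos_of_pos hR0 _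
  have hs0R : s0 * √R = 1 := by
    rw [hs0, Real.sqrt_eq_rpow, ← Real.rpow_add hR0]
    norm_num
  have hs0sq : s0 * s0 * R = 1 := by
    have h1 : √R * √R = R := Real.mul_self_sqrt hR0.le
    calc s0 * s0 * R = s0 * s0 * (√R * √R) := by rw [h1]
      _ = (s0 * √R) * (s0 * √R) := by ring
      _ = 1 := by rw [hs0R]; ring
  set δ : ℝ := 3 * Λ / R with hδ
  have hδ0 : 0 ≤ δ := by positivity
  have hδ1 : δ ≤ 1 := by
    rw [hδ, div_le_one hR0]
    exact hR3
  have hδs : δ / s0 = 3 * Λ * s0 := by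
    rw [hδ, div_div, div_eq_iff (by positivity)]
    calc (3 * (Λ : ℝ)) = 3 * Λ * (s0 * s0 * R) := by rw [hs0sq, mul_one]
      _ = 3 * Λ * s0 * (R * s0) := by ring
  have h24 : 24 * Λ * s0 ≤ 1 := by
    have h1 : 24 * (Λ : ℝ) ≤ √R := by
      apply Real.le_sqrt_of_sq_le hR2
    calc 24 * Λ * s0 ≤ √R * s0 := by gcongr
      _ = 1 := by rw [mul_comm]; exact hs0R
  have hδ8 : δ ≤ s0 / 8 := by
    have h1 : δ = 3 * Λ * s0 * s0 := by
      rw [← hδs]
      field_simp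
    rw [h1]
    nlinarith
  have hell0 : 0 ≤ ell K R := by
    unfold ell
    exact mul_nonneg hK (Real.rpow_nonneg (Real.log_nonneg hRone) _)
  choose F hFc hF using fun i : Fin q => hN G hU M (c i) (hc i).1 (pt G p s)
  set S : Finset (Σ _ : Fin q, Γ) := Finset.univ.sigma fun i =>
    (F i).filter fun γ' => ¬ Fl G (rh b Λ R) p (act G γ' (tv M (c i))) s with hS
  have hcard : (S.card : ℝ) * s0 < 1 / 2 := by
    have h1 : (S.card : ℝ) ≤ q * (N * (1 + ell K R)) := by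
      rw [hS, Finset.card_sigma]
      push_cast
      calc ∑ i : Fin q, (((F i).filter fun γ' =>
            ¬ Fl G (rh b Λ R) p (act G γ' (tv M (c i))) s).card : ℝ)
          ≤ ∑ _i : Fin q, N * (1 + ell K R) := by
            refine Finset.sum_le_sum fun i _ => ?_
            have h2 : (((F i).filter fun γ' =>
                ¬ Fl G (rh b Λ R) p (act G γ' (tv M (c i))) s).card : ℝ) ≤ (F i).card := by
              exact_mod_cast Finset.card_filter_le _ _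
            refine (h2.trans (hFc i)).trans ?_
            have h3 := (hc i).2
            gcongr
        _ = q * (N * (1 + ell K R)) := by
            rw [Finset.sum_const, Finset.card_univ, Fintype.card_fin, nsmul_eq_mul]
    have h2 := hsm R hR1'
    have h3 : (q : ℝ) * (N * (1 + ell K R)) ≤
        ((q * N + 1 : ℕ) : ℝ) * (1 + ell K R) ^ (q * N + 1) := by
      have h4 : (1 : ℝ) + ell K R ≤ (1 + ell K R) ^ (q * N + 1) :=
        le_self_pow₀ (by linarith) (by omega)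
      have h5 : (q : ℝ) * N ≤ ((q * N + 1 : ℕ) : ℝ) := by
        push_cast
        linarith
      calc (q : ℝ) * (N * (1 + ell K R)) = (q * N) * (1 + ell K R) := by ring
        _ ≤ ((q * N + 1 : ℕ) : ℝ) * (1 + ell K R) ^ (q * N + 1) := by gcongr
    have h6 : R ^ (-(1 / 2 : ℝ)) = s0 := rfl
    rw [h6] at h2
    calc (S.card : ℝ) * s0 ≤ (((q * N + 1 : ℕ) : ℝ) * (1 + ell K R) ^ (q * N + 1)) * s0 := by
          gcongr
          exact h1.trans h3
      _ ≤ 1 / 4 := h2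
      _ < 1 / 2 := by norm_num
  obtain ⟨t0, ht0, hav⟩ := avoid S
    (fun x => {t | t ∈ Icc s (s + 1) ∧
      ∃ t', G.d (pt G p t) (x.2 • pt G (tv M (c x.1)) t') ≤ δ}) s hs0pos.le hcard (by
    rintro ⟨i, γ'⟩ hi
    rw [hS, Finset.mem_sigma, Finset.mem_filter] at hi
    have hnF := hi.2.2
    have key : ∀ t1 t2 : ℝ, t1 ∈ Icc s (s + 1) → t2 ∈ Icc s (s + 1) →
        (∃ t', G.d (pt G p t1) (γ' • pt G (tv M (c i)) t') ≤ δ) →
        (∃ t', G.d (pt G p t2) (γ' • pt G (tv M (c i)) t') ≤ δ) → t2 - t1 ≤ s0 := by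
      rintro t1 t2 ht1 ht2 ⟨t1', h1⟩ ⟨t2', h2⟩
      by_contra hlt
      push Not at hlt
      apply hnF
      refine blocked h hp (act_unit h γ' (tv_unit M (hc i).1)) hs0pos ht1.1 ht2.2 hlt.le hδ8 hδ0
        (t1' := t1') (t2' := t2') ?_ ?_ ?_
      · rw [pt_act h]; exact h1
      · rw [pt_act h]; exact h2
      · rw [hU.eb, hδs]
        unfold rh
        apply le_of_eq
        rw [← hs0]
        ring
    intro t ht t' ht'
    rw [abs_le]
    constructor
    · have := key t t' ht.1 ht'.1 ht.2 ht'.2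
      linarith
    · exact key t' t ht'.1 ht.1 ht'.2 ht.2)
  refine ⟨t0, ht0, ?_⟩
  intro i γ t hd
  have hs1 : G.d (pt G p s) (γ • pt G (tv M (c i)) t) ≤ 2 := by
    have h1 := h.d_tri (pt G p s) (pt G p t0) (γ • pt G (tv M (c i)) t)
    have h2 : G.d (pt G p s) (pt G p t0) ≤ 3 / 4 := by
      rw [d_pt h hp, abs_of_nonneg (by linarith [ht0.1])]
      linarith [ht0.2]
    linarith
  obtain ⟨γ', hγ', k, hk⟩ := hF i γ t hs1
  have hFl : Fl G (rh b Λ R) p (act G γ' (tv M (c i))) s := by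
    by_contra hnF
    refine hav ⟨i, γ'⟩ ?_ ?_
    · rw [hS, Finset.mem_sigma, Finset.mem_filter]
      exact ⟨Finset.mem_univ _, hγ', hnF⟩
    · refine ⟨⟨by linarith [ht0.1], by linarith [ht0.2]⟩, t + k * M.l (c i), ?_⟩
      show G.d (pt G p t0) (γ' • pt G (tv M (c i)) (t + k * M.l (c i))) ≤ δ
      rw [← rep_zpow M (hc i).1, ← mul_smul, ← hk]
      exact hd
  intro t1 ht1
  obtain ⟨t', h1⟩ := hFl t1 ht1
  refine ⟨t' + ((-k : ℤ) : ℝ) * M.l (c i), ?_⟩
  rw [pt_act h] at h1 ⊢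
  rw [← rep_zpow M (hc i).1, hk, ← mul_smul]
  have h3 : γ' * M.rep (c i) ^ k * M.rep (c i) ^ (-k) = γ' := by
    rw [mul_assoc, ← zpow_add, add_neg_cancel, zpow_zero, mul_one]
  rw [h3]
  exact h1

end E35
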