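import Pool.Agent.LibBE35E.B1
import Pool.Agent.LibBE35E.B2
import Pool.Agent.LibBE35E.A6

/-! Row B3 of BE35E (BE35, part E; architect helper85). Detection: the lines of one sign follow those of the other sign. MEDIUM, 60 min.
Plan. It is enough to prove the first claim (for the second replace `lam` by `-lam`: `imf` of the sign conditions). Let `0 < lam i`, `s : ℝ`, `p = tv (c i)`; suppose no `j` with `lam j < 0` and no `γ` has
`Fl G (rh b Λ R) p (act γ (tv (c j))) s`. `good` gives `t0`, `cell` at `z0 = pt p t0` a cell `p'`. For `lam j < 0`: `per .. (pt (tv (c j)) t) = 0` for all `t` (otherwise `cell` gives `γ` with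
`d z0 (γ • pt (tv (c j)) t) ≤ 3 Λ / R`, so `Fl`), so `xi M R p' (c j) = 0`. For `lam j > 0`: `xi ≥ 0` (`per_bmq_nonneg`). For `i`: `xi = n * xi0 ≥ xi0 ≥ 1 / (Λ R)` (`per_int`, `xi_low`, `l_eq`).
So the sum is `≥ lam i / (Λ R) ≥ 1 / (Λ1 Λ R) > R ^ (-3 / 2)` as soon as `√R > Λ1 Λ` (choice of `R0`, also `R0 ≥ 3 Λ`, `R0 ≥ 1 / r`): contradiction with the hypothesis for `p'`.
`lam j = 0` does not occur (`1 / Λ1 ≤ |lam j|`). -/

open MeasureTheory Set Filter Topology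
open scoped ContDiff ENNReal NNReal ComplexConjugate

namespace E35

open BGS (Pl Surface grid per)
open SR85

variable {Γ : Type} [Group Γ] [MulAction Γ Pl] {D : Set Pl} {G : Dat Γ}
variable {a b r : ℝ} {Λ : ℕ}

omit [MulAction Γ Pl] in
theorem B3_mem_imf {q : ℕ} {c : Fin q → ConjClasses Γ} {P : Fin q → Prop}
    {c' : ConjClasses Γ} : c' ∈ imf c P ↔ ∃ i, P i ∧ c i = c' := by
  classical
  unfold imf
  simp [Finset.mem_image]

theorem B3_pow {R A : ℝ} (hA : 1 ≤ A) (hR : A ^ 2 + 1 ≤ R) :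
    R ^ (-(3 / 2) : ℝ) < 1 / (A * R) := by
  have hR0 : 0 < R := by nlinarith
  have h1 : R ^ (-(3 / 2) : ℝ) = R⁻¹ * (√R)⁻¹ := by
    rw [show (-(3 / 2) : ℝ) = -1 + -(1 / 2) by norm_num, Real.rpow_add hR0, Real.rpow_neg_one,
      Real.rpow_neg hR0.le, ← Real.sqrt_eq_rpow]
  have h2 : A < √R := (Real.lt_sqrt (by linarith)).2 (by linarith)
  rw [h1, one_div, mul_inv, mul_comm A⁻¹]
  exact mul_lt_mul_of_pos_left (inv_strictAnti₀ (by linarith) h2) (by positivity)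

theorem B3_xi_nonneg (M : Cl G) {c : ConjClasses Γ} (hc : c ≠ 1) (R : ℕ) (p : ℤ × ℤ) :
    0 ≤ xi M R p c :=
  intervalIntegral.integral_nonneg (l_pos M hc).le fun _ _ => BGM.per_bmq_nonneg R p _

theorem B3_xi_eq (hU : UC D a b r Λ G) (M : Cl G) {c : ConjClasses Γ} (hc : c ≠ 1) {R : ℕ}
    (hR : 1 ≤ R) (p : ℤ × ℤ) : xi M R p c = M.n c * xi0 M R p c :=
  per_int hU.hg M hc (per_cont hU.hX hR p).1 (per_cont hU.hX hR p).2

theorem B3_zero (M : Cl G) {c : ConjClasses Γ} {R : ℕ} {p : ℤ × ℤ}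
    (h : ∀ t, per Γ (BGM.bmq R p) (pt G (tv M c) t) = 0) : xi M R p c = 0 := by
  unfold xi
  simp only [h, intervalIntegral.integral_zero]

/-- One of the two claims. -/
theorem B3_side (hU : UC D a b r Λ G) {L0 : ℕ}
    (hL : ∀ z ∈ closure D, |z.1| ≤ (L0 : ℝ) - 1 ∧ |z.2| ≤ (L0 : ℝ) - 1) (M : Cl G) {R : ℕ}
    {Λ1 : ℝ} (hΛ : 1 ≤ Λ1) (hR1 : 1 ≤ R) (hR3 : 3 * Λ ≤ R) (hRr : 1 ≤ Λ * R * r)
    (hRA : (Λ1 * Λ) ^ 2 + 1 ≤ (R : ℝ)) {q : ℕ} {c : Fin q → ConjClasses Γ}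
    (hc : ∀ i, c i ≠ 1)
    (hg : ∀ (p : Pl × ℂ) (s : ℝ), ‖p.2‖ = 1 → ∃ t0 ∈ Icc (s + 1 / 4) (s + 3 / 4),
        ∀ (i : Fin q) (γ : Γ) (t : ℝ), G.d (pt G p t0) (γ • pt G (tv M (c i)) t) ≤ 3 * Λ / R →
          Fl G (rh b Λ R) p (act G γ (tv M (c i))) s)
    {lam : Fin q → ℝ} (hl : ∀ i, 1 / Λ1 ≤ |lam i|)
    (hs : ∀ p ∈ grid L0 R, |∑ i, lam i * xi M R p (c i)| ≤ (R : ℝ) ^ (-(3 / 2) : ℝ))
    {i : Fin q} (hi : 0 < lam i) :
    Par M (rh b Λ R) (imf c fun j => lam j < 0) (c i) := by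
  intro s
  by_contra hcon
  have hno : ∀ j, lam j < 0 → ∀ γ : Γ,
      ¬ Fl G (rh b Λ R) (tv M (c i)) (act G γ (tv M (c j))) s :=
    fun j hj γ hf => hcon ⟨c j, B3_mem_imf.2 ⟨j, hj, rfl⟩, γ, hf⟩
  obtain ⟨t0, -, ht0⟩ := hg (tv M (c i)) s (tv_unit M (hc i))
  obtain ⟨p', hp', h1, h2⟩ := cell hU hL hR3 (pt G (tv M (c i)) t0)
  have hterm : ∀ j, 0 ≤ lam j * xi M R p' (c j) := by
    intro j
    rcases le_or_gt 0 (lam j) with hj | hj
    · exact mul_nonneg hj (B3_xi_nonneg M (hc j) R p')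
    · have h3 : xi M R p' (c j) = 0 := by
        apply B3_zero
        intro t
        by_contra h4
        obtain ⟨γ, hγ⟩ := h2 _ h4
        exact hno j hj γ (ht0 j γ t hγ)
      rw [h3, mul_zero]
  have hΛ0 : (1 : ℝ) ≤ Λ := by exact_mod_cast hU.L_one
  have hR0 : (1 : ℝ) ≤ R := by exact_mod_cast hR1
  have h3 : 1 / (Λ * R) ≤ xi0 M R p' (c i) := xi_low hU M (hc i) hR1 hRr h1
  have h0 : (0 : ℝ) < 1 / (Λ * R) := by positivity
  have h4 : 1 / (Λ * R) ≤ xi M R p' (c i) := by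
    rw [B3_xi_eq hU M (hc i) hR1]
    have hn : (1 : ℝ) ≤ M.n (c i) := by exact_mod_cast (l_eq hU.hg M (hc i)).2
    nlinarith
  have h5 : 1 / Λ1 ≤ lam i := by
    have := hl i
    rwa [abs_of_pos hi] at this
  have h6 : 1 / (Λ1 * Λ * R) ≤ lam i * xi M R p' (c i) := by
    have h7 : 1 / (Λ1 * Λ * R) = 1 / Λ1 * (1 / (Λ * R)) := by
      field_simp
    rw [h7]
    exact mul_le_mul h5 h4 h0.le hi.le
  have h7 : 1 / (Λ1 * Λ * R) ≤ ∑ j, lam j * xi M R p' (c j) :=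
    h6.trans (Finset.single_le_sum (f := fun j => lam j * xi M R p' (c j))
      (fun j _ => hterm j) (Finset.mem_univ i))
  have h8 := (le_abs_self _).trans (hs p' hp')
  have h9 := B3_pow (by nlinarith : (1 : ℝ) ≤ Λ1 * Λ) hRA
  linarith

theorem detect (D : Set Pl) (a b r : ℝ) (Λ q L0 : ℕ)
    (hL : ∀ z ∈ closure D, |z.1| ≤ (L0 : ℝ) - 1 ∧ |z.2| ≤ (L0 : ℝ) - 1) {K Λ1 : ℝ}
    (hK : 0 ≤ K) (hΛ : 1 ≤ Λ1) : ∃ R0 : ℝ, 1 ≤ R0 ∧
    ∀ G : Dat Γ, UC D a b r Λ G → ∀ (M : Cl G) (R : ℕ), R0 ≤ R →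
      ∀ c : Fin q → ConjClasses Γ, (∀ i, c i ≠ 1 ∧ M.l (c i) ≤ ell K R) →
      ∀ lam : Fin q → ℝ, (∀ i, 1 / Λ1 ≤ |lam i|) →
      (∀ p ∈ grid L0 R, |∑ i, lam i * xi M R p (c i)| ≤ (R : ℝ) ^ (-(3 / 2) : ℝ)) →
      (∀ i, 0 < lam i → Par M (rh b Λ R) (imf c fun j => lam j < 0) (c i)) ∧
      ∀ i, lam i < 0 → Par M (rh b Λ R) (imf c fun j => 0 < lam j) (c i) := by
  obtain ⟨R1, hR1, hg⟩ := good (Γ := Γ) D a b r Λ q hK
  refine ⟨R1 + 3 * Λ + |1 / r| + (Λ1 * Λ) ^ 2, ?_, ?_⟩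
  · have h1 : (0 : ℝ) ≤ 3 * Λ := by positivity
    have h2 := abs_nonneg (1 / r)
    have h3 := sq_nonneg (Λ1 * Λ)
    linarith
  intro G hU M R hR c hc lam hl hs
  have h1 : (0 : ℝ) ≤ 3 * Λ := by positivity
  have h2 := abs_nonneg (1 / r)
  have h3 := sq_nonneg (Λ1 * Λ)
  have hR1' : R1 ≤ R := by linarith
  have hRone : (1 : ℝ) ≤ R := by linarith
  have hRn : 1 ≤ R := by exact_mod_cast hRone
  have hR3 : 3 * Λ ≤ R := by
    have : (3 * Λ : ℝ) ≤ R := by linarith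
    exact_mod_cast this
  have hΛ0 : (1 : ℝ) ≤ Λ := by exact_mod_cast hU.L_one
  have hRr : 1 ≤ Λ * R * r := by
    have h4 : 1 / r ≤ R := by
      have := le_abs_self (1 / r)
      linarith
    rw [div_le_iff₀ hU.r_pos] at h4
    have h5 : 0 ≤ (R : ℝ) * r := by linarith
    nlinarith
  have hRA : (Λ1 * Λ) ^ 2 + 1 ≤ (R : ℝ) := by linarith
  have hg' := hg G hU M R hR1' c hc
  refine ⟨fun i hi => B3_side hU hL M hΛ hRn hR3 hRr hRA (fun i => (hc i).1) hg' hl hs hi, ?_⟩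
  intro i hi
  have h4 := B3_side hU hL M hΛ hRn hR3 hRr hRA (fun i => (hc i).1) hg'
    (lam := fun j => -lam j) (fun i => by rw [abs_neg]; exact hl i) (fun p hp => by
      have h5 : ∑ i, -lam i * xi M R p (c i) = -∑ i, lam i * xi M R p (c i) := by
        rw [← Finset.sum_neg_distrib]
        exact Finset.sum_congr rfl fun _ _ => by ring
      rw [h5, abs_neg]
      exact hs p hp) (i := i) (by linarith)
  have h5 : (imf c fun j => -lam j < 0) = imf c fun j => 0 < lam j := by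
    congr 1
    funext j
    rw [neg_lt_zero]
  rw [h5] at h4
  exact h4

end E35
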