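import Pool.Agent.LibBE35E.A3
import Pool.Agent.LibBE35E.A5

/-! Row B4 of BE35E (BE35, part E; architect helper85). Without encounters a partner is a line of the family. MEDIUM, 45 min.
Plan. `ρ' = (cx b exp (2 b) + 1) ρ`. For each integer `s` choose `B s = act (γ s) (tv (d s))`, `d s ∈ F`, with `Fl G ρ (tv c) (B s) s` (`Par`). By `next` the line `B (s + 1)` follows `B s` at the scale `ρ'`;
apply `act (γ s)⁻¹` (`Fl_act`, `act_mul`): `act ((γ s)⁻¹ * γ (s + 1)) (tv (d (s + 1)))` follows `tv (d s)`, so by `¬ Enc` it is the same line (`Same`), and `Same (B s) (B (s + 1))` (`Same_act`).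
By induction in both directions (`Same_trans`, `same_symm`) all `B s` are the same line as `B 0`; every `t` is in some `[s, s + 1]`, so `pt (tv c) t` is within `ρ` of the line `B s` = the line `B 0`:
`same_far` gives `Same (tv c) (B 0)`. -/

open MeasureTheory Set Filter Topology
open scoped ContDiff ENNReal NNReal ComplexConjugate

namespace E35

open BGS (Pl Surface grid per)
open SR85

variable {Γ : Type} [Group Γ] [MulAction Γ Pl] {D : Set Pl} {G : Dat Γ}
variable {a b r : ℝ} {Λ : ℕ}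

theorem partner_same (hU : UC D a b r Λ G) (M : Cl G) {F : Finset (ConjClasses Γ)}
    (hF : ∀ c' ∈ F, c' ≠ 1) {c : ConjClasses Γ} (hc : c ≠ 1) {ρ : ℝ} (hρ : ρ ≤ 1 / 8)
    (hp : Par M ρ F c) (he : ¬ Enc M ((cx b * Real.exp (2 * b) + 1) * ρ) F) :
    ∃ c' ∈ F, ∃ γ : Γ, Same G (tv M c) (act G γ (tv M c')) := by
  have h := hU.hg
  choose d hd g hFl using hp
  set B : ℝ → Pl × ℂ := fun s => act G (g s) (tv M (d s)) with hB
  have hcu : ‖(tv M c).2‖ = 1 := tv_unit M hc
  have hBu : ∀ s, ‖(B s).2‖ = 1 := fun s => act_unit h (g s) (tv_unit M (hF _ (hd s)))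
  have hstep : ∀ s, Same G (B s) (B (s + 1)) := by
    intro s
    obtain ⟨s', h1⟩ := next h hcu (hBu s) hρ (hFl s) (hFl (s + 1))
    rw [hU.eb, ← Fl_act h (g s)⁻¹] at h1
    have h2 : act G (g s)⁻¹ (B s) = tv M (d s) := act_inv h (g s) _
    have h3 : act G (g s)⁻¹ (act G (g (s + 1)) (tv M (d (s + 1)))) =
        act G ((g s)⁻¹ * g (s + 1)) (tv M (d (s + 1))) := act_mul h _ _ _
    have h1' : Fl G ((cx b * Real.exp (2 * b) + 1) * ρ) (act G (g s)⁻¹ (B s))
      (act G (g s)⁻¹ (act G (g (s + 1)) (tv M (d (s + 1))))) s' := h1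
    rw [h2, h3] at h1'
    have h4 : Same G (tv M (d s)) (act G ((g s)⁻¹ * g (s + 1)) (tv M (d (s + 1)))) := by
      by_contra h5
      exact he ⟨d s, hd s, d (s + 1), hd (s + 1), (g s)⁻¹ * g (s + 1), s', h1', h5⟩
    rw [← Same_act h (g s), act_mul h, mul_inv_cancel_left] at h4
    exact h4
  have hall : ∀ n : ℕ, Same G (B (n : ℝ)) (B 0) ∧ Same G (B (-(n : ℝ))) (B 0) := by
    intro n
    induction n with
    | zero =>
      have h1 : ((0 : ℕ) : ℝ) = 0 := Nat.cast_zero
      rw [h1, neg_zero]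
      exact ⟨Same_refl _, Same_refl _⟩
    | succ n ih =>
      constructor
      · have h1 := same_symm h (hBu _) (hBu _) (hstep (n : ℝ))
        have h2 : ((n + 1 : ℕ) : ℝ) = (n : ℝ) + 1 := by push_cast; ring
        rw [h2]
        exact Same_trans h1 ih.1
      · have h1 := hstep (-((n + 1 : ℕ) : ℝ))
        have h2 : -((n + 1 : ℕ) : ℝ) + 1 = -(n : ℝ) := by push_cast; ring
        rw [h2] at h1
        exact Same_trans h1 ih.2
  have hint : ∀ k : ℤ, Same G (B (k : ℝ)) (B 0) := by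
    intro k
    obtain ⟨n, rfl | rfl⟩ := k.eq_nat_or_neg
    · have h1 := (hall n).1
      rw [Int.cast_natCast]
      exact h1
    · have h1 := (hall n).2
      rw [Int.cast_neg, Int.cast_natCast]
      exact h1
  have hfin : Same G (tv M c) (B 0) := by
    refine same_far h hcu (hBu 0) (m := ρ) fun t => ?_
    obtain ⟨t', h1⟩ := hFl (⌊t⌋ : ℝ) t ⟨Int.floor_le t, (Int.lt_floor_add_one t).le⟩
    obtain ⟨t'', h2⟩ := hint ⌊t⌋ t'
    refine ⟨t'', ?_⟩
    rw [← h2]
    exact h1
  exact ⟨d 0, hd 0, g 0, hfin⟩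

end E35
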