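import Pool.Agent.LibBE35E.B3
import Pool.Agent.LibBE35E.B4

/-! Row B5 of BE35E (BE35, part E; architect helper85). The coefficients of a primitive class cancel. MEDIUM, 75 min.
Plan. Let `i` be given. Claim A: every `j` has an index `k` with `0 < lam k` and `∃ γ, Same (tv (c j)) (act γ (tv (c k)))`: for `0 < lam j` take `k = j` (`act_one`, `Same_refl`), for `lam j < 0` by `partner_same`
(`Par` from `detect`, `rh b Λ R ≤ 1 / 8` for `R ≥ R0`, `rh' b Λ R = (cx b exp (2 b) + 1) rh b Λ R` by definition). So w.l.o.g. (replace `i` by its `k`; `Rel` is an equivalence, `same_root`) `0 < lam i`.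
`good` with `p = tv (c i)`, `s = 0` gives `t0`, `cell` at `pt p t0` a cell `p'`. Claim B: if `xi M R p' (c j) ≠ 0` then `Rel M (c i) (c j)`: some `per .. (pt (tv (c j)) t) ≠ 0`, so `Fl G (rh ..) p (act γ (tv (c j))) 0`;
with `k, γ'` from Claim A the line `act (γ γ') (tv (c k))` is the same line, so it follows `p` too, and `rh ≤ rh'` (`Fl_mono`), `¬ Enc` give `Same p (act (γ γ') (tv (c k)))`; `same_root` twice.
Claim C: if `Rel M (c i) (c j)` then `xi M R p' (c j) = n (c j) * xi0 M R p' (c i)` (`rel_same`, `per_int`, `same_int`, `per_cont`). So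
`∑ j, lam j * xi = (∑ j, if Rel .. then lam j * n (c j) else 0) * xi0 M R p' (c i)`, `|..| ≤ R ^ (-3 / 2)` and `xi0 ≥ 1 / (Λ R)` (`xi_low`): the claim with `Λ * R * R ^ (-3 / 2) = Λ R ^ (-1 / 2)`. -/

open MeasureTheory Set Filter Topology
open scoped ContDiff ENNReal NNReal ComplexConjugate

namespace E35

open BGS (Pl Surface grid per)
open SR85

variable {Γ : Type} [Group Γ] [MulAction Γ Pl] {D : Set Pl} {G : Dat Γ}
variable {a b r : ℝ} {Λ : ℕ}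

theorem B5_rh_nonneg {b : ℝ} (hb : 0 < b) (Λ : ℕ) {R : ℝ} (hR : 0 ≤ R) : 0 ≤ rh b Λ R := by
  have h1 : 0 ≤ cx b := by linarith [cx_pos hb]
  unfold rh
  positivity

theorem B5_rh_le {b : ℝ} (hb : 0 < b) (Λ : ℕ) {R : ℝ} (hR : 1 ≤ R)
    (hR' : (8 * (|cx b| * (3 * Λ) * Real.exp b)) ^ 2 ≤ R) : rh b Λ R ≤ 1 / 8 := by
  have h0 : 0 ≤ cx b := by linarith [cx_pos hb]
  have h1 : 8 * (|cx b| * (3 * Λ) * Real.exp b) ≤ √R := Real.le_sqrt_of_sq_le hR'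
  have h2 : 0 < √R := Real.sqrt_pos.2 (by linarith)
  rw [abs_of_nonneg h0] at h1
  unfold rh
  rw [Real.rpow_neg (by linarith), ← Real.sqrt_eq_rpow, ← div_eq_mul_inv, div_le_iff₀ h2]
  linarith

theorem B5_rh_rh' {b : ℝ} (hb : 0 < b) (Λ : ℕ) {R : ℝ} (hR : 0 ≤ R) :
    rh b Λ R ≤ rh' b Λ R := by
  have h0 : 0 ≤ cx b := by linarith [cx_pos hb]
  have h1 := B5_rh_nonneg hb Λ hR
  unfold rh'
  have h2 : 0 ≤ cx b * Real.exp (2 * b) := by positivity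
  nlinarith

theorem B5_pow {R A : ℝ} (hA : 0 < A) (hR : 1 ≤ R) {S x : ℝ} (hx : 1 / (A * R) ≤ x)
    (h : |S * x| ≤ R ^ (-(3 / 2) : ℝ)) : |S| ≤ A * R ^ (-(1 / 2) : ℝ) := by
  have hR0 : 0 < R := by linarith
  have h0 : 0 < 1 / (A * R) := by positivity
  have h1 : R ^ (-(3 / 2) : ℝ) = R⁻¹ * R ^ (-(1 / 2) : ℝ) := by
    rw [show (-(3 / 2) : ℝ) = -1 + -(1 / 2) by norm_num, Real.rpow_add hR0, Real.rpow_neg_one]
  rw [abs_mul, abs_of_pos (lt_of_lt_of_le h0 hx), h1] at h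
  have h2 : |S| * (1 / (A * R)) ≤ R⁻¹ * R ^ (-(1 / 2) : ℝ) :=
    (mul_le_mul_of_nonneg_left hx (abs_nonneg S)).trans h
  have h3 : |S| = |S| * (1 / (A * R)) * (A * R) := by
    field_simp
  have h4 : R⁻¹ * R ^ (-(1 / 2) : ℝ) * (A * R) = A * R ^ (-(1 / 2) : ℝ) := by
    field_simp
  rw [h3, ← h4]
  exact mul_le_mul_of_nonneg_right h2 (by positivity)

/-- Every line is a line with a positive coefficient. -/
theorem B5_claimA (hU : UC D a b r Λ G) (M : Cl G) {q : ℕ} {c : Fin q → ConjClasses Γ}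
    (hc : ∀ i, c i ≠ 1) {lam : Fin q → ℝ} (hne : ∀ i, lam i ≠ 0) {R : ℝ}
    (hρ : rh b Λ R ≤ 1 / 8)
    (hd : ∀ i, lam i < 0 → Par M (rh b Λ R) (imf c fun j => 0 < lam j) (c i))
    (he : ¬ Enc M (rh' b Λ R) (imf c fun i => 0 < lam i)) (j : Fin q) :
    ∃ k, 0 < lam k ∧ ∃ γ : Γ, Same G (tv M (c j)) (act G γ (tv M (c k))) := by
  rcases lt_or_gt_of_ne (hne j) with hj | hj
  · have h1 : ∀ c' ∈ imf c fun i => 0 < lam i, c' ≠ 1 := by
      intro c' hc'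
      obtain ⟨k, -, rfl⟩ := B3_mem_imf.1 hc'
      exact hc k
    obtain ⟨c', hc', γ, hγ⟩ := partner_same hU M h1 (hc j) hρ (hd j hj) he
    obtain ⟨k, hk, rfl⟩ := B3_mem_imf.1 hc'
    exact ⟨k, hk, γ, hγ⟩
  · exact ⟨j, hj, 1, by rw [act_one hU.hg]; exact Same_refl _⟩

/-- The claim for an index with a positive coefficient. -/
theorem B5_pos (hU : UC D a b r Λ G) {L0 : ℕ}
    (hL : ∀ z ∈ closure D, |z.1| ≤ (L0 : ℝ) - 1 ∧ |z.2| ≤ (L0 : ℝ) - 1) (M : Cl G) {R : ℕ}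
    (hR1 : 1 ≤ R) (hR3 : 3 * Λ ≤ R) (hRr : 1 ≤ Λ * R * r) {q : ℕ}
    {c : Fin q → ConjClasses Γ} (hc : ∀ i, c i ≠ 1)
    (hg : ∀ (p : Pl × ℂ) (s : ℝ), ‖p.2‖ = 1 → ∃ t0 ∈ Icc (s + 1 / 4) (s + 3 / 4),
        ∀ (i : Fin q) (γ : Γ) (t : ℝ), G.d (pt G p t0) (γ • pt G (tv M (c i)) t) ≤ 3 * Λ / R →
          Fl G (rh b Λ R) p (act G γ (tv M (c i))) s)
    {lam : Fin q → ℝ}
    (hA : ∀ j, ∃ k, 0 < lam k ∧ ∃ γ : Γ, Same G (tv M (c j)) (act G γ (tv M (c k))))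
    (hs : ∀ p ∈ grid L0 R, |∑ i, lam i * xi M R p (c i)| ≤ (R : ℝ) ^ (-(3 / 2) : ℝ))
    (he : ¬ Enc M (rh' b Λ R) (imf c fun i => 0 < lam i)) {i : Fin q} (hi : 0 < lam i)
    {S : ℝ} (hS : ∀ x : Fin q → ℝ, (∀ j, Rel M (c i) (c j) → x j = lam j * M.n (c j)) →
      (∀ j, ¬ Rel M (c i) (c j) → x j = 0) → ∑ j, x j = S) :
    |S| ≤ Λ * (R : ℝ) ^ (-(1 / 2) : ℝ) := by
  have hb : 0 < b := by
    rw [← hU.eb]
    exact lt_of_lt_of_le hU.hg.a_pos hU.hg.ab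
  obtain ⟨t0, -, ht0⟩ := hg (tv M (c i)) 0 (tv_unit M (hc i))
  obtain ⟨p', hp', h1, h2⟩ := cell hU hL hR3 (pt G (tv M (c i)) t0)
  have hΛ0 : (1 : ℝ) ≤ Λ := by exact_mod_cast hU.L_one
  have hR0 : (1 : ℝ) ≤ R := by exact_mod_cast hR1
  have hx0 : 1 / (Λ * R) ≤ xi0 M R p' (c i) := xi_low hU M (hc i) hR1 hRr h1
  have hx0' : 0 < xi0 M R p' (c i) := lt_of_lt_of_le (by positivity) hx0
  -- Claim B
  have hB : ∀ j, xi M R p' (c j) ≠ 0 → Rel M (c i) (c j) := by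
    intro j hj
    have h3 : ∃ t, per Γ (BGM.bmq R p') (pt G (tv M (c j)) t) ≠ 0 := by
      by_contra h4
      push Not at h4
      exact hj (B3_zero M h4)
    obtain ⟨t, ht⟩ := h3
    obtain ⟨γ, hγ⟩ := h2 _ ht
    have h4 := ht0 j γ t hγ
    obtain ⟨k, hk, γ', hγ'⟩ := hA j
    have h5 : Same G (act G γ (tv M (c j))) (act G (γ * γ') (tv M (c k))) := by
      rw [← act_mul hU.hg, Same_act hU.hg]
      exact hγ'
    have h6 : Fl G (rh' b Λ R) (tv M (c i)) (act G (γ * γ') (tv M (c k))) 0 := by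
      apply Fl_mono (B5_rh_rh' hb Λ (by linarith))
      intro τ hτ
      obtain ⟨τ', h7⟩ := h4 τ hτ
      obtain ⟨τ'', h8⟩ := h5 τ'
      exact ⟨τ'', by rw [← h8]; exact h7⟩
    have h7 : Same G (tv M (c i)) (act G (γ * γ') (tv M (c k))) := by
      by_contra h8
      exact he ⟨c i, B3_mem_imf.2 ⟨i, hi, rfl⟩, c k, B3_mem_imf.2 ⟨k, hk, rfl⟩, γ * γ', 0, h6, h8⟩
    exact (rel_equiv M).trans (same_root hU M (hc i) (hc k) h7).2
      ((rel_equiv M).symm (same_root hU M (hc j) (hc k) hγ').2)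
  -- Claim C
  have hC : ∀ j, Rel M (c i) (c j) → xi M R p' (c j) = M.n (c j) * xi0 M R p' (c i) := by
    intro j hj
    obtain ⟨γ, hγ⟩ := rel_same hU M (hc i) (hc j) hj
    rw [B3_xi_eq hU M (hc j) hR1]
    congr 1
    exact same_int hU M (hc i) (hc j) hγ (per_cont hU.hX hR1 p').1 (per_cont hU.hX hR1 p').2
  have hsum := hS (fun j => lam j * xi M R p' (c j) / xi0 M R p' (c i)) (fun j hj => by
    rw [hC j hj]
    field_simp) (fun j hj => by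
    have h3 : xi M R p' (c j) = 0 := by
      by_contra h4
      exact hj (hB j h4)
    rw [h3, mul_zero, zero_div])
  have h3 : S * xi0 M R p' (c i) = ∑ j, lam j * xi M R p' (c j) := by
    rw [← hsum, Finset.sum_mul]
    refine Finset.sum_congr rfl fun j _ => ?_
    field_simp
  apply B5_pow (by linarith) hR0 hx0
  rw [h3]
  exact hs p' hp'

open Classical in
theorem cancel (D : Set Pl) (a b r : ℝ) (Λ q L0 : ℕ)
    (hL : ∀ z ∈ closure D, |z.1| ≤ (L0 : ℝ) - 1 ∧ |z.2| ≤ (L0 : ℝ) - 1) {K Λ1 : ℝ}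
    (hK : 0 ≤ K) (hΛ : 1 ≤ Λ1) : ∃ R0 : ℝ, 1 ≤ R0 ∧
    ∀ G : Dat Γ, UC D a b r Λ G → ∀ (M : Cl G) (R : ℕ), R0 ≤ R →
      ∀ c : Fin q → ConjClasses Γ, (∀ i, c i ≠ 1 ∧ M.l (c i) ≤ ell K R) →
      ∀ lam : Fin q → ℝ, (∀ i, 1 / Λ1 ≤ |lam i|) →
      (∀ p ∈ grid L0 R, |∑ i, lam i * xi M R p (c i)| ≤ (R : ℝ) ^ (-(3 / 2) : ℝ)) →
      ¬ Enc M (rh' b Λ R) (imf c fun i => 0 < lam i) →
      ∀ i, |∑ j, if Rel M (c i) (c j) then lam j * M.n (c j) else 0| ≤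
        Λ * (R : ℝ) ^ (-(1 / 2) : ℝ) := by
  obtain ⟨R1, hR1, hg⟩ := good (Γ := Γ) D a b r Λ q hK
  obtain ⟨R2, hR2, hdet⟩ := detect (Γ := Γ) D a b r Λ q L0 hL hK hΛ
  refine ⟨R1 + R2 + 3 * Λ + |1 / r| + (8 * (|cx b| * (3 * Λ) * Real.exp b)) ^ 2, ?_, ?_⟩
  · have h1 : (0 : ℝ) ≤ 3 * Λ := by positivity
    have h2 := abs_nonneg (1 / r)
    have h3 := sq_nonneg (8 * (|cx b| * (3 * Λ) * Real.exp b))
    linarith
  intro G hU M R hR c hc lam hl hs he i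
  have hb : 0 < b := by
    rw [← hU.eb]
    exact lt_of_lt_of_le hU.hg.a_pos hU.hg.ab
  have h1 : (0 : ℝ) ≤ 3 * Λ := by positivity
  have h2 := abs_nonneg (1 / r)
  have h3 := sq_nonneg (8 * (|cx b| * (3 * Λ) * Real.exp b))
  have hR1' : R1 ≤ R := by linarith
  have hR2' : R2 ≤ R := by linarith
  have hRone : (1 : ℝ) ≤ R := by linarith
  have hRn : 1 ≤ R := by exact_mod_cast hRone
  have hR3 : 3 * Λ ≤ R := by
    have : (3 * Λ : ℝ) ≤ R := by linarith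
    exact_mod_cast this
  have hΛ0 : (1 : ℝ) ≤ Λ := by exact_mod_cast hU.L_one
  have hRr : 1 ≤ Λ * R * r := by
    have h4 : 1 / r ≤ R := by
      have := le_abs_self (1 / r)
      linarith
    rw [div_le_iff₀ hU.r_pos] at h4
    have h5 : 0 ≤ (R : ℝ) * r := by linarith
    nlinarith
  have hρ : rh b Λ R ≤ 1 / 8 := B5_rh_le hb Λ hRone (by linarith)
  have hne : ∀ i, lam i ≠ 0 := by
    intro i h0
    have h4 := hl i
    rw [h0, abs_zero] at h4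
    have h5 : 0 < 1 / Λ1 := by positivity
    linarith
  have hA := B5_claimA hU M (fun i => (hc i).1) hne hρ (hdet G hU M R hR2' c hc lam hl hs).2 he
  obtain ⟨k, hk, γ, hγ⟩ := hA i
  have hik : Rel M (c i) (c k) := (same_root hU M (hc i).1 (hc k).1 hγ).2
  refine B5_pos hU hL M hRn hR3 hRr (fun i => (hc i).1) (hg G hU M R hR1' c hc) hA hs he hk ?_
  intro x hx hx'
  refine Finset.sum_congr rfl fun j _ => ?_
  by_cases hj : Rel M (c i) (c j)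
  · rw [if_pos hj]
    exact hx j ((rel_equiv M).trans ((rel_equiv M).symm hik) hj)
  · rw [if_neg hj]
    exact hx' j fun h => hj ((rel_equiv M).trans hik h)

end E35
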