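import Pool.Agent.LibBE35E.A3
import Pool.Agent.LibBE35E.A4

/-! Row C1 of BE35E (BE35, part E; architect helper85). Short closed geodesics do not follow each other. MEDIUM, 60 min.
Plan. `c5 = 1 / (16 b)` and `R0` such that `4 cx b R ^ (-1 / 4) exp (b (2 ls + 1)) < r` and `R ^ (-1 / 4) ≤ 1 / 8` for `R ≥ R0`, `ls = c5 log R` (`exp (2 b ls) = R ^ (1 / 8)`). `p = tv c`, `q = act γ (tv c')`, `h = rep c`,
`h' = γ * rep c' * γ⁻¹`: `h • pt p t = pt p (t + l)`, `h' • pt q t = pt q (t + l')`. `sync` gives `u, e` with `d (pt p (s + t)) (pt q (u + e t)) ≤ η := cx b ρ exp (b (2 ls + 1))` for `0 ≤ t ≤ 2 ls`. Put `h'' = h'` (`e = 1`) or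
`h'⁻¹` (`e = -1`): `h'' • pt q (u + e t) = pt q (u + e (t + l'))`. With `x = pt p s`: `d (h'' • x) (pt p (s + l')) ≤ 2 η`, so `d (h • h'' • x) (pt p (s + l' + l)) ≤ 2 η`, and
`d (h'' • h • x) (pt p (s + l + l')) ≤ d (h'' • pt p (s + l)) (h'' • pt q (u + e l)) + d (pt q (u + e (l + l'))) (pt p (s + l + l')) ≤ 2 η`. So `d (h h'' x) (h'' h x) ≤ 4 η < r` and `h h'' = h'' h` (`sys_eq`), `h h' = h' h`.
`h' • p` is also an axis of `h = h' h h'⁻¹` (`ax_conj`), so by `ax_unique` `h' • pt p t` is a point of the line `p`: the line `p` is `h'`-invariant. Every `pt q t` is within `d (pt q 0) (pt p 0) + l'` of the line `p`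
(move `t` to `[0, l')` by a power of `h'`), so `same_far` gives `Same q p` and `same_symm` the claim. -/

open MeasureTheory Set Filter Topology
open scoped ContDiff ENNReal NNReal ComplexConjugate

namespace E35

open BGS (Pl Surface grid per)
open SR85

variable {Γ : Type} [Group Γ] [MulAction Γ Pl] {D : Set Pl} {G : Dat Γ}
variable {a b r : ℝ} {Λ : ℕ}

/-- The constants. -/
private theorem C1_const {b r : ℝ} (hb : 0 < b) (hr : 0 < r) : ∃ R0 : ℝ, 1 ≤ R0 ∧ ∀ R : ℝ, R0 ≤ R →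
    R ^ (-(1 / 4) : ℝ) ≤ 1 / 8 ∧
      4 * (cx b * R ^ (-(1 / 4) : ℝ) * Real.exp (b * (2 * (1 / (16 * b) * Real.log R)))) < r := by
  have hcx : 0 < cx b := by unfold cx; positivity
  have h1 : Tendsto (fun R : ℝ => R ^ (-(1 / 4) : ℝ)) atTop (𝓝 0) :=
    tendsto_rpow_neg_atTop (by norm_num)
  have h2 : Tendsto (fun R : ℝ => R ^ (-(1 / 8) : ℝ)) atTop (𝓝 0) :=
    tendsto_rpow_neg_atTop (by norm_num)
  have h3 : ∀ᶠ R : ℝ in atTop, R ^ (-(1 / 4) : ℝ) < 1 / 8 := h1.eventually_lt_const (by norm_num)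
  have h4 : ∀ᶠ R : ℝ in atTop, R ^ (-(1 / 8) : ℝ) < r / (4 * cx b) :=
    h2.eventually_lt_const (by positivity)
  obtain ⟨R0, hR0⟩ := eventually_atTop.1 ((h3.and h4).and (eventually_ge_atTop 1))
  refine ⟨max R0 1, le_max_right _ _, fun R hR => ?_⟩
  obtain ⟨⟨h5, h6⟩, h7⟩ := hR0 R ((le_max_left _ _).trans hR)
  refine ⟨h5.le, ?_⟩
  have hR0' : 0 < R := by linarith
  have h8 : Real.exp (b * (2 * (1 / (16 * b) * Real.log R))) = R ^ ((1 / 8 : ℝ)) := by
    rw [Real.rpow_def_of_pos hR0']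
    congr 1
    field_simp
    ring
  have h9 : R ^ (-(1 / 4) : ℝ) * R ^ ((1 / 8 : ℝ)) = R ^ (-(1 / 8) : ℝ) := by
    rw [← Real.rpow_add hR0']
    norm_num
  rw [h8, mul_assoc (cx b), h9]
  rw [lt_div_iff₀ (by positivity)] at h6
  linarith

theorem short_same (D : Set Pl) (a b r : ℝ) (Λ : ℕ) : ∃ c5 R0 : ℝ, 0 < c5 ∧ 1 ≤ R0 ∧
    ∀ G : Dat Γ, UC D a b r Λ G → ∀ (M : Cl G) (R ρ : ℝ), R0 ≤ R →
      ρ ≤ R ^ (-(1 / 4) : ℝ) → ∀ c c' : ConjClasses Γ, c ≠ 1 → c' ≠ 1 →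
      M.l c ≤ c5 * Real.log R → M.l c' ≤ c5 * Real.log R → ∀ (γ : Γ) (s : ℝ),
      Fl G ρ (tv M c) (act G γ (tv M c')) s → Same G (tv M c) (act G γ (tv M c')) := by
  by_cases hbr : 0 < b ∧ 0 < r
  swap
  · refine ⟨1, 1, one_pos, le_rfl, fun G hU => ?_⟩
    exfalso
    apply hbr
    refine ⟨?_, hU.r_pos⟩
    rw [← hU.eb]
    exact lt_of_lt_of_le hU.hg.a_pos hU.hg.ab
  obtain ⟨hb, hr⟩ := hbr
  obtain ⟨R0, hR01, hR0⟩ := C1_const hb hr
  refine ⟨1 / (16 * b), R0, by positivity, hR01, ?_⟩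
  intro G hU M R ρ hR hρ c c' hc hc' hl hl' γ s hf
  have h := hU.hg
  obtain ⟨k1, k2⟩ := hR0 R hR
  set ls : ℝ := 1 / (16 * b) * Real.log R with hls
  have hp : ‖(tv M c).2‖ = 1 := tv_unit M hc
  have hq : ‖(act G γ (tv M c')).2‖ = 1 := act_unit h γ (tv_unit M hc')
  set p := tv M c with hpdef
  set q := act G γ (tv M c') with hqdef
  have hlpos := l_pos M hc
  have hlpos' := l_pos M hc'
  have hρ8 : ρ ≤ 1 / 8 := hρ.trans k1
  have hdnn : ∀ x y : Pl, 0 ≤ G.d x y := fun x y => norm_nonneg _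
  obtain ⟨u, e, he, hsync⟩ := sync h hp hq hρ8 hf
  rw [hU.eb] at hsync
  have hρ0 : 0 ≤ ρ := by
    obtain ⟨t', ht'⟩ := hf s ⟨le_rfl, by linarith⟩
    exact (hdnn _ _).trans ht'
  have hcx : 0 < cx b := by unfold cx; positivity
  set η : ℝ := cx b * R ^ (-(1 / 4) : ℝ) * Real.exp (b * (2 * ls)) with hη
  have hR1 : 1 ≤ R := hR01.trans hR
  have hRp : 0 < R := by linarith
  have hrp : 0 ≤ cx b * R ^ (-(1 / 4) : ℝ) := by positivity
  have hd : ∀ t : ℝ, 0 ≤ t → t ≤ 2 * ls → G.d (pt G p (s + t)) (pt G q (u + e * t)) ≤ η := by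
    intro t ht0 ht
    refine (hsync t).trans ?_
    rw [abs_of_nonneg ht0, hη]
    gcongr
  -- the translations
  set g0 : Γ := M.rep c with hg0
  set g1 : Γ := γ * M.rep c' * γ⁻¹ with hg1
  have t0 : ∀ t, g0 • pt G p t = pt G p (t + M.l c) := rep_pt M hc
  have t1 : ∀ t, g1 • pt G q t = pt G q (t + M.l c') := by
    intro t
    rw [hqdef, pt_act h, pt_act h, ← rep_pt M hc' t, hg1, mul_smul, mul_smul, inv_smul_smul]
  obtain ⟨g2, hg2, t2⟩ : ∃ g2 : Γ, (g2 = g1 ∨ g2 = g1⁻¹) ∧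
      ∀ t, g2 • pt G q (u + e * t) = pt G q (u + e * (t + M.l c')) := by
    rcases he with he | he
    · refine ⟨g1, Or.inl rfl, fun t => ?_⟩
      rw [t1, he]
      congr 1
      ring
    · refine ⟨g1⁻¹, Or.inr rfl, fun t => ?_⟩
      rw [inv_smul_eq_iff, t1, he]
      congr 1
      ring
  have hls0 : 0 < ls := lt_of_lt_of_le hlpos hl
  have hcomm : g0 * g2 = g2 * g0 := by
    apply sys_eq hU (x := pt G p (s + 0))
    have e1 : G.d ((g0 * g2) • pt G p (s + 0)) ((g0 * g2) • pt G q (u + e * 0)) ≤ η := by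
      rw [d_smul h]
      exact hd 0 le_rfl (by linarith)
    have e2 : G.d ((g0 * g2) • pt G q (u + e * 0)) (pt G p (s + (M.l c' + M.l c))) ≤ η := by
      rw [mul_smul, t2 0, ← add_assoc, ← t0, d_smul h, h.d_symm, zero_add]
      exact hd _ hlpos'.le (by linarith)
    have e3 : G.d (pt G p (s + (M.l c' + M.l c))) (pt G q (u + e * (M.l c' + M.l c))) ≤ η :=
      hd _ (by linarith) (by linarith)
    have e4 : G.d (pt G q (u + e * (M.l c' + M.l c))) ((g2 * g0) • pt G p (s + 0)) ≤ η := by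
      rw [mul_smul, t0, add_comm (M.l c') (M.l c), ← t2, d_smul h, h.d_symm, add_zero]
      exact hd _ hlpos.le (by linarith)
    have e5 := h.d_tri ((g0 * g2) • pt G p (s + 0)) ((g0 * g2) • pt G q (u + e * 0))
      ((g2 * g0) • pt G p (s + 0))
    have e6 := h.d_tri ((g0 * g2) • pt G q (u + e * 0)) (pt G p (s + (M.l c' + M.l c)))
      ((g2 * g0) • pt G p (s + 0))
    have e7 := h.d_tri (pt G p (s + (M.l c' + M.l c))) (pt G q (u + e * (M.l c' + M.l c)))
      ((g2 * g0) • pt G p (s + 0))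
    linarith
  have hconj : g1 * g0 * g1⁻¹ = g0 := by
    rcases hg2 with h5 | h5
    · rw [h5] at hcomm
      rw [← hcomm]
      group
    · rw [h5] at hcomm
      have h6 : g1 * g0 = g0 * g1 := by
        have h7 := congrArg (fun z => g1 * z * g1) hcomm
        simpa [mul_assoc] using h7
      rw [h6]
      group
  -- the line of `p` is invariant
  obtain ⟨hax, -, hE⟩ := ax_conj hU.hX h (M.ax c hc) g1
  rw [show g1 * M.rep c * g1⁻¹ = M.rep c from hconj] at hax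
  obtain ⟨-, s₀, hs₀⟩ := ax_unique hU.hX h (M.ax c hc) hax
  have t3 : ∀ t, g1 • pt G p t = pt G p (t + s₀) := by
    intro t
    have h5 := hs₀ t
    rw [hE t] at h5
    exact h5
  have hsame : Same G q p := by
    refine same_far h hq hp (m := M.l c' + G.d (pt G q 0) (pt G p 0)) fun t => ?_
    set k : ℤ := ⌊t / M.l c'⌋ with hk
    have hk1 : (k : ℝ) * M.l c' ≤ t := by
      rw [← le_div_iff₀ hlpos']
      exact Int.floor_le _
    have hk2 : t < (k + 1) * M.l c' := by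
      rw [← div_lt_iff₀ hlpos']
      exact Int.lt_floor_add_one _
    refine ⟨0 + k * s₀, ?_⟩
    have h6 : pt G q t = g1 ^ k • pt G q (t - k * M.l c') := by
      rw [zpow_pt t1]
      congr 1
      ring
    rw [h6, ← zpow_pt t3, d_smul h]
    have h7 := h.d_tri (pt G q (t - k * M.l c')) (pt G q 0) (pt G p 0)
    rw [d_pt h hq] at h7
    have h8 : |0 - (t - k * M.l c')| ≤ M.l c' := by
      rw [abs_le]
      constructor <;> linarith
    linarith
  exact same_symm h hq hp hsame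

end E35
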