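import Pool.Agent.LibBE35E.P2

/-! Row C2 of BE35E (BE35, part E; architect helper85). The number of partners of a family (step (8) of BE35_E.md; helper86):
`E35.partners`, see P2. -/
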