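import Pool.Agent.LibBE35E.T0
import Pool.Agent.LibSR85.P3
import Pool.Agent.LibSR85.M2

/-! Row D1 of BE35E (BE35, part E; architect helper85). Areas of balls, and the integral of the reciprocal of the Jacobi field. MEDIUM, 60 min.
Plan. `ar_lint`: `lintegral_withDensity_eq_lintegral_mul` (density measurable by `HG.rho_cont`). `ar_low`: `HG.polar` with the indicator of the ball: `d x (E x (t e^{iθ})) = t` (`d_E`), so the area is
`∫⁻ t in Ioc 0 s, ∫⁻ θ in Ioc (-π) π, ofReal (B x e^{iθ} t)`, and `t ≤ sinh (a t) / a ≤ B` (`B_low`, `Real.self_le_sinh_iff`), `∫_0^s 2 π t dt = π s²`. `ar_upp`: `B ≤ sinh (b t) / b ≤ t exp (b s)`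
(`jac_upper` with `jac_B`, `k_cont`; `sinh y ≤ y cosh y ≤ y exp y` for `y ≥ 0`, `A3_sinh`). `J_int`: `polar` with `f y = indicator (d x y ≤ T) * ofReal (1 / J x y)`, `J_E`, `B_pos`:
`ofReal (1 / B) * ofReal B = 1`, so the integral is `2 π T`. (`J_meas`, measurability of the ball: it is closed, `d_cont`.) -/

open MeasureTheory Set Filter Topology
open scoped ContDiff ENNReal NNReal ComplexConjugate

namespace E35

open BGS (Pl Surface grid per)
open SR85

variable {Γ : Type} [Group Γ] [MulAction Γ Pl] {D : Set Pl} {G : Dat Γ}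
variable {a b r : ℝ} {Λ : ℕ}

/-- The area. -/
noncomputable def ar (G : Dat Γ) : Measure Pl :=
  (volume : Measure Pl).withDensity fun z => ENNReal.ofReal (G.rho z)

theorem ar_lint (h : HG D G) {f : Pl → ℝ≥0∞} (hf : Measurable f) :
    ∫⁻ x, f x ∂(ar G) = ∫⁻ x, f x * ENNReal.ofReal (G.rho x) := by
  unfold ar
  rw [lintegral_withDensity_eq_lintegral_mul _ h.rho_cont.measurable.ennreal_ofReal hf]
  refine lintegral_congr fun x => ?_
  rw [Pi.mul_apply, mul_comm]

theorem bl_meas (h : HG D G) (x : Pl) (s : ℝ) : MeasurableSet {y : Pl | G.d x y ≤ s} := by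
  have hc : Continuous fun y : Pl => G.d x y :=
    h.V_cont.norm.comp (continuous_const.prodMk continuous_id)
  exact (isClosed_le hc continuous_const).measurableSet

/-- Integrals over balls in polar coordinates. -/
theorem D1_polar (h : HG D G) (x : Pl) (s : ℝ) {g : Pl → ℝ≥0∞} (hg : Measurable g) :
    ∫⁻ y in {y | G.d x y ≤ s}, g y ∂(ar G) =
      ∫⁻ r in Ioc (0 : ℝ) s, ∫⁻ θ in Ioc (-Real.pi) Real.pi,
        g (G.E x ((r : ℂ) * Complex.exp ((θ : ℂ) * Complex.I))) *
          ENNReal.ofReal (G.B x (Complex.exp ((θ : ℂ) * Complex.I)) r) := by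
  have hS := bl_meas h x s
  rw [← lintegral_indicator hS, ar_lint h (hg.indicator hS), h.polar x _ (hg.indicator hS)]
  have h1 : ∀ r ∈ Ioi (0 : ℝ), (∫⁻ θ in Ioc (-Real.pi) Real.pi,
      ({y | G.d x y ≤ s}).indicator g (G.E x ((r : ℂ) * Complex.exp ((θ : ℂ) * Complex.I))) *
          ENNReal.ofReal (G.B x (Complex.exp ((θ : ℂ) * Complex.I)) r)) =
      (Ioc (0 : ℝ) s).indicator (fun r => ∫⁻ θ in Ioc (-Real.pi) Real.pi,
        g (G.E x ((r : ℂ) * Complex.exp ((θ : ℂ) * Complex.I))) *
          ENNReal.ofReal (G.B x (Complex.exp ((θ : ℂ) * Complex.I)) r)) r := by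
    intro r hr
    have hr0 : 0 < r := hr
    have hd : ∀ θ : ℝ, G.d x (G.E x ((r : ℂ) * Complex.exp ((θ : ℂ) * Complex.I))) = r := by
      intro θ
      rw [d_E h x (Complex.norm_exp_ofReal_mul_I θ), abs_of_pos hr0]
    by_cases hrs : r ≤ s
    · rw [indicator_of_mem (show r ∈ Ioc (0 : ℝ) s from ⟨hr0, hrs⟩)]
      refine lintegral_congr fun θ => ?_
      rw [indicator_of_mem]
      show G.d x _ ≤ s
      rw [hd θ]
      exact hrs
    · rw [indicator_of_notMem (fun hh : r ∈ Ioc (0 : ℝ) s => hrs hh.2)]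
      have h2 : ∀ θ : ℝ, ({y | G.d x y ≤ s}).indicator g
          (G.E x ((r : ℂ) * Complex.exp ((θ : ℂ) * Complex.I))) *
          ENNReal.ofReal (G.B x (Complex.exp ((θ : ℂ) * Complex.I)) r) = 0 := by
        intro θ
        rw [indicator_of_notMem, zero_mul]
        intro hh
        have h3 : G.d x (G.E x ((r : ℂ) * Complex.exp ((θ : ℂ) * Complex.I))) ≤ s := hh
        rw [hd θ] at h3
        exact hrs h3
      simp only [h2, lintegral_zero]
  rw [setLIntegral_congr_fun measurableSet_Ioi h1, lintegral_indicator measurableSet_Ioc,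
    Measure.restrict_restrict measurableSet_Ioc]
  have h4 : Ioc (0 : ℝ) s ∩ Ioi 0 = Ioc 0 s := inter_eq_left.2 fun r hr => hr.1
  rw [h4]

theorem D1_const (c : ℝ≥0∞) :
    ∫⁻ _ in Ioc (-Real.pi) Real.pi, c ∂(volume : Measure ℝ) = c * ENNReal.ofReal (2 * Real.pi) := by
  rw [setLIntegral_const, Real.volume_Ioc]
  congr 2
  ring

theorem D1_lin {c s : ℝ} (hc : 0 ≤ c) (hs : 0 < s) :
    ∫⁻ r in Ioc (0 : ℝ) s, ENNReal.ofReal (c * r) = ENNReal.ofReal (c * s ^ 2 / 2) := by
  have hint : IntegrableOn (fun r : ℝ => c * r) (Ioc 0 s) :=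
    (by fun_prop : Continuous fun r : ℝ => c * r).integrableOn_Ioc
  rw [← ofReal_integral_eq_lintegral_ofReal hint]
  · rw [← intervalIntegral.integral_of_le hs.le]
    congr 1
    rw [intervalIntegral.integral_const_mul, integral_id]
    ring
  · refine (ae_restrict_iff' measurableSet_Ioc).2 (Eventually.of_forall fun r hr => ?_)
    exact mul_nonneg hc hr.1.le

theorem D1_ar (h : HG D G) (x : Pl) (s : ℝ) : ar G {y | G.d x y ≤ s} =
      ∫⁻ r in Ioc (0 : ℝ) s, ∫⁻ θ in Ioc (-Real.pi) Real.pi,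
          ENNReal.ofReal (G.B x (Complex.exp ((θ : ℂ) * Complex.I)) r) := by
  have h1 := D1_polar h x s (g := fun _ => 1) measurable_const
  simp only [one_mul] at h1
  rw [← h1, setLIntegral_const, one_mul]

theorem ar_low (h : HG D G) (x : Pl) {s : ℝ} (hs : 0 < s) :
    ENNReal.ofReal (Real.pi * s ^ 2) ≤ ar G {y | G.d x y ≤ s} := by
  rw [D1_ar h x s]
  calc ENNReal.ofReal (Real.pi * s ^ 2) = ∫⁻ r in Ioc (0 : ℝ) s, ENNReal.ofReal (2 * Real.pi * r) := by
        rw [D1_lin (by positivity) hs]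
        congr 1
        ring
    _ ≤ _ := by
        refine setLIntegral_mono' measurableSet_Ioc fun r hr => ?_
        have h1 : ENNReal.ofReal (2 * Real.pi * r) =
            ∫⁻ _ in Ioc (-Real.pi) Real.pi, ENNReal.ofReal r ∂(volume : Measure ℝ) := by
          rw [D1_const, ← ENNReal.ofReal_mul hr.1.le, mul_comm r]
        rw [h1]
        refine lintegral_mono fun θ => ENNReal.ofReal_le_ofReal ?_
        have h2 := B_low h x (Complex.norm_exp_ofReal_mul_I θ) hr.1
        refine le_trans ?_ h2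
        rw [le_div_iff₀ h.a_pos, mul_comm]
        exact Real.self_le_sinh_iff.2 (mul_nonneg h.a_pos.le hr.1.le)

theorem ar_upp (h : HG D G) (x : Pl) {s : ℝ} (hs : 0 < s) :
    ar G {y | G.d x y ≤ s} ≤ ENNReal.ofReal (Real.pi * s ^ 2 * Real.exp (G.b * s)) := by
  rw [D1_ar h x s]
  have hb : 0 < G.b := lt_of_lt_of_le h.a_pos h.ab
  calc _ ≤ ∫⁻ r in Ioc (0 : ℝ) s, ENNReal.ofReal (2 * Real.pi * Real.exp (G.b * s) * r) := by
        refine setLIntegral_mono' measurableSet_Ioc fun r hr => ?_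
        have h1 : ENNReal.ofReal (2 * Real.pi * Real.exp (G.b * s) * r) =
            ∫⁻ _ in Ioc (-Real.pi) Real.pi, ENNReal.ofReal (r * Real.exp (G.b * s))
              ∂(volume : Measure ℝ) := by
          rw [D1_const, ← ENNReal.ofReal_mul (mul_nonneg hr.1.le (Real.exp_pos _).le)]
          congr 1
          ring
        rw [h1]
        refine lintegral_mono fun θ => ENNReal.ofReal_le_ofReal ?_
        have hu := Complex.norm_exp_ofReal_mul_I θ
        have h2 := (jac_upper h.a_pos (k_cont h x _) (fun _ => h.K_le _) h.ab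
          (fun _ => h.K_ge _) (jac_B h x hu) (h.B_zero x _ hu) (h.Bd_zero x _ hu) hr.1).2
        refine h2.trans ?_
        rw [div_le_iff₀ hb]
        have h3 := A3_sinh (mul_nonneg hb.le hr.1.le)
        have h4 : Real.cosh (G.b * r) ≤ Real.exp (G.b * s) := by
          have h5 : Real.cosh (G.b * r) ≤ Real.exp (G.b * r) := by
            rw [Real.cosh_eq]
            have : Real.exp (-(G.b * r)) ≤ Real.exp (G.b * r) :=
              Real.exp_le_exp.2 (by have := mul_nonneg hb.le hr.1.le; linarith)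
            linarith
          exact h5.trans (Real.exp_le_exp.2 (mul_le_mul_of_nonneg_left hr.2 hb.le))
        calc Real.sinh (G.b * r) ≤ G.b * r * Real.cosh (G.b * r) := h3
          _ ≤ G.b * r * Real.exp (G.b * s) :=
              mul_le_mul_of_nonneg_left h4 (mul_nonneg hb.le hr.1.le)
          _ = r * Real.exp (G.b * s) * G.b := by ring
    _ = ENNReal.ofReal (Real.pi * s ^ 2 * Real.exp (G.b * s)) := by
        rw [D1_lin (by positivity) hs]
        congr 1
        ring

theorem J_int (h : HG D G) (x : Pl) {T : ℝ} (hT : 0 < T) :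
    ∫⁻ y in {y | G.d x y ≤ T}, ENNReal.ofReal (1 / G.J x y) ∂(ar G) ≤
      ENNReal.ofReal (2 * Real.pi * T) := by
  have hm : Measurable fun y : Pl => ENNReal.ofReal (1 / G.J x y) :=
    (((J_meas h).comp (measurable_const.prodMk measurable_id)).const_div 1).ennreal_ofReal
  rw [D1_polar h x T hm]
  calc _ ≤ ∫⁻ _ in Ioc (0 : ℝ) T, ENNReal.ofReal (2 * Real.pi) := by
        refine setLIntegral_mono' measurableSet_Ioc fun r hr => ?_
        have h1 : ENNReal.ofReal (2 * Real.pi) =
            ∫⁻ _ in Ioc (-Real.pi) Real.pi, 1 ∂(volume : Measure ℝ) := by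
          rw [D1_const, one_mul]
        rw [h1]
        refine lintegral_mono fun θ => le_of_eq ?_
        have hu := Complex.norm_exp_ofReal_mul_I θ
        have hB := B_pos h x hu hr.1
        show ENNReal.ofReal (1 / G.J x (G.E x ((r : ℂ) * Complex.exp ((θ : ℂ) * Complex.I)))) *
          ENNReal.ofReal (G.B x (Complex.exp ((θ : ℂ) * Complex.I)) r) = 1
        rw [J_E h x hu hr.1, ← ENNReal.ofReal_mul (one_div_pos.2 hB).le,
          one_div_mul_cancel hB.ne', ENNReal.ofReal_one]
    _ = ENNReal.ofReal (2 * Real.pi * T) := by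
        rw [setLIntegral_const, Real.volume_Ioc, sub_zero,
          ← ENNReal.ofReal_mul (by positivity)]
    _ ≤ _ := le_rfl

end E35
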