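import Pool.Agent.LibBE35E.T0
import Pool.Agent.LibSR85.B1
import Pool.Agent.LibSR85.P3
import Pool.Agent.LibSR85.L1

/-! Row D9 of BE35E (BE35, part E; architect helper85). The directions which pass near a point. MEDIUM, 60 min.
Plan. Let `z = E x (t e^{iθ})`, `d z y ≤ 2 ρ ≤ r / 4` (choice of `N`), so `z ≠ x`, `t ≠ 0` and `di x z = e^{iθ}` (`t > 0`) or `- e^{iθ}` (`t < 0`) (`di_E`). `angle` (LibSR85/B1) with `o = x`, the points `y`, `z` and `j = c J x y`: for every `w` with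
`d y w ≤ d y z ≤ 2 ρ`: `w ≠ x`, and if `1 ≤ d x y` then `UC.jac` (`x' = x`) gives `|log J x y - log J x w| ≤ Λ (1 + T) ^ Λ 2 ρ ≤ 1 / 2`, so `J x w ≥ J x y / 2`; if `d x y < 1` then `J x w ≥ d x w ≥ r / 2` (`J_low`, `self_le_sinh`) and
`J x y ≤ sinh (b d) / b ≤ sinh b / b` (`J_upp`), so `J x w ≥ (r b / (2 sinh b)) J x y`. So `c = min (1 / 2) (r b / (2 sinh b))` and `‖di x y - di x z‖ ≤ 2 ρ / (c J x y)`: `e^{iθ}` is within this of `di x y` or of `- di x y`: `circ_cone` (LibSR85/L1) twice, total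
`≤ 32 ρ / (c J x y)`. -/

open MeasureTheory Set Filter Topology
open scoped ContDiff ENNReal NNReal ComplexConjugate

namespace E35

open BGS (Pl Surface grid per)
open SR85

variable {Γ : Type} [Group Γ] [MulAction Γ Pl] {D : Set Pl} {G : Dat Γ}
variable {a b r : ℝ} {Λ : ℕ}

theorem D9_jac (hU : UC D a b r Λ G) {x y w : Pl} {T ρ : ℝ} (hr : r ≤ G.d x y)
    (hT : G.d x y ≤ T) (h1 : 2 * ρ ≤ r / 4)
    (h2 : Λ * (1 + T) ^ Λ * (2 * ρ) ≤ 1 / 2) (hw : G.d y w ≤ 2 * ρ) :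
    w ≠ x ∧ min (1 / 2) (r * b / (2 * Real.sinh b)) * G.J x y ≤ G.J x w := by
  have hg := hU.hg
  have hb : 0 < b := by
    rw [← hU.eb]
    exact lt_of_lt_of_le hU.hg.a_pos hU.hg.ab
  have hrp := hU.r_pos
  have hr1 := hU.r_le
  have hd0 : 0 ≤ G.d y w := norm_nonneg _
  have hd1 : 0 ≤ G.d x y := norm_nonneg _
  have hxw : 3 * r / 4 ≤ G.d x w := by
    have := hg.d_tri x w y
    rw [hg.d_symm w y] at this
    linarith
  have hne : x ≠ w := by
    rintro rfl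
    rw [d_self hg] at hxw
    linarith
  have hne' : x ≠ y := by
    rintro rfl
    rw [d_self hg] at hr
    linarith
  have hJ1 := J_pos hg hne'
  have hJ2 := J_pos hg hne
  refine ⟨hne.symm, ?_⟩
  rcases le_or_gt 1 (G.d x y) with h3 | h3
  · have h4 := hU.jac x y x w h3 (by rw [d_self hg]; linarith)
    rw [d_self hg, zero_add] at h4
    have h5 : Λ * (1 + G.d x y) ^ Λ * G.d y w ≤ 1 / 2 := by
      refine le_trans ?_ h2
      have h6 : (1 + G.d x y) ^ Λ ≤ (1 + T) ^ Λ := pow_le_pow_left₀ (by linarith) (by linarith) Λ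
      have h7 : (0 : ℝ) ≤ Λ := Nat.cast_nonneg Λ
      have h8 : 0 ≤ (1 + G.d x y) ^ Λ := by positivity
      have h9 : (Λ : ℝ) * (1 + G.d x y) ^ Λ ≤ Λ * (1 + T) ^ Λ := mul_le_mul_of_nonneg_left h6 h7
      exact mul_le_mul h9 hw hd0 ((mul_nonneg h7 h8).trans h9)
    have h6 := (abs_le.1 (h4.trans h5)).2
    have h7 : G.J x y * Real.exp (-(1 / 2)) ≤ G.J x w := by
      have h8 : Real.log (G.J x y) + -(1 / 2) ≤ Real.log (G.J x w) := by linarith
      have h9 := Real.exp_le_exp.2 h8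
      rwa [Real.exp_add, Real.exp_log hJ1, Real.exp_log hJ2] at h9
    have h8 := Real.add_one_le_exp (-(1 / 2) : ℝ)
    have h9 : min (1 / 2) (r * b / (2 * Real.sinh b)) ≤ 1 / 2 := min_le_left _ _
    nlinarith
  · have h4 : G.d x w ≤ G.J x w := by
      refine le_trans ?_ (J_low hg hne)
      rw [le_div_iff₀ hg.a_pos, mul_comm]
      exact Real.self_le_sinh_iff.2 (mul_nonneg hg.a_pos.le (norm_nonneg _))
    have hs : 0 < Real.sinh b := Real.sinh_pos_iff.2 hb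
    have h5 : G.J x y ≤ Real.sinh b / b := by
      have h6 := J_upp hg hne'
      rw [hU.eb] at h6
      refine h6.trans (div_le_div_of_nonneg_right (Real.sinh_le_sinh.2 ?_) hb.le)
      nlinarith
    have h6 : min (1 / 2) (r * b / (2 * Real.sinh b)) ≤ r * b / (2 * Real.sinh b) :=
      min_le_right _ _
    have h7 : min (1 / 2) (r * b / (2 * Real.sinh b)) * G.J x y ≤
        r * b / (2 * Real.sinh b) * (Real.sinh b / b) :=
      mul_le_mul h6 h5 hJ1.le (by positivity)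
    have h8 : r * b / (2 * Real.sinh b) * (Real.sinh b / b) = r / 2 := by
      field_simp
    linarith

theorem cone (D : Set Pl) (a b r : ℝ) (Λ : ℕ) : ∃ N : ℕ, ∀ G : Dat Γ, UC D a b r Λ G →
    ∀ (x y : Pl) (T ρ : ℝ), r ≤ G.d x y → G.d x y ≤ T → 0 < ρ → N * (1 + T) ^ N * ρ ≤ 1 →
      volume {θ : ℝ | θ ∈ Ioc (-Real.pi) Real.pi ∧ ∃ t : ℝ,
        G.d (G.E x ((t : ℂ) * Complex.exp ((θ : ℂ) * Complex.I))) y ≤ 2 * ρ} ≤
        ENNReal.ofReal (N * ρ / G.J x y) := by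
  obtain ⟨N, hN⟩ := exists_nat_ge (|8 / r| + 4 * Λ + |32 / min (1 / 2) (r * b / (2 * Real.sinh b))|)
  refine ⟨N, fun G hU x y T ρ hr hT hρ hNρ => ?_⟩
  have hg := hU.hg
  have hb : 0 < b := by
    rw [← hU.eb]
    exact lt_of_lt_of_le hU.hg.a_pos hU.hg.ab
  have hrp := hU.r_pos
  have hs : 0 < Real.sinh b := Real.sinh_pos_iff.2 hb
  have hc : 0 < min (1 / 2) (r * b / (2 * Real.sinh b)) :=
    lt_min (by norm_num) (by positivity)
  have ha1 := abs_nonneg (8 / r)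
  have ha2 := abs_nonneg (32 / min (1 / 2) (r * b / (2 * Real.sinh b)))
  have hΛ0 : (0 : ℝ) ≤ Λ := Nat.cast_nonneg Λ
  have hN0 : (0 : ℝ) ≤ N := Nat.cast_nonneg N
  have hN1 : 8 / r ≤ N := by linarith [le_abs_self (8 / r)]
  have hN2 : 4 * (Λ : ℝ) ≤ N := by linarith
  have hN3 : 32 / min (1 / 2) (r * b / (2 * Real.sinh b)) ≤ N := by
    linarith [le_abs_self (32 / min (1 / 2) (r * b / (2 * Real.sinh b)))]
  have hΛN : Λ ≤ N := by
    have : (Λ : ℝ) ≤ N := by linarith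
    exact_mod_cast this
  have hT0 : 0 ≤ T := hrp.le.trans (hr.trans hT)
  have h1T : 1 ≤ (1 + T) ^ N := one_le_pow₀ (by linarith)
  have h0 : N * ρ ≤ 1 := by
    refine le_trans ?_ hNρ
    have : (N : ℝ) * 1 ≤ N * (1 + T) ^ N := mul_le_mul_of_nonneg_left h1T hN0
    rw [mul_one] at this
    exact mul_le_mul_of_nonneg_right this hρ.le
  have h1 : 2 * ρ ≤ r / 4 := by
    have h3 : 8 / r * ρ ≤ 1 := (mul_le_mul_of_nonneg_right hN1 hρ.le).trans h0
    rw [div_mul_eq_mul_div, div_le_one hrp] at h3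
    linarith
  have h2 : Λ * (1 + T) ^ Λ * (2 * ρ) ≤ 1 / 2 := by
    have h3 : (1 + T) ^ Λ ≤ (1 + T) ^ N := pow_le_pow_right₀ (by linarith) hΛN
    have h4 : 4 * (Λ : ℝ) * (1 + T) ^ Λ ≤ N * (1 + T) ^ N :=
      mul_le_mul hN2 h3 (by positivity) hN0
    have h5 := (mul_le_mul_of_nonneg_right h4 hρ.le).trans hNρ
    linarith
  have hne : x ≠ y := by
    rintro rfl
    rw [d_self hg] at hr
    linarith
  have hJ := J_pos hg hne
  set c := min (1 / 2) (r * b / (2 * Real.sinh b)) with hcdef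
  have hj : 0 < c * G.J x y := mul_pos hc hJ
  have hε : 0 ≤ 2 * ρ / (c * G.J x y) := by positivity
  have hsub : {θ : ℝ | θ ∈ Ioc (-Real.pi) Real.pi ∧ ∃ t : ℝ,
      G.d (G.E x ((t : ℂ) * Complex.exp ((θ : ℂ) * Complex.I))) y ≤ 2 * ρ} ⊆
      {θ : ℝ | θ ∈ Ioc (-Real.pi) Real.pi ∧
        ‖Complex.exp ((θ : ℂ) * Complex.I) - G.di x y‖ ≤ 2 * ρ / (c * G.J x y)} ∪
      {θ : ℝ | θ ∈ Ioc (-Real.pi) Real.pi ∧
        ‖Complex.exp ((θ : ℂ) * Complex.I) - -G.di x y‖ ≤ 2 * ρ / (c * G.J x y)} := by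
    rintro θ ⟨hθ, t, ht⟩
    have hu : ‖Complex.exp ((θ : ℂ) * Complex.I)‖ = 1 := Complex.norm_exp_ofReal_mul_I θ
    rw [hg.d_symm] at ht
    have hang := angle hg x y _ hj (fun w hw => D9_jac hU hr hT h1 h2 (hw.trans ht))
    have hang' := hang.trans (div_le_div_of_nonneg_right ht hj.le)
    have ht0 : t ≠ 0 := by
      rintro rfl
      apply (D9_jac hU hr hT h1 h2 ht).1
      rw [Complex.ofReal_zero, zero_mul, hg.E_zero]
    rcases lt_or_gt_of_ne ht0 with ht1 | ht1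
    · right
      refine ⟨hθ, ?_⟩
      have hz := di_E hg x (u := -Complex.exp ((θ : ℂ) * Complex.I))
        (by rw [norm_neg]; exact hu) (neg_pos.2 ht1)
      rw [show ((-t : ℝ) : ℂ) * -Complex.exp ((θ : ℂ) * Complex.I) =
        t * Complex.exp ((θ : ℂ) * Complex.I) by push_cast; ring] at hz
      rw [hz] at hang'
      rw [sub_neg_eq_add, add_comm, ← sub_neg_eq_add]
      exact hang'
    · left
      refine ⟨hθ, ?_⟩
      rw [di_E hg x hu ht1] at hang'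
      rw [norm_sub_rev]
      exact hang'
  refine (measure_mono hsub).trans ((measure_union_le _ _).trans ?_)
  refine (add_le_add (circ_cone (di_norm hg hne) hε)
    (circ_cone (by rw [norm_neg]; exact di_norm hg hne) hε)).trans ?_
  rw [← ENNReal.ofReal_add (by positivity) (by positivity)]
  apply ENNReal.ofReal_le_ofReal
  have h3 : 8 * (2 * ρ / (c * G.J x y)) + 8 * (2 * ρ / (c * G.J x y)) =
      32 / c * (ρ / G.J x y) := by
    field_simp
    norm_num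
  rw [h3, mul_div_assoc]
  exact mul_le_mul_of_nonneg_right hN3 (by positivity)

end E35
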