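import Pool.Agent.LibBE35E.D2
import Pool.Agent.LibBE35E.D9
import Pool.Agent.LibBGS.Cover

/-! Row D10 of BE35E (BE35, part E; architect helper85). The vectors which return to a translate of their base point. MEDIUM, 60 min.
Plan. `Rt G T ρ` is a countable union of closed sets (`pt` is continuous in `p`: `HG.E_cont`; `g • ·` is smooth). Invariance under `act`: `pt_act`, conjugate `γ`. Measure: `muS_lint`/`muD` (restriction to `D ×ˢ univ`): `muD D G (Rt ..) = ∫⁻ x in D, volume {θ ∈ Ioc (-π) π | (x, e^{iθ}) ∈ Rt} * ofReal (rho x)`.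
For fixed `x`: if `(x, e^{iθ}) ∈ Rt` with `γ, j` then `d x (γ • x) ≤ |j ρ| + 2 ρ ≤ T + 1`; the set of these `γ ≠ 1` is finite (`cnt_all`), `d x (γ • x) ≥ r` (`UC.sys`), and by `cone` (with `T + 1`) each has measure `≤ N₁ ρ / J x (γ • x)`; `sum_J` gives the total `≤ N₁ ρ N₂ (2 + T) ^ N₂`.
`∫⁻ x in D, ofReal (rho x) = 1` (`HG.rho_int`, or `muS_D`: `muS G (D ×ˢ univ) = ofReal (2 π)`). -/

open MeasureTheory Set Filter Topology
open scoped ContDiff ENNReal NNReal ComplexConjugate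

namespace E35

open BGS (Pl Surface grid per)
open SR85

variable {Γ : Type} [Group Γ] [MulAction Γ Pl] {D : Set Pl} {G : Dat Γ}
variable {a b r : ℝ} {Λ : ℕ}

/-- The vectors which come back near a translate of their base point. -/
def Rt (G : Dat Γ) (T ρ : ℝ) : Set (Pl × ℂ) :=
  {p | ∃ γ : Γ, γ ≠ 1 ∧ ∃ j : ℤ, |(j : ℝ) * ρ| ≤ T ∧ G.d (pt G p (j * ρ)) (γ • p.1) ≤ 2 * ρ}

theorem rt_meas (hU : UC D a b r Λ G) (T ρ : ℝ) : MeasurableSet (Rt G T ρ) ∧
    ∀ (g : Γ) (p : Pl × ℂ), act G g p ∈ Rt G T ρ ↔ p ∈ Rt G T ρ := by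
  have h := hU.hg
  have hX := hU.hX
  have hcount : Countable Γ := BGS.Cover_countable hX
  have hpt : ∀ t : ℝ, Continuous fun p : Pl × ℂ => pt G p t := by
    intro t
    have h0 : Continuous fun p : Pl × ℂ => (p.1, (t : ℂ) * p.2) := by fun_prop
    exact h.E_cont.comp h0
  constructor
  · have e1 : Rt G T ρ = ⋃ γ : Γ, ⋃ j : ℤ, {p : Pl × ℂ | (γ ≠ 1 ∧ |(j : ℝ) * ρ| ≤ T) ∧
        G.d (pt G p (j * ρ)) (γ • p.1) ≤ 2 * ρ} := by
      ext p
      simp only [Rt, Set.mem_ofPred_eq, Set.mem_iUnion]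
      constructor
      · rintro ⟨γ, h1, j, h2, h3⟩
        exact ⟨γ, j, ⟨h1, h2⟩, h3⟩
      · rintro ⟨γ, j, ⟨h1, h2⟩, h3⟩
        exact ⟨γ, h1, j, h2, h3⟩
    rw [e1]
    refine MeasurableSet.iUnion fun γ => MeasurableSet.iUnion fun j => ?_
    refine (MeasurableSet.const _).inter ?_
    have hc : Continuous fun p : Pl × ℂ => G.d (pt G p (j * ρ)) (γ • p.1) :=
      (d_cont h).comp ((hpt _).prodMk ((hX.smooth γ).continuous.comp continuous_fst))
    exact (isClosed_le hc continuous_const).measurableSet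
  · intro g p
    constructor
    · rintro ⟨γ, h1, j, h2, h3⟩
      refine ⟨g⁻¹ * γ * g, ?_, j, h2, ?_⟩
      · intro h4
        apply h1
        have h5 : γ = g * (g⁻¹ * γ * g) * g⁻¹ := by group
        rw [h5, h4]
        group
      · rw [pt_act h] at h3
        rw [← d_smul h g, mul_smul, mul_smul, smul_inv_smul]
        exact h3
    · rintro ⟨γ, h1, j, h2, h3⟩
      refine ⟨g * γ * g⁻¹, ?_, j, h2, ?_⟩
      · intro h4
        apply h1
        have h5 : γ = g⁻¹ * (g * γ * g⁻¹) * g := by group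
        rw [h5, h4]
        group
      · have h6 : (act G g p).1 = g • p.1 := rfl
        rw [pt_act h, h6, mul_smul, mul_smul, inv_smul_smul, d_smul h]
        exact h3

private theorem D10_pow {N₁ N : ℕ} (h1 : N₁ * 2 ^ N₁ ≤ N) (h2 : N₁ ≤ N) {T : ℝ} (hT : 1 ≤ T) :
    (N₁ : ℝ) * (1 + (T + 1)) ^ N₁ ≤ N * (1 + T) ^ N := by
  have h3 : (1 + (T + 1)) ^ N₁ ≤ 2 ^ N₁ * (1 + T) ^ N₁ := by
    rw [← mul_pow]
    exact pow_le_pow_left₀ (by linarith) (by linarith) _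
  have h4 : (1 + T) ^ N₁ ≤ (1 + T) ^ N := pow_le_pow_right₀ (by linarith) h2
  have h5 : (N₁ : ℝ) * 2 ^ N₁ ≤ N := by exact_mod_cast h1
  calc (N₁ : ℝ) * (1 + (T + 1)) ^ N₁ ≤ N₁ * (2 ^ N₁ * (1 + T) ^ N₁) := by gcongr
    _ = (N₁ * 2 ^ N₁) * (1 + T) ^ N₁ := by ring
    _ ≤ N * (1 + T) ^ N := by gcongr

theorem rt_mu (D : Set Pl) (a b r : ℝ) (Λ : ℕ) : ∃ N : ℕ, ∀ G : Dat Γ, UC D a b r Λ G →
    ∀ T ρ : ℝ, 1 ≤ T → 0 < ρ → N * (1 + T) ^ N * ρ ≤ 1 →
      muD D G (Rt G T ρ) ≤ ENNReal.ofReal (N * (1 + T) ^ N * ρ) := by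
  classical
  obtain ⟨N₁, hN₁⟩ := cone (Γ := Γ) D a b r Λ
  obtain ⟨N₂, hN₂⟩ := sum_J (Γ := Γ) D a b r Λ
  set N : ℕ := N₁ * (N₂ * 2 ^ N₂) + N₁ * 2 ^ N₁ + N₁ + N₂ + 2 with hN
  refine ⟨N, fun G hU T ρ hT hρ hNρ => ?_⟩
  have h := hU.hg
  have hX := hU.hX
  have hN1 : N₁ * 2 ^ N₁ ≤ N := by
    rw [hN]; have : 0 ≤ N₁ * (N₂ * 2 ^ N₂) := Nat.zero_le _; omega
  have hN2 : N₁ ≤ N := by rw [hN]; omega
  have hN3 : (2 : ℝ) ≤ N := by
    have : 2 ≤ N := by rw [hN]; omega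
    exact_mod_cast this
  have hTN : 1 ≤ (1 + T) ^ N := one_le_pow₀ (by linarith)
  have hρ2 : ρ ≤ 1 / 2 := by
    have : 2 * ρ ≤ N * (1 + T) ^ N * ρ := by
      calc 2 * ρ = 2 * 1 * ρ := by ring
        _ ≤ N * (1 + T) ^ N * ρ := by gcongr
    linarith
  have hc1 : N₁ * (1 + (T + 1)) ^ N₁ * ρ ≤ 1 := by
    refine le_trans ?_ hNρ
    have := D10_pow hN1 hN2 hT
    gcongr
  -- the bound
  set B : ℝ := N * (1 + T) ^ N * ρ with hB
  obtain ⟨hm, -⟩ := rt_meas hU T ρ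
  have hms : MeasurableSet (Rt G T ρ ∩ D ×ˢ (univ : Set ℂ)) := hm.inter (hX.meas.prod MeasurableSet.univ)
  have e1 : muD D G (Rt G T ρ) = ∫⁻ p, (Rt G T ρ ∩ D ×ˢ (univ : Set ℂ)).indicator
      (fun _ => (1 : ℝ≥0∞)) p ∂(muS G) := by
    unfold muD
    rw [Measure.restrict_apply hm, lintegral_indicator_const hms, one_mul]
  rw [e1, muS_lint h (measurable_const.indicator hms)]
  have key : ∀ x : Pl, (∫⁻ θ in Ioc (-Real.pi) Real.pi,
      (Rt G T ρ ∩ D ×ˢ (univ : Set ℂ)).indicator (fun _ => (1 : ℝ≥0∞))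
        (x, Complex.exp ((θ : ℂ) * Complex.I))) * ENNReal.ofReal (G.rho x) ≤
      D.indicator (fun x => ENNReal.ofReal B * ENNReal.ofReal (G.rho x)) x := by
    intro x
    by_cases hx : x ∈ D
    swap
    · have e2 : ∀ θ : ℝ, (Rt G T ρ ∩ D ×ˢ (univ : Set ℂ)).indicator (fun _ => (1 : ℝ≥0∞))
          (x, Complex.exp ((θ : ℂ) * Complex.I)) = 0 := by
        intro θ
        apply Set.indicator_of_notMem
        rintro ⟨-, h3⟩
        exact hx h3.1
      simp only [e2, lintegral_zero, zero_mul]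
      exact bot_le
    rw [Set.indicator_of_mem hx]
    gcongr
    -- the set of the angles
    set A : Set ℝ := {θ : ℝ | (x, Complex.exp ((θ : ℂ) * Complex.I)) ∈
      Rt G T ρ ∩ D ×ˢ (univ : Set ℂ)} with hA
    have hmA : MeasurableSet A := by
      have h0 : Measurable fun θ : ℝ => (x, Complex.exp ((θ : ℂ) * Complex.I)) := by fun_prop
      exact h0 hms
    have e3 : (∫⁻ θ in Ioc (-Real.pi) Real.pi,
        (Rt G T ρ ∩ D ×ˢ (univ : Set ℂ)).indicator (fun _ => (1 : ℝ≥0∞))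
          (x, Complex.exp ((θ : ℂ) * Complex.I))) = volume (A ∩ Ioc (-Real.pi) Real.pi) := by
      have e4 : ∀ θ : ℝ, (Rt G T ρ ∩ D ×ˢ (univ : Set ℂ)).indicator (fun _ => (1 : ℝ≥0∞))
          (x, Complex.exp ((θ : ℂ) * Complex.I)) = A.indicator (fun _ => (1 : ℝ≥0∞)) θ := by
        intro θ
        by_cases hθ : θ ∈ A
        · have h7 : (x, Complex.exp ((θ : ℂ) * Complex.I)) ∈ Rt G T ρ ∩ D ×ˢ (univ : Set ℂ) := hθ
          exact (Set.indicator_of_mem h7 _).trans (Set.indicator_of_mem hθ (fun _ => (1 : ℝ≥0∞))).symm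
        · have h7 : (x, Complex.exp ((θ : ℂ) * Complex.I)) ∉ Rt G T ρ ∩ D ×ˢ (univ : Set ℂ) := hθ
          exact (Set.indicator_of_notMem h7 _).trans (Set.indicator_of_notMem hθ (fun _ => (1 : ℝ≥0∞))).symm
      simp only [e4]
      rw [lintegral_indicator_const hmA, one_mul, Measure.restrict_apply hmA]
    rw [e3]
    have hfin : {γ : Γ | G.d x (γ • x) ≤ T + 1}.Finite :=
      (cnt_all hU (by linarith : (0 : ℝ) ≤ T + 1) x x).1
    set S : Finset Γ := hfin.toFinset.erase 1 with hS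
    have hSm : ∀ γ ∈ S, γ ≠ 1 ∧ G.d x (γ • x) ≤ T + 1 := by
      intro γ hγ
      rw [hS, Finset.mem_erase, Set.Finite.mem_toFinset] at hγ
      exact hγ
    have hsub : A ∩ Ioc (-Real.pi) Real.pi ⊆ ⋃ γ ∈ S, {θ : ℝ | θ ∈ Ioc (-Real.pi) Real.pi ∧
        ∃ t : ℝ, G.d (G.E x ((t : ℂ) * Complex.exp ((θ : ℂ) * Complex.I))) (γ • x) ≤ 2 * ρ} := by
      rintro θ ⟨⟨⟨γ, h1, j, h2, h3⟩, -⟩, hθ⟩
      have hu : ‖Complex.exp ((θ : ℂ) * Complex.I)‖ = 1 := Complex.norm_exp_ofReal_mul_I θ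
      have h4 : G.d x (pt G (x, Complex.exp ((θ : ℂ) * Complex.I)) (j * ρ)) = |(j : ℝ) * ρ| :=
        d_E h x hu _
      have h5 := h.d_tri x (pt G (x, Complex.exp ((θ : ℂ) * Complex.I)) (j * ρ)) (γ • x)
      have h6 : γ ∈ S := by
        rw [hS, Finset.mem_erase, Set.Finite.mem_toFinset]
        refine ⟨h1, ?_⟩
        show G.d x (γ • x) ≤ T + 1
        have h3' : G.d (pt G (x, Complex.exp ((θ : ℂ) * Complex.I)) (j * ρ)) (γ • x) ≤ 2 * ρ := h3
        linarith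
      rw [Set.mem_iUnion₂]
      exact ⟨γ, h6, hθ, j * ρ, h3⟩
    have hsum := hN₂ G hU x (T + 1) (by linarith) S hSm
    have hne : ∀ γ ∈ S, x ≠ γ • x := by
      intro γ hγ h7
      have h8 := hU.sys γ (hSm γ hγ).1 x
      rw [← h7, d_self h] at h8
      linarith [hU.r_pos]
    calc volume (A ∩ Ioc (-Real.pi) Real.pi)
        ≤ volume (⋃ γ ∈ S, {θ : ℝ | θ ∈ Ioc (-Real.pi) Real.pi ∧
          ∃ t : ℝ, G.d (G.E x ((t : ℂ) * Complex.exp ((θ : ℂ) * Complex.I))) (γ • x) ≤ 2 * ρ}) :=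
          measure_mono hsub
      _ ≤ ∑ γ ∈ S, volume {θ : ℝ | θ ∈ Ioc (-Real.pi) Real.pi ∧
          ∃ t : ℝ, G.d (G.E x ((t : ℂ) * Complex.exp ((θ : ℂ) * Complex.I))) (γ • x) ≤ 2 * ρ} :=
          measure_biUnion_finset_le _ _
      _ ≤ ∑ γ ∈ S, ENNReal.ofReal (N₁ * ρ / G.J x (γ • x)) :=
          Finset.sum_le_sum fun γ hγ => hN₁ G hU x (γ • x) (T + 1) ρ (hU.sys γ (hSm γ hγ).1 x)
            (hSm γ hγ).2 hρ hc1
      _ = ENNReal.ofReal (∑ γ ∈ S, N₁ * ρ / G.J x (γ • x)) := by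
          rw [ENNReal.ofReal_sum_of_nonneg]
          intro γ hγ
          have := J_pos h (hne γ hγ)
          positivity
      _ ≤ ENNReal.ofReal B := by
          apply ENNReal.ofReal_le_ofReal
          have e5 : ∑ γ ∈ S, N₁ * ρ / G.J x (γ • x) = N₁ * ρ * ∑ γ ∈ S, 1 / G.J x (γ • x) := by
            rw [Finset.mul_sum]
            refine Finset.sum_congr rfl fun γ _ => ?_
            ring
          rw [e5, hB]
          have e6 : (1 + (T + 1)) ^ N₂ ≤ 2 ^ N₂ * (1 + T) ^ N₂ := by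
            rw [← mul_pow]
            exact pow_le_pow_left₀ (by linarith) (by linarith) _
          have e7 : (1 + T) ^ N₂ ≤ (1 + T) ^ N := pow_le_pow_right₀ (by linarith) (by rw [hN]; omega)
          have e8 : (N₁ : ℝ) * (N₂ * 2 ^ N₂) ≤ N := by
            have : N₁ * (N₂ * 2 ^ N₂) ≤ N := by rw [hN]; omega
            exact_mod_cast this
          calc N₁ * ρ * ∑ γ ∈ S, 1 / G.J x (γ • x) ≤ N₁ * ρ * (N₂ * (1 + (T + 1)) ^ N₂) := by gcongr
            _ ≤ N₁ * ρ * (N₂ * (2 ^ N₂ * (1 + T) ^ N₂)) := by gcongr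
            _ = (N₁ * (N₂ * 2 ^ N₂)) * (1 + T) ^ N₂ * ρ := by ring
            _ ≤ N * (1 + T) ^ N * ρ := by gcongr
  refine (lintegral_mono key).trans ?_
  rw [lintegral_indicator hX.meas, lintegral_const_mul' _ _ ENNReal.ofReal_ne_top]
  have hi : IntegrableOn G.rho D volume :=
    (h.rho_cont.continuousOn.integrableOn_compact hX.bdd.isCompact_closure).mono_set subset_closure
  rw [← ofReal_integral_eq_lintegral_ofReal hi (Filter.Eventually.of_forall fun z => (h.rho_pos z).le),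
    h.rho_int, ENNReal.ofReal_one, mul_one]

end E35
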