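import Pool.Agent.LibBE35E.T0
import Pool.Agent.LibSR85.N2

/-! Row D5 of BE35E (BE35, part E; architect helper85). The weight and the Jacobi field. EASY-MEDIUM, 40 min.
Plan. `g = rep c`, `P = pt (tv c) τ`, `g • P = pt (tv c) (τ + l)` (`rep_pt`), `d P (g • P) = l ≥ 1`. `Dax G g (x0 c) = Dax G g P` (`Dax_const` of LibSR85/N7), and by definition `Dax G g P = J (U P (g P) + U (g P) P) - 2 =
J ((U P (g P) - 1 / J) + (U (g P) P - 1 / J))`, `J = J P (g P) > 0`; `N2_bounds` with `l₁ = 1`, `x = P` bounds both brackets below by `m = a (cosh a - 1) / sinh a > 0` (`U P (g P) = U (g⁻¹ P) P` by `U_smul`). So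
`Dax ≥ 2 m J` and `wt ^ 2 = l0 ^ 2 / Dax ≤ l ^ 2 / (2 m J)` (`l0_le`): `C = 1 / (2 m)` (if `a ≤ 0` the claim is empty: `UC` gives `a > 0`). `wt_nonneg`: `div_nonneg`. `wt_le`: `Dax_low` (N7): `Dax ≥ 4 sinh (a l / 2) ^ 2 ≥ (a l) ^ 2`, so
`wt = l0 / √Dax ≤ l0 / (a l) ≤ 1 / a`. -/

open MeasureTheory Set Filter Topology
open scoped ContDiff ENNReal NNReal ComplexConjugate

namespace E35

open BGS (Pl Surface grid per)
open SR85

variable {Γ : Type} [Group Γ] [MulAction Γ Pl] {D : Set Pl} {G : Dat Γ}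
variable {a b r : ℝ} {Λ : ℕ}

theorem wt_nonneg (M : Cl G) {c : ConjClasses Γ} (hc : c ≠ 1) : 0 ≤ wt M c :=
  div_nonneg (l0_pos M hc).le (Real.sqrt_nonneg _)

theorem wt_le (hU : UC D a b r Λ G) (M : Cl G) {c : ConjClasses Γ} (hc : c ≠ 1) :
    wt M c ≤ 1 / a := by
  have ha : 0 < a := hU.ea ▸ hU.hg.a_pos
  have hl := l_pos M hc
  have h1 := Dax_low hU.hX hU.hg (M.ax c hc)
  rw [hU.ea] at h1
  have hal : 0 < a * M.l c := by positivity
  have h2 : a * M.l c / 2 ≤ Real.sinh (a * M.l c / 2) := Real.self_le_sinh_iff.2 (by positivity)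
  have h3 : (a * M.l c) ^ 2 ≤ Dax G (M.rep c) (M.x0 c) := by
    have h4 := pow_le_pow_left₀ (by positivity) h2 2
    have h5 : (a * M.l c) ^ 2 = 4 * (a * M.l c / 2) ^ 2 := by ring
    rw [h5]
    linarith
  have h4 : a * M.l c ≤ √(Dax G (M.rep c) (M.x0 c)) := Real.le_sqrt_of_sq_le h3
  have h5 := l0_le hU.hg M hc
  unfold wt
  rw [div_le_div_iff₀ (hal.trans_le h4) ha]
  calc M.l0 c * a ≤ M.l c * a := mul_le_mul_of_nonneg_right h5 ha.le
    _ = a * M.l c := mul_comm _ _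
    _ ≤ √(Dax G (M.rep c) (M.x0 c)) := h4
    _ = 1 * √(Dax G (M.rep c) (M.x0 c)) := (one_mul _).symm

theorem wt_sq (D : Set Pl) (a b r : ℝ) (Λ : ℕ) : ∃ C : ℝ, 0 < C ∧ ∀ G : Dat Γ,
    UC D a b r Λ G → ∀ (M : Cl G) (c : ConjClasses Γ), c ≠ 1 → 1 ≤ M.l c → ∀ τ : ℝ,
      wt M c ^ 2 ≤ C * M.l c ^ 2 / G.J (pt G (tv M c) τ) (pt G (tv M c) (τ + M.l c)) := by
  by_cases ha : 0 < a
  swap
  · refine ⟨1, one_pos, fun G hU => ?_⟩
    exact absurd (hU.ea ▸ hU.hg.a_pos) ha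
  have hs : 0 < Real.sinh (a * 1) := Real.sinh_pos_iff.2 (by linarith)
  have hch : 1 < Real.cosh (a * 1) := Real.one_lt_cosh.2 (by linarith)
  obtain ⟨κ, hκ⟩ : ∃ κ, κ = a * (Real.cosh (a * 1) - 1) / Real.sinh (a * 1) := ⟨_, rfl⟩
  have hκ0 : 0 < κ := by
    rw [hκ]
    exact div_pos (mul_pos ha (by linarith)) hs
  refine ⟨1 / (2 * κ), by positivity, fun G hU M c hc hl τ => ?_⟩
  have hu := tv_unit M hc
  have hg := rep_ne M hc
  set P := pt G (tv M c) τ with hP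
  have hgP : pt G (tv M c) (τ + M.l c) = M.rep c • P := (rep_pt M hc τ).symm
  rw [hgP]
  have hd : G.d P (M.rep c • P) = M.l c := by
    rw [← hgP, hP, d_pt hU.hg hu, add_sub_cancel_left, abs_of_pos (l_pos M hc)]
  obtain ⟨h1, h2, -, hJ⟩ := N2_bounds hU.hX hU.hg one_pos hg (x := P) (by rw [hd]; exact hl)
  rw [hU.ea, ← hκ] at h1 h2
  have hne : M.rep c • P ≠ P := by
    intro h0
    rw [h0] at hd
    have h3 : G.d P P = 0 := by
      have := d_pt hU.hg hu τ τ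
      rw [sub_self, abs_zero] at this
      exact this
    rw [h3] at hd
    linarith
  have hU' : G.U P (M.rep c • P) = G.U ((M.rep c)⁻¹ • P) P := by
    have h3 : (M.rep c)⁻¹ • P ≠ P := by
      intro h0
      apply hne
      conv_lhs => rw [← h0]
      rw [smul_inv_smul]
    have h4 := U_smul hU.hg (M.rep c) h3
    rw [smul_inv_smul] at h4
    exact h4
  have hD : Dax G (M.rep c) P = Dax G (M.rep c) (M.x0 c) := by
    have := Dax_const hU.hX hU.hg (M.ax c hc) τ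
    exact this
  have hlow : 2 * κ * G.J P (M.rep c • P) ≤ Dax G (M.rep c) (M.x0 c) := by
    rw [← hD]
    unfold Dax
    rw [hU']
    have h3 : G.J P (M.rep c • P) * (G.U ((M.rep c)⁻¹ • P) P + G.U (M.rep c • P) P) - 2 =
        G.J P (M.rep c • P) * ((G.U ((M.rep c)⁻¹ • P) P - 1 / G.J P (M.rep c • P)) +
          (G.U (M.rep c • P) P - 1 / G.J P (M.rep c • P))) := by
      field_simp
      ring
    rw [h3]
    nlinarith
  have hlp := l_pos M hc
  have hl0 := l0_pos M hc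
  have hl1 := l0_le hU.hg M hc
  have hDp : 0 < Dax G (M.rep c) (M.x0 c) := lt_of_lt_of_le (by positivity) hlow
  unfold wt
  rw [div_pow, Real.sq_sqrt hDp.le]
  have h4 : 1 / (2 * κ) * M.l c ^ 2 / G.J P (M.rep c • P) =
      M.l c ^ 2 / (2 * κ * G.J P (M.rep c • P)) := by
    field_simp
  rw [h4]
  exact div_le_div₀ (by positivity) (pow_le_pow_left₀ hl0.le hl1 2) (by positivity) hlow

end E35
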