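import Pool.Agent.LibBE35E.D4
import Pool.Agent.LibBE35E.D5

/-! Row D6 of BE35E (BE35, part E; architect helper85). The tube inequality. MEDIUM-STRONG, 75 min.
Plan. `s = rad r Λ ℓ = r / (16 Λ (2 + ℓ) ^ Λ)`; then `Λ (1 + l) ^ Λ (2 s) ≤ r / 8 ≤ 1 / 2`, `2 s ≤ 1 / 4`, `4 s < r`. For `c ∈ S` choose `κ c` with `κ c • pt (tv c) (τ c) ∈ D` (`to_D`), `P c` this point, `g c = κ c * rep c * (κ c)⁻¹`, so
`g c • P c = κ c • pt (tv c) (τ c + l c)`, `mk (g c) = c` (`cl_mk`), `J (P c) (g c • P c) = J (pt τ) (pt (τ + l))` (`J_smul`). `wt_sq` and `tube_low`: `ofReal (wt ^ 2) ≤ ofReal (C ℓ² * 2 / (π s²)²) * tube c`, `tube c` the integral in `tube_low`. Sum over `c`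
(`lintegral_finset_sum`, `tb_meas`): `∑ tube c = ∫⁻ t in Ioi 0, ∫⁻ p, ∑ c, 1_{tb c} (t, p) ≤ ∫⁻ t in Ioi 0, ∫⁻ p, 1_{t ≤ ℓ + 1} 1_W p = ofReal (ℓ + 1) * muS G W`. Pointwise bound for unit `p` (`muS_unit`, `lintegral_mono_ae`) and `t > 0`: if `(t, p) ∈ tb c ∩ tb c'` then
`d (g c • p.1) (g c' • p.1) ≤ 4 s < r` (both `g c • P c`, `g c' • P c'` are within `s` of `pt p t`), so `g c = g c'` (`sys_eq`), `c = c'`; if `(t, p) ∈ tb c` then `t = d p.1 (pt p t) ≤ l c + 2 s ≤ ℓ + 1` and `p ∈ W` (hypothesis `hW`).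
Finally `C ℓ² * 2 / (π s²)² * (ℓ + 1) ≤ N (1 + ℓ) ^ N` for a large natural `N` (`2 + ℓ ≤ 2 (1 + ℓ)`, exponent `4 Λ + 3`). -/

open MeasureTheory Set Filter Topology
open scoped ContDiff ENNReal NNReal ComplexConjugate

namespace E35

open BGS (Pl Surface grid per)
open SR85

variable {Γ : Type} [Group Γ] [MulAction Γ Pl] {D : Set Pl} {G : Dat Γ}
variable {a b r : ℝ} {Λ : ℕ}

private theorem D6_sum_le {α β : Type} [MeasurableSpace α] {μ : Measure α} (S : Finset β)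
    (F : β → α → ℝ≥0∞) : ∑ c ∈ S, ∫⁻ x, F c x ∂μ ≤ ∫⁻ x, ∑ c ∈ S, F c x ∂μ := by
  classical
  induction S using Finset.induction_on with
  | empty => simp
  | insert c S hc ih =>
    simp only [Finset.sum_insert hc]
    exact (add_le_add le_rfl ih).trans (le_lintegral_add _ _)

private theorem D6_rad {r : ℝ} {Λ : ℕ} (hr : 0 < r) (hΛ : 1 ≤ Λ) {ℓ : ℝ} (hℓ : 1 ≤ ℓ) :
    0 < rad r Λ ℓ ∧ Λ * (2 + ℓ) ^ Λ * (16 * rad r Λ ℓ) = r ∧ 16 * rad r Λ ℓ ≤ r := by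
  have hΛ' : (1 : ℝ) ≤ Λ := by exact_mod_cast hΛ
  have hX : 1 ≤ (2 + ℓ) ^ Λ := one_le_pow₀ (by linarith)
  have hXp : 0 < (2 + ℓ) ^ Λ := by linarith
  have h0 : 0 < rad r Λ ℓ := by
    unfold rad
    positivity
  have h1 : Λ * (2 + ℓ) ^ Λ * (16 * rad r Λ ℓ) = r := by
    unfold rad
    field_simp
  refine ⟨h0, h1, ?_⟩
  have h2 : 1 ≤ Λ * (2 + ℓ) ^ Λ := by nlinarith
  calc 16 * rad r Λ ℓ = 1 * (16 * rad r Λ ℓ) := by ring
    _ ≤ Λ * (2 + ℓ) ^ Λ * (16 * rad r Λ ℓ) := by gcongr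
    _ = r := h1

private theorem D6_const (C r : ℝ) (Λ : ℕ) (hC : 0 < C) : ∃ N : ℕ, ∀ ℓ : ℝ, 0 < r → 1 ≤ Λ →
    1 ≤ ℓ → C * ℓ ^ 2 * 2 / (Real.pi * rad r Λ ℓ ^ 2) ^ 2 * (ℓ + 1) ≤ N * (1 + ℓ) ^ N := by
  obtain ⟨N0, hN0⟩ := exists_nat_ge (C * 2 * (16 * Λ / r) ^ 4 * 2 ^ (4 * Λ))
  refine ⟨max N0 (4 * Λ + 3), ?_⟩
  intro ℓ hr hΛ hℓ
  have hpi : 1 ≤ Real.pi ^ 2 := by
    have := Real.pi_gt_three
    nlinarith
  have hΛ' : (1 : ℝ) ≤ Λ := by exact_mod_cast hΛ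
  have hX : 0 < (2 + ℓ) ^ Λ := by positivity
  have h1 : 1 / (rad r Λ ℓ) ^ 4 = (16 * Λ / r) ^ 4 * ((2 + ℓ) ^ Λ) ^ 4 := by
    unfold rad
    field_simp
  have h2 : ((2 + ℓ) ^ Λ) ^ 4 ≤ 2 ^ (4 * Λ) * (1 + ℓ) ^ (4 * Λ) := by
    rw [← pow_mul, ← mul_pow, mul_comm Λ 4]
    exact pow_le_pow_left₀ (by linarith) (by linarith) _
  have hs := (D6_rad hr hΛ hℓ).1
  have h3 : C * ℓ ^ 2 * 2 / (Real.pi * rad r Λ ℓ ^ 2) ^ 2 =
      C * ℓ ^ 2 * 2 / Real.pi ^ 2 * (1 / (rad r Λ ℓ) ^ 4) := by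
    rw [mul_pow]
    field_simp
  have h4 : C * ℓ ^ 2 * 2 / Real.pi ^ 2 ≤ C * (1 + ℓ) ^ 2 * 2 := by
    have h5 : C * ℓ ^ 2 * 2 / Real.pi ^ 2 ≤ C * ℓ ^ 2 * 2 := div_le_self (by positivity) hpi
    refine h5.trans ?_
    gcongr
    linarith
  have hA : 0 ≤ (16 * Λ / r) ^ 4 := by positivity
  calc C * ℓ ^ 2 * 2 / (Real.pi * rad r Λ ℓ ^ 2) ^ 2 * (ℓ + 1)
      = C * ℓ ^ 2 * 2 / Real.pi ^ 2 * ((16 * Λ / r) ^ 4 * ((2 + ℓ) ^ Λ) ^ 4) * (ℓ + 1) := by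
        rw [h3, h1]
    _ ≤ C * (1 + ℓ) ^ 2 * 2 * ((16 * Λ / r) ^ 4 * (2 ^ (4 * Λ) * (1 + ℓ) ^ (4 * Λ))) *
        (ℓ + 1) := by gcongr
    _ = C * 2 * (16 * Λ / r) ^ 4 * 2 ^ (4 * Λ) * (1 + ℓ) ^ (4 * Λ + 3) := by ring
    _ ≤ ((max N0 (4 * Λ + 3) : ℕ) : ℝ) * (1 + ℓ) ^ (max N0 (4 * Λ + 3)) := by
        have h6 : (1 + ℓ) ^ (4 * Λ + 3) ≤ (1 + ℓ) ^ (max N0 (4 * Λ + 3)) :=
          pow_le_pow_right₀ (by linarith) (le_max_right _ _)
        have h7 : (N0 : ℝ) ≤ ((max N0 (4 * Λ + 3) : ℕ) : ℝ) := by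
          exact_mod_cast le_max_left _ _
        have h8 : 0 ≤ (1 + ℓ) ^ (4 * Λ + 3) := by positivity
        exact mul_le_mul (hN0.trans h7) h6 h8 (Nat.cast_nonneg _)

theorem tube (D : Set Pl) (a b r : ℝ) (Λ : ℕ) : ∃ N : ℕ, ∀ G : Dat Γ, UC D a b r Λ G →
    ∀ (M : Cl G) (ℓ : ℝ), 1 ≤ ℓ → ∀ S : Finset (ConjClasses Γ),
      (∀ c ∈ S, c ≠ 1 ∧ 1 ≤ M.l c ∧ M.l c ≤ ℓ) →
      ∀ (τ : ConjClasses Γ → ℝ) (W : Set (Pl × ℂ)), MeasurableSet W →
      (∀ c ∈ S, ∀ (κ : Γ) (t : ℝ) (p : Pl × ℂ), ‖p.2‖ = 1 → 0 < t →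
        κ • pt G (tv M c) (τ c) ∈ D →
        G.d p.1 (κ • pt G (tv M c) (τ c)) ≤ rad r Λ ℓ →
        G.d (pt G p t) (κ • pt G (tv M c) (τ c + M.l c)) ≤ rad r Λ ℓ → p ∈ W) →
      ENNReal.ofReal (∑ c ∈ S, wt M c ^ 2) ≤ ENNReal.ofReal (N * (1 + ℓ) ^ N) * muS G W := by
  classical
  obtain ⟨C, hC, hwt⟩ := wt_sq (Γ := Γ) D a b r Λ
  obtain ⟨N, hN⟩ := D6_const C r Λ hC
  refine ⟨N, ?_⟩
  intro G hU M ℓ hℓ S hS τ W hWm hW
  have hg := hU.hg
  obtain ⟨hs, hs16, hs16'⟩ := D6_rad hU.r_pos hU.L_one hℓ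
  set s : ℝ := rad r Λ ℓ with hsdef
  have hr1 := hU.r_le
  have hr0 := hU.r_pos
  have hNN := hN ℓ hr0 hU.L_one hℓ
  rw [← hsdef] at hNN
  have hex : ∀ c, ∃ κ : Γ, κ • pt G (tv M c) (τ c) ∈ D := fun c => to_D hU _
  choose κ hκ using hex
  set P : ConjClasses Γ → Pl := fun c => κ c • pt G (tv M c) (τ c) with hP
  set g : ConjClasses Γ → Γ := fun c => κ c * M.rep c * (κ c)⁻¹ with hgd
  have hgP : ∀ c ∈ S, g c • P c = κ c • pt G (tv M c) (τ c + M.l c) := by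
    intro c hc
    show (κ c * M.rep c * (κ c)⁻¹) • κ c • pt G (tv M c) (τ c) = _
    rw [mul_smul, mul_smul, inv_smul_smul, rep_pt M (hS c hc).1]
  have hdl : ∀ c ∈ S, G.d (P c) (g c • P c) = M.l c := by
    intro c hc
    rw [hgP c hc]
    show G.d (κ c • pt G (tv M c) (τ c)) (κ c • pt G (tv M c) (τ c + M.l c)) = M.l c
    rw [d_smul hg, d_pt hg (tv_unit M (hS c hc).1), add_sub_cancel_left,
      abs_of_pos (l_pos M (hS c hc).1)]
  have hne : ∀ c ∈ S, pt G (tv M c) (τ c) ≠ pt G (tv M c) (τ c + M.l c) := by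
    intro c hc h0
    have h1 := d_pt hg (tv_unit M (hS c hc).1) (τ c) (τ c + M.l c)
    rw [← h0, d_self hg, add_sub_cancel_left, abs_of_pos (l_pos M (hS c hc).1)] at h1
    have h2 := l_pos M (hS c hc).1
    linarith
  have hJ : ∀ c ∈ S, G.J (P c) (g c • P c) =
      G.J (pt G (tv M c) (τ c)) (pt G (tv M c) (τ c + M.l c)) := by
    intro c hc
    rw [hgP c hc]
    exact J_smul hg (κ c) (hne c hc)
  have hJp : ∀ c ∈ S, 0 < G.J (P c) (g c • P c) := by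
    intro c hc
    rw [hJ c hc]
    exact J_pos hg (hne c hc)
  set K : ℝ := C * ℓ ^ 2 * 2 / (Real.pi * s ^ 2) ^ 2 with hK
  have hpi := Real.pi_pos
  have hK0 : 0 ≤ K := by positivity
  set T : ConjClasses Γ → ℝ≥0∞ := fun c => ∫⁻ t in Ioi (0 : ℝ),
    ∫⁻ p, (tb G (g c) (P c) s).indicator (fun _ => (1 : ℝ≥0∞)) (t, p) ∂(muS G) with hT
  -- every weight
  have h1 : ∀ c ∈ S, ENNReal.ofReal (wt M c ^ 2) ≤ ENNReal.ofReal K * T c := by
    intro c hc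
    obtain ⟨hc1, hc2, hc3⟩ := hS c hc
    have h2 := hwt G hU M c hc1 hc2 (τ c)
    rw [← hJ c hc] at h2
    have hJc := hJp c hc
    have h3 : C * M.l c ^ 2 / G.J (P c) (g c • P c) ≤
        K * ((Real.pi * s ^ 2) ^ 2 / (2 * G.J (P c) (g c • P c))) := by
      have h4 : K * ((Real.pi * s ^ 2) ^ 2 / (2 * G.J (P c) (g c • P c))) =
          C * ℓ ^ 2 / G.J (P c) (g c • P c) := by
        rw [hK]
        field_simp
      rw [h4]
      gcongr
    have h5 : Λ * (1 + G.d (P c) (g c • P c)) ^ Λ * (2 * s) ≤ 1 / 2 := by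
      rw [hdl c hc]
      have h6 : (1 + M.l c) ^ Λ ≤ (2 + ℓ) ^ Λ :=
        pow_le_pow_left₀ (by linarith) (by linarith) _
      have h7 : (Λ : ℝ) * (1 + M.l c) ^ Λ * (2 * s) ≤ Λ * (2 + ℓ) ^ Λ * (2 * s) := by gcongr
      have h8 : (Λ : ℝ) * (2 + ℓ) ^ Λ * (2 * s) = r / 8 := by
        rw [← hs16]
        ring
      rw [h8] at h7
      linarith
    have h6 := tube_low hU hs (by rw [hdl c hc]; exact hc2) h5 (by linarith)
    calc ENNReal.ofReal (wt M c ^ 2)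
        ≤ ENNReal.ofReal (K * ((Real.pi * s ^ 2) ^ 2 / (2 * G.J (P c) (g c • P c)))) :=
          ENNReal.ofReal_le_ofReal (h2.trans h3)
      _ = ENNReal.ofReal K *
          ENNReal.ofReal ((Real.pi * s ^ 2) ^ 2 / (2 * G.J (P c) (g c • P c))) :=
          ENNReal.ofReal_mul hK0
      _ ≤ ENNReal.ofReal K * T c := by
          gcongr
  -- the tubes
  have hpw : ∀ t : ℝ, 0 < t → ∀ p : Pl × ℂ, ‖p.2‖ = 1 →
      ∑ c ∈ S, (tb G (g c) (P c) s).indicator (fun _ => (1 : ℝ≥0∞)) (t, p) ≤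
        (Iic (ℓ + 1)).indicator (fun _ => W.indicator (fun _ => (1 : ℝ≥0∞)) p) t := by
    intro t ht p hp
    by_cases hex : ∃ c ∈ S, (t, p) ∈ tb G (g c) (P c) s
    · obtain ⟨c, hc, hc1, hc2⟩ := hex
      change G.d p.1 (P c) ≤ s at hc1
      change G.d (pt G p t) (g c • P c) ≤ s at hc2
      have ht1 : t ≤ ℓ + 1 := by
        have h2 : G.d p.1 (pt G p t) = t := by
          have h3 := d_pt hg hp 0 t
          rw [pt_zero hg, sub_zero, abs_of_pos ht] at h3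
          exact h3
        have h3 := hg.d_tri p.1 (P c) (pt G p t)
        have h4 := hg.d_tri (P c) (g c • P c) (pt G p t)
        rw [hg.d_symm (g c • P c)] at h4
        rw [hdl c hc] at h4
        have h5 := (hS c hc).2.2
        linarith
      have hpW : p ∈ W := by
        refine hW c hc (κ c) t p hp ht (hκ c) hc1 ?_
        rw [← hgP c hc]
        exact hc2
      rw [indicator_of_mem (show t ∈ Iic (ℓ + 1) from ht1), indicator_of_mem hpW]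
      rw [Finset.sum_eq_single c]
      · exact Set.indicator_le_self _ _ _
      · intro c' hc' hcc
        refine indicator_of_notMem ?_ _
        rintro ⟨h1', h2'⟩
        change G.d p.1 (P c') ≤ s at h1'
        change G.d (pt G p t) (g c' • P c') ≤ s at h2'
        apply hcc
        have h3 : G.d (g c' • p.1) (g c • p.1) < r := by
          have h4 := hg.d_tri (g c' • p.1) (g c' • P c') (pt G p t)
          have h5 := hg.d_tri (pt G p t) (g c • P c) (g c • p.1)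
          have h6 := hg.d_tri (g c' • p.1) (pt G p t) (g c • p.1)
          rw [d_smul hg, hg.d_symm (g c' • P c')] at h4
          rw [d_smul hg, hg.d_symm (P c)] at h5
          linarith
        have h4 := sys_eq hU h3
        rw [← cl_mk M c' (κ c'), ← cl_mk M c (κ c)]
        exact congrArg ConjClasses.mk h4
      · intro hc'
        exact absurd hc hc'
    · have h0 : ∑ c ∈ S, (tb G (g c) (P c) s).indicator (fun _ => (1 : ℝ≥0∞)) (t, p) = 0 :=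
        Finset.sum_eq_zero fun c hc => indicator_of_notMem (fun h => hex ⟨c, hc, h⟩) _
      rw [h0]
      exact zero_le
  have h2 : ∑ c ∈ S, T c ≤ ENNReal.ofReal (ℓ + 1) * muS G W := by
    calc ∑ c ∈ S, T c
        ≤ ∫⁻ t in Ioi (0 : ℝ), ∑ c ∈ S, ∫⁻ p,
          (tb G (g c) (P c) s).indicator (fun _ => (1 : ℝ≥0∞)) (t, p) ∂(muS G) :=
          D6_sum_le S _
      _ ≤ ∫⁻ t in Ioi (0 : ℝ), (Iic (ℓ + 1)).indicator (fun _ => muS G W) t := by
          refine setLIntegral_mono_ae' measurableSet_Ioi (ae_of_all _ fun t ht => ?_)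
          refine (D6_sum_le S _).trans ?_
          calc ∫⁻ p, ∑ c ∈ S, (tb G (g c) (P c) s).indicator (fun _ => (1 : ℝ≥0∞)) (t, p)
                ∂(muS G)
              ≤ ∫⁻ p, (Iic (ℓ + 1)).indicator
                  (fun _ => W.indicator (fun _ => (1 : ℝ≥0∞)) p) t ∂(muS G) := by
                refine lintegral_mono_ae ?_
                filter_upwards [muS_unit G] with p hp
                exact hpw t ht p hp
            _ = (Iic (ℓ + 1)).indicator (fun _ => muS G W) t := by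
                by_cases htl : t ∈ Iic (ℓ + 1)
                · simp only [indicator_of_mem htl]
                  rw [lintegral_indicator hWm]
                  simp
                · simp only [indicator_of_notMem htl]
                  simp
      _ = ENNReal.ofReal (ℓ + 1) * muS G W := by
          rw [lintegral_indicator measurableSet_Iic, setLIntegral_const,
            Measure.restrict_apply measurableSet_Iic, mul_comm]
          congr 1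
          rw [inter_comm, Ioi_inter_Iic, Real.volume_Ioc, sub_zero]
  calc ENNReal.ofReal (∑ c ∈ S, wt M c ^ 2)
      = ∑ c ∈ S, ENNReal.ofReal (wt M c ^ 2) :=
        ENNReal.ofReal_sum_of_nonneg fun c _ => sq_nonneg _
    _ ≤ ∑ c ∈ S, ENNReal.ofReal K * T c := Finset.sum_le_sum h1
    _ = ENNReal.ofReal K * ∑ c ∈ S, T c := by rw [Finset.mul_sum]
    _ ≤ ENNReal.ofReal K * (ENNReal.ofReal (ℓ + 1) * muS G W) := by gcongr
    _ = ENNReal.ofReal (K * (ℓ + 1)) * muS G W := by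
        rw [ENNReal.ofReal_mul hK0, mul_assoc]
    _ ≤ ENNReal.ofReal (N * (1 + ℓ) ^ N) * muS G W := by
        gcongr

end E35
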