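import Pool.Agent.LibBE35E.A4

/-! Row D7 of BE35E (BE35, part E; architect helper85). A tube follows its axis. EASY, 30 min.
Plan. `contr2` (statement in A4) with `x = p.1`, `y = pt p t`, `x' = pt q τ`, `y' = pt q (τ + l)`: `d x y = t ≥ l - 2 m ≥ l - 2`, `di x y = p.2`, `di x' y' = dr q.1 q.2 τ` (`di_E` and `HG.flow`), so `E x (σ di x y) = pt p σ` and
`E x' ((σ + η) di x' y') = pt q (τ + (σ + η))` (`HG.flow`). Conditions: `m ≤ 1 ≤ σ`, `σ + m ≤ σ + 1 ≤ l - 2 ≤ t`. `m exp (a m) ≤ exp a`, `exp (-(a (t - σ))) ≤ exp (-(a (l - 2 - σ)))`. -/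

open MeasureTheory Set Filter Topology
open scoped ContDiff ENNReal NNReal ComplexConjugate

namespace E35

open BGS (Pl Surface grid per)
open SR85

variable {Γ : Type} [Group Γ] [MulAction Γ Pl] {D : Set Pl} {G : Dat Γ}
variable {a b r : ℝ} {Λ : ℕ}

theorem tube_ax (h : HG D G) {p q : Pl × ℂ} (hp : ‖p.2‖ = 1) (hq : ‖q.2‖ = 1) {τ l t m : ℝ}
    (hm : 0 < m) (hm1 : m ≤ 1) (ht : 0 < t) (hl : 4 ≤ l) (h1 : G.d p.1 (pt G q τ) ≤ m)
    (h2 : G.d (pt G p t) (pt G q (τ + l)) ≤ m) : ∃ η : ℝ, |η| ≤ m ∧ ∀ σ : ℝ, 1 ≤ σ →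
      σ + 3 ≤ l → G.d (pt G p σ) (pt G q (τ + σ + η)) ≤
        Real.exp G.a * (Real.exp (-(G.a * σ)) + Real.exp (-(G.a * (l - 2 - σ)))) := by
  have hl0 : 0 < l := by linarith
  have hq' : ‖(phi G τ q).2‖ = 1 := phi_unit h τ hq
  have e1 : ∀ s : ℝ, G.E (phi G τ q).1 ((s : ℂ) * (phi G τ q).2) = pt G q (τ + s) :=
    fun s => pt_phi h hq τ s
  have e2 : G.d p.1 (pt G p t) = t := by
    have h3 := d_E h p.1 hp t
    rw [abs_of_pos ht] at h3
    exact h3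
  have e3 : G.di p.1 (pt G p t) = p.2 := di_E h p.1 hp ht
  have e4 : G.di (pt G q τ) (pt G q (τ + l)) = (phi G τ q).2 := by
    rw [← e1 l]
    exact di_E h (phi G τ q).1 hq' hl0
  have e5 : G.d (pt G q τ) (pt G q (τ + l)) = l := by
    rw [d_pt h hq, add_sub_cancel_left, abs_of_pos hl0]
  have e6 : l ≤ t + 2 * m := by
    have h3 := h.d_tri (pt G q τ) p.1 (pt G q (τ + l))
    have h4 := h.d_tri p.1 (pt G p t) (pt G q (τ + l))
    have h5 := h.d_symm (pt G q τ) p.1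
    linarith
  obtain ⟨η, hη, hc⟩ := contr2 h p.1 (pt G p t) (pt G q τ) (pt G q (τ + l)) hm h1 h2
  refine ⟨η, hη, fun σ h1σ hσl => ?_⟩
  have h7 := hc σ (hm1.trans h1σ) (by rw [e2]; linarith)
  rw [e2, e3, e4] at h7
  have e8 : G.E (pt G q τ) (((σ + η : ℝ) : ℂ) * (phi G τ q).2) = pt G q (τ + σ + η) := by
    rw [add_assoc]
    exact e1 (σ + η)
  rw [e8] at h7
  refine h7.trans ?_
  have ha := h.a_pos
  have h9 : m * Real.exp (G.a * m) ≤ Real.exp G.a := by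
    have h10 : Real.exp (G.a * m) ≤ Real.exp G.a := Real.exp_le_exp.2 (by nlinarith)
    have h11 := Real.exp_pos (G.a * m)
    nlinarith
  have h12 : Real.exp (-(G.a * (t - σ))) ≤ Real.exp (-(G.a * (l - 2 - σ))) := by
    refine Real.exp_le_exp.2 ?_
    have h13 : l - 2 - σ ≤ t - σ := by linarith
    have := mul_le_mul_of_nonneg_left h13 ha.le
    linarith
  refine mul_le_mul h9 (by linarith) (by positivity) (Real.exp_pos _).le

end E35
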