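import Pool.Agent.LibBE35E.D1

/-! Row D8 of BE35E (BE35, part E; architect helper85). The measure of the neighbourhood of a closed geodesic. MEDIUM, 60 min.
Plan. `Nb M c ρ` is a countable union (`M7_count` of LibSR85/M7 or `Countable Γ` from `hX.proper`; `ℤ`) of closed sets (`d_cont`). Invariance: `d (g • x) (γ • y) = d x ((g⁻¹ * γ) • y)`. Measure: if `p.1 ∈ D` and `d p.1 (γ • pt (tv c) (j ρ)) ≤ 2 ρ`, write `j ρ = k l + t₀`, `t₀ ∈ [0, l)`,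
`j' = ⌊t₀ / ρ⌋₊`, so `p.1` is within `3 ρ` of `(γ * rep c ^ k) • pt (tv c) (j' ρ)` (`rep_zpow`, `d_pt`), `j' ≤ l / ρ`. So `muD D G (Nb ..) ≤ ∑ j' in range (⌊l / ρ⌋₊ + 1), ∑' γ, muS G ((D ∩ B(γ • y, 3 ρ)) ×ˢ univ)`, `y = pt (tv c) (j' ρ)`, and
`∑' γ, muS G ((D ∩ B(γ • y, 3 ρ)) ×ˢ univ) = muS G (B(y, 3 ρ) ×ˢ univ) ≤ 2 π ar G (B(y, 3 ρ))` (`unfoldS` with `F` = indicator of `B(y, 3 ρ) ×ˢ univ`, `H = 1`: `F (act G g p) = 1` iff `d y (g • p.1) ≤ 3 ρ` iff `p.1 ∈ B(g⁻¹ • y, 3 ρ)`; reindex `g ↦ g⁻¹`; `muS_lint`, `ar_lint`), `≤ 2 π * π 9 ρ² exp (3 b ρ)` (`ar_upp`).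
Total `≤ (l / ρ + 1) * 18 π² ρ² exp (3 b) ≤ C (1 + l) ρ`. -/

open MeasureTheory Set Filter Topology
open scoped ContDiff ENNReal NNReal ComplexConjugate

namespace E35

open BGS (Pl Surface grid per)
open SR85

variable {Γ : Type} [Group Γ] [MulAction Γ Pl] {D : Set Pl} {G : Dat Γ}
variable {a b r : ℝ} {Λ : ℕ}

/-- The vectors whose base points are near a translate of the axis of `c`. -/
def Nb (M : Cl G) (c : ConjClasses Γ) (ρ : ℝ) : Set (Pl × ℂ) :=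
  {p | ∃ (γ : Γ) (j : ℤ), G.d p.1 (γ • pt G (tv M c) (j * ρ)) ≤ 2 * ρ}

theorem D8_set (h : HG D G) (y : Pl) (s : ℝ) : MeasurableSet {p : Pl × ℂ | G.d p.1 y ≤ s} := by
  have h1 : Continuous fun p : Pl × ℂ => G.d p.1 y :=
    (d_cont h).comp (continuous_fst.prodMk continuous_const)
  exact (isClosed_le h1 continuous_const).measurableSet

theorem nb_meas (hU : UC D a b r Λ G) (M : Cl G) (c : ConjClasses Γ) (ρ : ℝ) :
    MeasurableSet (Nb M c ρ) ∧ ∀ (g : Γ) (p : Pl × ℂ), act G g p ∈ Nb M c ρ ↔ p ∈ Nb M c ρ := by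
  have h := hU.hg
  have hc : Countable Γ := M7_count hU.hX
  constructor
  · have h1 : Nb M c ρ = ⋃ γ : Γ, ⋃ j : ℤ,
        {p : Pl × ℂ | G.d p.1 (γ • pt G (tv M c) (j * ρ)) ≤ 2 * ρ} := by
      ext p
      simp only [Nb, Set.mem_ofPred_eq, Set.mem_iUnion]
    rw [h1]
    exact MeasurableSet.iUnion fun γ => MeasurableSet.iUnion fun j => D8_set h _ _
  · intro g p
    constructor
    · rintro ⟨γ, j, h1⟩
      refine ⟨g⁻¹ * γ, j, ?_⟩
      rw [← d_smul h g, mul_smul, smul_inv_smul]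
      exact h1
    · rintro ⟨γ, j, h1⟩
      refine ⟨g * γ, j, ?_⟩
      rw [mul_smul]
      show G.d (g • p.1) (g • γ • pt G (tv M c) (j * ρ)) ≤ 2 * ρ
      rw [d_smul h g]
      exact h1

theorem D8_cover (hU : UC D a b r Λ G) (M : Cl G) {c : ConjClasses Γ} (hc : c ≠ 1) {ρ : ℝ}
    (hρ : 0 < ρ) {p : Pl × ℂ} (hp : p ∈ Nb M c ρ) : ∃ j ∈ Finset.range (⌊M.l c / ρ⌋₊ + 1),
      ∃ γ : Γ, G.d p.1 (γ • pt G (tv M c) (j * ρ)) ≤ 3 * ρ := by
  have h := hU.hg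
  obtain ⟨γ, j, h1⟩ := hp
  have hl := l_pos M hc
  obtain ⟨k, hk⟩ : ∃ k : ℤ, k = ⌊(j * ρ : ℝ) / M.l c⌋ := ⟨_, rfl⟩
  obtain ⟨t, ht⟩ : ∃ t : ℝ, t = j * ρ - k * M.l c := ⟨_, rfl⟩
  have ht0 : 0 ≤ t := by
    have h2 := Int.floor_le ((j * ρ : ℝ) / M.l c)
    rw [← hk, le_div_iff₀ hl] at h2
    linarith
  have ht1 : t < M.l c := by
    have h2 := Int.lt_floor_add_one ((j * ρ : ℝ) / M.l c)
    rw [← hk, div_lt_iff₀ hl] at h2
    linarith
  have hfl := Nat.floor_le (div_nonneg ht0 hρ.le)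
  have hfl2 := Nat.lt_floor_add_one (t / ρ)
  rw [le_div_iff₀ hρ] at hfl
  rw [div_lt_iff₀ hρ] at hfl2
  refine ⟨⌊t / ρ⌋₊, ?_, γ * M.rep c ^ k, ?_⟩
  · rw [Finset.mem_range, Nat.lt_succ_iff]
    exact Nat.floor_le_floor (div_le_div_of_nonneg_right ht1.le hρ.le)
  · have h2 : pt G (tv M c) (j * ρ) = M.rep c ^ k • pt G (tv M c) t := by
      rw [rep_zpow M hc, ht]
      congr 1
      ring
    rw [h2] at h1
    have h3 : G.d (γ • M.rep c ^ k • pt G (tv M c) t)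
        ((γ * M.rep c ^ k) • pt G (tv M c) ((⌊t / ρ⌋₊ : ℝ) * ρ)) ≤ ρ := by
      rw [mul_smul, d_smul h, d_smul h, d_pt h (tv_unit M hc), abs_le]
      constructor <;> nlinarith
    have h4 := h.d_tri p.1 (γ • M.rep c ^ k • pt G (tv M c) t)
      ((γ * M.rep c ^ k) • pt G (tv M c) ((⌊t / ρ⌋₊ : ℝ) * ρ))
    linarith

theorem D8_ball (hU : UC D a b r Λ G) (y : Pl) {s : ℝ} :
    muD D G (⋃ γ : Γ, {p : Pl × ℂ | G.d p.1 (γ • y) ≤ s}) ≤
      ENNReal.ofReal (2 * Real.pi) * ar G {z | G.d y z ≤ s} := by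
  classical
  have h := hU.hg
  have hX := hU.hX
  have hc : Countable Γ := M7_count hX
  obtain ⟨F, hF⟩ : ∃ F : Pl × ℂ → ℝ≥0∞, F = {p : Pl × ℂ | G.d p.1 y ≤ s}.indicator 1 := ⟨_, rfl⟩
  have hFm : Measurable F := by
    rw [hF]
    exact measurable_one.indicator (D8_set h y s)
  have hUm : MeasurableSet (⋃ γ : Γ, {p : Pl × ℂ | G.d p.1 (γ • y) ≤ s}) :=
    MeasurableSet.iUnion fun γ => D8_set h _ _
  have h1 := unfoldS hX h hFm (H := fun _ => 1) measurable_const (fun _ _ => rfl)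
  simp only [mul_one] at h1
  have h2 : muD D G (⋃ γ : Γ, {p : Pl × ℂ | G.d p.1 (γ • y) ≤ s}) ≤
      ∫⁻ p in D ×ˢ univ, (∑' g : Γ, F (act G g p)) ∂(muS G) := by
    rw [← lintegral_indicator_one hUm]
    refine lintegral_mono fun p => ?_
    by_cases hp : p ∈ ⋃ γ : Γ, {p : Pl × ℂ | G.d p.1 (γ • y) ≤ s}
    · rw [Set.indicator_of_mem hp, Pi.one_apply]
      obtain ⟨γ, hγ⟩ := Set.mem_iUnion.1 hp
      have h3 : F (act G γ⁻¹ p) = 1 := by
        rw [hF]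
        refine Set.indicator_of_mem ?_ _
        show G.d (γ⁻¹ • p.1) y ≤ s
        rw [← d_smul h γ, smul_inv_smul]
        exact hγ
      calc (1 : ℝ≥0∞) = F (act G γ⁻¹ p) := h3.symm
        _ ≤ _ := ENNReal.le_tsum γ⁻¹
    · rw [Set.indicator_of_notMem hp]
      exact zero_le
  have h4 : ∫⁻ p, F p ∂(muS G) = ENNReal.ofReal (2 * Real.pi) * ar G {z | G.d y z ≤ s} := by
    rw [muS_lint h hFm]
    have h5 : ∀ x : Pl, ∫⁻ θ in Ioc (-Real.pi) Real.pi,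
        F (x, Complex.exp ((θ : ℂ) * Complex.I)) =
        ({z | G.d y z ≤ s}.indicator (fun _ => ENNReal.ofReal (2 * Real.pi)) x) := by
      intro x
      by_cases hx : G.d y x ≤ s
      · have h6 : ∀ θ : ℝ, F (x, Complex.exp ((θ : ℂ) * Complex.I)) = 1 := by
          intro θ
          rw [hF]
          refine Set.indicator_of_mem ?_ _
          show G.d x y ≤ s
          rw [h.d_symm]
          exact hx
        rw [Set.indicator_of_mem (by exact hx)]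
        simp only [h6]
        rw [setLIntegral_one, Real.volume_Ioc]
        congr 1
        ring
      · have h6 : ∀ θ : ℝ, F (x, Complex.exp ((θ : ℂ) * Complex.I)) = 0 := by
          intro θ
          rw [hF]
          refine Set.indicator_of_notMem ?_ _
          show ¬ G.d x y ≤ s
          rw [h.d_symm]
          exact hx
        rw [Set.indicator_of_notMem (by exact hx)]
        simp only [h6]
        exact lintegral_zero
    simp_rw [h5]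
    have hBm := bl_meas h y s
    rw [← ar_lint h (measurable_const.indicator hBm), lintegral_indicator_const hBm]
  rw [← h4, h1]
  exact h2

theorem nb_mu (D : Set Pl) (a b r : ℝ) (Λ : ℕ) : ∃ C : ℝ, 1 ≤ C ∧ ∀ G : Dat Γ,
    UC D a b r Λ G → ∀ (M : Cl G) (c : ConjClasses Γ) (ρ : ℝ), c ≠ 1 → 0 < ρ → ρ ≤ 1 →
      muD D G (Nb M c ρ) ≤ ENNReal.ofReal (C * (1 + M.l c) * ρ) := by
  refine ⟨18 * Real.pi ^ 2 * Real.exp (3 * b) + 1, ?_, ?_⟩
  · have : 0 ≤ 18 * Real.pi ^ 2 * Real.exp (3 * b) := by positivity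
    linarith
  intro G hU M c ρ hc hρ hρ1
  have h := hU.hg
  have hl := l_pos M hc
  have hb0 : 0 < G.b := h.a_pos.trans_le h.ab
  have h1 : Nb M c ρ ⊆ ⋃ j ∈ Finset.range (⌊M.l c / ρ⌋₊ + 1), ⋃ γ : Γ,
      {p : Pl × ℂ | G.d p.1 (γ • pt G (tv M c) ((j : ℕ) * ρ)) ≤ 3 * ρ} := by
    intro p hp
    obtain ⟨j, hj, γ, hγ⟩ := D8_cover hU M hc hρ hp
    exact Set.mem_iUnion₂.2 ⟨j, hj, Set.mem_iUnion.2 ⟨γ, hγ⟩⟩
  have h2 : ∀ j ∈ Finset.range (⌊M.l c / ρ⌋₊ + 1), muD D G (⋃ γ : Γ,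
      {p : Pl × ℂ | G.d p.1 (γ • pt G (tv M c) ((j : ℕ) * ρ)) ≤ 3 * ρ}) ≤
      ENNReal.ofReal (18 * Real.pi ^ 2 * Real.exp (3 * b) * ρ ^ 2) := by
    intro j _
    refine (D8_ball hU _).trans ?_
    refine (mul_le_mul_right (ar_upp h _ (by positivity)) _).trans ?_
    rw [← ENNReal.ofReal_mul (by positivity)]
    refine ENNReal.ofReal_le_ofReal ?_
    have h3 : Real.exp (G.b * (3 * ρ)) ≤ Real.exp (3 * b) := by
      rw [← hU.eb]
      exact Real.exp_le_exp.2 (by nlinarith)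
    calc 2 * Real.pi * (Real.pi * (3 * ρ) ^ 2 * Real.exp (G.b * (3 * ρ)))
        ≤ 2 * Real.pi * (Real.pi * (3 * ρ) ^ 2 * Real.exp (3 * b)) := by gcongr
      _ = 18 * Real.pi ^ 2 * Real.exp (3 * b) * ρ ^ 2 := by ring
  refine (measure_mono h1).trans ((measure_biUnion_finset_le _ _).trans
    ((Finset.sum_le_sum h2).trans ?_))
  rw [Finset.sum_const, Finset.card_range, nsmul_eq_mul, ← ENNReal.ofReal_natCast,
    ← ENNReal.ofReal_mul (Nat.cast_nonneg _)]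
  refine ENNReal.ofReal_le_ofReal ?_
  have h3 := Nat.floor_le (div_nonneg hl.le hρ.le)
  rw [le_div_iff₀ hρ] at h3
  push_cast
  have h4 : 0 ≤ Real.pi ^ 2 * Real.exp (3 * b) := by positivity
  have h5 : ((⌊M.l c / ρ⌋₊ : ℝ) + 1) * ρ ≤ 1 + M.l c := by
    rw [add_mul, one_mul]
    linarith
  have h6 : ((⌊M.l c / ρ⌋₊ : ℝ) + 1) * (18 * Real.pi ^ 2 * Real.exp (3 * b) * ρ ^ 2) =
      18 * (Real.pi ^ 2 * Real.exp (3 * b)) * (((⌊M.l c / ρ⌋₊ : ℝ) + 1) * ρ) * ρ := by ring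
  rw [h6]
  have h7 : 18 * (Real.pi ^ 2 * Real.exp (3 * b)) * (((⌊M.l c / ρ⌋₊ : ℝ) + 1) * ρ) ≤
      (18 * Real.pi ^ 2 * Real.exp (3 * b) + 1) * (1 + M.l c) := by
    nlinarith [mul_le_mul_of_nonneg_left h5 h4]
  exact mul_le_mul_of_nonneg_right h7 hρ.le

end E35
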