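import Pool.Agent.LibBE35E.D3
import Pool.Agent.LibBE35E.D6

/-! Row D13 of BE35E (BE35, part E; architect helper85). The sum of the squares of all weights; the number of classes. MEDIUM, 50 min.
Plan. `cl_fin`: let `o ∈ D` (`to_D`). For `c ≠ 1`, `l c ≤ t`, choose `κ` with `κ • x0 c ∈ D`, `g = κ * rep c * κ⁻¹`, `d (κ • x0) (g • κ • x0) = l ≤ t`, so `d o (g • o) ≤ t + 2 Λ` (`UC.diam`, `d_smul`), `c = mk g` (`cl_mk`): the set is contained in the image of `{g | d o (g • o) ≤ t + 2 Λ}`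
under `ConjClasses.mk` (`cnt_all`). `wt_sum`: split `S` by `l c < 1` and `1 ≤ l c`. First part: at most `Λ exp (Λ (1 + 2 Λ))` classes with `wt ≤ 1 / a` (`wt_le`). Second part: `tube` with `τ = 0`, `W = {p | d o p.1 ≤ Λ + 1}`, `o ∈ D`, `hW` by `UC.diam` and `rad ≤ 1`; `muS G W ≤ N₃ muD D G univ ≤ N₃ ofReal (2 π)`
(`flow_nbd` with `n = 0`, `Y = univ`; `muS_D`). -/

open MeasureTheory Set Filter Topology
open scoped ContDiff ENNReal NNReal ComplexConjugate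

namespace E35

open BGS (Pl Surface grid per)
open SR85

variable {Γ : Type} [Group Γ] [MulAction Γ Pl] {D : Set Pl} {G : Dat Γ}
variable {a b r : ℝ} {Λ : ℕ}

/-- every class of length at most `t` is the class of an element moving `o` by at most `t + 2 Λ` -/
theorem D13_sub (hU : UC D a b r Λ G) (M : Cl G) {o : Pl} (ho : o ∈ D) (t : ℝ) :
    {c | c ≠ 1 ∧ M.l c ≤ t} ⊆ ConjClasses.mk '' {g : Γ | G.d o (g • o) ≤ t + 2 * Λ} := by
  rintro c ⟨hc, hl⟩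
  obtain ⟨κ, hκ⟩ := to_D hU (pt G (tv M c) 0)
  refine ⟨κ * M.rep c * κ⁻¹, ?_, cl_mk M c κ⟩
  show G.d o ((κ * M.rep c * κ⁻¹) • o) ≤ t + 2 * Λ
  have hg := hU.hg
  set x := κ • pt G (tv M c) 0 with hx
  have h1 : G.d x ((κ * M.rep c * κ⁻¹) • x) = M.l c := by
    rw [hx, mul_smul, mul_smul, inv_smul_smul, d_smul hg, rep_pt M hc,
      d_pt hg (tv_unit M hc), zero_add, sub_zero, abs_of_pos (l_pos M hc)]
  have h2 := hg.d_tri o x ((κ * M.rep c * κ⁻¹) • o)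
  have h3 := hg.d_tri x ((κ * M.rep c * κ⁻¹) • x) ((κ * M.rep c * κ⁻¹) • o)
  rw [d_smul hg, h1] at h3
  have h4 := hU.diam o (subset_closure ho) x (subset_closure hκ)
  have h5 := hU.diam x (subset_closure hκ) o (subset_closure ho)
  linarith

theorem cl_fin (D : Set Pl) (a b r : ℝ) (Λ : ℕ) : ∃ C : ℝ, 1 ≤ C ∧ ∀ G : Dat Γ,
    UC D a b r Λ G → ∀ (M : Cl G) (t : ℝ), 0 ≤ t → {c | c ≠ 1 ∧ M.l c ≤ t}.Finite ∧
      ({c | c ≠ 1 ∧ M.l c ≤ t}.ncard : ℝ) ≤ C * Real.exp (C * t) := by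
  refine ⟨1 + Λ * Real.exp (Λ * (2 * Λ)), ?_, ?_⟩
  · have : 0 ≤ (Λ : ℝ) * Real.exp (Λ * (2 * Λ)) := by positivity
    linarith
  intro G hU M t ht
  obtain ⟨κ, hκ⟩ := to_D hU (M.x0 1)
  set o := κ • M.x0 1 with ho
  have hsub := D13_sub hU M hκ t
  obtain ⟨h1, h2⟩ := cnt_all hU (show (0 : ℝ) ≤ t + 2 * Λ by positivity) o o
  refine ⟨(h1.image _).subset hsub, ?_⟩
  have h3 : ({c | c ≠ 1 ∧ M.l c ≤ t}.ncard : ℝ) ≤ ({g : Γ | G.d o (g • o) ≤ t + 2 * Λ}.ncard : ℝ) := by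
    exact_mod_cast (Set.ncard_le_ncard hsub (h1.image _)).trans (Set.ncard_image_le h1)
  have hΛ : (1 : ℝ) ≤ Λ := by exact_mod_cast hU.L_one
  have hE : (1 : ℝ) ≤ Real.exp (Λ * (2 * Λ)) := Real.one_le_exp (by positivity)
  have h4 : (Λ : ℝ) ≤ 1 + Λ * Real.exp (Λ * (2 * Λ)) := by nlinarith
  calc ({c | c ≠ 1 ∧ M.l c ≤ t}.ncard : ℝ) ≤ Λ * Real.exp (Λ * (t + 2 * Λ)) := h3.trans h2
    _ = (Λ * Real.exp (Λ * (2 * Λ))) * Real.exp (Λ * t) := by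
      rw [mul_add, Real.exp_add]
      ring
    _ ≤ (1 + Λ * Real.exp (Λ * (2 * Λ))) * Real.exp ((1 + Λ * Real.exp (Λ * (2 * Λ))) * t) := by
      have h5 : Real.exp (Λ * t) ≤ Real.exp ((1 + Λ * Real.exp (Λ * (2 * Λ))) * t) :=
        Real.exp_le_exp.2 (mul_le_mul_of_nonneg_right h4 ht)
      have h6 : (0 : ℝ) ≤ Λ * Real.exp (Λ * (2 * Λ)) := by positivity
      exact mul_le_mul (by linarith) h5 (Real.exp_pos _).le (by linarith)

theorem D13_rad (hU : UC D a b r Λ G) {ℓ : ℝ} (hℓ : 0 ≤ ℓ) : rad r Λ ℓ ≤ 1 := by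
  unfold rad
  have hΛ : (1 : ℝ) ≤ Λ := by exact_mod_cast hU.L_one
  have h1 : (1 : ℝ) ≤ (2 + ℓ) ^ Λ := one_le_pow₀ (by linarith)
  have h2 : (1 : ℝ) ≤ 16 * Λ * (2 + ℓ) ^ Λ := by nlinarith
  rw [div_le_one (by linarith)]
  exact hU.r_le.trans h2

theorem wt_sum (D : Set Pl) (a b r : ℝ) (Λ : ℕ) : ∃ N : ℕ, ∀ G : Dat Γ, UC D a b r Λ G →
    ∀ (M : Cl G) (ℓ : ℝ), 0 ≤ ℓ → ∀ S : Finset (ConjClasses Γ),
      (∀ c ∈ S, c ≠ 1 ∧ M.l c ≤ ℓ) → ∑ c ∈ S, wt M c ^ 2 ≤ N * (1 + ℓ) ^ N := by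
  obtain ⟨C, hC, hfin⟩ := cl_fin (Γ := Γ) D a b r Λ
  obtain ⟨N₁, htube⟩ := tube (Γ := Γ) D a b r Λ
  obtain ⟨N₃, hnbd⟩ := flow_nbd (Γ := Γ) D a b r Λ
  obtain ⟨N, hN⟩ := exists_nat_ge (C * Real.exp (C * 1) * (1 / a) ^ 2 +
    (N₁ * 2 ^ N₁) * (N₃ * (2 * Real.pi)) + N₁)
  refine ⟨N, fun G hU M ℓ hℓ S hS => ?_⟩
  classical
  have ha : 0 < a := by
    rw [← hU.ea]
    exact hU.hg.a_pos
  obtain ⟨κ, hκ⟩ := to_D hU (M.x0 1)
  set o := κ • M.x0 1 with ho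
  rw [← Finset.sum_filter_add_sum_filter_not S (fun c => M.l c < 1)]
  -- the short classes
  have h1 : ∑ c ∈ S.filter (fun c => M.l c < 1), wt M c ^ 2 ≤ C * Real.exp (C * 1) * (1 / a) ^ 2 := by
    have h2 : ∑ c ∈ S.filter (fun c => M.l c < 1), wt M c ^ 2 ≤
        ∑ c ∈ S.filter (fun c => M.l c < 1), (1 / a) ^ 2 := by
      refine Finset.sum_le_sum fun c hc => ?_
      have hc1 := (hS c (Finset.mem_filter.1 hc).1).1
      exact pow_le_pow_left₀ (wt_nonneg M hc1) (wt_le hU M hc1) 2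
    refine h2.trans ?_
    rw [Finset.sum_const, nsmul_eq_mul]
    refine mul_le_mul_of_nonneg_right ?_ (by positivity)
    obtain ⟨hf, hcard⟩ := hfin G hU M 1 zero_le_one
    have hsub : ((S.filter (fun c => M.l c < 1) : Finset (ConjClasses Γ)) : Set (ConjClasses Γ)) ⊆
        {c | c ≠ 1 ∧ M.l c ≤ 1} := by
      intro c hc
      have hc' := Finset.mem_filter.1 (Finset.mem_coe.1 hc)
      exact ⟨(hS c hc'.1).1, hc'.2.le⟩
    have h3 := Set.ncard_le_ncard hsub hf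
    rw [Set.ncard_coe_finset] at h3
    exact le_trans (by exact_mod_cast h3) hcard
  -- the long classes
  have h2 : ∑ c ∈ S.filter (fun c => ¬ M.l c < 1), wt M c ^ 2 ≤
      ((N₁ * 2 ^ N₁) * (N₃ * (2 * Real.pi))) * (1 + ℓ) ^ N₁ := by
    have hW : MeasurableSet {p : Pl × ℂ | G.d o p.1 ≤ Λ + 1} := by
      have hc : Continuous fun p : Pl × ℂ => G.d o p.1 :=
        (d_cont hU.hg).comp (continuous_const.prodMk continuous_fst)
      exact (isClosed_le hc continuous_const).measurableSet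
    have h3 := htube G hU M (1 + ℓ) (by linarith) (S.filter (fun c => ¬ M.l c < 1))
      (by
        intro c hc
        have hc' := Finset.mem_filter.1 hc
        refine ⟨(hS c hc'.1).1, not_lt.1 hc'.2, ?_⟩
        have := (hS c hc'.1).2
        linarith)
      (fun _ => 0) {p : Pl × ℂ | G.d o p.1 ≤ Λ + 1} hW
      (by
        intro c hc κ' t p hp ht hD h4 h5
        show G.d o p.1 ≤ Λ + 1
        have h6 := hU.hg.d_tri o (κ' • pt G (tv M c) 0) p.1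
        have h7 := hU.diam o (subset_closure hκ) _ (subset_closure hD)
        rw [hU.hg.d_symm p.1] at h4
        have h8 := D13_rad hU (show (0 : ℝ) ≤ 1 + ℓ by linarith)
        linarith)
    have h4 : muS G {p : Pl × ℂ | G.d o p.1 ≤ Λ + 1} ≤ ENNReal.ofReal (N₃ * (2 * Real.pi)) := by
      have h5 := hnbd G hU o 0 univ MeasurableSet.univ (fun _ _ => by simp)
      have h6 : {p : Pl × ℂ | G.d o p.1 ≤ Λ + 1 ∧ phi G (0 : ℕ) p ∈ (univ : Set (Pl × ℂ))} =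
          {p : Pl × ℂ | G.d o p.1 ≤ Λ + 1} := by
        ext p
        simp
      rw [h6] at h5
      refine h5.trans ?_
      unfold muD
      rw [Measure.restrict_apply_univ, muS_D hU.hX hU.hg,
        ENNReal.ofReal_mul (Nat.cast_nonneg N₃) (q := 2 * Real.pi), ENNReal.ofReal_natCast]
    have h5 : ENNReal.ofReal (∑ c ∈ S.filter (fun c => ¬ M.l c < 1), wt M c ^ 2) ≤
        ENNReal.ofReal ((N₁ * (1 + (1 + ℓ)) ^ N₁) * (N₃ * (2 * Real.pi))) := by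
      rw [ENNReal.ofReal_mul (by positivity)]
      exact h3.trans (mul_le_mul_right h4 _)
    have h6 := (ENNReal.ofReal_le_ofReal_iff (by positivity)).1 h5
    refine h6.trans ?_
    have h7 : (1 + (1 + ℓ)) ^ N₁ ≤ 2 ^ N₁ * (1 + ℓ) ^ N₁ := by
      rw [← mul_pow]
      exact pow_le_pow_left₀ (by linarith) (by linarith) N₁
    calc (N₁ * (1 + (1 + ℓ)) ^ N₁) * (N₃ * (2 * Real.pi))
        ≤ (N₁ * (2 ^ N₁ * (1 + ℓ) ^ N₁)) * (N₃ * (2 * Real.pi)) :=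
          mul_le_mul_of_nonneg_right (mul_le_mul_of_nonneg_left h7 (Nat.cast_nonneg _)) (by positivity)
      _ = _ := by ring
  have hN1 : N₁ ≤ N := by
    have h3 : (0 : ℝ) ≤ C * Real.exp (C * 1) * (1 / a) ^ 2 := by positivity
    have h4 : (0 : ℝ) ≤ (N₁ * 2 ^ N₁) * (N₃ * (2 * Real.pi)) := by positivity
    have h5 : (N₁ : ℝ) ≤ N := by linarith
    exact_mod_cast h5
  have hpow : (1 + ℓ) ^ N₁ ≤ (1 + ℓ) ^ N := pow_le_pow_right₀ (by linarith) hN1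
  have hone : (1 : ℝ) ≤ (1 + ℓ) ^ N := one_le_pow₀ (by linarith)
  have h3 : (0 : ℝ) ≤ C * Real.exp (C * 1) * (1 / a) ^ 2 := by positivity
  have h4 : (0 : ℝ) ≤ (N₁ * 2 ^ N₁) * (N₃ * (2 * Real.pi)) := by positivity
  calc _ ≤ C * Real.exp (C * 1) * (1 / a) ^ 2 + ((N₁ * 2 ^ N₁) * (N₃ * (2 * Real.pi))) * (1 + ℓ) ^ N₁ :=
        add_le_add h1 h2
    _ ≤ C * Real.exp (C * 1) * (1 / a) ^ 2 * (1 + ℓ) ^ N +
        ((N₁ * 2 ^ N₁) * (N₃ * (2 * Real.pi))) * (1 + ℓ) ^ N :=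
        add_le_add (le_mul_of_one_le_right h3 hone) (mul_le_mul_of_nonneg_left hpow h4)
    _ = (C * Real.exp (C * 1) * (1 / a) ^ 2 + (N₁ * 2 ^ N₁) * (N₃ * (2 * Real.pi))) * (1 + ℓ) ^ N := by
        ring
    _ ≤ N * (1 + ℓ) ^ N := by
        refine mul_le_mul_of_nonneg_right ?_ (by positivity)
        have : (0 : ℝ) ≤ N₁ := Nat.cast_nonneg _
        linarith

end E35
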