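import Pool.Agent.LibBE35E.D1

/-! Row D2 of BE35E (BE35, part E; architect helper85). The sum of the reciprocals of the Jacobi fields over an orbit. MEDIUM, 60 min.
Plan. Put `ε = r / (16 Λ (2 + T) ^ Λ)`, so `ε ≤ r / 16 ≤ 1 / 16` and `Λ (1 + T) ^ Λ * ε ≤ 1 / 16`. For `γ ∈ S` with `1 ≤ d x (γ • x)`: on the ball `B(γ • x, ε)` `UC.jac` (with `x' = x`, `d x x = 0`) gives
`1 / J x y ≥ (1 / 2) / J x (γ • x)` (positivity of `J` : `J_pos`, `y ≠ x`), so by `ar_low` the integral of `1 / J x y` over this ball is `≥ (π ε² / 2) / J x (γ • x)`. The balls are disjoint (`sys_eq`: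
`d (γ • x) (γ' • x) ≤ 2 ε < r`), contained in `{d x y ≤ T + 1}`, so by `J_int` the sum over these `γ` is `≤ 2 π (T + 1) * 2 / (π ε²) = 4 (T + 1) / ε²`. The `γ ∈ S` with `d x (γ • x) < 1`: at most `Λ exp Λ` of them
(`cnt_all` with `t = 1`), each term `≤ 1 / d x (γ • x) ≤ 1 / r` (`J_low`, `self_le_sinh`, `UC.sys`). Choose `N` a large natural number (`1024 (Λ + 1)² / r² + ...`, exponent `2 Λ + 1`; a power `N ≥ 2 Λ + 1` of `1 + T ≥ 1`, and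
`2 + T ≤ 2 (1 + T)`). -/

open MeasureTheory Set Filter Topology
open scoped ContDiff ENNReal NNReal ComplexConjugate

namespace E35

open BGS (Pl Surface grid per)
open SR85

variable {Γ : Type} [Group Γ] [MulAction Γ Pl] {D : Set Pl} {G : Dat Γ}
variable {a b r : ℝ} {Λ : ℕ}

/-- The Jacobi field near a point. -/
theorem D2_jac (hU : UC D a b r Λ G) {x z y : Pl} {T ε : ℝ} (hz1 : 1 ≤ G.d x z)
    (hzT : G.d x z ≤ T) (hε : ε ≤ 1 / 16) (hΛ : Λ * (1 + T) ^ Λ * ε ≤ 1 / 16)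
    (hy : G.d z y ≤ ε) : x ≠ y ∧ 1 / (2 * G.J x z) ≤ 1 / G.J x y := by
  have h := hU.hg
  have hd0 : 0 ≤ G.d z y := norm_nonneg _
  have hxy : x ≠ y := by
    intro e
    rw [← e, h.d_symm] at hy
    linarith
  have hxz : x ≠ z := by
    intro e
    rw [← e, d_self h] at hz1
    linarith
  refine ⟨hxy, ?_⟩
  have hJz := J_pos h hxz
  have hJy := J_pos h hxy
  have h1 := hU.jac x z x y hz1 (by rw [d_self h]; linarith)
  rw [d_self h, zero_add] at h1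
  have h2 : (Λ : ℝ) * (1 + G.d x z) ^ Λ * G.d z y ≤ 1 / 16 := by
    refine le_trans ?_ hΛ
    have h3 : (1 + G.d x z) ^ Λ ≤ (1 + T) ^ Λ := pow_le_pow_left₀ (by linarith) (by linarith) _
    have hT : 0 ≤ 1 + T := by linarith
    have h5 : (0 : ℝ) ≤ 1 + G.d x z := by linarith
    exact mul_le_mul (mul_le_mul_of_nonneg_left h3 (Nat.cast_nonneg _)) hy hd0 (by positivity)
  have h3 : Real.log (G.J x y) ≤ Real.log (G.J x z) + 1 / 16 := by
    have := (abs_le.1 (h1.trans h2)).1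
    linarith
  have h4 : G.J x y ≤ G.J x z * Real.exp (1 / 16) := by
    have h5 := Real.exp_le_exp.2 h3
    rwa [Real.exp_add, Real.exp_log hJy, Real.exp_log hJz] at h5
  have h5 : Real.exp (1 / 16) ≤ 2 := by
    have h6 := Real.exp_one_lt_d9
    have h7 : Real.exp (1 / 16) ≤ Real.exp (1 / 2) := Real.exp_le_exp.2 (by norm_num)
    have h8 : Real.exp (1 / 2) * Real.exp (1 / 2) = Real.exp 1 := by
      rw [← Real.exp_add]
      norm_num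
    nlinarith [Real.exp_pos (1 / 2 : ℝ)]
  refine one_div_le_one_div_of_le hJy ?_
  nlinarith

/-- The far elements. -/
theorem D2_far (hU : UC D a b r Λ G) {x : Pl} {T ε : ℝ} (hT : 0 ≤ T) (hε0 : 0 < ε)
    (hε : ε ≤ r / 16) (hΛ : Λ * (1 + T) ^ Λ * ε ≤ 1 / 16) (S : Finset Γ)
    (hS : ∀ γ ∈ S, 1 ≤ G.d x (γ • x) ∧ G.d x (γ • x) ≤ T) :
    ∑ γ ∈ S, 1 / G.J x (γ • x) ≤ 4 * (T + 1) / ε ^ 2 := by
  have h := hU.hg
  have hr := hU.r_pos
  have hr1 := hU.r_le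
  have hε1 : ε ≤ 1 / 16 := by linarith
  have hJm : Measurable fun y => ENNReal.ofReal (1 / G.J x y) :=
    (((J_meas h).comp measurable_prodMk_left).const_div 1).ennreal_ofReal
  -- the integral over the union of the balls
  have hdisj : (↑S : Set Γ).PairwiseDisjoint fun γ => {y : Pl | G.d (γ • x) y ≤ ε} := by
    intro γ _ γ' _ hne
    rw [Function.onFun, Set.disjoint_left]
    intro y hy hy'
    apply hne
    refine sys_eq hU (x := x) ?_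
    have h1 := h.d_tri (γ • x) y (γ' • x)
    rw [h.d_symm y] at h1
    have h2 : G.d (γ • x) y ≤ ε := hy
    have h3 : G.d (γ' • x) y ≤ ε := hy'
    linarith
  have h1 : ∑ γ ∈ S, ∫⁻ y in {y : Pl | G.d (γ • x) y ≤ ε}, ENNReal.ofReal (1 / G.J x y) ∂(ar G) =
      ∫⁻ y in ⋃ γ ∈ S, {y : Pl | G.d (γ • x) y ≤ ε}, ENNReal.ofReal (1 / G.J x y) ∂(ar G) :=
    (lintegral_biUnion_finset hdisj (fun γ _ => bl_meas h (γ • x) ε) _).symm
  have h2 : ∫⁻ y in ⋃ γ ∈ S, {y : Pl | G.d (γ • x) y ≤ ε}, ENNReal.ofReal (1 / G.J x y) ∂(ar G) ≤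
      ∫⁻ y in {y : Pl | G.d x y ≤ T + 1}, ENNReal.ofReal (1 / G.J x y) ∂(ar G) := by
    refine lintegral_mono_set ?_
    intro y hy
    rw [Set.mem_iUnion₂] at hy
    obtain ⟨γ, hγ, hy⟩ := hy
    have h3 : G.d (γ • x) y ≤ ε := hy
    have h4 := h.d_tri x (γ • x) y
    show G.d x y ≤ T + 1
    linarith [(hS γ hγ).2]
  have h3 := J_int h x (T := T + 1) (by linarith)
  have h4 : ∀ γ ∈ S, ENNReal.ofReal (1 / (2 * G.J x (γ • x)) * (Real.pi * ε ^ 2)) ≤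
      ∫⁻ y in {y : Pl | G.d (γ • x) y ≤ ε}, ENNReal.ofReal (1 / G.J x y) ∂(ar G) := by
    intro γ hγ
    have hγ1 := hS γ hγ
    have hxz : x ≠ γ • x := by
      intro e
      rw [← e, d_self h] at hγ1
      linarith
    have hJ := J_pos h hxz
    calc ENNReal.ofReal (1 / (2 * G.J x (γ • x)) * (Real.pi * ε ^ 2))
        = ENNReal.ofReal (1 / (2 * G.J x (γ • x))) * ENNReal.ofReal (Real.pi * ε ^ 2) :=
          ENNReal.ofReal_mul (by positivity)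
      _ ≤ ENNReal.ofReal (1 / (2 * G.J x (γ • x))) * ar G {y : Pl | G.d (γ • x) y ≤ ε} := by
          gcongr
          exact ar_low h (γ • x) hε0
      _ = ∫⁻ _ in {y : Pl | G.d (γ • x) y ≤ ε},
            ENNReal.ofReal (1 / (2 * G.J x (γ • x))) ∂(ar G) := by
          rw [setLIntegral_const]
      _ ≤ _ := by
          refine setLIntegral_mono hJm fun y hy => ?_
          exact ENNReal.ofReal_le_ofReal (D2_jac hU hγ1.1 hγ1.2 hε1 hΛ hy).2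
  have h5 : ENNReal.ofReal (∑ γ ∈ S, 1 / (2 * G.J x (γ • x)) * (Real.pi * ε ^ 2)) ≤
      ENNReal.ofReal (2 * Real.pi * (T + 1)) := by
    rw [ENNReal.ofReal_sum_of_nonneg]
    · refine (Finset.sum_le_sum h4).trans ?_
      rw [h1]
      exact h2.trans h3
    · intro γ hγ
      have hγ1 := hS γ hγ
      have hxz : x ≠ γ • x := by
        intro e
        rw [← e, d_self h] at hγ1
        linarith
      have hJ := J_pos h hxz
      positivity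
  rw [ENNReal.ofReal_le_ofReal_iff (by positivity)] at h5
  rw [← Finset.sum_mul] at h5
  have h6 : ∑ γ ∈ S, 1 / (2 * G.J x (γ • x)) = (1 / 2) * ∑ γ ∈ S, 1 / G.J x (γ • x) := by
    rw [Finset.mul_sum]
    refine Finset.sum_congr rfl fun γ _ => ?_
    rw [one_div, one_div, one_div, mul_inv]
  rw [h6] at h5
  rw [le_div_iff₀ (by positivity)]
  have hpi := Real.pi_pos
  have h7 : Real.pi * ((∑ γ ∈ S, 1 / G.J x (γ • x)) * ε ^ 2) ≤ Real.pi * (4 * (T + 1)) := by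
    nlinarith
  exact le_of_mul_le_mul_left h7 hpi

/-- The near elements. -/
theorem D2_near (hU : UC D a b r Λ G) {x : Pl} (S : Finset Γ)
    (hS : ∀ γ ∈ S, γ ≠ 1 ∧ G.d x (γ • x) < 1) :
    ∑ γ ∈ S, 1 / G.J x (γ • x) ≤ Λ * Real.exp Λ / r := by
  have h := hU.hg
  have hr := hU.r_pos
  obtain ⟨hfin, hcard⟩ := cnt_all hU zero_le_one x x
  rw [mul_one] at hcard
  have h1 : ∀ γ ∈ S, 1 / G.J x (γ • x) ≤ 1 / r := by
    intro γ hγ
    have h2 := hU.sys γ (hS γ hγ).1 x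
    have hxz : x ≠ γ • x := by
      intro e
      rw [← e, d_self h] at h2
      linarith
    refine one_div_le_one_div_of_le hr ?_
    refine h2.trans (le_trans ?_ (J_low h hxz))
    rw [le_div_iff₀ h.a_pos, mul_comm]
    exact Real.self_le_sinh_iff.2 (mul_nonneg h.a_pos.le (norm_nonneg _))
  have h3 : (S.card : ℝ) ≤ Λ * Real.exp Λ := by
    refine le_trans ?_ hcard
    have h4 : (↑S : Set Γ) ⊆ {g : Γ | G.d x (g • x) ≤ 1} := fun γ hγ => (hS γ hγ).2.le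
    have h5 := Set.ncard_le_ncard h4 hfin
    rw [Set.ncard_coe_finset] at h5
    exact_mod_cast h5
  calc ∑ γ ∈ S, 1 / G.J x (γ • x) ≤ ∑ _γ ∈ S, 1 / r := Finset.sum_le_sum h1
    _ = S.card * (1 / r) := by rw [Finset.sum_const, nsmul_eq_mul]
    _ ≤ Λ * Real.exp Λ * (1 / r) := mul_le_mul_of_nonneg_right h3 (by positivity)
    _ = Λ * Real.exp Λ / r := by ring

theorem sum_J (D : Set Pl) (a b r : ℝ) (Λ : ℕ) : ∃ N : ℕ, ∀ G : Dat Γ, UC D a b r Λ G →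
    ∀ (x : Pl) (T : ℝ), 0 ≤ T → ∀ S : Finset Γ, (∀ γ ∈ S, γ ≠ 1 ∧ G.d x (γ • x) ≤ T) →
      ∑ γ ∈ S, 1 / G.J x (γ • x) ≤ N * (1 + T) ^ N := by
  classical
  obtain ⟨K, hK⟩ : ∃ K : ℝ, K = Λ * Real.exp Λ / r + 1024 * Λ ^ 2 * 4 ^ Λ / r ^ 2 := ⟨_, rfl⟩
  refine ⟨max (2 * Λ + 1) ⌈K⌉₊, fun G hU x T hT S hS => ?_⟩
  obtain ⟨N, hN⟩ : ∃ N, N = max (2 * Λ + 1) ⌈K⌉₊ := ⟨_, rfl⟩
  rw [← hN]
  have hN1 : 2 * Λ + 1 ≤ N := by rw [hN]; exact le_max_left _ _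
  have hN2 : K ≤ N := (Nat.le_ceil K).trans (by
    rw [hN]
    exact_mod_cast le_max_right _ _)
  have hr := hU.r_pos
  have hr1 := hU.r_le
  have hΛ1 : (1 : ℝ) ≤ Λ := by exact_mod_cast hU.L_one
  obtain ⟨P, hP⟩ : ∃ P : ℝ, P = (2 + T) ^ Λ := ⟨_, rfl⟩
  have hP1 : 1 ≤ P := by rw [hP]; exact one_le_pow₀ (by linarith)
  obtain ⟨ε, hε⟩ : ∃ ε : ℝ, ε = r / (16 * Λ * P) := ⟨_, rfl⟩
  have hden : 0 < 16 * Λ * P := by positivity
  have hε0 : 0 < ε := by rw [hε]; positivity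
  have hε1 : ε ≤ r / 16 := by
    rw [hε]
    refine div_le_div_of_nonneg_left hr.le (by norm_num) ?_
    nlinarith [mul_le_mul hΛ1 hP1 zero_le_one (by linarith : (0 : ℝ) ≤ Λ)]
  have hε2 : Λ * (1 + T) ^ Λ * ε ≤ 1 / 16 := by
    have h1 : (1 + T) ^ Λ ≤ P := by rw [hP]; exact pow_le_pow_left₀ (by linarith) (by linarith) _
    calc Λ * (1 + T) ^ Λ * ε ≤ Λ * P * ε := by gcongr
      _ = r / 16 := by
        rw [hε]
        field_simp
      _ ≤ 1 / 16 := by linarith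
  have e1 := D2_far hU hT hε0 hε1 hε2 (S.filter fun γ => 1 ≤ G.d x (γ • x))
    (fun γ hγ => ⟨(Finset.mem_filter.1 hγ).2, (hS γ (Finset.mem_filter.1 hγ).1).2⟩)
  have e2 := D2_near hU (S.filter fun γ => ¬ 1 ≤ G.d x (γ • x))
    (fun γ hγ => ⟨(hS γ (Finset.mem_filter.1 hγ).1).1, not_le.1 (Finset.mem_filter.1 hγ).2⟩)
  rw [← Finset.sum_filter_add_sum_filter_not S fun γ => 1 ≤ G.d x (γ • x)]
  have hT1 : (1 : ℝ) ≤ 1 + T := by linarith
  have e3 : 4 * (T + 1) / ε ^ 2 ≤ 1024 * Λ ^ 2 * 4 ^ Λ / r ^ 2 * (1 + T) ^ (2 * Λ + 1) := by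
    have h1 : 4 * (T + 1) / ε ^ 2 = 1024 * Λ ^ 2 / r ^ 2 * P ^ 2 * (1 + T) := by
      rw [hε]
      field_simp
      ring
    have h2 : P ≤ 2 ^ Λ * (1 + T) ^ Λ := by
      rw [hP, ← mul_pow]
      exact pow_le_pow_left₀ (by linarith) (by linarith) _
    have h3 : P ^ 2 ≤ 4 ^ Λ * (1 + T) ^ (2 * Λ) := by
      calc P ^ 2 ≤ (2 ^ Λ * (1 + T) ^ Λ) ^ 2 := pow_le_pow_left₀ (by linarith) h2 2
        _ = 4 ^ Λ * (1 + T) ^ (2 * Λ) := by
          rw [mul_pow, ← pow_mul, ← pow_mul, mul_comm Λ 2, pow_mul]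
          norm_num
    rw [h1]
    calc 1024 * (Λ : ℝ) ^ 2 / r ^ 2 * P ^ 2 * (1 + T)
        ≤ 1024 * (Λ : ℝ) ^ 2 / r ^ 2 * (4 ^ Λ * (1 + T) ^ (2 * Λ)) * (1 + T) := by gcongr
      _ = 1024 * Λ ^ 2 * 4 ^ Λ / r ^ 2 * (1 + T) ^ (2 * Λ + 1) := by ring
  have e4 : (1 : ℝ) ≤ (1 + T) ^ (2 * Λ + 1) := one_le_pow₀ hT1
  have e5 : (1 + T) ^ (2 * Λ + 1) ≤ (1 + T) ^ N := pow_le_pow_right₀ hT1 hN1
  have e6 : 0 ≤ (Λ : ℝ) * Real.exp Λ / r := by positivity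
  have e7 : 0 ≤ 1024 * (Λ : ℝ) ^ 2 * 4 ^ Λ / r ^ 2 := by positivity
  have e8 : (0 : ℝ) ≤ N := Nat.cast_nonneg _
  calc _ ≤ 1024 * Λ ^ 2 * 4 ^ Λ / r ^ 2 * (1 + T) ^ (2 * Λ + 1) + Λ * Real.exp Λ / r * 1 := by
        rw [mul_one]
        exact add_le_add (e1.trans e3) e2
    _ ≤ 1024 * Λ ^ 2 * 4 ^ Λ / r ^ 2 * (1 + T) ^ N + Λ * Real.exp Λ / r * (1 + T) ^ N := by
        gcongr
        exact e4.trans e5
    _ = K * (1 + T) ^ N := by rw [hK]; ring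
    _ ≤ N * (1 + T) ^ N := by gcongr

end E35
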