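import Pool.Agent.LibBE35E.T0

/-! Row D3 of BE35E (BE35, part E; architect helper85). Neighbourhoods of `D`, unfolding and the flow. MEDIUM, 45 min.
Plan. `N ≥ Λ exp (Λ (Λ + 1))`. Write the measure as `∫⁻ F p * H p ∂(muS G)`, `F` = indicator of `{d o p.1 ≤ Λ + 1}`, `H p` = indicator of `Y` at `phi G n p` (measurable: `phi_cont`; invariant under `act`: `phi_smul` and `hi`).
`unfoldS` (LibSR85/M1): `= ∫⁻ p in D ×ˢ univ, (∑' g, F (act G g p)) * H p`, and `∑' g, F (act G g p)` is the number of `g` with `d o (g • p.1) ≤ Λ + 1`, so `≤ Λ exp (Λ (Λ + 1))` (`cnt_all`; `tsum` of an indicator of a finite set).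
Then `∫⁻ H ∂(muD D G) = muD D G Y` by `inv_flow` (LibSR85/M4) with `t = n`. -/

open MeasureTheory Set Filter Topology
open scoped ContDiff ENNReal NNReal ComplexConjugate

namespace E35

open BGS (Pl Surface grid per)
open SR85

variable {Γ : Type} [Group Γ] [MulAction Γ Pl] {D : Set Pl} {G : Dat Γ}
variable {a b r : ℝ} {Λ : ℕ}

theorem flow_nbd (D : Set Pl) (a b r : ℝ) (Λ : ℕ) : ∃ N : ℕ, ∀ G : Dat Γ, UC D a b r Λ G →
    ∀ (o : Pl) (n : ℕ) (Y : Set (Pl × ℂ)), MeasurableSet Y →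
      (∀ (g : Γ) (p : Pl × ℂ), act G g p ∈ Y ↔ p ∈ Y) →
      muS G {p | G.d o p.1 ≤ Λ + 1 ∧ phi G n p ∈ Y} ≤ N * muD D G Y := by
  classical
  set N : ℕ := ⌈(Λ : ℝ) * Real.exp (Λ * (Λ + 1))⌉₊ with hN
  refine ⟨N, fun G hU o n Y hY hi => ?_⟩
  have h := hU.hg
  have hX := hU.hX
  set A : Set Pl := {x | G.d o x ≤ Λ + 1} with hA
  have hAm : MeasurableSet A := by
    have h1 : Continuous fun x : Pl => G.d o x :=
      (h.V_cont.comp (continuous_const.prodMk continuous_id)).norm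
    exact (isClosed_le h1 continuous_const).measurableSet
  have hφm : Measurable fun p : Pl × ℂ => phi G n p := M3_meas h n
  set F : Pl × ℂ → ℝ≥0∞ := fun p => A.indicator (fun _ => (1 : ℝ≥0∞)) p.1 with hF
  set H0 : Pl × ℂ → ℝ≥0∞ := fun p => Y.indicator (fun _ => (1 : ℝ≥0∞)) p with hH0
  have hFm : Measurable F := (measurable_const.indicator hAm).comp measurable_fst
  have hH0m : Measurable H0 := measurable_const.indicator hY
  have hH0i : ∀ (g : Γ) (p : Pl × ℂ), H0 (act G g p) = H0 p := by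
    intro g p
    by_cases hp : p ∈ Y
    · simp only [hH0, indicator_of_mem hp, indicator_of_mem ((hi g p).2 hp)]
    · simp only [hH0, indicator_of_notMem hp, indicator_of_notMem (fun hq => hp ((hi g p).1 hq))]
  have hHm : Measurable fun p => H0 (phi G n p) := hH0m.comp hφm
  have hHi : ∀ (g : Γ) (p : Pl × ℂ), H0 (phi G n (act G g p)) = H0 (phi G n p) := fun g p => by
    rw [phi_smul h, hH0i]
  have hSm : MeasurableSet {p : Pl × ℂ | G.d o p.1 ≤ Λ + 1 ∧ phi G n p ∈ Y} :=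
    (measurable_fst hAm).inter (hφm hY)
  have e1 : muS G {p : Pl × ℂ | G.d o p.1 ≤ Λ + 1 ∧ phi G n p ∈ Y} =
      ∫⁻ p, F p * H0 (phi G n p) ∂(muS G) := by
    rw [← one_mul (muS G _), ← lintegral_indicator_const hSm]
    refine lintegral_congr fun p => ?_
    by_cases h1 : G.d o p.1 ≤ Λ + 1
    · by_cases h2 : phi G n p ∈ Y
      · rw [indicator_of_mem (show p ∈ {p : Pl × ℂ | G.d o p.1 ≤ Λ + 1 ∧ phi G n p ∈ Y} from
          ⟨h1, h2⟩)]
        simp only [hF, hH0, indicator_of_mem (show p.1 ∈ A from h1), indicator_of_mem h2, one_mul]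
      · rw [indicator_of_notMem (show p ∉ {p : Pl × ℂ | G.d o p.1 ≤ Λ + 1 ∧ phi G n p ∈ Y} from
          fun hq => h2 hq.2)]
        simp only [hH0, indicator_of_notMem h2, mul_zero]
    · rw [indicator_of_notMem (show p ∉ {p : Pl × ℂ | G.d o p.1 ≤ Λ + 1 ∧ phi G n p ∈ Y} from
          fun hq => h1 hq.1)]
      simp only [hF, indicator_of_notMem (show p.1 ∉ A from h1), zero_mul]
  have e2 : ∀ p : Pl × ℂ, ∑' g : Γ, F (act G g p) ≤ N := by
    intro p
    obtain ⟨hfin, hcard⟩ := cnt_all hU (t := (Λ : ℝ) + 1) (by positivity) o p.1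
    have h1 : ∀ g ∉ hfin.toFinset, F (act G g p) = 0 := by
      intro g hg
      have h2 : (act G g p).1 ∉ A := fun h3 => hg (hfin.mem_toFinset.2 h3)
      simp only [hF, indicator_of_notMem h2]
    rw [tsum_eq_sum h1]
    have h2 : ∀ g ∈ hfin.toFinset, F (act G g p) ≤ 1 := by
      intro g _
      by_cases h3 : (act G g p).1 ∈ A
      · simp only [hF, indicator_of_mem h3, le_refl]
      · simp only [hF, indicator_of_notMem h3, zero_le]
    refine (Finset.sum_le_card_nsmul _ _ _ h2).trans ?_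
    rw [nsmul_eq_mul, mul_one]
    have h3 : hfin.toFinset.card ≤ N := by
      rw [← Set.ncard_eq_toFinset_card _ hfin]
      have h4 : (({g : Γ | G.d o (g • p.1) ≤ (Λ : ℝ) + 1}.ncard : ℕ) : ℝ) ≤ N :=
        hcard.trans (Nat.le_ceil _)
      exact_mod_cast h4
    exact_mod_cast h3
  have e3 : ∫⁻ p, H0 (phi G n p) ∂(muD D G) = muD D G Y := by
    rw [inv_flow hX h (Nat.cast_nonneg n) hH0m hH0i]
    simp only [hH0]
    rw [lintegral_indicator_const hY, one_mul]
  rw [e1, unfoldS hX h hFm hHm hHi, ← e3, ← lintegral_const_mul _ hHm]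
  unfold muD
  exact lintegral_mono fun p => mul_le_mul_left (e2 p) _

end E35
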