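import Pool.Agent.LibBE35E.D1

/-! Row D4 of BE35E (BE35, part E; architect helper85). The measure of a tube from below. MEDIUM, 60 min.
Plan. `two_point` (LibSR85/M2) with `H t p q = indicator {x | d x P ≤ s} p.1 * indicator {y | d y (g • P) ≤ s} q.1` (in `ℝ≥0∞`): the right side of the claim is its left side since `(phi G t p).1 = pt G p t`. So it is
`∫⁻ x, (∫⁻ y, 1_{B(P, s)} x 1_{B(g P, s)} y ofReal (1 / J x y) ofReal (rho y)) ofReal (rho x)`. On the two balls `UC.jac` for `(P, g • P, x, y)` (hypotheses `hl`, `hs1`, `hs2`) gives `J x y ≤ exp (1 / 2) J P (g • P) ≤ 2 J P (g • P)` (`J > 0`: `J_pos`, `x ≠ y`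
since `d x y ≥ 1 - 2 s > 0`), so the integral is `≥ 1 / (2 J) * ar (B(P, s)) * ar (B(g P, s)) ≥ (π s²)² / (2 J)` (`ar_low`, `ar_lint`, `d_symm`). -/

open MeasureTheory Set Filter Topology
open scoped ContDiff ENNReal NNReal ComplexConjugate

namespace E35

open BGS (Pl Surface grid per)
open SR85

variable {Γ : Type} [Group Γ] [MulAction Γ Pl] {D : Set Pl} {G : Dat Γ}
variable {a b r : ℝ} {Λ : ℕ}

/-- The tube. -/
def tb (G : Dat Γ) (g : Γ) (P : Pl) (s : ℝ) : Set (ℝ × Pl × ℂ) :=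
  {q | G.d q.2.1 P ≤ s ∧ G.d (pt G q.2 q.1) (g • P) ≤ s}

theorem tb_meas (h : HG D G) (g : Γ) (P : Pl) (s : ℝ) : MeasurableSet (tb G g P s) := by
  have h0 : Continuous fun q : ℝ × Pl × ℂ => q.2.1 := continuous_fst.comp continuous_snd
  have h1 : Continuous fun q : ℝ × Pl × ℂ => G.d q.2.1 P :=
    (d_cont h).comp (h0.prodMk continuous_const)
  have h2 : Continuous fun q : ℝ × Pl × ℂ => pt G q.2 q.1 := by
    have h4 : Continuous fun q : ℝ × Pl × ℂ => (q.1 : ℂ) * q.2.2 :=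
      (Complex.continuous_ofReal.comp continuous_fst).mul (continuous_snd.comp continuous_snd)
    exact h.E_cont.comp (h0.prodMk h4)
  have h3 : Continuous fun q : ℝ × Pl × ℂ => G.d (pt G q.2 q.1) (g • P) :=
    (d_cont h).comp (h2.prodMk continuous_const)
  exact ((isClosed_le h1 continuous_const).inter (isClosed_le h3 continuous_const)).measurableSet

theorem D4_J (hU : UC D a b r Λ G) {g : Γ} {P : Pl} {s : ℝ}
    (hl : 1 ≤ G.d P (g • P)) (hs1 : Λ * (1 + G.d P (g • P)) ^ Λ * (2 * s) ≤ 1 / 2)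
    (hs2 : 2 * s ≤ 1 / 4) {x y : Pl} (hx : G.d P x ≤ s) (hy : G.d (g • P) y ≤ s) :
    0 < G.J x y ∧ G.J x y ≤ 2 * G.J P (g • P) ∧ 0 < G.J P (g • P) := by
  have hh := hU.hg
  have hne : x ≠ y := by
    rintro rfl
    have h1 := hh.d_tri P x (g • P)
    have h2 := hh.d_symm x (g • P)
    linarith
  have hne' : P ≠ g • P := by
    intro h1
    rw [← h1, d_self hh] at hl
    linarith
  have hJ := J_pos hh hne
  have hJ' := J_pos hh hne'
  refine ⟨hJ, ?_, hJ'⟩
  have h1 := hU.jac P (g • P) x y hl (by linarith)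
  have h2 : (Λ : ℝ) * (1 + G.d P (g • P)) ^ Λ * (G.d P x + G.d (g • P) y) ≤ 1 / 2 := by
    refine le_trans (mul_le_mul_of_nonneg_left ?_ ?_) hs1
    · linarith
    · have : 0 ≤ G.d P (g • P) := by linarith
      positivity
  have h3 := (abs_le.1 (h1.trans h2)).1
  have h4 : Real.log (G.J x y) ≤ Real.log (G.J P (g • P)) + 1 / 2 := by linarith
  have h5 : G.J x y ≤ G.J P (g • P) * Real.exp (1 / 2) := by
    calc G.J x y = Real.exp (Real.log (G.J x y)) := (Real.exp_log hJ).symm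
      _ ≤ Real.exp (Real.log (G.J P (g • P)) + 1 / 2) := Real.exp_le_exp.2 h4
      _ = G.J P (g • P) * Real.exp (1 / 2) := by rw [Real.exp_add, Real.exp_log hJ']
  have h6 : Real.exp (1 / 2) ≤ 2 := by
    have h7 : Real.exp (1 / 2) * Real.exp (1 / 2) = Real.exp 1 := by
      rw [← Real.exp_add]
      norm_num
    have h8 := Real.exp_one_lt_d9
    have h9 : 0 < Real.exp (1 / 2 : ℝ) := Real.exp_pos _
    by_contra hc
    push Not at hc
    nlinarith
  calc G.J x y ≤ G.J P (g • P) * Real.exp (1 / 2) := h5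
    _ ≤ G.J P (g • P) * 2 := mul_le_mul_of_nonneg_left h6 hJ'.le
    _ = 2 * G.J P (g • P) := mul_comm _ _

theorem tube_low (hU : UC D a b r Λ G) {g : Γ} {P : Pl} {s : ℝ} (hs : 0 < s)
    (hl : 1 ≤ G.d P (g • P)) (hs1 : Λ * (1 + G.d P (g • P)) ^ Λ * (2 * s) ≤ 1 / 2)
    (hs2 : 2 * s ≤ 1 / 4) :
    ENNReal.ofReal ((Real.pi * s ^ 2) ^ 2 / (2 * G.J P (g • P))) ≤
      ∫⁻ t in Ioi (0 : ℝ), ∫⁻ p, (tb G g P s).indicator (fun _ => (1 : ℝ≥0∞)) (t, p)
        ∂(muS G) := by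
  have hh := hU.hg
  obtain ⟨A, hA⟩ : ∃ A : Set Pl, A = {x | G.d P x ≤ s} := ⟨_, rfl⟩
  obtain ⟨B, hB⟩ : ∃ B : Set Pl, B = {y | G.d (g • P) y ≤ s} := ⟨_, rfl⟩
  have hAm : MeasurableSet A := by rw [hA]; exact bl_meas hh P s
  have hBm : MeasurableSet B := by rw [hB]; exact bl_meas hh (g • P) s
  have hAi : Measurable (A.indicator (fun _ => (1 : ℝ≥0∞))) := measurable_const.indicator hAm
  have hBi : Measurable (B.indicator (fun _ => (1 : ℝ≥0∞))) := measurable_const.indicator hBm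
  have hH : Measurable fun q : ℝ × (Pl × ℂ) × (Pl × ℂ) =>
      A.indicator (fun _ => (1 : ℝ≥0∞)) q.2.1.1 * B.indicator (fun _ => (1 : ℝ≥0∞)) q.2.2.1 :=
    (hAi.comp measurable_snd.fst.fst).mul (hBi.comp measurable_snd.snd.fst)
  have hE : ∀ (t : ℝ) (p : Pl × ℂ), (tb G g P s).indicator (fun _ => (1 : ℝ≥0∞)) (t, p) =
      A.indicator (fun _ => (1 : ℝ≥0∞)) p.1 *
        B.indicator (fun _ => (1 : ℝ≥0∞)) (phi G t p).1 := by
    intro t p
    have e1 : (t, p) ∈ tb G g P s ↔ p.1 ∈ A ∧ (phi G t p).1 ∈ B := by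
      rw [hA, hB]
      unfold tb phi pt
      simp only [Set.mem_ofPred_eq]
      rw [hh.d_symm P p.1, hh.d_symm (g • P) _]
    by_cases h1 : p.1 ∈ A
    · by_cases h2 : (phi G t p).1 ∈ B
      · rw [Set.indicator_of_mem (e1.2 ⟨h1, h2⟩), Set.indicator_of_mem h1,
          Set.indicator_of_mem h2, one_mul]
      · rw [Set.indicator_of_notMem (fun h => h2 (e1.1 h).2), Set.indicator_of_notMem h2, mul_zero]
    · rw [Set.indicator_of_notMem (fun h => h1 (e1.1 h).1), Set.indicator_of_notMem h1, zero_mul]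
  have h0 : ∫⁻ t in Ioi (0 : ℝ), ∫⁻ p, (tb G g P s).indicator (fun _ => (1 : ℝ≥0∞)) (t, p)
        ∂(muS G) = ∫⁻ t in Ioi (0 : ℝ), ∫⁻ p, A.indicator (fun _ => (1 : ℝ≥0∞)) p.1 *
        B.indicator (fun _ => (1 : ℝ≥0∞)) (phi G t p).1 ∂(muS G) :=
    lintegral_congr fun t => lintegral_congr fun p => hE t p
  rw [h0, two_point hh (H := fun _ p q => A.indicator (fun _ => (1 : ℝ≥0∞)) p.1 *
        B.indicator (fun _ => (1 : ℝ≥0∞)) q.1) hH]
  obtain ⟨c, hc⟩ : ∃ c : ℝ≥0∞, c = ENNReal.ofReal (1 / (2 * G.J P (g • P))) := ⟨_, rfl⟩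
  have hρ : Measurable fun z => ENNReal.ofReal (G.rho z) := hh.rho_cont.measurable.ennreal_ofReal
  have hAρ : Measurable fun x => A.indicator (fun _ => (1 : ℝ≥0∞)) x * ENNReal.ofReal (G.rho x) :=
    hAi.mul hρ
  have hBρ : Measurable fun x => B.indicator (fun _ => (1 : ℝ≥0∞)) x * ENNReal.ofReal (G.rho x) :=
    hBi.mul hρ
  have harA : ∫⁻ x, A.indicator (fun _ => (1 : ℝ≥0∞)) x * ENNReal.ofReal (G.rho x) = ar G A := by
    rw [← ar_lint hh hAi]
    exact lintegral_indicator_one hAm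
  have harB : ∫⁻ x, B.indicator (fun _ => (1 : ℝ≥0∞)) x * ENNReal.ofReal (G.rho x) = ar G B := by
    rw [← ar_lint hh hBi]
    exact lintegral_indicator_one hBm
  have hlowA : ENNReal.ofReal (Real.pi * s ^ 2) ≤ ar G A := by rw [hA]; exact ar_low hh P hs
  have hlowB : ENNReal.ofReal (Real.pi * s ^ 2) ≤ ar G B := by
    rw [hB]; exact ar_low hh (g • P) hs
  have hxx : ∀ x y : Pl, A.indicator (fun _ => (1 : ℝ≥0∞)) x * c *
      (B.indicator (fun _ => (1 : ℝ≥0∞)) y * ENNReal.ofReal (G.rho y)) ≤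
      A.indicator (fun _ => (1 : ℝ≥0∞)) x * B.indicator (fun _ => (1 : ℝ≥0∞)) y *
        ENNReal.ofReal (1 / G.J x y) * ENNReal.ofReal (G.rho y) := by
    intro x y
    by_cases h1 : x ∈ A
    · by_cases h2 : y ∈ B
      · have h1' : G.d P x ≤ s := by rw [hA] at h1; exact h1
        have h2' : G.d (g • P) y ≤ s := by rw [hB] at h2; exact h2
        obtain ⟨j1, j2, j3⟩ := D4_J hU hl hs1 hs2 h1' h2'
        rw [Set.indicator_of_mem h1, Set.indicator_of_mem h2, one_mul, one_mul, one_mul, one_mul]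
        refine mul_le_mul_left ?_ _
        rw [hc]
        refine ENNReal.ofReal_le_ofReal ?_
        exact one_div_le_one_div_of_le j1 j2
      · rw [Set.indicator_of_notMem h2, zero_mul, mul_zero]
        exact zero_le
    · rw [Set.indicator_of_notMem h1, zero_mul, zero_mul]
      exact zero_le
  have hinner : ∀ x : Pl, A.indicator (fun _ => (1 : ℝ≥0∞)) x * c * ar G B ≤
      ∫⁻ y, A.indicator (fun _ => (1 : ℝ≥0∞)) x * B.indicator (fun _ => (1 : ℝ≥0∞)) y *
        ENNReal.ofReal (1 / G.J x y) * ENNReal.ofReal (G.rho y) := by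
    intro x
    rw [← harB, ← lintegral_const_mul _ hBρ]
    exact lintegral_mono fun y => hxx x y
  calc ENNReal.ofReal ((Real.pi * s ^ 2) ^ 2 / (2 * G.J P (g • P)))
      = c * ENNReal.ofReal (Real.pi * s ^ 2) * ENNReal.ofReal (Real.pi * s ^ 2) := by
        have hne' : P ≠ g • P := by
          intro h1
          rw [← h1, d_self hh] at hl
          linarith
        have hJ' := J_pos hh hne'
        rw [hc, ← ENNReal.ofReal_mul (by positivity), ← ENNReal.ofReal_mul (by positivity)]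
        congr 1
        field_simp
    _ ≤ c * ar G B * ar G A := mul_le_mul' (mul_le_mul' le_rfl hlowB) hlowA
    _ = ∫⁻ x, (A.indicator (fun _ => (1 : ℝ≥0∞)) x * c * ar G B) *
          ENNReal.ofReal (G.rho x) := by
        rw [← harA, ← lintegral_const_mul _ hAρ]
        refine lintegral_congr fun x => ?_
        ring
    _ ≤ _ := lintegral_mono fun x => mul_le_mul' (hinner x) le_rfl

end E35
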