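import Pool.Agent.LibSR85.M4
import Pool.Agent.LibSR85.N7
import Pool.Agent.LibSR85.P4
import Pool.Agent.LibSR85.P7
import Pool.Agent.LibBGM20.Q1

/-! BE35, part E: closed geodesics of one metric, with uniform constants. Definitions. -/

open MeasureTheory Set Filter Topology
open scoped ContDiff ENNReal NNReal ComplexConjugate

namespace E35

open BGS (Pl Surface grid per)
open SR85

variable {Γ : Type} [Group Γ] [MulAction Γ Pl] {D : Set Pl} {G : Dat Γ}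

/-- The metrics with given constants. -/
structure UC (D : Set Pl) (a b r : ℝ) (Λ : ℕ) (G : Dat Γ) : Prop where
  hX : Surface Γ D
  hg : HG D G
  ea : G.a = a
  eb : G.b = b
  r_pos : 0 < r
  r_le : r ≤ 1
  L_one : 1 ≤ Λ
  /-- the systole -/
  sys : ∀ g : Γ, g ≠ 1 → ∀ x : Pl, r ≤ G.d x (g • x)
  /-- the number of the elements of the group -/
  cnt : ∀ t : ℝ, 0 ≤ t → ∀ x ∈ closure D, ∀ y ∈ closure D,
    {g : Γ | G.d x (g • y) ≤ t}.Finite ∧
      ({g : Γ | G.d x (g • y) ≤ t}.ncard : ℝ) ≤ Λ * Real.exp (Λ * t)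
  /-- the Jacobi fields -/
  jac : ∀ x y x' y' : Pl, 1 ≤ G.d x y → G.d x x' + G.d y y' ≤ 1 / 4 →
    |Real.log (G.J x y) - Real.log (G.J x' y')| ≤
      Λ * (1 + G.d x y) ^ Λ * (G.d x x' + G.d y y')
  diam : ∀ x ∈ closure D, ∀ y ∈ closure D, G.d x y ≤ Λ
  /-- the distance and the coordinates -/
  loc : ∀ x ∈ closure D, ∀ y : Pl, ‖x - y‖ ≤ 1 / Λ → G.d x y ≤ Λ * ‖x - y‖
  loc' : ∀ x ∈ closure D, ∀ y : Pl, G.d x y ≤ 1 / Λ → ‖x - y‖ ≤ Λ * G.d x y

/-- Representatives `rep` of the conjugacy classes, with their axes `(x0, u0)`, their lengths `l`,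
the generators `g0` of the centralisers, with lengths `l0`, and the exponents `n`. -/
structure Cl (G : Dat Γ) where
  rep : ConjClasses Γ → Γ
  g0 : ConjClasses Γ → Γ
  x0 : ConjClasses Γ → Pl
  u0 : ConjClasses Γ → ℂ
  l : ConjClasses Γ → ℝ
  l0 : ConjClasses Γ → ℝ
  n : ConjClasses Γ → ℕ
  hrep : ∀ c, ConjClasses.mk (rep c) = c
  ax : ∀ c, c ≠ 1 → Ax G (rep c) (x0 c) (u0 c) (l c)
  ax0 : ∀ c, c ≠ 1 → Ax G (g0 c) (x0 c) (u0 c) (l0 c)
  cent : ∀ c, c ≠ 1 → ∀ h : Γ, h * rep c = rep c * h ↔ h ∈ Subgroup.zpowers (g0 c)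
  pow : ∀ c, c ≠ 1 → rep c = g0 c ^ n c

/-- The point at time `t` of the geodesic of the unit vector `p`. -/
noncomputable def pt (G : Dat Γ) (p : Pl × ℂ) (t : ℝ) : Pl := G.E p.1 ((t : ℂ) * p.2)

/-- The opposite vector. -/
def rv (p : Pl × ℂ) : Pl × ℂ := (p.1, -p.2)

/-- The vector of the axis of the class `c`. -/
def tv (M : Cl G) (c : ConjClasses Γ) : Pl × ℂ := (M.x0 c, M.u0 c)

/-- The geodesic of `q` stays within `ρ` of that of `p` on the time interval `[s, s + 1]`. -/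
def Fl (G : Dat Γ) (ρ : ℝ) (p q : Pl × ℂ) (s : ℝ) : Prop :=
  ∀ t ∈ Icc s (s + 1), ∃ t' : ℝ, G.d (pt G p t) (pt G q t') ≤ ρ

/-- The geodesics of `p` and `q` are the same line. -/
def Same (G : Dat Γ) (p q : Pl × ℂ) : Prop := ∀ t : ℝ, ∃ t' : ℝ, pt G p t = pt G q t'

/-- Every unit segment of the axis of `c` is followed by a line of a class of `F`. -/
def Par (M : Cl G) (ρ : ℝ) (F : Finset (ConjClasses Γ)) (c : ConjClasses Γ) : Prop :=
  ∀ s : ℝ, ∃ c' ∈ F, ∃ γ : Γ, Fl G ρ (tv M c) (act G γ (tv M c')) s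

/-- Two different lines of classes of `F` follow each other. -/
def Enc (M : Cl G) (ρ : ℝ) (F : Finset (ConjClasses Γ)) : Prop :=
  ∃ c ∈ F, ∃ c' ∈ F, ∃ (γ : Γ) (s : ℝ), Fl G ρ (tv M c) (act G γ (tv M c')) s ∧
    ¬ Same G (tv M c) (act G γ (tv M c'))

/-- The weight of a class. -/
noncomputable def wt (M : Cl G) (c : ConjClasses Γ) : ℝ :=
  M.l0 c / √(Dax G (M.rep c) (M.x0 c))

/-- The same primitive class up to inversion. -/
def Rel (M : Cl G) (c c' : ConjClasses Γ) : Prop :=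
  ConjClasses.mk (M.g0 c) = ConjClasses.mk (M.g0 c') ∨
    ConjClasses.mk (M.g0 c) = ConjClasses.mk (M.g0 c')⁻¹

/-- The largest length. -/
noncomputable def ell (K R : ℝ) : ℝ := K * (Real.log R) ^ (3 / 2 : ℝ)

/-- The integral of the cell function over the closed geodesic. -/
noncomputable def xi (M : Cl G) (R : ℕ) (p : ℤ × ℤ) (c : ConjClasses Γ) : ℝ :=
  ∫ t in (0 : ℝ)..M.l c, per Γ (BGM.bmq R p) (pt G (tv M c) t)

/-- The classes of the indices in `I`. -/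
noncomputable def imf {q : ℕ} (c : Fin q → ConjClasses Γ) (P : Fin q → Prop) :
    Finset (ConjClasses Γ) := by
  classical
  exact (Finset.univ.filter P).image c

/-- The bad tuples. -/
def Bad (M : Cl G) {q : ℕ} (ρ ρ' ℓ : ℝ) (ε : Fin q → ℝ) : Set (Fin q → ConjClasses Γ) :=
  {c | (∀ i, c i ≠ 1 ∧ M.l (c i) ≤ ℓ) ∧
    Enc M ρ' (imf c fun i => 0 < ε i) ∧ Enc M ρ' (imf c fun i => ε i < 0) ∧
    (∀ i, 0 < ε i → Par M ρ (imf c fun j => ε j < 0) (c i)) ∧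
    ∀ i, ε i < 0 → Par M ρ (imf c fun j => 0 < ε j) (c i)}

/-- The radius of the tubes. -/
noncomputable def rad (r : ℝ) (Λ : ℕ) (ℓ : ℝ) : ℝ := r / (16 * Λ * (2 + ℓ) ^ Λ)

end E35
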