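import Pool.Agent.LibBE35E.P3
import Pool.Agent.LibBE35E.A8
import Pool.Agent.LibBE35E.C1
import Pool.Agent.LibBE35E.C2
import Pool.Agent.LibBE35E.D11
import Pool.Agent.LibBE35E.D12
import Pool.Agent.LibBE35E.D13

/-! Row F1 of BE35E (BE35, part E; architect helper85). The sum over the bad tuples (step (10) of BE35_E.md; helper86).
From `partners` (C2), `short_same` (C1), `symm` (A3), `mutf` (D11), `selff` (D12), `wt_sum`, `cl_fin` (D13), `small` (A8). -/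

open MeasureTheory Set Filter Topology
open scoped ContDiff ENNReal NNReal ComplexConjugate

namespace E35

open BGS (Pl Surface grid per)
open SR85

variable {Γ : Type} [Group Γ] [MulAction Γ Pl] {D : Set Pl} {G : Dat Γ}
variable {a b r : ℝ} {Λ : ℕ}

omit [MulAction Γ Pl] in
/-- The family of a tuple depends only on the coordinates in `P`. -/
theorem imf_congr {q : ℕ} {P : Fin q → Prop} {c c' : Fin q → ConjClasses Γ}
    (h : ∀ i, P i → c i = c' i) : imf c P = imf c' P := by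
  classical
  unfold imf
  ext x
  simp only [Finset.mem_image, Finset.mem_filter, Finset.mem_univ, true_and]
  constructor
  · rintro ⟨i, hi, rfl⟩
    exact ⟨i, hi, (h i hi).symm⟩
  · rintro ⟨i, hi, rfl⟩
    exact ⟨i, hi, h i hi⟩

omit [MulAction Γ Pl] in
theorem imf_mem {q : ℕ} {P : Fin q → Prop} {c : Fin q → ConjClasses Γ} {x : ConjClasses Γ} :
    x ∈ imf c P ↔ ∃ i, P i ∧ c i = x := by
  classical
  unfold imf
  simp only [Finset.mem_image, Finset.mem_filter, Finset.mem_univ, true_and]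

omit [MulAction Γ Pl] in
theorem imf_card {q : ℕ} (P : Fin q → Prop) (c : Fin q → ConjClasses Γ) :
    (imf c P).card ≤ q := by
  classical
  unfold imf
  refine Finset.card_image_le.trans ?_
  refine (Finset.card_filter_le _ _).trans ?_
  rw [Finset.card_univ, Fintype.card_fin]

/-- The two kinds of encounters. -/
theorem enc_cases (h : HG D G) (hb : G.b = b) (M : Cl G) {ρ' ρ₂ ls : ℝ} (hρ' : ρ' ≤ 1 / 8)
    (hρ₂ : cx b * ρ' * Real.exp b ≤ ρ₂) (hρ₁ : ρ' ≤ ρ₂)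
    (hshort : ∀ c c' : ConjClasses Γ, c ≠ 1 → c' ≠ 1 → M.l c ≤ ls → M.l c' ≤ ls →
      ∀ (γ : Γ) (s : ℝ), Fl G ρ' (tv M c) (act G γ (tv M c')) s →
        Same G (tv M c) (act G γ (tv M c')))
    {F : Finset (ConjClasses Γ)} (hF : ∀ c ∈ F, c ≠ 1) (he : Enc M ρ' F) :
    (∃ c ∈ F, ls ≤ M.l c ∧ ∃ (γ : Γ) (s : ℝ), Fl G ρ₂ (tv M c) (act G γ (tv M c)) s ∧
        ¬ Same G (tv M c) (act G γ (tv M c))) ∨
    ∃ c ∈ F, ∃ c' ∈ F, c ≠ c' ∧ ls ≤ M.l c ∧ ∃ (γ : Γ) (s : ℝ),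
      Fl G ρ₂ (tv M c) (act G γ (tv M c')) s := by
  obtain ⟨c, hc, c', hc', γ, s, hf, hns⟩ := he
  by_cases hl : ls ≤ M.l c
  · by_cases hcc : c = c'
    · subst hcc
      left
      exact ⟨c, hc, hl, γ, s, Fl_mono hρ₁ hf, hns⟩
    · right
      exact ⟨c, hc, c', hc', hcc, hl, γ, s, Fl_mono hρ₁ hf⟩
  · by_cases hl' : ls ≤ M.l c'
    · right
      have hcc : c' ≠ c := by
        rintro rfl
        exact hl hl'
      obtain ⟨s', hs'⟩ := symm h (tv_unit M (hF c hc)) (act_unit h γ (tv_unit M (hF c' hc'))) hρ' hf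
      rw [hb] at hs'
      refine ⟨c', hc', c, hc, hcc, hl', γ⁻¹, s', ?_⟩
      have h1 := (Fl_act h γ⁻¹).2 hs'
      rw [act_inv h] at h1
      exact Fl_mono hρ₂ h1
    · exact absurd (hshort c c' (hF c hc) (hF c' hc') (not_le.1 hl).le (not_le.1 hl').le γ s hf) hns

open scoped Classical in
/-- One side, explicit. -/
theorem side1 (M : Cl G) {q : ℕ} {ρ ρ' ℓ ls : ℝ} (P : Fin q → Prop)
    (T : Finset (ConjClasses Γ)) (hT : ∀ c, c ∈ T ↔ c ≠ 1 ∧ M.l c ≤ ℓ) {Z Y δ : ℝ} (hZ : 1 ≤ Z)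
    (hY : 1 ≤ Y) (hδ : 0 ≤ δ) (hTZ : ∑ c ∈ T, wt M c ^ 2 ≤ Z)
    (hself : ∀ S : Finset (ConjClasses Γ), (∀ c ∈ S, c ≠ 1 ∧ ls ≤ M.l c ∧ M.l c ≤ ℓ ∧
      ∃ (γ : Γ) (s : ℝ), Fl G ρ' (tv M c) (act G γ (tv M c)) s ∧
        ¬ Same G (tv M c) (act G γ (tv M c))) → ∑ c ∈ S, wt M c ^ 2 ≤ δ)
    (hmut : ∀ c' ∈ T, ∀ S : Finset (ConjClasses Γ), (∀ c ∈ S, c ≠ 1 ∧ ls ≤ M.l c ∧ M.l c ≤ ℓ ∧
      ∃ (γ : Γ) (s : ℝ), Fl G ρ' (tv M c) (act G γ (tv M c')) s) → ∑ c ∈ S, wt M c ^ 2 ≤ δ)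
    (hpar : ∀ F : Finset (ConjClasses Γ), F.card ≤ q → F ⊆ T →
      ((T.filter fun c => Par M ρ F c).card : ℝ) ≤ Y)
    (B : Finset (Fin q → ConjClasses Γ)) (hB : ∀ c ∈ B, (∀ i, c i ∈ T) ∧
      ((∃ c₁ ∈ imf c P, ls ≤ M.l c₁ ∧ ∃ (γ : Γ) (s : ℝ),
        Fl G ρ' (tv M c₁) (act G γ (tv M c₁)) s ∧ ¬ Same G (tv M c₁) (act G γ (tv M c₁))) ∨
      ∃ c₁ ∈ imf c P, ∃ c₂ ∈ imf c P, c₁ ≠ c₂ ∧ ls ≤ M.l c₁ ∧ ∃ (γ : Γ) (s : ℝ),
        Fl G ρ' (tv M c₁) (act G γ (tv M c₂)) s) ∧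
      ∀ i, ¬ P i → Par M ρ (imf c P) (c i)) :
    ∑ c ∈ B, ∏ i, (if P i then wt M (c i) ^ 2 else 1) ≤
      Y ^ q * ((q + q * q) * (δ * Z ^ q)) := by
  obtain ⟨f, hf⟩ : ∃ f : Fin q → ConjClasses Γ → ℝ, f = fun i c => if P i then wt M c ^ 2 else 1 :=
    ⟨_, rfl⟩
  have hf0 : ∀ i c, 0 ≤ f i c := by
    intro i c
    rw [hf]
    show 0 ≤ if P i then wt M c ^ 2 else 1
    split_ifs
    · positivity
    · exact zero_le_one
  obtain ⟨g, hg⟩ : ∃ g : (Fin q → ConjClasses Γ) → ℝ, g = fun u => ∏ i, f i (u i) := ⟨_, rfl⟩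
  have hg0 : ∀ u, 0 ≤ g u := by
    intro u
    rw [hg]
    exact Finset.prod_nonneg fun i _ => hf0 i _
  have hgc : ∀ c : Fin q → ConjClasses Γ, ∏ i, (if P i then wt M (c i) ^ 2 else 1) =
      g (fun k => if P k then c k else 1) := by
    intro c
    rw [hg, hf]
    apply Finset.prod_congr rfl
    intro i _
    show (if P i then wt M (c i) ^ 2 else 1) = if P i then wt M (if P i then c i else 1) ^ 2 else 1
    by_cases hi : P i
    · simp only [if_pos hi]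
    · simp only [if_neg hi]
  have himf : ∀ c : Fin q → ConjClasses Γ, imf (fun k => if P k then c k else 1) P = imf c P :=
    fun c => imf_congr fun i hi => by simp only [if_pos hi]
  have hfib := F1_fib P B g hg0 1 hY (fun u => T.filter fun c => Par M ρ (imf u P) c)
    (fun c hc i hi => by
      rw [Finset.mem_filter, himf]
      exact ⟨(hB c hc).1 i, (hB c hc).2.2 i hi⟩)
    (fun c hc => by
      simp only [himf]
      apply hpar _ (imf_card P c)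
      intro x hx
      obtain ⟨i, -, rfl⟩ := imf_mem.1 hx
      exact (hB c hc).1 i)
  rw [Finset.sum_congr rfl fun c _ => hgc c]
  refine hfib.trans ?_
  apply mul_le_mul_of_nonneg_left _ (by positivity)
  -- the coordinates
  obtain ⟨T', hT'⟩ : ∃ T' : Fin q → Finset (ConjClasses Γ), T' = fun i => if P i then T else {1} :=
    ⟨_, rfl⟩
  have hT'Z : ∀ k, ∑ c ∈ T' k, f k c ≤ Z := by
    intro k
    rw [hT', hf]
    show ∑ c ∈ (if P k then T else {1}), (if P k then wt M c ^ 2 else 1) ≤ Z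
    by_cases hk : P k
    · simp only [if_pos hk]; exact hTZ
    · simp only [if_neg hk, Finset.sum_singleton]; exact hZ
  obtain ⟨S₁, hS₁⟩ : ∃ S₁ : Finset (ConjClasses Γ), S₁ = T.filter fun c => ls ≤ M.l c ∧
    ∃ (γ : Γ) (s : ℝ), Fl G ρ' (tv M c) (act G γ (tv M c)) s ∧
      ¬ Same G (tv M c) (act G γ (tv M c)) := ⟨_, rfl⟩
  obtain ⟨S₂, hS₂⟩ : ∃ S₂ : ConjClasses Γ → Finset (ConjClasses Γ), S₂ = fun c' =>
    if c' ∈ T then (T.filter fun c => ls ≤ M.l c ∧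
      ∃ (γ : Γ) (s : ℝ), Fl G ρ' (tv M c) (act G γ (tv M c')) s) else ∅ := ⟨_, rfl⟩
  have hS₁δ : ∀ i, P i → ∑ c ∈ (T' i).filter (· ∈ S₁), f i c ≤ δ := by
    intro i hi
    have e1 : ∀ c ∈ (T' i).filter (· ∈ S₁), f i c = wt M c ^ 2 := by
      intro c _
      rw [hf]
      simp only [if_pos hi]
    rw [Finset.sum_congr rfl e1]
    apply hself
    intro c hc
    rw [Finset.mem_filter] at hc
    have h2 := hc.2
    rw [hS₁, Finset.mem_filter] at h2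
    have h3 := (hT c).1 h2.1
    exact ⟨h3.1, h2.2.1, h3.2, h2.2.2⟩
  have hS₂δ : ∀ c', ∀ i, P i → ∑ c ∈ (T' i).filter (· ∈ S₂ c'), f i c ≤ δ := by
    intro c' i hi
    by_cases hc' : c' ∈ T
    · have e1 : ∀ c ∈ (T' i).filter (· ∈ S₂ c'), f i c = wt M c ^ 2 := by
        intro c _
        rw [hf]
        simp only [if_pos hi]
      rw [Finset.sum_congr rfl e1]
      apply hmut c' hc'
      intro c hc
      rw [Finset.mem_filter] at hc
      have h2 := hc.2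
      rw [hS₂] at h2
      simp only [if_pos hc', Finset.mem_filter] at h2
      have h3 := (hT c).1 h2.1
      exact ⟨h3.1, h2.2.1, h3.2, h2.2.2⟩
    · have e1 : (T' i).filter (· ∈ S₂ c') = ∅ := by
        apply Finset.filter_eq_empty_iff.2
        intro c _ hc
        rw [hS₂] at hc
        simp only [if_neg hc'] at hc
        simp at hc
      rw [e1, Finset.sum_empty]
      exact hδ
  have hb1 : ∀ i, P i → ∑ u ∈ (Fintype.piFinset T').filter (fun u => u i ∈ S₁), g u ≤ δ * Z ^ q := by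
    intro i hi
    have := F1_one T' f hf0 hZ hT'Z i (fun _ => S₁) (fun _ _ => rfl) hδ (fun _ _ => by
      convert hS₁δ i hi)
    rw [Fintype.card_fin] at this
    rw [hg]
    exact this
  have hb2 : ∀ i j, P i → i ≠ j →
      ∑ u ∈ (Fintype.piFinset T').filter (fun u => u i ∈ S₂ (u j)), g u ≤ δ * Z ^ q := by
    intro i j hi hij
    have := F1_one T' f hf0 hZ hT'Z i (fun u => S₂ (u j))
      (fun u a => by
        show S₂ (Function.update u i a j) = S₂ (u j)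
        rw [Function.update_of_ne hij.symm]) hδ (fun u _ => by convert hS₂δ (u j) i hi)
    rw [Fintype.card_fin] at this
    rw [hg]
    exact this
  -- the union
  have hsub : B.image (fun c k => if P k then c k else 1) ⊆
      ((Finset.univ.filter P).biUnion fun i => (Fintype.piFinset T').filter (fun u => u i ∈ S₁)) ∪
      (((Finset.univ.filter P) ×ˢ (Finset.univ : Finset (Fin q))).filter
        (fun o => o.1 ≠ o.2)).biUnion fun o =>
        (Fintype.piFinset T').filter (fun u => u o.1 ∈ S₂ (u o.2)) := by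
    intro u hu
    rw [Finset.mem_image] at hu
    obtain ⟨c, hc, hu⟩ := hu
    obtain ⟨hcT, hcE, -⟩ := hB c hc
    have huT : u ∈ Fintype.piFinset T' := by
      rw [Fintype.mem_piFinset]
      intro i
      rw [hT', ← hu]
      show (if P i then c i else 1) ∈ (if P i then T else {1} : Finset (ConjClasses Γ))
      by_cases hi : P i
      · simp only [if_pos hi]; exact hcT i
      · simp only [if_neg hi, Finset.mem_singleton]
    have hui : ∀ i, P i → u i = c i := by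
      intro i hi
      rw [← hu]
      simp only [if_pos hi]
    rw [Finset.mem_union]
    rcases hcE with ⟨c₁, hc₁, hl, γ, s, hfl, hns⟩ | ⟨c₁, hc₁, c₂, hc₂, hne, hl, γ, s, hfl⟩
    · left
      obtain ⟨i, hi, rfl⟩ := imf_mem.1 hc₁
      rw [Finset.mem_biUnion]
      refine ⟨i, by simp [hi], ?_⟩
      rw [Finset.mem_filter]
      refine ⟨huT, ?_⟩
      rw [hui i hi, hS₁, Finset.mem_filter]
      exact ⟨hcT i, hl, γ, s, hfl, hns⟩
    · right
      obtain ⟨i, hi, rfl⟩ := imf_mem.1 hc₁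
      obtain ⟨j, hj, rfl⟩ := imf_mem.1 hc₂
      have hij : i ≠ j := by
        rintro rfl
        exact hne rfl
      rw [Finset.mem_biUnion]
      refine ⟨(i, j), by simp [hi, hij], ?_⟩
      rw [Finset.mem_filter]
      refine ⟨huT, ?_⟩
      show u i ∈ S₂ (u j)
      rw [hui i hi, hui j hj, hS₂]
      simp only [if_pos (hcT j), Finset.mem_filter]
      exact ⟨hcT i, hl, γ, s, hfl⟩
  have hZq : 0 ≤ δ * Z ^ q := by positivity
  refine (Finset.sum_le_sum_of_subset_of_nonneg hsub fun u _ _ => hg0 u).trans ?_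
  have hu1 : ∀ (A₁ A₂ : Finset (Fin q → ConjClasses Γ)),
      ∑ u ∈ A₁ ∪ A₂, g u ≤ ∑ u ∈ A₁, g u + ∑ u ∈ A₂, g u := by
    intro A₁ A₂
    have := Finset.sum_union_inter (s₁ := A₁) (s₂ := A₂) (f := g)
    have h2 : 0 ≤ ∑ u ∈ A₁ ∩ A₂, g u := Finset.sum_nonneg fun u _ => hg0 u
    linarith
  have hbU : ∀ {κ : Type} (I : Finset κ) (A : κ → Finset (Fin q → ConjClasses Γ)),
      ∑ u ∈ I.biUnion A, g u ≤ ∑ i ∈ I, ∑ u ∈ A i, g u := by
    intro κ I A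
    induction I using Finset.induction_on with
    | empty => simp
    | insert i I hi ih =>
      rw [Finset.biUnion_insert, Finset.sum_insert hi]
      refine (hu1 _ _).trans ?_
      linarith
  refine (hu1 _ _).trans ?_
  have g1 : ∑ u ∈ (Finset.univ.filter P).biUnion
      (fun i => (Fintype.piFinset T').filter (fun u => u i ∈ S₁)), g u ≤ q * (δ * Z ^ q) := by
    refine (hbU _ _).trans ?_
    refine (Finset.sum_le_sum fun i hi => hb1 i (Finset.mem_filter.1 hi).2).trans ?_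
    rw [Finset.sum_const, nsmul_eq_mul]
    apply mul_le_mul_of_nonneg_right _ hZq
    have : (Finset.univ.filter P).card ≤ q :=
      (Finset.card_filter_le _ _).trans (by rw [Finset.card_univ, Fintype.card_fin])
    exact_mod_cast this
  have g2 : ∑ u ∈ (((Finset.univ.filter P) ×ˢ (Finset.univ : Finset (Fin q))).filter
        (fun o => o.1 ≠ o.2)).biUnion (fun o =>
        (Fintype.piFinset T').filter (fun u => u o.1 ∈ S₂ (u o.2))), g u ≤
      (q * q) * (δ * Z ^ q) := by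
    refine (hbU _ _).trans ?_
    have hb3 : ∀ o ∈ (((Finset.univ.filter P) ×ˢ (Finset.univ : Finset (Fin q))).filter
        (fun o => o.1 ≠ o.2)), ∑ u ∈ (Fintype.piFinset T').filter (fun u => u o.1 ∈ S₂ (u o.2)),
          g u ≤ δ * Z ^ q := by
      intro o ho
      rw [Finset.mem_filter, Finset.mem_product, Finset.mem_filter] at ho
      exact hb2 o.1 o.2 ho.1.1.2 ho.2
    refine (Finset.sum_le_sum hb3).trans ?_
    rw [Finset.sum_const, nsmul_eq_mul]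
    apply mul_le_mul_of_nonneg_right _ hZq
    have : (((Finset.univ.filter P) ×ˢ (Finset.univ : Finset (Fin q))).filter
      (fun o => o.1 ≠ o.2)).card ≤ q * q := by
      refine (Finset.card_filter_le _ _).trans ?_
      rw [Finset.card_product, Finset.card_univ, Fintype.card_fin]
      apply Nat.mul_le_mul_right
      exact (Finset.card_filter_le _ _).trans (by rw [Finset.card_univ, Fintype.card_fin])
    exact_mod_cast this
  linarith

private theorem F1_num {q N1 N2 N3 : ℕ} {L R κ0 κ' : ℝ} (hL : 1 ≤ L) (hR : 1 ≤ R)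
    (hκ' : κ' * q ≤ κ0 / 4)
    (hs : ((((q + q * q) * (N1 + N2) * (N3 + 1) ^ q + (N1 + N2 + N3 * q) : ℕ) : ℝ) *
      L ^ ((q + q * q) * (N1 + N2) * (N3 + 1) ^ q + (N1 + N2 + N3 * q)) * R ^ (-(κ0 / 4)) ≤ 1)) :
    (R ^ κ') ^ q * ((q + q * q) * (((N1 + N2 : ℕ) : ℝ) * L ^ (N1 + N2) * R ^ (-κ0) *
      (((N3 + 1 : ℕ) : ℝ) * L ^ N3) ^ q)) ≤ R ^ (-(κ0 / 2)) := by
  have hR0 : 0 < R := by linarith
  obtain ⟨A, hA⟩ : ∃ A : ℕ, A = (q + q * q) * (N1 + N2) * (N3 + 1) ^ q := ⟨_, rfl⟩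
  obtain ⟨B, hB⟩ : ∃ B : ℕ, B = N1 + N2 + N3 * q := ⟨_, rfl⟩
  rw [← hA, ← hB] at hs
  have e1 : (R ^ κ') ^ q = R ^ (κ' * q) := by
    rw [Real.rpow_mul hR0.le, Real.rpow_natCast]
  have e2 : (R ^ κ') ^ q * ((q + q * q) * (((N1 + N2 : ℕ) : ℝ) * L ^ (N1 + N2) * R ^ (-κ0) *
      (((N3 + 1 : ℕ) : ℝ) * L ^ N3) ^ q)) =
      ((A : ℝ) * L ^ B) * (R ^ (κ' * q) * R ^ (-κ0)) := by
    rw [e1, mul_pow, ← pow_mul, hA, hB, pow_add L (N1 + N2)]
    push_cast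
    ring
  rw [e2, ← Real.rpow_add hR0]
  have e3 : R ^ (κ' * q + -κ0) ≤ R ^ (-(κ0 / 4)) * R ^ (-(κ0 / 2)) := by
    rw [← Real.rpow_add hR0]
    apply Real.rpow_le_rpow_of_exponent_le hR
    linarith
  have e4 : (A : ℝ) * L ^ B ≤ ((A + B : ℕ) : ℝ) * L ^ (A + B) := by
    apply mul_le_mul
    · push_cast; have : (0 : ℝ) ≤ B := Nat.cast_nonneg _
      linarith
    · exact pow_le_pow_right₀ hL (by omega)
    · positivity
    · exact Nat.cast_nonneg _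
  have e5 : 0 ≤ R ^ (-(κ0 / 2)) := (Real.rpow_pos_of_pos hR0 _).le
  have e6 : 0 ≤ R ^ (-(κ0 / 4)) := (Real.rpow_pos_of_pos hR0 _).le
  have e7 : (A : ℝ) * L ^ B * R ^ (κ' * q + -κ0) ≤
      (A : ℝ) * L ^ B * (R ^ (-(κ0 / 4)) * R ^ (-(κ0 / 2))) :=
    mul_le_mul_of_nonneg_left e3 (by positivity)
  have e8 : (A : ℝ) * L ^ B * (R ^ (-(κ0 / 4)) * R ^ (-(κ0 / 2))) ≤
      (((A + B : ℕ) : ℝ) * L ^ (A + B)) * (R ^ (-(κ0 / 4)) * R ^ (-(κ0 / 2))) :=
    mul_le_mul_of_nonneg_right e4 (mul_nonneg e6 e5)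
  have e9 : (((A + B : ℕ) : ℝ) * L ^ (A + B)) * (R ^ (-(κ0 / 4)) * R ^ (-(κ0 / 2))) =
      (((A + B : ℕ) : ℝ) * L ^ (A + B) * R ^ (-(κ0 / 4))) * R ^ (-(κ0 / 2)) := by ring
  have e10 := mul_le_mul_of_nonneg_right hs e5
  linarith

/-- The powers of `R`. -/
private theorem F1_rho {b : ℝ} (hcx : 0 ≤ cx b) : ∃ R0 : ℝ, 1 ≤ R0 ∧ ∀ R ρ' : ℝ, R0 ≤ R →
    ρ' ≤ R ^ (-(1 / 3) : ℝ) → ρ' ≤ 1 / 8 ∧ ρ' ≤ R ^ (-(1 / 4) : ℝ) ∧
      cx b * ρ' * Real.exp b ≤ R ^ (-(1 / 4) : ℝ) := by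
  obtain ⟨Q, hQ⟩ : ∃ Q : ℝ, Q = max 8 (cx b * Real.exp b) := ⟨_, rfl⟩
  have hQ8 : 8 ≤ Q := by rw [hQ]; exact le_max_left _ _
  have hQc : cx b * Real.exp b ≤ Q := by rw [hQ]; exact le_max_right _ _
  have hQ0 : 0 < Q := by linarith
  refine ⟨Q ^ 12, one_le_pow₀ (by linarith), fun R ρ' hR hρ => ?_⟩
  have hQ12 : 1 ≤ Q ^ 12 := one_le_pow₀ (by linarith)
  have hR1 : 1 ≤ R := hQ12.trans hR
  have hR0 : 0 < R := by linarith
  obtain ⟨w, hw⟩ : ∃ w : ℝ, w = R ^ (1 / 12 : ℝ) := ⟨_, rfl⟩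
  have hw0 : 0 < w := by rw [hw]; exact Real.rpow_pos_of_pos hR0 _
  have hw12 : w ^ 12 = R := by
    rw [hw, ← Real.rpow_natCast, ← Real.rpow_mul hR0.le]; norm_num
  have hwQ : Q ≤ w := le_of_pow_le_pow_left₀ (n := 12) (by norm_num) hw0.le (by rw [hw12]; exact hR)
  have h3 : R ^ (-(1 / 3) : ℝ) = 1 / w ^ 4 := by
    rw [hw, ← Real.rpow_natCast, ← Real.rpow_mul hR0.le, Real.rpow_neg hR0.le, one_div]
    norm_num
  have h4 : R ^ (-(1 / 4) : ℝ) = 1 / w ^ 3 := by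
    rw [hw, ← Real.rpow_natCast, ← Real.rpow_mul hR0.le, Real.rpow_neg hR0.le, one_div]
    norm_num
  rw [h3] at hρ
  rw [h4]
  have hw1 : 8 ≤ w := hQ8.trans hwQ
  have hw3 : 0 < w ^ 3 := by positivity
  have h34 : 1 / w ^ 4 ≤ 1 / w ^ 3 := by
    apply one_div_le_one_div_of_le hw3
    exact pow_le_pow_right₀ (by linarith) (by norm_num)
  have h38 : 1 / w ^ 3 ≤ 1 / 8 := by
    apply one_div_le_one_div_of_le (by norm_num)
    have h1 : w ^ 1 ≤ w ^ 3 := pow_le_pow_right₀ (by linarith) (by norm_num)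
    rw [pow_one] at h1
    linarith
  refine ⟨hρ.trans (h34.trans h38), hρ.trans h34, ?_⟩
  have h5 : cx b * ρ' * Real.exp b = (cx b * Real.exp b) * ρ' := by ring
  rw [h5]
  have h6 : (cx b * Real.exp b) * ρ' ≤ (cx b * Real.exp b) * (1 / w ^ 4) :=
    mul_le_mul_of_nonneg_left hρ (mul_nonneg hcx (Real.exp_pos _).le)
  have h7 : (cx b * Real.exp b) * (1 / w ^ 4) ≤ w * (1 / w ^ 4) :=
    mul_le_mul_of_nonneg_right (hQc.trans hwQ) (by positivity)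
  have h8 : w * (1 / w ^ 4) = 1 / w ^ 3 := by field_simp
  linarith

open scoped Classical in
/-- One side. -/
theorem side (D : Set Pl) (a b r : ℝ) (Λ q : ℕ) {K : ℝ} (hK : 0 ≤ K) : ∃ κ R0 : ℝ,
    0 < κ ∧ 1 ≤ R0 ∧ ∀ G : Dat Γ, UC D a b r Λ G → ∀ (M : Cl G) (R ρ ρ' : ℝ), R0 ≤ R →
      ρ ≤ R ^ (-(1 / 4) : ℝ) → ρ' ≤ R ^ (-(1 / 3) : ℝ) → ∀ (P : Fin q → Prop)
      (B : Finset (Fin q → ConjClasses Γ)), (∀ c ∈ B, (∀ i, c i ≠ 1 ∧ M.l (c i) ≤ ell K R) ∧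
        Enc M ρ' (imf c P) ∧ ∀ i, ¬ P i → Par M ρ (imf c P) (c i)) →
      ∑ c ∈ B, ∏ i, (if P i then wt M (c i) ^ 2 else 1) ≤ R ^ (-κ) := by
  by_cases hex : ∃ G : Dat Γ, UC D a b r Λ G
  swap
  · exact ⟨1, 1, one_pos, le_rfl, fun G hG => absurd ⟨G, hG⟩ hex⟩
  obtain ⟨G₀, hG₀⟩ := hex
  have hb : 0 < b := by
    have h1 := hG₀.hg.a_pos
    have h2 := hG₀.hg.ab
    rw [hG₀.eb] at h2
    linarith
  have hcx : 0 ≤ cx b := by
    unfold cx
    have : 0 ≤ 80 / b * Real.exp (2 * b) := by positivity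
    linarith
  obtain ⟨c5, R1, hc5, hR1, hsh⟩ := short_same (Γ := Γ) D a b r Λ
  obtain ⟨N1, κ1, R2, hκ1, hR2, hmu⟩ := mutf (Γ := Γ) D a b r Λ hK hc5
  obtain ⟨N2, κ2, R3, hκ2, hR3, hse⟩ := selff (Γ := Γ) D a b r Λ hK hc5
  obtain ⟨N3, hws⟩ := wt_sum (Γ := Γ) D a b r Λ
  obtain ⟨C4, hC4, hcl⟩ := cl_fin (Γ := Γ) D a b r Λ
  obtain ⟨κ0, hκ0⟩ : ∃ κ0 : ℝ, κ0 = min κ1 κ2 := ⟨_, rfl⟩
  have hκ0p : 0 < κ0 := by rw [hκ0]; exact lt_min hκ1 hκ2
  have hκ01 : κ0 ≤ κ1 := by rw [hκ0]; exact min_le_left _ _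
  have hκ02 : κ0 ≤ κ2 := by rw [hκ0]; exact min_le_right _ _
  obtain ⟨κ', hκ'⟩ : ∃ κ' : ℝ, κ' = κ0 / (4 * (q + 1)) := ⟨_, rfl⟩
  have hκ'p : 0 < κ' := by rw [hκ']; positivity
  have hκ'q : κ' * q ≤ κ0 / 4 := by
    have h1 : κ' * (q + 1) = κ0 / 4 := by rw [hκ']; field_simp
    linarith
  obtain ⟨R4, hR4, hpa⟩ := partners (Γ := Γ) D a b r Λ q hK hκ'p
  obtain ⟨R5, hR5, hsm⟩ := small ((q + q * q) * (N1 + N2) * (N3 + 1) ^ q + (N1 + N2 + N3 * q))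
    (K := K) (κ := κ0 / 4) (ε := 1) hK (by positivity) one_pos
  obtain ⟨R6, hR6, hrho⟩ := F1_rho (b := b) hcx
  refine ⟨κ0 / 2, R1 + R2 + R3 + R4 + R5 + R6, by positivity, by linarith,
    fun G hU M R ρ ρ' hR hρ hρ' P B hB => ?_⟩
  have hRR1 : R1 ≤ R := by linarith
  have hRR2 : R2 ≤ R := by linarith
  have hRR3 : R3 ≤ R := by linarith
  have hRR4 : R4 ≤ R := by linarith
  have hRR5 : R5 ≤ R := by linarith
  have hRR6 : R6 ≤ R := by linarith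
  have hR1' : 1 ≤ R := by linarith
  have hR0 : 0 < R := by linarith
  obtain ⟨hρ8, hρ4, hρ2⟩ := hrho R ρ' hRR6 hρ'
  have hlog : 0 ≤ Real.log R := Real.log_nonneg hR1'
  have hell : 0 ≤ ell K R := by
    unfold ell
    positivity
  obtain ⟨ℓ, hℓ⟩ : ∃ ℓ : ℝ, ℓ = ell K R := ⟨_, rfl⟩
  rw [← hℓ] at hell
  obtain ⟨L, hL⟩ : ∃ L : ℝ, L = 1 + ℓ := ⟨_, rfl⟩
  have hL1 : 1 ≤ L := by rw [hL]; linarith
  obtain ⟨hfin, -⟩ := hcl G hU M ℓ hell
  have hT : ∀ c, c ∈ hfin.toFinset ↔ c ≠ 1 ∧ M.l c ≤ ℓ := fun c => by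
    rw [Set.Finite.mem_toFinset]; exact Iff.rfl
  have hmono1 : ∀ {N : ℕ} {κ : ℝ}, N ≤ N1 + N2 → κ0 ≤ κ →
      (N : ℝ) * L ^ N * R ^ (-κ) ≤ ((N1 + N2 : ℕ) : ℝ) * L ^ (N1 + N2) * R ^ (-κ0) := by
    intro N κ hN hκ
    apply mul_le_mul
    · apply mul_le_mul
      · exact_mod_cast hN
      · exact pow_le_pow_right₀ hL1 hN
      · positivity
      · exact Nat.cast_nonneg _
    · exact Real.rpow_le_rpow_of_exponent_le hR1' (by linarith)
    · exact (Real.rpow_pos_of_pos hR0 _).le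
    · positivity
  have hdpos : 0 ≤ ((N1 + N2 : ℕ) : ℝ) * L ^ (N1 + N2) * R ^ (-κ0) := by
    have := (Real.rpow_pos_of_pos hR0 (-κ0)).le
    positivity
  have hZ1 : 1 ≤ ((N3 + 1 : ℕ) : ℝ) * L ^ N3 := by
    have h1 : 1 ≤ L ^ N3 := one_le_pow₀ hL1
    have h2 : (1 : ℝ) ≤ ((N3 + 1 : ℕ) : ℝ) := by
      push_cast; have : (0 : ℝ) ≤ N3 := Nat.cast_nonneg _
      linarith
    nlinarith
  have hfinal := side1 M (q := q) (ρ := ρ) (ρ' := R ^ (-(1 / 4) : ℝ)) (ℓ := ℓ)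
    (ls := c5 * Real.log R) P hfin.toFinset hT (Z := ((N3 + 1 : ℕ) : ℝ) * L ^ N3)
    (Y := R ^ κ') (δ := ((N1 + N2 : ℕ) : ℝ) * L ^ (N1 + N2) * R ^ (-κ0)) hZ1
    (Real.one_le_rpow hR1' hκ'p.le) hdpos
    (by
      refine (hws G hU M ℓ hell _ fun c hc => (hT c).1 hc).trans ?_
      rw [← hL]
      apply mul_le_mul_of_nonneg_right _ (by positivity)
      push_cast
      linarith)
    (fun S hS => by
      refine (hse G hU M R _ hRR3 le_rfl S fun c hc => ?_).trans ?_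
      · rw [← hℓ]
        exact hS c hc
      · rw [← hℓ, ← hL]
        exact hmono1 (by omega) hκ02)
    (fun c' hc' S hS => by
      refine (hmu G hU M R _ hRR2 le_rfl c' ((hT c').1 hc').1 (by
        rw [← hℓ]; exact ((hT c').1 hc').2) S fun c hc => ?_).trans ?_
      · rw [← hℓ]
        exact hS c hc
      · rw [← hℓ, ← hL]
        exact hmono1 (by omega) hκ01)
    (fun F hF hFT => by
      obtain ⟨f1, f2⟩ := hpa G hU M R ρ hRR4 hρ F hF fun c hc => by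
        rw [← hℓ]
        exact (hT c).1 (hFT hc)
      rw [← hℓ] at f1 f2
      refine le_trans ?_ f2
      rw [Set.ncard_eq_toFinset_card _ f1]
      apply Nat.cast_le.2
      apply Finset.card_le_card
      intro c hc
      rw [Finset.mem_filter] at hc
      rw [Set.Finite.mem_toFinset]
      have h3 := (hT c).1 hc.1
      exact ⟨h3.1, h3.2, hc.2⟩)
    B
    (fun c hc => by
      obtain ⟨h1, h2, h3⟩ := hB c hc
      rw [← hℓ] at h1
      refine ⟨fun i => (hT _).2 (h1 i), ?_, h3⟩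
      refine enc_cases hU.hg hU.eb M hρ8 hρ2 hρ4
        (fun c c' hc hc' hl hl' γ s hf => hsh G hU M R ρ' hRR1 hρ4 c c' hc hc' hl hl' γ s hf) ?_ h2
      intro x hx
      obtain ⟨i, -, rfl⟩ := imf_mem.1 hx
      exact (h1 i).1)
  have hs := hsm R hRR5
  rw [← hℓ, ← hL] at hs
  exact hfinal.trans (F1_num hL1 hR1' hκ'q hs)

theorem bad_sum (D : Set Pl) (a b r : ℝ) (Λ q : ℕ) {K : ℝ} (hK : 0 ≤ K) : ∃ κ R0 : ℝ,
    0 < κ ∧ 1 ≤ R0 ∧ ∀ G : Dat Γ, UC D a b r Λ G → ∀ (M : Cl G) (R ρ ρ' : ℝ), R0 ≤ R →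
      ρ ≤ R ^ (-(1 / 4) : ℝ) → ρ' ≤ R ^ (-(1 / 3) : ℝ) → ∀ ε : Fin q → ℝ, (∀ i, ε i ≠ 0) →
      (Bad M ρ ρ' (ell K R) ε).Finite ∧
      ∑ᶠ c ∈ Bad M ρ ρ' (ell K R) ε, ∏ i, wt M (c i) ≤ R ^ (-κ) := by
  classical
  obtain ⟨κ, R1, hκ, hR1, hside⟩ := side (Γ := Γ) D a b r Λ q hK
  obtain ⟨C4, hC4, hcl⟩ := cl_fin (Γ := Γ) D a b r Λ
  refine ⟨κ, R1, hκ, hR1, fun G hU M R ρ ρ' hR hρ hρ' ε hε => ?_⟩
  have hR1' : 1 ≤ R := hR1.trans hR
  have hlog : 0 ≤ Real.log R := Real.log_nonneg hR1'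
  have hell : 0 ≤ ell K R := by
    unfold ell
    positivity
  obtain ⟨hfin, -⟩ := hcl G hU M (ell K R) hell
  have hBf : (Bad M ρ ρ' (ell K R) ε).Finite := by
    refine (Set.Finite.pi' (fun _ : Fin q => hfin)).subset fun c hc i => ?_
    exact hc.1 i
  refine ⟨hBf, ?_⟩
  rw [finsum_mem_eq_finite_toFinset_sum _ hBf]
  obtain ⟨B, hB⟩ : ∃ B : Finset (Fin q → ConjClasses Γ), B = hBf.toFinset := ⟨_, rfl⟩
  rw [← hB]
  have hmem : ∀ c ∈ B, c ∈ Bad M ρ ρ' (ell K R) ε := fun c hc => by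
    rw [hB, Set.Finite.mem_toFinset] at hc
    exact hc
  have h1 := hside G hU M R ρ ρ' hR hρ hρ' (fun i => 0 < ε i) B fun c hc => by
    obtain ⟨a1, a2, a3, a4, a5⟩ := hmem c hc
    exact ⟨a1, a2, fun i hi => a5 i (lt_of_le_of_ne (not_lt.1 hi) (hε i))⟩
  have h2 := hside G hU M R ρ ρ' hR hρ hρ' (fun i => ε i < 0) B fun c hc => by
    obtain ⟨a1, a2, a3, a4, a5⟩ := hmem c hc
    exact ⟨a1, a3, fun i hi => a4 i (lt_of_le_of_ne (not_lt.1 hi) (hε i).symm)⟩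
  have h3 : ∀ c ∈ B, ∏ i, wt M (c i) ≤
      (∏ i, (if 0 < ε i then wt M (c i) ^ 2 else 1) +
        ∏ i, (if ε i < 0 then wt M (c i) ^ 2 else 1)) / 2 := by
    intro c hc
    have e1 : ∏ i, wt M (c i) = (∏ i, (if 0 < ε i then wt M (c i) else 1)) *
        ∏ i, (if ε i < 0 then wt M (c i) else 1) := by
      rw [← Finset.prod_mul_distrib]
      apply Finset.prod_congr rfl
      intro i _
      rcases lt_or_gt_of_ne (hε i) with h | h
      · rw [if_neg (not_lt.2 h.le), if_pos h, one_mul]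
      · rw [if_pos h, if_neg (not_lt.2 h.le), mul_one]
    have e2 : ∏ i, (if 0 < ε i then wt M (c i) ^ 2 else 1) =
        (∏ i, (if 0 < ε i then wt M (c i) else 1)) ^ 2 := by
      rw [← Finset.prod_pow]
      apply Finset.prod_congr rfl
      intro i _
      split_ifs
      · rfl
      · rw [one_pow]
    have e3 : ∏ i, (if ε i < 0 then wt M (c i) ^ 2 else 1) =
        (∏ i, (if ε i < 0 then wt M (c i) else 1)) ^ 2 := by
      rw [← Finset.prod_pow]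
      apply Finset.prod_congr rfl
      intro i _
      split_ifs
      · rfl
      · rw [one_pow]
    rw [e1, e2, e3]
    nlinarith [sq_nonneg ((∏ i, (if 0 < ε i then wt M (c i) else 1)) -
      ∏ i, (if ε i < 0 then wt M (c i) else 1))]
  refine (Finset.sum_le_sum h3).trans ?_
  rw [← Finset.sum_div, Finset.sum_add_distrib]
  have h1' : ∑ c ∈ B, ∏ i, (if 0 < ε i then wt M (c i) ^ 2 else 1) ≤ R ^ (-κ) := by
    convert h1
  have h2' : ∑ c ∈ B, ∏ i, (if ε i < 0 then wt M (c i) ^ 2 else 1) ≤ R ^ (-κ) := by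
    convert h2
  linarith

end E35
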