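import Pool.Agent.LibBE35E.F1
import Pool.Agent.LibBE35E.B3
import Pool.Agent.LibBE35E.B5

/-! Row F2 of BE35E (BE35, part E; architect helper85). Part E. MEDIUM, 45 min.
Plan. `B = Bad M (rh b Λ R) (rh' b Λ R) (ell K R) ε` with `bad_sum` (`rh ≤ R ^ (-1/4)`, `rh' ≤ R ^ (-1/3)` for `R ≥ R0`). Let `c ∉ B`, `lam` as in the statement: `0 < lam i ↔ 0 < ε i`, `lam i < 0 ↔ ε i < 0`, so `imf c (0 < lam) = imf c (0 < ε)` etc. `detect` gives both families of `Par`; so `c ∉ B` means that one of the two `Enc` fails. If `¬ Enc .. (imf c (0 < lam))`: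
`cancel`. If `¬ Enc .. (imf c (lam < 0))`: `cancel` for `-lam` (`imf c (0 < -lam) = imf c (lam < 0)`; the sums change sign). -/

open MeasureTheory Set Filter Topology
open scoped ContDiff ENNReal NNReal ComplexConjugate

namespace E35

open BGS (Pl Surface grid per)
open SR85

variable {Γ : Type} [Group Γ] [MulAction Γ Pl] {D : Set Pl} {G : Dat Γ}
variable {a b r : ℝ} {Λ : ℕ}

theorem F2_pow {C R β : ℝ} {n : ℕ} (hn : n ≠ 0) (hR : 1 ≤ R) (hC : |C| ^ n ≤ R)
    (hβ : β = (n : ℝ)⁻¹ + -(1 / 2)) : C * R ^ (-(1 / 2) : ℝ) ≤ R ^ β := by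
  have hR0 : 0 < R := by linarith
  have h1 : |C| ≤ R ^ ((n : ℝ)⁻¹) := by
    rw [← Real.pow_rpow_inv_natCast (abs_nonneg C) hn]
    exact Real.rpow_le_rpow (by positivity) hC (by positivity)
  rw [hβ, Real.rpow_add hR0]
  exact mul_le_mul_of_nonneg_right ((le_abs_self C).trans h1) (by positivity)

open Classical in
theorem partE (D : Set Pl) (a b r : ℝ) (Λ q L0 : ℕ)
    (hL : ∀ z ∈ closure D, |z.1| ≤ (L0 : ℝ) - 1 ∧ |z.2| ≤ (L0 : ℝ) - 1) {K Λ1 : ℝ}
    (hK : 0 ≤ K) (hΛ : 1 ≤ Λ1) : ∃ κ R0 : ℝ, 0 < κ ∧ 1 ≤ R0 ∧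
    ∀ G : Dat Γ, UC D a b r Λ G → ∀ (M : Cl G) (R : ℕ), R0 ≤ R →
      ∀ ε : Fin q → ℝ, (∀ i, ε i ≠ 0) → ∃ B : Set (Fin q → ConjClasses Γ), B.Finite ∧
      ∑ᶠ c ∈ B, ∏ i, wt M (c i) ≤ (R : ℝ) ^ (-κ) ∧ (∀ c ∈ B, ∀ i, c i ≠ 1) ∧
      ∀ c : Fin q → ConjClasses Γ, c ∉ B → (∀ i, c i ≠ 1 ∧ M.l (c i) ≤ ell K R) →
      ∀ lam : Fin q → ℝ, (∀ i, 0 < ε i * lam i ∧ 1 / Λ1 ≤ |lam i|) →
      (∀ p ∈ grid L0 R, |∑ i, lam i * xi M R p (c i)| ≤ (R : ℝ) ^ (-(3 / 2) : ℝ)) →
      ∀ i, |∑ j, if Rel M (c i) (c j) then lam j * M.n (c j) else 0| ≤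
        Λ * (R : ℝ) ^ (-(1 / 2) : ℝ) := by
  obtain ⟨κ, R1, hκ, hR1, hbad⟩ := bad_sum (Γ := Γ) D a b r Λ q hK
  obtain ⟨R2, hR2, hdet⟩ := detect (Γ := Γ) D a b r Λ q L0 hL hK hΛ
  obtain ⟨R3, hR3, hcan⟩ := cancel (Γ := Γ) D a b r Λ q L0 hL hK hΛ
  have hp1 : 0 ≤ |cx b * (3 * Λ) * Real.exp b| ^ 4 := by positivity
  have hp2 : 0 ≤ |(cx b * Real.exp (2 * b) + 1) * (cx b * (3 * Λ) * Real.exp b)| ^ 6 := by
    positivity
  refine ⟨κ, R1 + R2 + R3 + |cx b * (3 * Λ) * Real.exp b| ^ 4 +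
    |(cx b * Real.exp (2 * b) + 1) * (cx b * (3 * Λ) * Real.exp b)| ^ 6, hκ, by linarith, ?_⟩
  intro G hU M R hR ε hε
  have hR1' : R1 ≤ R := by linarith
  have hR2' : R2 ≤ R := by linarith
  have hR3' : R3 ≤ R := by linarith
  have hRone : (1 : ℝ) ≤ R := by linarith
  have hρ : rh b Λ R ≤ (R : ℝ) ^ (-(1 / 4) : ℝ) := by
    unfold rh
    exact F2_pow (n := 4) (by norm_num) hRone (by linarith) (by norm_num)
  have hρ' : rh' b Λ R ≤ (R : ℝ) ^ (-(1 / 3) : ℝ) := by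
    unfold rh' rh
    rw [← mul_assoc]
    exact F2_pow (n := 6) (by norm_num) hRone (by linarith) (by norm_num)
  obtain ⟨hf, hsum⟩ := hbad G hU M R _ _ hR1' hρ hρ' ε hε
  refine ⟨Bad M (rh b Λ R) (rh' b Λ R) (ell K R) ε, hf, hsum, fun c hc i => (hc.1 i).1, ?_⟩
  intro c hcB hc lam hlam hs i
  have hpos : (fun i => 0 < lam i) = fun i => 0 < ε i := by
    funext j
    apply propext
    have h1 := (hlam j).1
    constructor
    · intro h2
      exact (pos_iff_pos_of_mul_pos h1).2 h2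
    · intro h2
      exact (pos_iff_pos_of_mul_pos h1).1 h2
  have hneg : (fun i => lam i < 0) = fun i => ε i < 0 := by
    funext j
    apply propext
    have h1 := (hlam j).1
    constructor
    · intro h2
      exact (neg_iff_neg_of_mul_pos h1).2 h2
    · intro h2
      exact (neg_iff_neg_of_mul_pos h1).1 h2
  by_cases he : Enc M (rh' b Λ R) (imf c fun i => 0 < lam i)
  · by_cases he' : Enc M (rh' b Λ R) (imf c fun i => lam i < 0)
    · exfalso
      obtain ⟨h1, h2⟩ := hdet G hU M R hR2' c hc lam (fun i => (hlam i).2) hs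
      apply hcB
      refine ⟨hc, ?_, ?_, ?_, ?_⟩
      · rw [← hpos]; exact he
      · rw [← hneg]; exact he'
      · intro j hj
        rw [← hneg]
        exact h1 j (by have := congrFun hpos j; simp only [eq_iff_iff] at this; exact this.2 hj)
      · intro j hj
        rw [← hpos]
        exact h2 j (by have := congrFun hneg j; simp only [eq_iff_iff] at this; exact this.2 hj)
    · have h5 : (imf c fun j => 0 < -lam j) = imf c fun j => lam j < 0 := by
        congr 1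
        funext j
        rw [neg_pos]
      have h6 := hcan G hU M R hR3' c hc (fun j => -lam j)
        (fun j => by rw [abs_neg]; exact (hlam j).2) (fun p hp => by
          have h7 : ∑ i, -lam i * xi M R p (c i) = -∑ i, lam i * xi M R p (c i) := by
            rw [← Finset.sum_neg_distrib]
            exact Finset.sum_congr rfl fun _ _ => by ring
          rw [h7, abs_neg]
          exact hs p hp) (by rw [h5]; exact he') i
      have h8 : (∑ j, if Rel M (c i) (c j) then -lam j * M.n (c j) else 0) =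
          -∑ j, if Rel M (c i) (c j) then lam j * M.n (c j) else 0 := by
        rw [← Finset.sum_neg_distrib]
        refine Finset.sum_congr rfl fun j _ => ?_
        split_ifs
        · ring
        · simp
      rw [h8, abs_neg] at h6
      exact h6
  · exact hcan G hU M R hR3' c hc lam (fun i => (hlam i).2) hs he i

end E35
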