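import Mathlib

/-! BE35, part E: a bound for the number of codes. -/

open Set Filter Topology

namespace E35

theorem P_num (A : ℝ) (hA : 1 ≤ A) {κ : ℝ} (hκ : 0 < κ) : ∃ R0 : ℝ, 1 ≤ R0 ∧
    ∀ R : ℝ, R0 ≤ R → ∀ (J : ℕ) (Y : ℝ), (J : ℝ) ≤ A * (Real.log R) ^ (1 / 2 : ℝ) + A → 0 ≤ Y →
      Y ≤ A * (1 + Real.log R) ^ 4 → A * (1 + Y) ^ J ≤ R ^ κ := by
  obtain ⟨B, hB⟩ : ∃ B : ℝ, B = Real.log A + 2 * A * (Real.log (2 * A) + 20) := ⟨_, rfl⟩
  have hlA : 0 ≤ Real.log A := Real.log_nonneg hA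
  have hl2A : 0 ≤ Real.log (2 * A) := Real.log_nonneg (by linarith)
  have hB0 : 0 ≤ B := by rw [hB]; positivity
  refine ⟨Real.exp (max 1 ((B / κ) ^ 4)), Real.one_le_exp (le_trans zero_le_one (le_max_left _ _)),
    fun R hR J Y hJ hY hYle => ?_⟩
  have hR0 : 0 < R := lt_of_lt_of_le (Real.exp_pos _) hR
  obtain ⟨y, hy⟩ : ∃ y : ℝ, y = Real.log R := ⟨_, rfl⟩
  have hy0 : max 1 ((B / κ) ^ 4) ≤ y := by
    rw [hy, Real.le_log_iff_exp_le hR0]
    exact hR
  have hy1 : 1 ≤ y := (le_max_left _ _).trans hy0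
  have hy2 : (B / κ) ^ 4 ≤ y := (le_max_right _ _).trans hy0
  rw [← hy] at hJ hYle
  obtain ⟨z, hz⟩ : ∃ z : ℝ, z = y ^ (1 / 4 : ℝ) := ⟨_, rfl⟩
  have hz1 : 1 ≤ z := by rw [hz]; exact Real.one_le_rpow hy1 (by norm_num)
  have hz4 : z ^ 4 = y := by
    rw [hz, ← Real.rpow_natCast, ← Real.rpow_mul (by linarith)]
    norm_num
  have hz2 : y ^ (1 / 2 : ℝ) = z ^ 2 := by
    rw [hz, ← Real.rpow_natCast, ← Real.rpow_mul (by linarith)]
    norm_num
  have hBz : B ≤ κ * z := by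
    have h1 : (B / κ) ^ 4 ≤ z ^ 4 := by rw [hz4]; exact hy2
    have h2 : B / κ ≤ z := le_of_pow_le_pow_left₀ (by norm_num) (by linarith) h1
    rwa [div_le_iff₀' hκ] at h2
  rw [hz2] at hJ
  have hlogz : Real.log z ≤ z := by
    have := Real.log_le_sub_one_of_pos (show 0 < z by linarith)
    linarith
  have hz40 : 1 ≤ z ^ 4 := one_le_pow₀ hz1
  have h1y : Real.log (1 + y) ≤ 1 + 4 * z := by
    have h1 : 1 + y ≤ 2 * z ^ 4 := by rw [← hz4]; linarith
    have h2 : Real.log (1 + y) ≤ Real.log (2 * z ^ 4) := Real.log_le_log (by linarith) h1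
    rw [Real.log_mul (by norm_num) (by positivity), Real.log_pow] at h2
    have h3 : Real.log 2 ≤ 1 := by
      have := Real.log_two_lt_d9
      linarith
    push_cast at h2
    linarith
  have h1Y : Real.log (1 + Y) ≤ Real.log (2 * A) + 4 * (1 + 4 * z) := by
    have h1 : 1 + Y ≤ (2 * A) * (1 + y) ^ 4 := by
      have : 1 ≤ (1 + y) ^ 4 := one_le_pow₀ (by linarith)
      have : A * 1 ≤ A * (1 + y) ^ 4 := mul_le_mul_of_nonneg_left this (by linarith)
      linarith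
    have h2 : Real.log (1 + Y) ≤ Real.log ((2 * A) * (1 + y) ^ 4) := Real.log_le_log (by linarith) h1
    rw [Real.log_mul (by positivity) (by positivity), Real.log_pow] at h2
    push_cast at h2
    linarith
  have h1Y' : Real.log (1 + Y) ≤ (Real.log (2 * A) + 20) * z := by
    have : Real.log (2 * A) ≤ Real.log (2 * A) * z := le_mul_of_one_le_right hl2A hz1
    nlinarith
  have hlY : 0 ≤ Real.log (1 + Y) := Real.log_nonneg (by linarith)
  have hJ' : (J : ℝ) ≤ 2 * A * z ^ 2 := by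
    have : 1 ≤ z ^ 2 := one_le_pow₀ hz1
    have : A * 1 ≤ A * z ^ 2 := mul_le_mul_of_nonneg_left this (by linarith)
    linarith
  have hJY : (J : ℝ) * Real.log (1 + Y) ≤ 2 * A * (Real.log (2 * A) + 20) * z ^ 3 := by
    have h1 : (J : ℝ) * Real.log (1 + Y) ≤ (2 * A * z ^ 2) * ((Real.log (2 * A) + 20) * z) :=
      mul_le_mul hJ' h1Y' hlY (by positivity)
    refine h1.trans (le_of_eq ?_)
    ring
  have hz3 : 1 ≤ z ^ 3 := one_le_pow₀ hz1
  have hfin : Real.log A + J * Real.log (1 + Y) ≤ κ * y := by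
    have h1 : Real.log A ≤ Real.log A * z ^ 3 := le_mul_of_one_le_right hlA hz3
    have h2 : Real.log A + J * Real.log (1 + Y) ≤ B * z ^ 3 := by
      rw [hB, add_mul]
      linarith
    have h3 : B * z ^ 3 ≤ (κ * z) * z ^ 3 := mul_le_mul_of_nonneg_right hBz (by positivity)
    have h4 : (κ * z) * z ^ 3 = κ * y := by rw [← hz4]; ring
    linarith
  have e1 : A * (1 + Y) ^ J = Real.exp (Real.log A + J * Real.log (1 + Y)) := by
    rw [Real.exp_add, Real.exp_log (by linarith), Real.exp_nat_mul, Real.exp_log (by linarith)]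
  have e2 : R ^ κ = Real.exp (κ * y) := by
    rw [Real.rpow_def_of_pos hR0, ← hy, mul_comm]
  rw [e1, e2]
  exact Real.exp_le_exp.2 hfin

end E35
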