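import Pool.Agent.LibBE35E.P1
import Pool.Agent.LibBE35E.A3

/-! BE35, part E: the number of partners. -/

open MeasureTheory Set Filter Topology
open scoped ContDiff ENNReal NNReal ComplexConjugate

namespace E35

open BGS (Pl Surface grid per)
open SR85

variable {Γ : Type} [Group Γ] [MulAction Γ Pl] {D : Set Pl} {G : Dat Γ}
variable {a b r : ℝ} {Λ : ℕ}

/-- The strands near a point. -/
def St (M : Cl G) (F : Finset (ConjClasses Γ)) (L : ℕ) (z : Pl) : Set (ConjClasses Γ × Γ) :=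
  {o | o.1 ∈ F ∧ ∃ m : ℕ, m < L ∧ G.d z (o.2 • pt G (tv M o.1) m) ≤ 3}

theorem St_fin (hU : UC D a b r Λ G) (M : Cl G) {F : Finset (ConjClasses Γ)} {q N : ℕ}
    (hF : F.card ≤ q) (hN : (Λ : ℝ) * Real.exp (Λ * 3) ≤ N) (L : ℕ) (z : Pl) :
    (St M F L z).Finite ∧ (St M F L z).ncard ≤ q * (L * N) := by
  classical
  have hfin : ∀ y : Pl, {g : Γ | G.d z (g • y) ≤ 3}.Finite ∧ {g : Γ | G.d z (g • y) ≤ 3}.ncard ≤ N := by
    intro y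
    obtain ⟨h1, h2⟩ := cnt_all hU (t := 3) (by norm_num) z y
    refine ⟨h1, ?_⟩
    have : ({g : Γ | G.d z (g • y) ≤ 3}.ncard : ℝ) ≤ N := h2.trans hN
    exact_mod_cast this
  have e : St M F L z = ⋃ c ∈ F, ⋃ m ∈ Finset.range L,
      (fun γ : Γ => (c, γ)) '' {g : Γ | G.d z (g • pt G (tv M c) (m : ℕ)) ≤ 3} := by
    ext ⟨c, γ⟩
    simp only [St, mem_ofPred_eq, mem_iUnion, exists_prop, mem_image, Prod.mk.injEq,
      Finset.mem_range]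
    constructor
    · rintro ⟨hc, m, hm, hd⟩
      exact ⟨c, hc, m, hm, γ, hd, rfl, rfl⟩
    · rintro ⟨c', hc, m, hm, γ', hd, rfl, rfl⟩
      exact ⟨hc, m, hm, hd⟩
  have h1 : ∀ c m, ((fun γ : Γ => (c, γ)) '' {g : Γ | G.d z (g • pt G (tv M c) (m : ℕ)) ≤ 3}).Finite ∧
      ((fun γ : Γ => (c, γ)) '' {g : Γ | G.d z (g • pt G (tv M c) (m : ℕ)) ≤ 3}).ncard ≤ N :=
    fun c m => ⟨(hfin _).1.image _, (Set.ncard_image_le (hfin _).1).trans (hfin _).2⟩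
  have h2 : ∀ c, (⋃ m ∈ Finset.range L,
      (fun γ : Γ => (c, γ)) '' {g : Γ | G.d z (g • pt G (tv M c) (m : ℕ)) ≤ 3}).Finite ∧
      (⋃ m ∈ Finset.range L,
      (fun γ : Γ => (c, γ)) '' {g : Γ | G.d z (g • pt G (tv M c) (m : ℕ)) ≤ 3}).ncard ≤ L * N := by
    intro c
    refine ⟨Set.Finite.biUnion (Finset.range L).finite_toSet fun m _ => (h1 c m).1, ?_⟩
    refine (Finset.set_ncard_biUnion_le _ _).trans ?_
    refine (Finset.sum_le_sum fun m _ => (h1 c m).2).trans ?_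
    rw [Finset.sum_const, Finset.card_range, smul_eq_mul]
  rw [e]
  refine ⟨Set.Finite.biUnion F.finite_toSet fun c _ => (h2 c).1, ?_⟩
  refine (Finset.set_ncard_biUnion_le _ _).trans ?_
  refine (Finset.sum_le_sum fun c _ => (h2 c).2).trans ?_
  rw [Finset.sum_const, smul_eq_mul]
  exact Nat.mul_le_mul_right _ hF

/-- A line followed on a unit segment is close for a long time to one of few strands. -/
theorem St_step (hU : UC D a b r Λ G) (M : Cl G) {F : Finset (ConjClasses Γ)}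
    (hF1 : ∀ c ∈ F, c ≠ 1) {L : ℕ} (hL : ∀ c ∈ F, M.l c < L) {p : Pl × ℂ} (hp : ‖p.2‖ = 1) {s ρ β η : ℝ}
    (hρ : ρ ≤ 1 / 8) (hβ : 0 ≤ β) (hη : 0 < η) (hη1 : η ≤ 1 / 4)
    (hρη : cx b * ρ * Real.exp (b * β) ≤ η) {c : ConjClasses Γ} (hc : c ∈ F) {γ : Γ}
    (hf : Fl G ρ p (act G γ (tv M c)) s) {z : Pl} (hz : G.d (pt G p s) z ≤ 2 * η) :
    ∃ o ∈ St M F L z, ∀ t : ℝ, 0 ≤ t → t ≤ β → ∃ u : ℝ, -β ≤ u ∧ u ≤ L + β ∧
      G.d (pt G p (s + t)) (o.2 • pt G (tv M o.1) u) ≤ η := by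
  have h := hU.hg
  have hb0 : 0 < b := by
    have h1 := h.a_pos
    have h2 := h.ab
    rw [hU.eb] at h2
    linarith
  have hc1 := hF1 c hc
  obtain ⟨u, e, he, hall⟩ := sync h hp (act_unit h γ (tv_unit M hc1)) hρ hf
  rw [hU.eb] at hall
  have hl := l_pos M hc1
  obtain ⟨k, hk⟩ : ∃ k : ℤ, k = ⌊u / M.l c⌋ := ⟨_, rfl⟩
  have hk1 : (k : ℝ) * M.l c ≤ u := by
    rw [← le_div_iff₀ hl, hk]; exact Int.floor_le _
  have hk2 : u < (k + 1) * M.l c := by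
    rw [← div_lt_iff₀ hl, hk]; exact Int.lt_floor_add_one _
  obtain ⟨u', hu'⟩ : ∃ u' : ℝ, u' = u - k * M.l c := ⟨_, rfl⟩
  have hu'0 : 0 ≤ u' := by rw [hu']; linarith
  have hu'1 : u' < M.l c := by rw [hu']; linarith
  obtain ⟨γ', hγ'⟩ : ∃ γ' : Γ, γ' = γ * M.rep c ^ k := ⟨_, rfl⟩
  have hmove : ∀ τ : ℝ, γ' • pt G (tv M c) (u' + τ) = pt G (act G γ (tv M c)) (u + τ) := by
    intro τ
    rw [pt_act h, hγ', mul_smul, rep_zpow M hc1, hu']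
    congr 2
    ring
  have hcx : 0 ≤ cx b := by
    unfold cx
    have : 0 ≤ 80 / b * Real.exp (2 * b) := by positivity
    linarith
  have hρ0 : 0 ≤ ρ := by
    obtain ⟨t', ht'⟩ := hf s ⟨le_rfl, by linarith⟩
    exact (norm_nonneg _).trans ht'
  have hle : ∀ t : ℝ, |t| ≤ β → cx b * ρ * Real.exp (b * |t|) ≤ η := by
    intro t ht
    refine le_trans ?_ hρη
    apply mul_le_mul_of_nonneg_left _ (mul_nonneg hcx hρ0)
    exact Real.exp_le_exp.2 (mul_le_mul_of_nonneg_left ht hb0.le)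
  have h0 := (hall 0).trans (hle 0 (by rw [abs_zero]; exact hβ))
  rw [add_zero, mul_zero, ← hmove 0, add_zero] at h0
  refine ⟨(c, γ'), ⟨hc, ⌊u'⌋₊, ?_, ?_⟩, fun t ht0 htβ => ⟨u' + e * t, ?_, ?_, ?_⟩⟩
  · have h1 : ((⌊u'⌋₊ : ℕ) : ℝ) ≤ u' := Nat.floor_le hu'0
    have h2 : ((⌊u'⌋₊ : ℕ) : ℝ) < L := by linarith [hL c hc]
    exact_mod_cast h2
  · show G.d z (γ' • pt G (tv M c) (⌊u'⌋₊ : ℕ)) ≤ 3
    have h1 : ((⌊u'⌋₊ : ℕ) : ℝ) ≤ u' := Nat.floor_le hu'0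
    have h2 : u' < (⌊u'⌋₊ : ℕ) + 1 := Nat.lt_floor_add_one _
    have t1 := h.d_tri z (pt G p s) (γ' • pt G (tv M c) (⌊u'⌋₊ : ℕ))
    have t2 := h.d_tri (pt G p s) (γ' • pt G (tv M c) u') (γ' • pt G (tv M c) (⌊u'⌋₊ : ℕ))
    have t3 : G.d (γ' • pt G (tv M c) u') (γ' • pt G (tv M c) (⌊u'⌋₊ : ℕ)) ≤ 1 := by
      rw [d_smul h, d_pt h (tv_unit M hc1), abs_sub_comm, abs_of_nonneg (by linarith)]
      linarith
    have t4 : G.d z (pt G p s) ≤ 2 * η := by rw [h.d_symm]; exact hz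
    linarith
  · rcases he with he | he
    · rw [he, one_mul]; linarith
    · rw [he, neg_one_mul]; linarith
  · have := hL c hc
    rcases he with he | he
    · rw [he, one_mul]; linarith
    · rw [he, neg_one_mul]; linarith
  · show G.d (pt G p (s + t)) (γ' • pt G (tv M c) (u' + e * t)) ≤ η
    rw [hmove]
    exact (hall t).trans (hle t (by rw [abs_of_nonneg ht0]; exact htβ))

/-- The next net points. -/
theorem St_next (hU : UC D a b r Λ G) (M : Cl G) {F : Finset (ConjClasses Γ)} {q N : ℕ}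
    (hF : F.card ≤ q) (hF1 : ∀ c ∈ F, c ≠ 1) (hN : (Λ : ℝ) * Real.exp (Λ * 3) ≤ N) {L W : ℕ}
    (hL : ∀ c ∈ F, M.l c < L) {ρ β η : ℝ} (hρ : ρ ≤ 1 / 8) (hβ : 0 ≤ β) (hη : 0 < η)
    (hη1 : η ≤ 1 / 4) (hρη : cx b * ρ * Real.exp (b * β) ≤ η)
    (hW : ((L : ℝ) + 2 * β) / η + 3 ≤ W) (z : Pl) :
    ∃ P : Finset Pl, P.card ≤ q * (L * N) * W ∧ ∀ p : Pl × ℂ, ‖p.2‖ = 1 → ∀ s : ℝ,
      (∃ c ∈ F, ∃ γ : Γ, Fl G ρ p (act G γ (tv M c)) s) → G.d (pt G p s) z ≤ 2 * η →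
      ∀ t : ℝ, 0 ≤ t → t ≤ β → ∃ w ∈ P, G.d (pt G p (s + t)) w ≤ 2 * η := by
  classical
  have h := hU.hg
  obtain ⟨hS, hSc⟩ := St_fin hU M hF hN L z
  obtain ⟨A, hA⟩ : ∃ A : ℤ, A = ⌊-β / η⌋ := ⟨_, rfl⟩
  refine ⟨(hS.toFinset ×ˢ Finset.Ico A (A + W)).image
    fun o => o.1.2 • pt G (tv M o.1.1) (η * o.2), ?_, ?_⟩
  · refine Finset.card_image_le.trans ?_
    rw [Finset.card_product, ← Set.ncard_eq_toFinset_card _ hS, Int.card_Ico]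
    have : (A + (W : ℤ) - A).toNat = W := by simp
    rw [this]
    exact Nat.mul_le_mul_right _ hSc
  · rintro p hp s ⟨c, hc, γ, hf⟩ hz t ht0 htβ
    obtain ⟨o, ho, hall⟩ := St_step hU M hF1 hL hp hρ hβ hη hη1 hρη hc hf hz
    obtain ⟨u, hu0, hu1, hu⟩ := hall t ht0 htβ
    obtain ⟨n, hn⟩ : ∃ n : ℤ, n = ⌊u / η⌋ := ⟨_, rfl⟩
    have hn1 : (n : ℝ) ≤ u / η := by rw [hn]; exact Int.floor_le _
    have hn2 : u / η < n + 1 := by rw [hn]; exact Int.lt_floor_add_one _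
    have hA2 : -β / η < A + 1 := by rw [hA]; exact Int.lt_floor_add_one _
    refine ⟨o.2 • pt G (tv M o.1) (η * n), ?_, ?_⟩
    · rw [Finset.mem_image]
      refine ⟨(o, n), ?_, rfl⟩
      rw [Finset.mem_product, Set.Finite.mem_toFinset, Finset.mem_Ico]
      refine ⟨ho, ?_, ?_⟩
      · rw [hA, hn]
        apply Int.floor_le_floor
        exact div_le_div_of_nonneg_right hu0 hη.le
      · have h1 : u / η ≤ ((L : ℝ) + β) / η := div_le_div_of_nonneg_right hu1 hη.le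
        have h2 : ((L : ℝ) + 2 * β) / η = ((L : ℝ) + β) / η - (-β / η) := by
          field_simp
          ring
        have h3 : (n : ℝ) < A + W := by linarith
        exact_mod_cast h3
    · have t1 := h.d_tri (pt G p (s + t)) (o.2 • pt G (tv M o.1) u) (o.2 • pt G (tv M o.1) (η * n))
      have e1 : G.d (o.2 • pt G (tv M o.1) u) (o.2 • pt G (tv M o.1) (η * n)) ≤ η := by
        rw [d_smul h, d_pt h (tv_unit M (hF1 _ ho.1))]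
        rw [le_div_iff₀ hη] at hn1
        rw [div_lt_iff₀ hη] at hn2
        rw [abs_sub_comm, abs_of_nonneg (by linarith)]
        linarith
      linarith

/-- The nets. -/
theorem St_net (hU : UC D a b r Λ G) (M : Cl G) {F : Finset (ConjClasses Γ)} {q N : ℕ}
    (hF : F.card ≤ q) (hF1 : ∀ c ∈ F, c ≠ 1) (hN : (Λ : ℝ) * Real.exp (Λ * 3) ≤ N) {L W : ℕ}
    (hL : ∀ c ∈ F, M.l c < L) {ρ β η : ℝ} (hρ : ρ ≤ 1 / 8) (hβ : 0 ≤ β) (hη : 0 < η)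
    (hη1 : η ≤ 1 / 4) (hρη : cx b * ρ * Real.exp (b * β) ≤ η)
    (hW : ((L : ℝ) + 2 * β) / η + 3 ≤ W) (X : Finset Pl) (J : ℕ) :
    ∃ R : Finset Pl, R.card ≤ X.card * (1 + q * (L * N) * W) ^ J ∧ ∀ p : Pl × ℂ, ‖p.2‖ = 1 →
      (∀ s : ℝ, ∃ c ∈ F, ∃ γ : Γ, Fl G ρ p (act G γ (tv M c)) s) →
      (∃ z ∈ X, G.d (pt G p 0) z ≤ 2 * η) → ∀ t : ℝ, 0 ≤ t → t ≤ J * β →
      ∃ z ∈ R, G.d (pt G p t) z ≤ 2 * η := by
  classical
  choose P hPc hP using fun z => St_next hU M hF hF1 hN hL hρ hβ hη hη1 hρη hW z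
  induction J with
  | zero =>
    refine ⟨X, by simp, fun p hp hpar hX t ht0 ht => ?_⟩
    have : t = 0 := by
      simp at ht
      linarith
    rw [this]
    exact hX
  | succ J ih =>
    obtain ⟨R, hRc, hR⟩ := ih
    refine ⟨R ∪ R.biUnion P, ?_, fun p hp hpar hX t ht0 ht => ?_⟩
    · calc (R ∪ R.biUnion P).card ≤ R.card + (R.biUnion P).card := Finset.card_union_le _ _
        _ ≤ R.card + R.card * (q * (L * N) * W) :=
            Nat.add_le_add_left (Finset.card_biUnion_le_card_mul _ _ _ fun z _ => hPc z) _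
        _ = R.card * (1 + q * (L * N) * W) := by ring
        _ ≤ X.card * (1 + q * (L * N) * W) ^ J * (1 + q * (L * N) * W) := Nat.mul_le_mul_right _ hRc
        _ = _ := by rw [pow_succ, mul_assoc]
    · rcases le_or_gt t (J * β) with h1 | h1
      · obtain ⟨z, hz, hd⟩ := hR p hp hpar hX t ht0 h1
        exact ⟨z, Finset.mem_union_left _ hz, hd⟩
      · obtain ⟨z, hz, hd⟩ := hR p hp hpar hX (J * β) (by positivity) le_rfl
        obtain ⟨w, hw, hwd⟩ := hP z p hp (J * β) (hpar _) hd (t - J * β) (by linarith) (by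
          push_cast at ht
          linarith)
        refine ⟨w, Finset.mem_union_right _ (Finset.mem_biUnion.2 ⟨z, hz, hw⟩), ?_⟩
        have e1 : J * β + (t - J * β) = t := by ring
        rwa [e1] at hwd

/-- The number of partners, explicit. -/
theorem St_count (hU : UC D a b r Λ G) (M : Cl G) {F : Finset (ConjClasses Γ)} {q N : ℕ}
    (hF : F.card ≤ q) (hF1 : ∀ c ∈ F, c ≠ 1) (hN : (Λ : ℝ) * Real.exp (Λ * 3) ≤ N) {L W : ℕ}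
    (hL : ∀ c ∈ F, M.l c < L) {ρ β η : ℝ} (hρ : ρ ≤ 1 / 8) (hβ : 0 ≤ β) (hη : 0 < η)
    (hη1 : η ≤ 1 / 4) (hηr : 8 * η < r) (hρη : cx b * ρ * Real.exp (b * β) ≤ η)
    (hW : ((L : ℝ) + 2 * β) / η + 3 ≤ W) {X : Finset Pl}
    (hX : ∀ x ∈ closure D, ∃ z ∈ X, G.d x z ≤ 2 * η) {J : ℕ} {ℓ : ℝ} (hJ : ℓ ≤ J * β) :
    {c : ConjClasses Γ | c ≠ 1 ∧ M.l c ≤ ℓ ∧ Par M ρ F c}.Finite ∧
      {c : ConjClasses Γ | c ≠ 1 ∧ M.l c ≤ ℓ ∧ Par M ρ F c}.ncard ≤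
        X.card * (X.card * (1 + q * (L * N) * W) ^ J) := by
  classical
  have h := hU.hg
  obtain ⟨R, hRc, hR⟩ := St_net hU M hF hF1 hN hL hρ hβ hη hη1 hρη hW X J
  obtain ⟨S, hS⟩ : ∃ S : Set (ConjClasses Γ), S = {c : ConjClasses Γ | c ≠ 1 ∧ M.l c ≤ ℓ ∧ Par M ρ F c} :=
    ⟨_, rfl⟩
  rw [← hS]
  have hpt : ∀ c : ConjClasses Γ, ∃ (g : Γ) (x : Pl) (o : Pl × Pl), c ∈ S →
      ConjClasses.mk g = c ∧ o.1 ∈ X ∧ o.2 ∈ R ∧ G.d x o.1 ≤ 2 * η ∧ G.d (g • x) o.2 ≤ 2 * η := by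
    intro c
    by_cases hc : c ∈ S
    · have hc' := hc
      rw [hS] at hc'
      obtain ⟨hc1, hcl, hcp⟩ := hc'
      obtain ⟨κ, hκ⟩ := to_D hU (pt G (tv M c) 0)
      obtain ⟨p, hp⟩ : ∃ p : Pl × ℂ, p = act G κ (tv M c) := ⟨_, rfl⟩
      have hpu : ‖p.2‖ = 1 := by rw [hp]; exact act_unit h κ (tv_unit M hc1)
      have hpp : ∀ t, pt G p t = κ • pt G (tv M c) t := fun t => by rw [hp, pt_act h]
      have hpar : ∀ s : ℝ, ∃ c' ∈ F, ∃ γ : Γ, Fl G ρ p (act G γ (tv M c')) s := by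
        intro s
        obtain ⟨c', hc', γ, hf⟩ := hcp s
        refine ⟨c', hc', κ * γ, ?_⟩
        rw [hp, ← act_mul h]
        exact (Fl_act h κ).2 hf
      have hX0 : ∃ z ∈ X, G.d (pt G p 0) z ≤ 2 * η := by
        apply hX
        rw [hpp]
        exact subset_closure hκ
      obtain ⟨z, hz, hzd⟩ := hX0
      obtain ⟨w, hw, hwd⟩ := hR p hpu hpar ⟨z, hz, hzd⟩ (M.l c) (l_pos M hc1).le (hcl.trans hJ)
      refine ⟨κ * M.rep c * κ⁻¹, pt G p 0, (z, w), fun _ => ⟨cl_mk M c κ, hz, hw, hzd, ?_⟩⟩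
      have e1 : (κ * M.rep c * κ⁻¹) • pt G p 0 = pt G p (M.l c) := by
        rw [hpp, hpp, mul_smul, inv_smul_smul, mul_smul, rep_pt M hc1, zero_add]
      rw [e1]
      exact hwd
    · exact ⟨1, 0, (0, 0), fun h => absurd h hc⟩
  choose g x f hf using hpt
  have hmaps : Set.MapsTo f S ((X ×ˢ R : Finset (Pl × Pl)) : Set (Pl × Pl)) := by
    intro c hc
    have := hf c hc
    rw [Finset.mem_coe, Finset.mem_product]
    exact ⟨this.2.1, this.2.2.1⟩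
  have hinj : Set.InjOn f S := by
    intro c hc c' hc' he
    obtain ⟨m1, -, -, d1, d2⟩ := hf c hc
    obtain ⟨m1', -, -, d1', d2'⟩ := hf c' hc'
    rw [← he] at d1' d2'
    have t1 := h.d_tri (g c • x c) (f c).2 (g c' • x c')
    rw [h.d_symm (f c).2 (g c' • x c')] at t1
    have t2 := h.d_tri (x c') (f c).1 (x c)
    rw [h.d_symm (f c).1 (x c)] at t2
    have t3 := h.d_tri (g c • x c) (g c' • x c') (g c' • x c)
    rw [d_smul h (g c') (x c') (x c)] at t3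
    have hgg : g c = g c' := sys_eq hU (x := x c) (by linarith)
    rw [← m1, ← m1', hgg]
  have hRf : ((X ×ˢ R : Finset (Pl × Pl)) : Set (Pl × Pl)).Finite := (X ×ˢ R).finite_toSet
  refine ⟨Set.Finite.of_injOn hmaps hinj hRf, ?_⟩
  have h1 := Set.ncard_le_ncard_of_injOn f hmaps hinj hRf
  rw [Set.ncard_coe_finset, Finset.card_product] at h1
  exact h1.trans (Nat.mul_le_mul_left _ hRc)

private theorem part_n1 {b η y K L β W : ℝ} (hb : 0 < b) (hη : 0 < η) (hy : 1 ≤ y)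
    (hL : L ≤ (K + 2) * (1 + y) ^ 2) (hβ : β = y / (8 * b)) (hW : W ≤ (L + 2 * β) / η + 4) :
    W ≤ ((K + 2 + 1 / (4 * b)) / η + 4) * (1 + y) ^ 2 := by
  have hy12 : 1 ≤ (1 + y) ^ 2 := one_le_pow₀ (by linarith)
  have h2 : L + 2 * β ≤ (K + 2 + 1 / (4 * b)) * (1 + y) ^ 2 := by
    have h3 : 2 * β = 1 / (4 * b) * y := by rw [hβ]; field_simp; ring
    have h4 : y ≤ (1 + y) ^ 2 := by nlinarith
    have h5 : 1 / (4 * b) * y ≤ 1 / (4 * b) * (1 + y) ^ 2 :=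
      mul_le_mul_of_nonneg_left h4 (by positivity)
    rw [h3, add_mul]
    linarith
  have h6 : (L + 2 * β) / η ≤ (K + 2 + 1 / (4 * b)) * (1 + y) ^ 2 / η :=
    div_le_div_of_nonneg_right h2 hη.le
  have h7 : ((K + 2 + 1 / (4 * b)) / η + 4) * (1 + y) ^ 2 =
      (K + 2 + 1 / (4 * b)) * (1 + y) ^ 2 / η + 4 * (1 + y) ^ 2 := by ring
  rw [h7]
  linarith

private theorem part_n2 {b : ℝ} {ρ w η : ℝ} (hcx : 0 ≤ cx b) (hη : 0 < η) (hw : 0 < w)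
    (hρ : ρ ≤ 1 / w ^ 2) (hQ : cx b / η ≤ w) : cx b * ρ * w ≤ η := by
  have h1 : cx b * ρ * w ≤ cx b * (1 / w ^ 2) * w :=
    mul_le_mul_of_nonneg_right (mul_le_mul_of_nonneg_left hρ hcx) hw.le
  have h2 : cx b * (1 / w ^ 2) * w = cx b / w := by field_simp
  have h3 : cx b / w ≤ η := by
    rw [div_le_iff₀ hw]
    rw [div_le_iff₀ hη] at hQ
    linarith
  linarith

private theorem part_n3 {q L N W A c1 K y : ℝ} (hq : 0 ≤ q) (hN : 0 ≤ N) (hL0 : 0 ≤ L)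
    (hW0 : 0 ≤ W) (hK : 0 ≤ K) (hc1 : 0 ≤ c1) (hL : L ≤ (K + 2) * (1 + y) ^ 2)
    (hW : W ≤ c1 * (1 + y) ^ 2) (hA : q * N * (K + 2) * c1 ≤ A) :
    q * (L * N) * W ≤ A * (1 + y) ^ 4 := by
  have h1 : q * (L * N) * W ≤ q * (((K + 2) * (1 + y) ^ 2) * N) * (c1 * (1 + y) ^ 2) := by
    apply mul_le_mul _ hW hW0 (by positivity)
    apply mul_le_mul_of_nonneg_left _ hq
    exact mul_le_mul_of_nonneg_right hL hN
  have h2 : q * (((K + 2) * (1 + y) ^ 2) * N) * (c1 * (1 + y) ^ 2) =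
    (q * N * (K + 2) * c1) * (1 + y) ^ 4 := by ring
  have h4 := mul_le_mul_of_nonneg_right hA (show 0 ≤ (1 + y) ^ 4 by positivity)
  linarith

private theorem part_num {b η K κ : ℝ} (hb : 0 < b) (hη : 0 < η) (hK : 0 ≤ K) (hκ : 0 < κ)
    (q N m : ℕ) : ∃ R0 : ℝ, 1 ≤ R0 ∧ ∀ R ρ : ℝ, R0 ≤ R → ρ ≤ R ^ (-(1 / 4) : ℝ) →
      ∃ (β : ℝ) (L W J : ℕ), ρ ≤ 1 / 8 ∧ 0 ≤ β ∧ cx b * ρ * Real.exp (b * β) ≤ η ∧
        ell K R < L ∧ ((L : ℝ) + 2 * β) / η + 3 ≤ W ∧ ell K R ≤ J * β ∧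
        ((m * (m * (1 + q * (L * N) * W) ^ J) : ℕ) : ℝ) ≤ R ^ κ := by
  obtain ⟨c1, hc1⟩ : ∃ c1 : ℝ, c1 = (K + 2 + 1 / (4 * b)) / η + 4 := ⟨_, rfl⟩
  have hc10 : 0 ≤ c1 := by rw [hc1]; positivity
  obtain ⟨A, hA⟩ : ∃ A : ℝ, A = 1 + (m : ℝ) * m + 8 * b * K + q * N * (K + 2) * c1 := ⟨_, rfl⟩
  have hm0 : 0 ≤ (m : ℝ) * m := by positivity
  have hbK : 0 ≤ 8 * b * K := by positivity
  have hqN : 0 ≤ q * N * (K + 2) * c1 := by positivity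
  have hA1 : 1 ≤ A := by rw [hA]; linarith
  have hA2 : (m : ℝ) * m ≤ A := by rw [hA]; linarith
  have hA3 : 8 * b * K ≤ A := by rw [hA]; linarith
  have hA4 : q * N * (K + 2) * c1 ≤ A := by rw [hA]; linarith
  obtain ⟨R1, hR1, hnum⟩ := P_num A hA1 hκ
  clear hA
  have hcx : 1 ≤ cx b := by
    unfold cx
    have : 0 ≤ 80 / b * Real.exp (2 * b) := by positivity
    linarith
  obtain ⟨Q, hQ⟩ : ∃ Q : ℝ, Q = max (8 : ℝ) (cx b / η) := ⟨_, rfl⟩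
  have hQ8 : 8 ≤ Q := by rw [hQ]; exact le_max_left _ _
  have hQη : cx b / η ≤ Q := by rw [hQ]; exact le_max_right _ _
  refine ⟨max R1 (Q ^ 8), le_trans hR1 (le_max_left _ _), fun R ρ hR hρ => ?_⟩
  have hRR1 : R1 ≤ R := (le_max_left _ _).trans hR
  have hRQ : Q ^ 8 ≤ R := (le_max_right _ _).trans hR
  have hQ0 : 0 < Q := by linarith
  have hR8 : (8 : ℝ) ^ 8 ≤ R := (pow_le_pow_left₀ (by norm_num) hQ8 8).trans hRQ
  have hRpos : 0 < R := lt_of_lt_of_le (by norm_num) hR8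
  obtain ⟨w, hw⟩ : ∃ w : ℝ, w = R ^ (1 / 8 : ℝ) := ⟨_, rfl⟩
  have hw8 : w ^ 8 = R := by
    rw [hw, ← Real.rpow_natCast, ← Real.rpow_mul hRpos.le]; norm_num
  have hw0 : 0 < w := by rw [hw]; positivity
  have hwQ : Q ≤ w := le_of_pow_le_pow_left₀ (n := 8) (by norm_num) hw0.le (by rw [hw8]; exact hRQ)
  have hR4 : R ^ (-(1 / 4) : ℝ) = 1 / w ^ 2 := by
    rw [hw, ← Real.rpow_natCast, ← Real.rpow_mul hRpos.le, Real.rpow_neg hRpos.le, one_div]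
    norm_num
  rw [hR4] at hρ
  obtain ⟨y, hy⟩ : ∃ y : ℝ, y = Real.log R := ⟨_, rfl⟩
  have hy1 : 1 ≤ y := by
    rw [hy, Real.le_log_iff_exp_le hRpos]
    have h1 := Real.exp_one_lt_d9
    have h2 : (3 : ℝ) ≤ 8 ^ 8 := by norm_num
    exact le_trans (by linarith) hR8
  have hy0 : 0 < y := by linarith
  obtain ⟨β, hβ⟩ : ∃ β : ℝ, β = y / (8 * b) := ⟨_, rfl⟩
  have hβ0 : 0 < β := by rw [hβ]; positivity
  have hexpβ : Real.exp (b * β) = w := by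
    have e1 : b * β = y * (1 / 8) := by rw [hβ]; field_simp
    rw [e1, hw, Real.rpow_def_of_pos hRpos, ← hy]
  have hw1 : 8 ≤ w := hQ8.trans hwQ
  have hρ8 : ρ ≤ 1 / 8 := by
    refine hρ.trans ?_
    apply one_div_le_one_div_of_le (by norm_num)
    nlinarith
  have hρη : cx b * ρ * Real.exp (b * β) ≤ η := by
    rw [hexpβ]
    exact part_n2 (by linarith) hη hw0 hρ (hQη.trans hwQ)
  obtain ⟨ℓ, hℓ⟩ : ∃ ℓ : ℝ, ℓ = ell K R := ⟨_, rfl⟩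
  have hℓe : ℓ = K * (y * y ^ (1 / 2 : ℝ)) := by
    rw [hℓ]
    unfold ell
    rw [← hy]
    congr 1
    nth_rewrite 2 [← Real.rpow_one y]
    rw [← Real.rpow_add hy0]
    norm_num
  have hys0 : 0 ≤ y ^ (1 / 2 : ℝ) := by positivity
  have hys1 : y ^ (1 / 2 : ℝ) ≤ y := by
    calc y ^ (1 / 2 : ℝ) ≤ y ^ (1 : ℝ) := Real.rpow_le_rpow_of_exponent_le hy1 (by norm_num)
      _ = y := Real.rpow_one y
  have hℓ0 : 0 ≤ ℓ := by rw [hℓe]; positivity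
  have hℓ2 : ℓ ≤ K * (1 + y) ^ 2 := by
    rw [hℓe]
    apply mul_le_mul_of_nonneg_left _ hK
    have h1 : y * y ^ (1 / 2 : ℝ) ≤ y * y := mul_le_mul_of_nonneg_left hys1 hy0.le
    have h2 : (1 + y) ^ 2 = 1 + 2 * y + y * y := by ring
    linarith
  obtain ⟨L, hLdef⟩ : ∃ L : ℕ, L = ⌊ℓ⌋₊ + 1 := ⟨_, rfl⟩
  have hL1 : ℓ < L := by rw [hLdef]; push_cast; exact Nat.lt_floor_add_one _
  have hy12 : 1 ≤ (1 + y) ^ 2 := one_le_pow₀ (by linarith)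
  have hL2 : (L : ℝ) ≤ (K + 2) * (1 + y) ^ 2 := by
    have h1 : ((⌊ℓ⌋₊ : ℕ) : ℝ) ≤ ℓ := Nat.floor_le hℓ0
    rw [hLdef, add_mul]
    push_cast
    linarith
  obtain ⟨W, hW⟩ : ∃ W : ℕ, W = ⌈((L : ℝ) + 2 * β) / η + 3⌉₊ := ⟨_, rfl⟩
  have hW1 : ((L : ℝ) + 2 * β) / η + 3 ≤ W := by rw [hW]; exact Nat.le_ceil _
  have hW3 : (W : ℝ) ≤ ((L : ℝ) + 2 * β) / η + 4 := by
    have h1 := Nat.ceil_lt_add_one (show 0 ≤ ((L : ℝ) + 2 * β) / η + 3 by positivity)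
    rw [← hW] at h1
    linarith
  have hW2 : (W : ℝ) ≤ c1 * (1 + y) ^ 2 := by
    rw [hc1]
    exact part_n1 hb hη hy1 hL2 hβ hW3
  obtain ⟨J, hJ⟩ : ∃ J : ℕ, J = ⌈ℓ / β⌉₊ := ⟨_, rfl⟩
  have hJ1 : ℓ ≤ J * β := by
    rw [← div_le_iff₀ hβ0, hJ]; exact Nat.le_ceil _
  have hJ2 : (J : ℝ) ≤ A * (Real.log R) ^ (1 / 2 : ℝ) + A := by
    have h1 := Nat.ceil_lt_add_one (show 0 ≤ ℓ / β by positivity)
    rw [← hJ] at h1
    have h2 : ℓ / β = 8 * b * K * y ^ (1 / 2 : ℝ) := by rw [hℓe, hβ]; field_simp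
    have h4 : 8 * b * K * y ^ (1 / 2 : ℝ) ≤ A * y ^ (1 / 2 : ℝ) := mul_le_mul_of_nonneg_right hA3 hys0
    rw [← hy]
    linarith
  have hY0 : (0 : ℝ) ≤ (q * (L * N) * W : ℕ) := Nat.cast_nonneg _
  have hYle : ((q * (L * N) * W : ℕ) : ℝ) ≤ A * (1 + Real.log R) ^ 4 := by
    push_cast
    rw [← hy]
    exact part_n3 (Nat.cast_nonneg _) (Nat.cast_nonneg _) (Nat.cast_nonneg _) (Nat.cast_nonneg _) hK hc10
      hL2 hW2 hA4
  have hfin := hnum R hRR1 J ((q * (L * N) * W : ℕ) : ℝ) hJ2 hY0 hYle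
  rw [← hℓ]
  refine ⟨β, L, W, J, hρ8, hβ0.le, hρη, hL1, hW1, hJ1, le_trans ?_ hfin⟩
  push_cast
  have h6 : (0 : ℝ) ≤ (1 + (q : ℝ) * (L * N) * W) ^ J := by positivity
  have h7 := mul_le_mul_of_nonneg_right hA2 h6
  linarith

/-- **The number of partners.** -/
theorem partners (D : Set Pl) (a b r : ℝ) (Λ q : ℕ) {K κ : ℝ} (hK : 0 ≤ K) (hκ : 0 < κ) :
    ∃ R0 : ℝ, 1 ≤ R0 ∧ ∀ G : Dat Γ, UC D a b r Λ G → ∀ (M : Cl G) (R ρ : ℝ), R0 ≤ R →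
      ρ ≤ R ^ (-(1 / 4) : ℝ) → ∀ F : Finset (ConjClasses Γ), F.card ≤ q →
      (∀ c ∈ F, c ≠ 1 ∧ M.l c ≤ ell K R) →
      {c : ConjClasses Γ | c ≠ 1 ∧ M.l c ≤ ell K R ∧ Par M ρ F c}.Finite ∧
        ({c : ConjClasses Γ | c ≠ 1 ∧ M.l c ≤ ell K R ∧ Par M ρ F c}.ncard : ℝ) ≤ R ^ κ := by
  by_cases hex : ∃ G : Dat Γ, UC D a b r Λ G
  swap
  · exact ⟨1, le_rfl, fun G hG => absurd ⟨G, hG⟩ hex⟩
  obtain ⟨G₀, hG₀⟩ := hex
  have hb : 0 < b := by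
    have h1 := hG₀.hg.a_pos
    have h2 := hG₀.hg.ab
    rw [hG₀.eb] at h2
    linarith
  have hr := hG₀.r_pos
  have hr1 := hG₀.r_le
  have hΛ : (1 : ℝ) ≤ Λ := by exact_mod_cast hG₀.L_one
  have hcl : IsCompact (closure D) := hG₀.hX.bdd.isCompact_closure
  obtain ⟨η, hη⟩ : ∃ η : ℝ, η = r / 9 := ⟨_, rfl⟩
  have hη0 : 0 < η := by rw [hη]; positivity
  have hη1 : η ≤ 1 / 4 := by rw [hη]; linarith
  have hηr : 8 * η < r := by rw [hη]; linarith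
  -- the net of the domain
  obtain ⟨X, hX⟩ : ∃ X : Finset Pl, ∀ x ∈ closure D, ∃ z ∈ X, ‖x - z‖ ≤ 2 * η / Λ := by
    have hδ : 0 < 2 * η / Λ := by positivity
    obtain ⟨t, ht⟩ := hcl.elim_nhds_subcover (fun z => Metric.ball z (2 * η / Λ))
      (fun z _ => Metric.ball_mem_nhds z hδ)
    refine ⟨t, fun x hx => ?_⟩
    have := ht.2 hx
    simp only [mem_iUnion, exists_prop] at this
    obtain ⟨z, hz, hxz⟩ := this
    rw [Metric.mem_ball, dist_eq_norm] at hxz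
    exact ⟨z, hz, hxz.le⟩
  obtain ⟨N, hN⟩ : ∃ N : ℕ, N = ⌈(Λ : ℝ) * Real.exp (Λ * 3)⌉₊ := ⟨_, rfl⟩
  have hN1 : (Λ : ℝ) * Real.exp (Λ * 3) ≤ N := by rw [hN]; exact Nat.le_ceil _
  obtain ⟨R0, hR0, hnum⟩ := part_num hb hη0 hK hκ q N X.card
  refine ⟨R0, hR0, fun G hU M R ρ hR hρ F hFc hF => ?_⟩
  obtain ⟨β, L, W, J, hρ8, hβ0, hρη, hL1, hW1, hJ1, hfin⟩ := hnum R ρ hR hρ
  have hXd : ∀ x ∈ closure D, ∃ z ∈ X, G.d x z ≤ 2 * η := by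
    intro x hx
    obtain ⟨z, hz, hxz⟩ := hX x hx
    have hΛ0 : (0 : ℝ) < Λ := by linarith
    have h1 : ‖x - z‖ ≤ 1 / Λ := hxz.trans (div_le_div_of_nonneg_right (by linarith) hΛ0.le)
    refine ⟨z, hz, (hU.loc x hx z h1).trans ?_⟩
    have h2 := mul_le_mul_of_nonneg_left hxz hΛ0.le
    have h3 : (Λ : ℝ) * (2 * η / Λ) = 2 * η := by field_simp
    linarith
  obtain ⟨f1, f2⟩ := St_count hU M hFc (fun c hc => (hF c hc).1) hN1
    (fun c hc => lt_of_le_of_lt (hF c hc).2 hL1) hρ8 hβ0 hη0 hη1 hηr hρη hW1 hXd hJ1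
  refine ⟨f1, le_trans ?_ hfin⟩
  exact_mod_cast f2

end E35
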