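import Mathlib

/-! BE35, part E: sums over tuples. -/

open Finset

namespace E35

/-- One coordinate of a tuple is restricted. -/
theorem F1_one {ι α : Type} [Fintype ι] [DecidableEq ι] [DecidableEq α] (T : ι → Finset α) (f : ι → α → ℝ)
    (hf : ∀ k a, 0 ≤ f k a) {Z : ℝ} (hZ : 1 ≤ Z) (hT : ∀ k, ∑ a ∈ T k, f k a ≤ Z) (i : ι)
    (S : (ι → α) → Finset α) (hS : ∀ u a, S (Function.update u i a) = S u) {δ : ℝ} (hδ : 0 ≤ δ)
    (hSδ : ∀ u, (∀ k, k ≠ i → u k ∈ T k) → ∑ a ∈ (T i).filter (· ∈ S u), f i a ≤ δ) :
    ∑ u ∈ (Fintype.piFinset T).filter (fun u => u i ∈ S u), ∏ k, f k (u k) ≤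
      δ * Z ^ Fintype.card ι := by
  by_cases hne : (T i).Nonempty
  swap
  · have h0 : (Fintype.piFinset T).filter (fun u => u i ∈ S u) = ∅ := by
      apply Finset.filter_eq_empty_iff.2
      intro u hu
      have := Fintype.mem_piFinset.1 hu i
      rw [Finset.not_nonempty_iff_eq_empty.1 hne] at this
      simp at this
    rw [h0, Finset.sum_empty]
    positivity
  obtain ⟨a0, ha0⟩ := hne
  obtain ⟨T', hT'⟩ : ∃ T' : ι → Finset α, T' = Function.update T i {a0} := ⟨_, rfl⟩
  obtain ⟨f', hf'⟩ : ∃ f' : ι → α → ℝ, f' = Function.update f i (fun _ => 1) := ⟨_, rfl⟩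
  have hT'i : T' i = {a0} := by rw [hT', Function.update_self]
  have hT'k : ∀ k, k ≠ i → T' k = T k := fun k hk => by rw [hT', Function.update_of_ne hk]
  have hprod : ∀ (v : ι → α) (a : α), ∏ k, f k (Function.update v i a k) =
      f i a * ∏ k, f' k (v k) := by
    intro v a
    rw [← Finset.mul_prod_erase Finset.univ _ (Finset.mem_univ i), Function.update_self,
      ← Finset.mul_prod_erase Finset.univ (fun k => f' k (v k)) (Finset.mem_univ i)]
    have e1 : f' i (v i) = 1 := by rw [hf', Function.update_self]
    rw [e1, one_mul]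
    congr 1
    apply Finset.prod_congr rfl
    intro k hk
    have hk' := Finset.ne_of_mem_erase hk
    rw [Function.update_of_ne hk', hf', Function.update_of_ne hk']
  have hsum : ∑ u ∈ (Fintype.piFinset T).filter (fun u => u i ∈ S u), ∏ k, f k (u k) =
      ∑ v ∈ Fintype.piFinset T', ∑ a ∈ (T i).filter (· ∈ S v), f i a * ∏ k, f' k (v k) := by
    rw [Finset.sum_sigma']
    refine Finset.sum_nbij' (fun u => ⟨Function.update u i a0, u i⟩)
      (fun p => Function.update p.1 i p.2) ?_ ?_ ?_ ?_ ?_
    · intro u hu
      rw [Finset.mem_filter, Fintype.mem_piFinset] at hu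
      rw [Finset.mem_sigma, Fintype.mem_piFinset, Finset.mem_filter]
      refine ⟨fun k => ?_, hu.1 i, ?_⟩
      · by_cases hk : k = i
        · subst hk
          rw [hT'i]
          simp
        · rw [hT'k k hk]
          show Function.update u i a0 k ∈ T k
          rw [Function.update_of_ne hk]
          exact hu.1 k
      · show u i ∈ S (Function.update u i a0)
        rw [hS]
        exact hu.2
    · rintro ⟨v, a⟩ hva
      rw [Finset.mem_sigma, Fintype.mem_piFinset, Finset.mem_filter] at hva
      rw [Finset.mem_filter, Fintype.mem_piFinset]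
      refine ⟨fun k => ?_, ?_⟩
      · by_cases hk : k = i
        · subst hk
          rw [Function.update_self]
          exact hva.2.1
        · rw [Function.update_of_ne hk, ← hT'k k hk]
          exact hva.1 k
      · show Function.update v i a i ∈ S (Function.update v i a)
        rw [hS, Function.update_self]
        exact hva.2.2
    · intro u _
      show Function.update (Function.update u i a0) i (u i) = u
      rw [Function.update_idem, Function.update_eq_self]
    · rintro ⟨v, a⟩ hva
      rw [Finset.mem_sigma, Fintype.mem_piFinset] at hva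
      have hvi : v i = a0 := by
        have := hva.1 i
        rw [hT'i] at this
        simpa using this
      show (⟨Function.update (Function.update v i a) i a0, Function.update v i a i⟩ :
        (_ : ι → α) × α) = ⟨v, a⟩
      rw [Function.update_idem, Function.update_self, ← hvi, Function.update_eq_self]
    · intro u _
      show ∏ k, f k (u k) = f i (u i) * ∏ k, f' k (Function.update u i a0 k)
      rw [← hprod, Function.update_idem, Function.update_eq_self]
  have hf'0 : ∀ k a, 0 ≤ f' k a := by
    intro k a
    by_cases hk : k = i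
    · subst hk
      rw [hf', Function.update_self]
      exact zero_le_one
    · rw [hf', Function.update_of_ne hk]
      exact hf k a
  rw [hsum]
  have h1 : ∀ v ∈ Fintype.piFinset T', ∑ a ∈ (T i).filter (· ∈ S v), f i a * ∏ k, f' k (v k) ≤
      δ * ∏ k, f' k (v k) := by
    intro v hv
    rw [← Finset.sum_mul]
    apply mul_le_mul_of_nonneg_right _ (Finset.prod_nonneg fun k _ => hf'0 k _)
    apply hSδ
    intro k hk
    rw [← hT'k k hk]
    exact Fintype.mem_piFinset.1 hv k
  refine (Finset.sum_le_sum h1).trans ?_
  rw [← Finset.mul_sum]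
  apply mul_le_mul_of_nonneg_left _ hδ
  rw [← Finset.prod_univ_sum T' (fun k a => f' k a)]
  have h2 : ∀ k ∈ (Finset.univ : Finset ι), ∑ a ∈ T' k, f' k a ≤ Z := by
    intro k _
    by_cases hk : k = i
    · subst hk
      rw [hT'i, Finset.sum_singleton, hf', Function.update_self]
      exact hZ
    · rw [hT'k k hk, hf', Function.update_of_ne hk]
      exact hT k
  refine (Finset.prod_le_prod (fun k _ => Finset.sum_nonneg fun a _ => hf'0 k a) h2).trans ?_
  rw [Finset.prod_const, Finset.card_univ]

/-- The number of completions of a tuple. -/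
theorem F1_fib {α : Type} [DecidableEq α] {q : ℕ} (P : Fin q → Prop) [DecidablePred P] (B : Finset (Fin q → α))
    (g : (Fin q → α) → ℝ) (hg : ∀ u, 0 ≤ g u) (a0 : α) {Y : ℝ} (hY : 1 ≤ Y)
    (Q : (Fin q → α) → Finset α)
    (hQ : ∀ c ∈ B, ∀ i, ¬ P i → c i ∈ Q (fun k => if P k then c k else a0))
    (hQY : ∀ c ∈ B, ((Q (fun k => if P k then c k else a0)).card : ℝ) ≤ Y) :
    ∑ c ∈ B, g (fun k => if P k then c k else a0) ≤
      Y ^ q * ∑ u ∈ B.image (fun c k => if P k then c k else a0), g u := by
  refine (le_of_eq (Finset.sum_comp g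
    (fun (c : Fin q → α) (k : Fin q) => if P k then c k else a0))).trans ?_
  rw [Finset.mul_sum]
  apply Finset.sum_le_sum
  intro u hu
  rw [nsmul_eq_mul]
  apply mul_le_mul_of_nonneg_right _ (hg u)
  rw [Finset.mem_image] at hu
  obtain ⟨c₀, hc₀, hu⟩ := hu
  have hsub : B.filter (fun c => (fun k => if P k then c k else a0) = u) ⊆
      Fintype.piFinset (fun i => if P i then {u i} else Q u) := by
    intro c hc
    rw [Finset.mem_filter] at hc
    rw [Fintype.mem_piFinset]
    intro i
    by_cases hi : P i
    · rw [if_pos hi, Finset.mem_singleton, ← hc.2]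
      simp only [if_pos hi]
    · rw [if_neg hi]
      have := hQ c hc.1 i hi
      rwa [hc.2] at this
  have h1 : ((B.filter (fun c => (fun k => if P k then c k else a0) = u)).card : ℝ) ≤
      ((Fintype.piFinset (fun i => if P i then {u i} else Q u)).card : ℝ) := by
    exact_mod_cast Finset.card_le_card hsub
  refine h1.trans ?_
  rw [Fintype.card_piFinset]
  push_cast
  have h2 : ∀ i ∈ (Finset.univ : Finset (Fin q)),
      (((if P i then {u i} else Q u : Finset α)).card : ℝ) ≤ Y := by
    intro i _
    by_cases hi : P i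
    · rw [if_pos hi, Finset.card_singleton]
      simpa using hY
    · rw [if_neg hi]
      have := hQY c₀ hc₀
      rwa [hu] at this
  refine (Finset.prod_le_prod (fun i _ => Nat.cast_nonneg _) h2).trans ?_
  rw [Finset.prod_const, Finset.card_univ, Fintype.card_fin]

end E35
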