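import Pool.Agent.LibBE35E.Defs

/-! BE35, part E: elementary facts about the geodesics `pt G p`. -/

open MeasureTheory Set Filter Topology
open scoped ContDiff ENNReal NNReal ComplexConjugate

namespace E35

open BGS (Pl Surface grid per)
open SR85

variable {Γ : Type} [Group Γ] [MulAction Γ Pl] {D : Set Pl} {G : Dat Γ}

theorem pt_act (h : HG D G) (γ : Γ) (p : Pl × ℂ) (t : ℝ) :
    pt G (act G γ p) t = γ • pt G p t := by
  unfold pt act
  rw [← E_smul h]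
  congr 1
  ring

theorem pt_phi (h : HG D G) {p : Pl × ℂ} (hp : ‖p.2‖ = 1) (s t : ℝ) :
    pt G (phi G s p) t = pt G p (s + t) := h.flow p.1 p.2 hp s t

omit [Group Γ] [MulAction Γ Pl] in
theorem pt_rv (p : Pl × ℂ) (t : ℝ) : pt G (rv p) t = pt G p (-t) := by
  unfold pt rv
  congr 1
  push_cast
  ring

theorem pt_zero (h : HG D G) (p : Pl × ℂ) : pt G p 0 = p.1 := by
  unfold pt
  rw [Complex.ofReal_zero, zero_mul, h.E_zero]

omit [Group Γ] [MulAction Γ Pl] in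
theorem rv_unit {p : Pl × ℂ} (hp : ‖p.2‖ = 1) : ‖(rv p).2‖ = 1 := by
  unfold rv
  rw [norm_neg]
  exact hp

theorem act_unit (h : HG D G) (γ : Γ) {p : Pl × ℂ} (hp : ‖p.2‖ = 1) :
    ‖(act G γ p).2‖ = 1 := by
  unfold act
  rw [norm_mul, h.R_norm, hp, one_mul]

theorem phi_unit (h : HG D G) (s : ℝ) {p : Pl × ℂ} (hp : ‖p.2‖ = 1) : ‖(phi G s p).2‖ = 1 :=
  h.dr_norm p.1 p.2 hp s

theorem d_pt (h : HG D G) {p : Pl × ℂ} (hp : ‖p.2‖ = 1) (s t : ℝ) :
    G.d (pt G p s) (pt G p t) = |t - s| := d_geo h p.1 hp s t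

theorem tv_unit (M : Cl G) {c : ConjClasses Γ} (hc : c ≠ 1) : ‖(tv M c).2‖ = 1 := (M.ax c hc).nu

theorem rep_pt (M : Cl G) {c : ConjClasses Γ} (hc : c ≠ 1) (t : ℝ) :
    M.rep c • pt G (tv M c) t = pt G (tv M c) (t + M.l c) := (M.ax c hc).tr t

theorem g0_pt (M : Cl G) {c : ConjClasses Γ} (hc : c ≠ 1) (t : ℝ) :
    M.g0 c • pt G (tv M c) t = pt G (tv M c) (t + M.l0 c) := (M.ax0 c hc).tr t

/-- Integral powers of a translation. -/
theorem zpow_pt {p : Pl × ℂ} {g : Γ} {l : ℝ} (hg : ∀ t, g • pt G p t = pt G p (t + l)) (k : ℤ)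
    (t : ℝ) : (g ^ k) • pt G p t = pt G p (t + k * l) := by
  have h1 : ∀ n : ℕ, ∀ t, (g ^ n) • pt G p t = pt G p (t + n * l) := by
    intro n
    induction n with
    | zero => intro t; simp
    | succ n ih =>
      intro t
      rw [pow_succ, mul_smul, hg, ih]
      congr 1
      push_cast
      ring
  obtain ⟨n, rfl | rfl⟩ := k.eq_nat_or_neg
  · rw [zpow_natCast, h1]
    simp
  · rw [zpow_neg, zpow_natCast, inv_smul_eq_iff, h1]
    congr 1
    push_cast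
    ring

theorem rep_zpow (M : Cl G) {c : ConjClasses Γ} (hc : c ≠ 1) (k : ℤ) (t : ℝ) :
    (M.rep c ^ k) • pt G (tv M c) t = pt G (tv M c) (t + k * M.l c) :=
  zpow_pt (rep_pt M hc) k t

theorem g0_zpow (M : Cl G) {c : ConjClasses Γ} (hc : c ≠ 1) (k : ℤ) (t : ℝ) :
    (M.g0 c ^ k) • pt G (tv M c) t = pt G (tv M c) (t + k * M.l0 c) :=
  zpow_pt (g0_pt M hc) k t

theorem l_pos (M : Cl G) {c : ConjClasses Γ} (hc : c ≠ 1) : 0 < M.l c := (M.ax c hc).pos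

theorem l0_pos (M : Cl G) {c : ConjClasses Γ} (hc : c ≠ 1) : 0 < M.l0 c := (M.ax0 c hc).pos

theorem l_eq (h : HG D G) (M : Cl G) {c : ConjClasses Γ} (hc : c ≠ 1) :
    M.l c = M.n c * M.l0 c ∧ 1 ≤ M.n c := by
  have hp := tv_unit M hc
  have h1 : pt G (tv M c) (0 + M.l c) = pt G (tv M c) (0 + (M.n c : ℤ) * M.l0 c) := by
    rw [← rep_pt M hc, ← g0_zpow M hc, M.pow c hc, zpow_natCast]
  have h2 : M.l c = M.n c * M.l0 c := by
    have h3 := d_pt h hp (0 + M.l c) (0 + (M.n c : ℤ) * M.l0 c)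
    rw [h1, d_self h] at h3
    have h4 := abs_eq_zero.1 h3.symm
    push_cast at h4
    linarith
  refine ⟨h2, ?_⟩
  by_contra h0
  have h3 : M.n c = 0 := by omega
  have h4 := l_pos M hc
  rw [h2, h3] at h4
  simp at h4

theorem l0_le (h : HG D G) (M : Cl G) {c : ConjClasses Γ} (hc : c ≠ 1) : M.l0 c ≤ M.l c := by
  obtain ⟨h1, h2⟩ := l_eq h M hc
  have h3 := l0_pos M hc
  have h4 : (1 : ℝ) ≤ M.n c := by exact_mod_cast h2
  rw [h1]
  nlinarith

theorem rep_ne (M : Cl G) {c : ConjClasses Γ} (hc : c ≠ 1) : M.rep c ≠ 1 := by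
  intro h1
  apply hc
  rw [← M.hrep c, h1]
  rfl

theorem g0_ne (M : Cl G) {c : ConjClasses Γ} (hc : c ≠ 1) : M.g0 c ≠ 1 := by
  intro h1
  apply rep_ne M hc
  rw [M.pow c hc, h1, one_pow]

variable {a b r : ℝ} {Λ : ℕ}

theorem l0_sys (hU : UC D a b r Λ G) (M : Cl G) {c : ConjClasses Γ} (hc : c ≠ 1) :
    r ≤ M.l0 c := by
  have h1 := hU.sys (M.g0 c) (g0_ne M hc) (pt G (tv M c) 0)
  rw [g0_pt M hc, d_pt hU.hg (tv_unit M hc), zero_add, sub_zero, abs_of_pos (l0_pos M hc)] at h1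
  exact h1

theorem l_sys (hU : UC D a b r Λ G) (M : Cl G) {c : ConjClasses Γ} (hc : c ≠ 1) :
    r ≤ M.l c := (l0_sys hU M hc).trans (l0_le hU.hg M hc)

/-- Elements of the group which move a point to nearby points are equal. -/
theorem sys_eq (hU : UC D a b r Λ G) {g g' : Γ} {x : Pl} (hx : G.d (g • x) (g' • x) < r) :
    g = g' := by
  by_contra hne
  have h1 : g⁻¹ * g' ≠ 1 := by
    intro h2
    apply hne
    have h3 := congrArg (fun z => g * z) h2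
    simpa using h3.symm
  have h2 := hU.sys _ h1 x
  rw [← d_smul hU.hg g, mul_smul, smul_inv_smul] at h2
  exact absurd hx (not_lt.2 h2)

theorem Fl_act (h : HG D G) {ρ s : ℝ} {p q : Pl × ℂ} (γ : Γ) :
    Fl G ρ (act G γ p) (act G γ q) s ↔ Fl G ρ p q s := by
  unfold Fl
  simp only [pt_act h, d_smul h]

omit [Group Γ] [MulAction Γ Pl] in
theorem Fl_mono {ρ ρ' s : ℝ} {p q : Pl × ℂ} (hρ : ρ ≤ ρ') (hf : Fl G ρ p q s) :
    Fl G ρ' p q s := by
  intro t ht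
  obtain ⟨t', h1⟩ := hf t ht
  exact ⟨t', h1.trans hρ⟩

theorem Same_act (h : HG D G) {p q : Pl × ℂ} (γ : Γ) :
    Same G (act G γ p) (act G γ q) ↔ Same G p q := by
  unfold Same
  simp only [pt_act h, smul_left_cancel_iff]

omit [Group Γ] [MulAction Γ Pl] in
theorem Same_refl (p : Pl × ℂ) : Same G p p := fun t => ⟨t, rfl⟩

omit [Group Γ] [MulAction Γ Pl] in
theorem Same_trans {p q o : Pl × ℂ} (h1 : Same G p q) (h2 : Same G q o) : Same G p o := by
  intro t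
  obtain ⟨t', h3⟩ := h1 t
  obtain ⟨t'', h4⟩ := h2 t'
  exact ⟨t'', h3.trans h4⟩

theorem act_one (h : HG D G) (p : Pl × ℂ) : act G (1 : Γ) p = p := M4_act_one h p

theorem act_inv (h : HG D G) (γ : Γ) (p : Pl × ℂ) : act G γ⁻¹ (act G γ p) = p := by
  rw [act_mul h, inv_mul_cancel, act_one h]

/-- The number of the elements of the group, for all points. -/
theorem cnt_all (hU : UC D a b r Λ G) {t : ℝ} (ht : 0 ≤ t) (x y : Pl) :
    {g : Γ | G.d x (g • y) ≤ t}.Finite ∧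
      ({g : Γ | G.d x (g • y) ≤ t}.ncard : ℝ) ≤ Λ * Real.exp (Λ * t) := by
  obtain ⟨κ, hκ, -⟩ := hU.hX.orbit x
  obtain ⟨κ', hκ', -⟩ := hU.hX.orbit y
  obtain ⟨h1, h2⟩ := hU.cnt t ht (κ • x) (subset_closure hκ) (κ' • y) (subset_closure hκ')
  have h3 : {g : Γ | G.d x (g • y) ≤ t} =
      (fun g : Γ => κ⁻¹ * g * κ') '' {g : Γ | G.d (κ • x) (g • κ' • y) ≤ t} := by
    ext g
    constructor
    · intro hg
      refine ⟨κ * g * κ'⁻¹, ?_, by group⟩
      show G.d (κ • x) ((κ * g * κ'⁻¹) • κ' • y) ≤ t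
      rw [mul_smul, mul_smul, inv_smul_smul, d_smul hU.hg]
      exact hg
    · rintro ⟨g', hg', rfl⟩
      show G.d x ((κ⁻¹ * g' * κ') • y) ≤ t
      rw [mul_smul, mul_smul, ← d_smul hU.hg κ, smul_inv_smul]
      exact hg'
  rw [h3]
  refine ⟨h1.image _, le_trans ?_ h2⟩
  exact_mod_cast Set.ncard_image_le h1

/-- Every line can be moved such that a given point is in `D`. -/
theorem to_D (hU : UC D a b r Λ G) (x : Pl) : ∃ κ : Γ, κ • x ∈ D := by
  obtain ⟨κ, hκ, -⟩ := hU.hX.orbit x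
  exact ⟨κ, hκ⟩

theorem cl_mk (M : Cl G) (c : ConjClasses Γ) (κ : Γ) :
    ConjClasses.mk (κ * M.rep c * κ⁻¹) = c := by
  conv_rhs => rw [← M.hrep c]
  rw [ConjClasses.mk_eq_mk_iff_isConj]
  exact (isConj_iff.2 ⟨κ, rfl⟩).symm

/-- The constant of the divergence. -/
noncomputable def cx (b : ℝ) : ℝ := 80 / b * Real.exp (2 * b) + 1

/-- The scale of the following lines. -/
noncomputable def rh (b : ℝ) (Λ : ℕ) (R : ℝ) : ℝ :=
  cx b * (3 * Λ) * Real.exp b * R ^ (-(1 / 2) : ℝ)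

/-- The scale of the encounters. -/
noncomputable def rh' (b : ℝ) (Λ : ℕ) (R : ℝ) : ℝ := (cx b * Real.exp (2 * b) + 1) * rh b Λ R

/-- The integral of the cell function over the primitive closed geodesic. -/
noncomputable def xi0 (M : Cl G) (R : ℕ) (p : ℤ × ℤ) (c : ConjClasses Γ) : ℝ :=
  ∫ t in (0 : ℝ)..M.l0 c, per Γ (BGM.bmq R p) (pt G (tv M c) t)

end E35
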